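import Mathlib

/-!
# A basis of the coordinate ring which contains `1`
-/

set_option autoImplicit false

namespace Pool.Agent.V8H3.BasisOne

open Module Polynomial

attribute [local instance] FractionRing.liftAlgebra in
theorem mem_of_smul {R A : Type} [CommRing R] [IsDomain R] [IsIntegrallyClosed R] [CommRing A]
    [IsDomain A] [Algebra R A] [Module.Finite R A] [FaithfulSMul R A] (p q : R) (a : A)
    (hp : p ≠ 0) (h : p • a = algebraMap R A q) : ∃ s : R, algebraMap R A s = a := by
  obtain ⟨t, ht⟩ : ∃ t, t = algebraMap R (FractionRing R) q / algebraMap R (FractionRing R) p :=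
    ⟨_, rfl⟩
  have hp' : algebraMap R (FractionRing A) p ≠ 0 := by
    rw [Ne, FaithfulSMul.algebraMap_eq_zero_iff]
    exact hp
  have h1 : algebraMap (FractionRing R) (FractionRing A) t = algebraMap A (FractionRing A) a := by
    rw [ht, map_div₀, ← IsScalarTower.algebraMap_apply, ← IsScalarTower.algebraMap_apply,
      div_eq_iff hp', IsScalarTower.algebraMap_apply R A (FractionRing A) q, ← h,
      Algebra.smul_def, map_mul, ← IsScalarTower.algebraMap_apply, mul_comm]
  have hint : Algebra.IsIntegral R A := Algebra.IsIntegral.of_finite R A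
  have h2 : IsIntegral R (algebraMap A (FractionRing A) a) :=
    (Algebra.IsIntegral.isIntegral a).algebraMap
  rw [← h1, isIntegral_algebraMap_iff (FaithfulSMul.algebraMap_injective _ _)] at h2
  obtain ⟨s, hs⟩ := IsIntegrallyClosed.isIntegral_iff.1 h2
  refine ⟨s, ?_⟩
  apply FaithfulSMul.algebraMap_injective A (FractionRing A)
  rw [← h1, ← hs, ← IsScalarTower.algebraMap_apply, ← IsScalarTower.algebraMap_apply]

theorem exists_basis (K A : Type) [Field K] [CommRing A] [IsDomain A] [Algebra K[X] A]
    [Module.Finite K[X] A] [FaithfulSMul K[X] A] :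
    ∃ b : Basis (Fin (finrank K[X] A)) K[X] A, ∃ i, b i = 1 := by
  classical
  set W : Submodule K[X] A := LinearMap.range (Algebra.linearMap K[X] A) with hW
  have hinj := FaithfulSMul.algebraMap_injective K[X] A
  -- the quotient has no torsion
  have htf : Module.IsTorsionFree K[X] (A ⧸ W) := by
    refine Module.IsTorsionFree.of_smul_eq_zero fun p z hz => ?_
    obtain ⟨a, rfl⟩ := W.mkQ_surjective z
    by_cases hp : p = 0
    · exact Or.inl hp
    · right
      rw [← map_smul, Submodule.mkQ_apply, Submodule.Quotient.mk_eq_zero] at hz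
      obtain ⟨q, hq⟩ := hz
      obtain ⟨s, hs⟩ := mem_of_smul p q a hp hq.symm
      rw [Submodule.mkQ_apply, Submodule.Quotient.mk_eq_zero]
      exact ⟨s, hs⟩
  obtain ⟨σ, hσ⟩ := Module.projective_lifting_property W.mkQ LinearMap.id W.mkQ_surjective
  have hσ' : ∀ z, W.mkQ (σ z) = z := fun z => LinearMap.congr_fun hσ z
  have hσi : Function.Injective σ := fun a b hab => by
    rw [← hσ' a, ← hσ' b, hab]
  let bN : Basis (Fin (finrank K[X] (A ⧸ W))) K[X] (LinearMap.range σ) :=
    (Module.finBasis K[X] (A ⧸ W)).map (LinearEquiv.ofInjective σ hσi)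
  let b : Basis (Fin (finrank K[X] (A ⧸ W) + 1)) K[X] A := Basis.mkFinCons (1 : A) bN (by
    rintro c x ⟨z, rfl⟩ hc
    have h1 := congrArg W.mkQ hc
    have h2 : W.mkQ (c • (1 : A)) = 0 := by
      rw [Submodule.mkQ_apply, Submodule.Quotient.mk_eq_zero]
      exact ⟨c, Algebra.algebraMap_eq_smul_one c⟩
    rw [map_add, map_zero, h2, zero_add, hσ'] at h1
    rw [h1, map_zero, add_zero, ← Algebra.algebraMap_eq_smul_one] at hc
    exact (map_eq_zero_iff _ hinj).1 hc) (by
    intro z
    have h1 : z - σ (W.mkQ z) ∈ W := by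
      rw [← Submodule.Quotient.mk_eq_zero, ← Submodule.mkQ_apply, map_sub, hσ', sub_self]
    obtain ⟨c, hc⟩ := h1
    refine ⟨-c, W.mkQ z, ?_⟩
    have h2 : c • (1 : A) = z - σ (W.mkQ z) := by
      rw [← Algebra.algebraMap_eq_smul_one]
      exact hc
    rw [neg_smul, h2]
    abel)
  have hcard : finrank K[X] (A ⧸ W) + 1 = finrank K[X] A := by
    rw [finrank_eq_card_basis b, Fintype.card_fin]
  refine ⟨b.reindex (finCongr hcard), finCongr hcard 0, ?_⟩
  rw [Basis.reindex_apply, Equiv.symm_apply_apply]
  show b 0 = 1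
  rw [Basis.coe_mkFinCons]
  rfl

end Pool.Agent.V8H3.BasisOne
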