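import Mathlib
import Pool.Agent.N752.HY.Hz
import Pool.Agent.N753.DR.Stm2
import Pool.Agent.N488.CV.LinkC
import Pool.Agent.N498.CV.Redc
import Pool.Agent.N262.DR.Deg
import Pool.Agent.N328.CV.CoreV

/-!
# Few members of a linear system have a small truncated counting function, weights up to `3 ρ`

The input is the theorem on the radicals of the values of norm forms (`Pool.Agent.N752.HY.s_nrm`).
-/

set_option autoImplicit false
set_option linter.unusedSectionVars false

namespace Pool.Agent.V8H3.Cnt3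

open NumberField IsDedekindDomain Module Polynomial Pool.Agent.N753.DR
open Pool.Agent.N262.DR (lN_nonneg sum_under_le over_eq badS_finite)
open Pool.Agent.N752.HY (W2 lam cnt hgt Outside s_nrm)
open scoped LinearAlgebra.Projectivization

/-- the ratios of the coefficients generate `L` -/
def Full (K : Type) [Field K] {L : Type} [Field L] [Algebra K L] {m : ℕ} (γ : Fin m → L) : Prop :=
  ∃ i0, γ i0 ≠ 0 ∧ IntermediateField.adjoin K (Set.range fun i => γ i / γ i0) = ⊤

/-- the norm form -/
theorem exists_form {K E : Type} [Field K] [NumberField K] [Field E] [NumberField E] [Algebra K E]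
    {n : ℕ} (α : Fin n → E) : ∃ (F : MvPolynomial (Fin n) (𝓞 K)) (D : ℕ), D ≠ 0 ∧
      F.IsHomogeneous (finrank K E) ∧ ∀ x : Fin n → K,
        MvPolynomial.aeval x F = (D : K) * Algebra.norm K (∑ i, x i • α i) := by
  classical
  have hfd : FiniteDimensional K E := FiniteDimensional.right ℚ K E
  let b := Module.finBasis K E
  obtain ⟨M, hM⟩ : ∃ M : Matrix (Fin (finrank K E)) (Fin (finrank K E)) (MvPolynomial (Fin n) K),
      M = ∑ i, (MvPolynomial.X i : MvPolynomial (Fin n) K) •
        (Algebra.leftMulMatrix b (α i)).map MvPolynomial.C := ⟨_, rfl⟩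
  have hMh : ∀ i j, (M i j).IsHomogeneous 1 := by
    intro i j
    rw [hM, Matrix.sum_apply]
    refine MvPolynomial.IsHomogeneous.sum _ _ _ fun k _ => ?_
    rw [Matrix.smul_apply, Matrix.map_apply, smul_eq_mul]
    have := (MvPolynomial.isHomogeneous_X K k).mul
      (MvPolynomial.isHomogeneous_C (Fin n) (Algebra.leftMulMatrix b (α k) i j))
    rwa [add_zero] at this
  have hN1 : M.det.IsHomogeneous (finrank K E) := by
    rw [Matrix.det_apply]
    refine MvPolynomial.IsHomogeneous.sum _ _ _ fun σ _ => ?_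
    have h1 : (∏ i, M (σ i) i).IsHomogeneous (∑ i : Fin (finrank K E), 1) :=
      MvPolynomial.IsHomogeneous.prod _ _ _ fun i _ => hMh _ _
    rw [Finset.sum_const, Finset.card_univ, Fintype.card_fin, smul_eq_mul, mul_one] at h1
    rcases Int.units_eq_one_or (Equiv.Perm.sign σ) with h | h <;> rw [h]
    · simpa using h1
    · simpa using h1.neg
  have hN2 : ∀ x : Fin n → K, MvPolynomial.eval x M.det = Algebra.norm K (∑ i, x i • α i) := by
    intro x
    rw [hM, RingHom.map_det, Algebra.norm_eq_matrix_det b, map_sum]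
    congr 1
    ext k l
    simp [Matrix.sum_apply, Matrix.map_apply]
  obtain ⟨D, hD0, hD⟩ := Pool.Agent.N328.CV.exists_den (F := K) (ι := M.det.support)
    fun s => M.det.coeff s.1
  have hD' : ∀ s : M.det.support, ∃ z : 𝓞 K, (z : K) = (D : K) * M.det.coeff s.1 := fun s =>
    ⟨⟨_, hD s⟩, rfl⟩
  choose z hz using hD'
  refine ⟨∑ s : M.det.support, MvPolynomial.monomial s.1 (z s), D, hD0, ?_, fun x => ?_⟩
  · refine MvPolynomial.IsHomogeneous.sum _ _ _ fun s _ => ?_
    refine MvPolynomial.isHomogeneous_monomial _ ?_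
    rw [Finsupp.degree_eq_weight_one]
    exact hN1 (MvPolynomial.mem_support_iff.1 s.2)
  · rw [← hN2 x, map_sum, MvPolynomial.eval_eq', Finset.mul_sum,
      ← Finset.sum_coe_sort M.det.support]
    refine Finset.sum_congr rfl fun s _ => ?_
    rw [MvPolynomial.aeval_monomial, Finsupp.prod_fintype _ _ (fun i => pow_zero _)]
    show (z s : K) * _ = _
    rw [hz s, mul_assoc]

/-- a prime which divides the norm is below a prime which divides the number -/
theorem exists_over {K L : Type} [Field K] [NumberField K] [Field L] [NumberField L] [Algebra K L]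
    {b : 𝓞 L} (hb : b ≠ 0) {v : HeightOneSpectrum (𝓞 K)}
    (h : Algebra.intNorm (𝓞 K) (𝓞 L) b ∈ v.asIdeal) :
    ∃ w : HeightOneSpectrum (𝓞 L), w.asIdeal.LiesOver v.asIdeal ∧ b ∈ w.asIdeal := by
  classical
  have h1 : v.asIdeal ∣ Ideal.relNorm (𝓞 K) (Ideal.span {b}) := by
    rw [Ideal.relNorm_singleton, Ideal.dvd_span_singleton]
    exact h
  have key : ∀ s : Multiset (Ideal (𝓞 L)), (∀ P ∈ s, Prime P) →
      v.asIdeal ∣ Ideal.relNorm (𝓞 K) s.prod → ∃ P ∈ s, v.asIdeal ∣ Ideal.relNorm (𝓞 K) P := by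
    intro s
    induction s using Multiset.induction_on with
    | empty =>
      intro _ h2
      rw [Multiset.prod_zero, map_one] at h2
      exact absurd (isUnit_of_dvd_one h2) v.prime.not_isUnit
    | cons P s ih =>
      intro h2 h3
      rw [Multiset.prod_cons, map_mul] at h3
      rcases v.prime.dvd_or_dvd h3 with h4 | h4
      · exact ⟨P, Multiset.mem_cons_self _ _, h4⟩
      · obtain ⟨Q, hQ, h5⟩ := ih (fun P hP => h2 P (Multiset.mem_cons_of_mem hP)) h4
        exact ⟨Q, Multiset.mem_cons_of_mem hQ, h5⟩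
  have hb0 : Ideal.span {b} ≠ ⊥ := by rwa [Ne, Ideal.span_singleton_eq_bot]
  have hfac := Ideal.prod_normalizedFactors_eq_self hb0
  rw [← hfac] at h1
  obtain ⟨P, hP, hPv⟩ := key _ (fun P hP => UniqueFactorizationMonoid.prime_of_normalized_factor P hP)
    h1
  have hPp := UniqueFactorizationMonoid.prime_of_normalized_factor P hP
  have hPi : P.IsPrime := Ideal.isPrime_of_prime hPp
  have hPdvd : P ∣ Ideal.span {b} := UniqueFactorizationMonoid.dvd_of_mem_normalizedFactors hP
  let w : HeightOneSpectrum (𝓞 L) := ⟨P, hPi, hPp.ne_zero⟩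
  refine ⟨w, ?_, Ideal.dvd_span_singleton.1 hPdvd⟩
  obtain ⟨s, hs⟩ := Ideal.exists_relNorm_eq_pow_of_isPrime P (P.under (𝓞 K))
  rw [hs] at hPv
  have h2 := v.prime.dvd_of_dvd_pow hPv
  have h3 : P.under (𝓞 K) ≤ v.asIdeal := Ideal.dvd_iff_le.1 h2
  have h4 : P.under (𝓞 K) ≠ ⊥ := (HeightOneSpectrum.under (𝓞 K) w).ne_bot
  have h5 : (P.under (𝓞 K)).IsMaximal := (HeightOneSpectrum.under (𝓞 K) w).isMaximal
  have h6 := h5.eq_of_le v.isPrime.ne_top h3
  exact ⟨h6.symm⟩

end Pool.Agent.V8H3.Cnt3
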