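import Mathlib
import Pool.Agent.V8H3.Cnt3
import Pool.Agent.N752.CV.ZeroC

/-!
# Few members of a linear system have a small truncated counting function, weights up to `3 ρ`
-/

set_option autoImplicit false
set_option linter.unusedSectionVars false

namespace Pool.Agent.V8H3.Cnt3

open NumberField IsDedekindDomain Module Polynomial Pool.Agent.N753.DR
open Pool.Agent.N262.DR (lN_nonneg sum_under_le over_eq badS_finite)
open Pool.Agent.N752.HY (W2 lam cnt hgt Outside s_nrm)
open scoped LinearAlgebra.Projectivization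

/-- the weight of the point `ψ` with respect to the linear system with the values `γ` -/
noncomputable def wg (K : Type) [Field K] {L : Type} [Field L] [Algebra K L] {m : ℕ}
    (γ : Fin m → L) : ℕ :=
  W2 (finrank K (Submodule.span K (Set.range γ))) (finrank K L)

theorem span_div {K L : Type} [Field K] [Field L] [Algebra K L] {m : ℕ} (γ : Fin m → L) {z : L}
    (hz : z ≠ 0) : finrank K (Submodule.span K (Set.range fun i => γ i / z)) =
      finrank K (Submodule.span K (Set.range γ)) := by
  have hbij : Function.Bijective (LinearMap.mulLeft K z⁻¹) := by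
    refine ⟨fun a b h => mul_left_cancel₀ (inv_ne_zero hz) (show z⁻¹ * a = z⁻¹ * b from h),
      fun a => ⟨z * a, ?_⟩⟩
    show z⁻¹ * (z * a) = a
    rw [← mul_assoc, inv_mul_cancel₀ hz, one_mul]
  let e : L ≃ₗ[K] L := LinearEquiv.ofBijective (LinearMap.mulLeft K z⁻¹) hbij
  have h1 : (Set.range fun i => γ i / z) = e '' Set.range γ := by
    rw [← Set.range_comp]
    congr 1
    funext i
    show γ i / z = z⁻¹ * γ i
    rw [div_eq_mul_inv, mul_comm]
  rw [h1]
  have h2 : Submodule.span K (e '' Set.range γ) =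
      (Submodule.span K (Set.range γ)).map e.toLinearMap := by
    rw [Submodule.map_span]
    rfl
  rw [h2]
  exact LinearEquiv.finrank_map_eq e _

/-- **few members have a small truncated counting function** -/
theorem cnt3 (K A L : Type) [Field K] [NumberField K] [CommRing A] [IsDomain A]
    [Algebra K A] [Algebra K[X] A] [IsScalarTower K K[X] A] [Module.Finite K[X] A]
    [FaithfulSMul K[X] A] [Field L] [NumberField L] [Algebra K L]
    (hdom : IsDomain (TensorProduct K (AlgebraicClosure K) A)) (m u : ℕ)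
    (hm3 : 3 ≤ finrank ℚ K * (m + 1)) (f : Fin (m + 1) → A) (hf : LinearIndependent K f)
    (ψ : A →ₐ[K] L) (g : Fin u → A) (hg : ∀ i, ψ (g i) = 0)
    (hfull : Full K (fun i => ψ (f i))) (S : Finset ℕ) (κ : ℝ) (hκ : 0 < κ) :
    ∃ ν C : ℝ, 0 < ν ∧ ∀ U : ℝ, 0 ≤ U →
      {P : ℙ K (Fin (m + 1) → K) | BadC f g S ((wg K fun i => ψ (f i) : ℕ) - κ) P ∧
        Height.logHeight P.rep ≤ U}.Finite ∧
      ({P : ℙ K (Fin (m + 1) → K) | BadC f g S ((wg K fun i => ψ (f i) : ℕ) - κ) P ∧
        Height.logHeight P.rep ≤ U}.ncard : ℝ) ≤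
        C * Real.exp (((m + 1 : ℕ) - ν) * U) := by
  classical
  obtain ⟨i0, hi0, hadj⟩ := hfull
  obtain ⟨α, hα⟩ : ∃ α : Fin (m + 1) → L, α = fun i => ψ (f i) / ψ (f i0) := ⟨_, rfl⟩
  obtain ⟨F, D, hD0, hFh, hF⟩ := exists_form (K := K) α
  have hα0 : α i0 = 1 := by rw [hα]; exact div_self hi0
  have hadj' : IntermediateField.adjoin K (Set.range α) = ⊤ := by rw [hα]; exact hadj
  have hrk : finrank K (Submodule.span K (Set.range α)) =
      finrank K (Submodule.span K (Set.range fun i => ψ (f i))) := by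
    rw [hα]
    exact span_div (fun i => ψ (f i)) hi0
  have hn : 0 < finrank ℚ K := finrank_pos
  have hn0 : (0 : ℝ) < finrank ℚ K := by exact_mod_cast hn
  obtain ⟨c₁, C₁, hc₁, hC₁, hmain⟩ := s_nrm K inferInstance inferInstance L
    inferInstance inferInstance inferInstance m (finrank K L) F α (D : K) i0 hm3 hFh rfl
    (Nat.cast_ne_zero.2 hD0) hα0 hadj' hF
    ((W2 (finrank K (Submodule.span K (Set.range α))) (finrank K L) : ℝ) - κ / 2) (by linarith)
  rw [hrk] at hmain
  obtain ⟨BadR, C0, hC0, hR⟩ := Pool.Agent.N498.CV.t K (m + 1)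
  obtain ⟨BadL, hL⟩ := Pool.Agent.N488.CV.t K A L hdom (m + 1) u f hf ψ g hg
  obtain ⟨D', hD'0, hD'⟩ := Pool.Agent.N328.CV.exists_den α
  have hz : ∀ i, ∃ z : 𝓞 L, (z : L) = (D' : L) * α i := fun i => ⟨⟨_, hD' i⟩, rfl⟩
  choose z hz using hz
  have hfinγ : {w : HeightOneSpectrum (𝓞 L) | w.valuation L (ψ (f i0)) ≠ 1}.Finite := by
    refine ((HeightOneSpectrum.Support.finite (𝓞 L) (ψ (f i0))).union
      (HeightOneSpectrum.Support.finite (𝓞 L) (ψ (f i0))⁻¹)).subset ?_
    intro w hw
    rcases lt_or_gt_of_ne (show w.valuation L (ψ (f i0)) ≠ 1 from hw) with h | h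
    · right
      show 1 < w.valuation L (ψ (f i0))⁻¹
      rw [map_inv₀]
      have h0 : 0 < w.valuation L (ψ (f i0)) := by
        rw [zero_lt_iff]
        exact (Valuation.ne_zero_iff _).2 hi0
      exact (one_lt_inv₀ h0).2 h
    · exact Or.inl h
  set BadS := (badS_finite (K := K) S).toFinset with hBadS
  set BadD := (badS_finite (K := K) {D, D'}).toFinset with hBadD
  set Badγ := hfinγ.toFinset.image fun w => HeightOneSpectrum.under (𝓞 K) w with hBadγ
  set Bad := BadR ∪ BadL ∪ BadS ∪ BadD ∪ Badγ with hBad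
  set C₀ : ℝ := ∑ v ∈ Bad, lN v with hC₀
  have hC₀0 : 0 ≤ C₀ := Finset.sum_nonneg fun v _ => lN_nonneg v
  obtain ⟨_, _, _, hfinH⟩ := Pool.Agent.N752.CV.t2 Pool.Agent.N498.CV.t K (m + 1) 1 0 one_ne_zero
    (MvPolynomial.isHomogeneous_one _ _)
  have hH0 : 0 ≤ 2 * C₀ / κ := by positivity
  set BH := (hfinH (2 * C₀ / κ) hH0).1.toFinset with hBH
  -- the key inequality
  have key : ∀ P : ℙ K (Fin (m + 1) → K), MvPolynomial.aeval P.rep F ≠ 0 →
      ((wg K fun i => ψ (f i) : ℕ) - κ / 2 : ℝ) * hgt P.rep ≤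
        cnt K ∅ (fun _ : Fin 1 => F) (fun _ => finrank K L) Finset.univ P.rep →
      BadC f g S ((wg K fun i => ψ (f i) : ℕ) - κ) P → Height.logHeight P.rep ≤ 2 * C₀ / κ := by
    rintro P hP0 hcnt ⟨M, _, _, _, φ, hφ, hker, W, hW, hWs⟩
    obtain ⟨c, l, hl, hcl, hprim, -⟩ := hR P.rep P.rep_nonzero
    have hmem : (mem f fun i => (c i : K)) = algebraMap K A l * mem f P.rep := by
      unfold mem
      rw [Finset.mul_sum]
      refine Finset.sum_congr rfl fun i _ => ?_
      show (c i : K) • f i = algebraMap K A l * (P.rep i • f i)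
      rw [hcl i, mul_smul, Algebra.smul_def l]
    have hlu : IsUnit (algebraMap K A l) := (isUnit_iff_ne_zero.2 hl).map _
    have hker' : RingHom.ker φ = Ideal.span {mem f fun i => (c i : K)} := by
      rw [hker, hmem, Ideal.span_singleton_mul_left_unit hlu]
    have hFc : ((MvPolynomial.eval c F : 𝓞 K) : K) = l ^ finrank K L * MvPolynomial.aeval P.rep F :=
      Pool.Agent.N752.HY.Nrm.aeval_y hFh hcl
    have hFc0 : MvPolynomial.eval c F ≠ 0 := by
      intro h
      have h0 : ((0 : 𝓞 K) : K) = 0 := by simp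
      rw [h, h0] at hFc
      exact (mul_ne_zero (pow_ne_zero _ hl) hP0) hFc.symm
    -- the primes at which the local height is positive
    have hsub : ∀ v : HeightOneSpectrum (𝓞 K), 0 < lam K F (finrank K L) P.rep v →
        v ∈ Bad ∪ W.image fun u => HeightOneSpectrum.under (𝓞 K) u := by
      intro v hv
      have hvF : MvPolynomial.eval c F ∈ v.asIdeal :=
        Pool.Agent.N752.HY.Nrm.mem_of_lam_pos hFh hl hcl hFc0 v hv
      rw [Finset.mem_union]
      by_cases hvB : v ∈ Bad
      · exact Or.inl hvB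
      right
      have hvR : v ∉ BadR := fun h => hvB (by simp only [hBad, Finset.mem_union]; tauto)
      have hvL : v ∉ BadL := fun h => hvB (by simp only [hBad, Finset.mem_union]; tauto)
      have hvS : v ∉ BadS := fun h => hvB (by simp only [hBad, Finset.mem_union]; tauto)
      have hvD : v ∉ BadD := fun h => hvB (by simp only [hBad, Finset.mem_union]; tauto)
      have hvγ : v ∉ Badγ := fun h => hvB (by simp only [hBad, Finset.mem_union]; tauto)
      have hvD1 : (D : 𝓞 K) ∉ v.asIdeal := by
        intro h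
        apply hvD
        rw [hBadD, Set.Finite.mem_toFinset]
        exact ⟨D, by simp, hD0, h⟩
      have hvD2 : (D' : 𝓞 K) ∉ v.asIdeal := by
        intro h
        apply hvD
        rw [hBadD, Set.Finite.mem_toFinset]
        exact ⟨D', by simp, hD'0, h⟩
      -- the integral element
      set b : 𝓞 L := ∑ i, algebraMap (𝓞 K) (𝓞 L) (c i) * z i with hb
      have hbL : (b : L) = (D' : L) * ∑ i, (c i : K) • α i := by
        show algebraMap (𝓞 L) L b = _
        rw [hb, map_sum, Finset.mul_sum]
        refine Finset.sum_congr rfl fun i _ => ?_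
        rw [map_mul]
        have e1 : ((algebraMap (𝓞 K) (𝓞 L) (c i) : 𝓞 L) : L) = algebraMap K L (c i : K) := by
          show algebraMap (𝓞 L) L (algebraMap (𝓞 K) (𝓞 L) (c i)) =
            algebraMap K L (algebraMap (𝓞 K) K (c i))
          rw [← IsScalarTower.algebraMap_apply (𝓞 K) (𝓞 L) L,
            IsScalarTower.algebraMap_apply (𝓞 K) K L]
        rw [Algebra.smul_def]
        show ((algebraMap (𝓞 K) (𝓞 L) (c i) : 𝓞 L) : L) * (z i : L) = _
        rw [e1, hz i]
        ring
      have e2 : ((MvPolynomial.eval c F : 𝓞 K) : K) =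
          (D : K) * Algebra.norm K (∑ i, (c i : K) • α i) := by
        rw [← hF]
        have h2 := MvPolynomial.aeval_algebraMap_apply K c F
        rw [MvPolynomial.aeval_eq_eval] at h2
        exact h2.symm
      have hnorm : (D : K) * ((Algebra.intNorm (𝓞 K) (𝓞 L) b : 𝓞 K) : K) =
          (D' : K) ^ finrank K L * ((MvPolynomial.eval c F : 𝓞 K) : K) := by
        have e1 : ((Algebra.intNorm (𝓞 K) (𝓞 L) b : 𝓞 K) : K) = Algebra.norm K (b : L) :=
          Algebra.algebraMap_intNorm (A := 𝓞 K) (K := K) (L := L) (B := 𝓞 L) b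
        have e3 : (D' : L) = algebraMap K L (D' : K) := by rw [map_natCast]
        rw [e1, e2, hbL, map_mul, e3, Algebra.norm_algebraMap]
        ring
      have hnorm' : (D : 𝓞 K) * Algebra.intNorm (𝓞 K) (𝓞 L) b =
          (D' : 𝓞 K) ^ finrank K L * MvPolynomial.eval c F := by
        apply RingOfIntegers.coe_injective
        simpa using hnorm
      have hNb : Algebra.intNorm (𝓞 K) (𝓞 L) b ∈ v.asIdeal := by
        have h2 : (D : 𝓞 K) * Algebra.intNorm (𝓞 K) (𝓞 L) b ∈ v.asIdeal := by
          rw [hnorm']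
          exact Ideal.mul_mem_left _ _ hvF
        exact (v.isPrime.mem_or_mem h2).resolve_left hvD1
      have hb0 : b ≠ 0 := by
        intro h
        have h0 : ((0 : 𝓞 L) : L) = 0 := by simp
        rw [h, h0] at hbL
        have h1 : ∑ i, (c i : K) • α i = 0 :=
          (mul_eq_zero.1 hbL.symm).resolve_left (Nat.cast_ne_zero.2 hD'0)
        rw [h1, Algebra.norm_zero, mul_zero] at e2
        exact hFc0 (RingOfIntegers.coe_eq_zero_iff.1 e2)
      obtain ⟨w, hw, hbw⟩ := exists_over hb0 hNb
      have hunder0 := over_eq hw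
      -- the value at `ψ`
      have hψ1 : ψ (mem f fun i => (c i : K)) = ψ (f i0) * ∑ i, (c i : K) • α i := by
        unfold mem
        rw [map_sum, Finset.mul_sum]
        refine Finset.sum_congr rfl fun i _ => ?_
        rw [map_smul, hα, Algebra.smul_def, Algebra.smul_def]
        field_simp
      have hψw : w.valuation L (ψ (mem f fun i => (c i : K))) < 1 := by
        have e1 : w.valuation L (ψ (f i0)) = 1 := by
          by_contra hne
          apply hvγ
          rw [hBadγ, Finset.mem_image]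
          exact ⟨w, hfinγ.mem_toFinset.2 hne, hunder0⟩
        have e2 : w.valuation L (b : L) < 1 := by
          rw [HeightOneSpectrum.valuation_lt_one_iff_mem]
          exact hbw
        have e3 : w.valuation L (D' : L) = 1 := by
          have h4 : (D' : 𝓞 L) ∉ w.asIdeal := by
            intro h
            apply hvD2
            rw [← hunder0, HeightOneSpectrum.under_asIdeal, Ideal.under_def, Ideal.mem_comap,
              map_natCast]
            exact h
          have h5 : w.valuation L (algebraMap (𝓞 L) L (D' : 𝓞 L)) ≤ 1 :=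
            HeightOneSpectrum.valuation_le_one w _
          rw [map_natCast] at h5
          refine le_antisymm h5 (not_lt.1 fun h6 => h4 ?_)
          rw [← HeightOneSpectrum.valuation_lt_one_iff_mem (K := L)]
          have h7 : algebraMap (𝓞 L) L (D' : 𝓞 L) = (D' : L) := map_natCast _ D'
          exact lt_of_eq_of_lt (congrArg _ h7) h6
        rw [hbL, map_mul, e3, one_mul] at e2
        rw [hψ1, map_mul, e1, one_mul]
        exact e2
      obtain ⟨x, hx, hxX, hxg⟩ := hL M φ c hφ hker' v hvL (hprim v hvR) w hw hψw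
      have hunder := over_eq hx
      rw [Finset.mem_image]
      refine ⟨x, hW x ⟨?_, hxX, hxg⟩, hunder⟩
      intro p hp hp0 hmem
      apply hvS
      rw [hBadS, Set.Finite.mem_toFinset]
      refine ⟨p, hp, hp0, ?_⟩
      rw [← hunder, HeightOneSpectrum.under_asIdeal, Ideal.under_def, Ideal.mem_comap,
        map_natCast]
      exact hmem
    have hcnt2 : finrank ℚ K * cnt K ∅ (fun _ : Fin 1 => F) (fun _ => finrank K L) Finset.univ
        P.rep ≤ C₀ + ∑ w ∈ W, lN w := by
      unfold cnt
      rw [mul_div_cancel₀ _ hn0.ne']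
      rw [finsum_eq_sum_of_support_subset
        (s := Bad ∪ W.image fun u => HeightOneSpectrum.under (𝓞 K) u)]
      · calc _ ≤ ∑ v ∈ Bad ∪ W.image fun u => HeightOneSpectrum.under (𝓞 K) u, lN v := by
              refine Finset.sum_le_sum fun v _ => ?_
              split_ifs
              · exact le_rfl
              · exact lN_nonneg v
          _ ≤ ∑ v ∈ Bad, lN v + ∑ v ∈ W.image fun u => HeightOneSpectrum.under (𝓞 K) u, lN v := by
              have := Finset.sum_union_inter (s₁ := Bad)
                (s₂ := W.image fun u => HeightOneSpectrum.under (𝓞 K) u) (f := lN)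
              have h2 : 0 ≤ ∑ v ∈ Bad ∩ W.image fun u => HeightOneSpectrum.under (𝓞 K) u, lN v :=
                Finset.sum_nonneg fun v _ => lN_nonneg v
              linarith
          _ ≤ _ := by
              have h4 : ∑ v ∈ W.image (fun u => HeightOneSpectrum.under (𝓞 K) u), lN v ≤
                  ∑ u ∈ W, lN u := sum_under_le W _ fun v hv => Finset.mem_image.mp hv
              linarith
      · intro v hv
        rw [Function.mem_support] at hv
        have h6 : Outside ∅ v ∧ ∃ i ∈ (Finset.univ : Finset (Fin 1)),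
            0 < lam K F (finrank K L) P.rep v := by
          by_contra h7
          exact hv (if_neg h7)
        obtain ⟨-, i, -, h7⟩ := h6
        exact Finset.mem_coe.2 (hsub v h7)
    have h1 := mul_le_mul_of_nonneg_left hcnt hn0.le
    have h2 : (finrank ℚ K : ℝ) * (((wg K fun i => ψ (f i) : ℕ) - κ / 2 : ℝ) * hgt P.rep) =
        ((wg K fun i => ψ (f i) : ℕ) - κ / 2 : ℝ) * Height.logHeight P.rep := by
      unfold hgt
      field_simp
    rw [h2] at h1
    rw [le_div_iff₀ hκ]
    nlinarith
  refine ⟨min (c₁ / finrank ℚ K) 1, C₁ + BH.card, lt_min (by positivity) one_pos, fun U hU => ?_⟩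
  obtain ⟨Z, hZ, hgood⟩ := hmain (U / finrank ℚ K) (by positivity)
  have hsubs : {P : ℙ K (Fin (m + 1) → K) | BadC f g S ((wg K fun i => ψ (f i) : ℕ) - κ) P ∧
        Height.logHeight P.rep ≤ U} ⊆ (↑(Z ∪ BH) : Set (ℙ K (Fin (m + 1) → K))) := by
    rintro P ⟨hbad, hht⟩
    rw [Finset.coe_union]
    by_cases hPZ : P ∈ Z
    · exact Or.inl hPZ
    right
    have h1 : Real.log P.mulHeight ≤ finrank ℚ K * (U / finrank ℚ K) := by
      rw [mul_div_cancel₀ _ hn0.ne', ← Pool.Agent.N752.HY.Nrm.mulHeight_rep]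
      exact hht
    obtain ⟨h2, h3⟩ := hgood P h1 hPZ
    rw [Finset.mem_coe, hBH, Set.Finite.mem_toFinset]
    exact key P h2 h3 hbad
  refine ⟨(Finset.finite_toSet _).subset hsubs, ?_⟩
  have h1 := Set.ncard_le_ncard hsubs (Finset.finite_toSet _)
  rw [Set.ncard_coe_finset] at h1
  have h2 : ((Z ∪ BH).card : ℝ) ≤ (Z.card : ℝ) + BH.card := by
    exact_mod_cast Finset.card_union_le Z BH
  have h3 : (1 : ℝ) ≤ Real.exp (((m + 1 : ℕ) - min (c₁ / finrank ℚ K) 1) * U) := by
    refine Real.one_le_exp (mul_nonneg ?_ hU)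
    have := min_le_right (c₁ / (finrank ℚ K : ℝ)) 1
    have h4 : (1 : ℝ) ≤ (m + 1 : ℕ) := by exact_mod_cast Nat.succ_le_succ (Nat.zero_le m)
    linarith
  have h4 : Real.exp (((finrank ℚ K : ℝ) * (m + 1) - c₁) * (U / finrank ℚ K)) ≤
      Real.exp (((m + 1 : ℕ) - min (c₁ / finrank ℚ K) 1) * U) := by
    rw [Real.exp_le_exp]
    have e1 : ((finrank ℚ K : ℝ) * (m + 1) - c₁) * (U / finrank ℚ K) =
        ((m + 1 : ℕ) - c₁ / finrank ℚ K) * U := by
      push_cast
      field_simp
    rw [e1]
    refine mul_le_mul_of_nonneg_right ?_ hU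
    have := min_le_left (c₁ / (finrank ℚ K : ℝ)) 1
    linarith
  calc (({P : ℙ K (Fin (m + 1) → K) | BadC f g S ((wg K fun i => ψ (f i) : ℕ) - κ) P ∧
        Height.logHeight P.rep ≤ U}.ncard : ℕ) : ℝ) ≤ ((Z ∪ BH).card : ℝ) := by exact_mod_cast h1
    _ ≤ (Z.card : ℝ) + BH.card := h2
    _ ≤ C₁ * Real.exp (((m + 1 : ℕ) - min (c₁ / finrank ℚ K) 1) * U) +
        BH.card * Real.exp (((m + 1 : ℕ) - min (c₁ / finrank ℚ K) 1) * U) := by
        refine add_le_add (hZ.trans (mul_le_mul_of_nonneg_left h4 hC₁)) ?_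
        exact le_mul_of_one_le_right (Nat.cast_nonneg _) h3
    _ = _ := by ring

end Pool.Agent.V8H3.Cnt3
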