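import Mathlib
import Pool.Agent.V8H3.Cnt3b
import Pool.Agent.N297.CV.MainC
import Pool.Agent.N572.DR.Diag
import Pool.Agent.N265.CV.Htc
import Pool.Agent.N752.CV.UniC
import Pool.Agent.N752.CV.ZeroC
import Pool.Agent.N650.CV.FldC
import Pool.Agent.N776.CV.Sep
import Pool.Agent.N753.DR.ProxE

/-!
# One exceptional set for a linear system on a curve, weights up to `3 ρ`

The proof is the one of `Pool.Agent.N297.CV.MainC`, with the counting theorem `cnt3`, together with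
the proximity part `Pool.Agent.N753.DR.ProxE`.
-/

set_option autoImplicit false

namespace Pool.Agent.V8H3.Main3

open NumberField IsDedekindDomain Module Polynomial Pool.Agent.N753.DR Pool.Agent.N572.DR.KE
open scoped LinearAlgebra.Projectivization
open Pool.Agent.N297.CV.MainC (val_fin countable_A nonneg_ht exists_c mem_ne)
open Pool.Agent.V8H3.Cnt3 (Full wg cnt3)
open Pool.Agent.N751.CV (prox)

/-- `w` is an admissible weight for the closed point of `A` with the equations `g` -/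
def HasWt {K A : Type} [Field K] [NumberField K] [CommRing A] [Algebra K A] {m : ℕ} (f : Fin m → A)
    {u : ℕ} (g : Fin u → A) (w : ℕ) : Prop :=
  ∃ (L : Type) (_ : Field L) (_ : NumberField L) (_ : Algebra K L) (ψ : A →ₐ[K] L),
    Function.Surjective ψ ∧ RingHom.ker ψ = Ideal.span (Set.range g) ∧
      Full K (fun i => ψ (f i)) ∧ w ≤ wg K (fun i => ψ (f i))

theorem sqrt_bound {M ν U : ℝ} (hν : 0 < ν) (hU : 0 ≤ U) :
    (M - ν) * U ≤ 1 / ν + (M * U - √U) := by
  have h11 : √U ≤ ν * U + 1 / ν := by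
    have hs := Real.sq_sqrt hU
    have h12 : ν * √U ≤ (ν * √U) ^ 2 + 1 := by nlinarith [sq_nonneg (ν * √U - 1 / 2)]
    have h13 : √U * ν ≤ (ν * U + 1 / ν) * ν := by
      have : (ν * U + 1 / ν) * ν = ν ^ 2 * U + 1 := by field_simp
      rw [this]
      nlinarith
    exact le_of_mul_le_mul_right h13 hν
  nlinarith

/-- the property of `w` with respect to a bad point decreases -/
theorem badC_mono {K A : Type} [Field K] [NumberField K] [CommRing A] [Algebra K A]
    [Algebra K[X] A] {m u : ℕ} {f : Fin m → A} {g : Fin u → A} {S : Finset ℕ} {d d' : ℝ}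
    (hd : d ≤ d') {P : ℙ K (Fin m → K)} (h : BadC f g S d P) : BadC f g S d' P := by
  obtain ⟨M, _, _, _, φ, h1, h2, W, h3, h4⟩ := h
  exact ⟨M, inferInstance, inferInstance, inferInstance, φ, h1, h2, W, h3,
    h4.trans_le (mul_le_mul_of_nonneg_right hd (Height.logHeight_nonneg _))⟩

theorem main3 : ∃ e : ℕ → ℝ, (∀ c : ℝ, 1 / (8 * (Real.log 2) ^ 2) < c →
      ∀ᶠ n : ℕ in Filter.atTop, e n ≤ c * (Real.log n) ^ 2) ∧ (∀ n, 0 ≤ e n) ∧
  ∀ (K A : Type) [Field K] [NumberField K] [CommRing A] [IsDomain A]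
    [Algebra K A] [Algebra K[X] A] [IsScalarTower K K[X] A] [Module.Finite K[X] A]
    [FaithfulSMul K[X] A], IsDomain (TensorProduct K (AlgebraicClosure K) A) →
    ∀ (m : ℕ), 3 ≤ finrank ℚ K * (m + 1) → ∀ (f : Fin (m + 1) → A), LinearIndependent K f →
    Ideal.span (Set.range f) = ⊤ →
  ∃ (r : ℕ) (E : Set (ℙ K (Fin (m + 1) → K))),
    (∃ c : Fin (m + 1) → K, mem f c ≠ 0 ∧ finrank K (A ⧸ Ideal.span {mem f c}) = r) ∧
    (∀ P ∉ E, finrank K (A ⧸ Ideal.span {mem f P.rep}) = r) ∧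
    (∀ P ∉ E, ∀ P' : ℙ K (Fin (m + 1) → K),
      Ideal.span {mem f P.rep} = Ideal.span {mem f P'.rep} → P' = P) ∧
    -- the exceptional set has density zero
    (∃ C : ℝ, ∀ U : ℝ, 0 ≤ U →
      {P : ℙ K (Fin (m + 1) → K) | P ∈ E ∧ Height.logHeight P.rep ≤ U}.Finite ∧
      ({P : ℙ K (Fin (m + 1) → K) | P ∈ E ∧ Height.logHeight P.rep ≤ U}.ncard : ℝ) ≤
        C * Real.exp ((m + 1) * U - √U)) ∧
    -- the truncated counting functions are large
    (∀ (q : ℕ) (u : Fin q → ℕ) (g : ∀ j, Fin (u j) → A) (w : Fin q → ℕ),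
      (∀ j, (Ideal.span (Set.range (g j))).IsMaximal) →
      (∀ i j, i ≠ j → Ideal.span (Set.range (g i)) ≠ Ideal.span (Set.range (g j))) →
      (∀ j, HasWt (K := K) f (g j) (w j)) →
      ∀ (S : Finset ℕ) (κ : ℝ), 0 < κ → ∃ C : ℝ,
        ∀ (M : Type) [Field M] [NumberField M] [Algebra K M] (φ : A →ₐ[K] M)
          (P : ℙ K (Fin (m + 1) → K)), P ∉ E → Function.Surjective φ →
          RingHom.ker φ = Ideal.span {mem f P.rep} →
          (∀ j, RingHom.ker φ ≠ Ideal.span (Set.range (g j))) →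
          ∃ W : Finset (HeightOneSpectrum (𝓞 M)), (∀ v ∈ W, ∃ j, NearC S (g j) φ v) ∧
            (∑ j, (w j : ℝ) - κ) * Height.logHeight P.rep ≤ ∑ v ∈ W, lN v + C) ∧
    -- the discriminants are large
    (∀ G : ℝ, 0 ≤ G → G * e r + 2 * finrank K[X] A < m + 1 → ∃ C : ℝ,
      ∀ (M : Type) [Field M] [NumberField M] [Algebra K M] (φ : A →ₐ[K] M)
        (P : ℙ K (Fin (m + 1) → K)), P ∉ E → Function.Surjective φ →
        RingHom.ker φ = Ideal.span {mem f P.rep} →
        G * Height.logHeight P.rep ≤ Real.log |(discr M : ℝ)| + C) ∧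
    -- the proximity functions are small
    (∀ (p : K[X]), p.Monic → ∀ (S : Finset ℕ), (∀ q ∈ S, q.Prime) →
      ∀ κ : ℝ, 0 < κ → ∃ C : ℝ, ∀ (M : Type) [Field M] [NumberField M] [Algebra K M]
        (φ : A →ₐ[K] M) (P : ℙ K (Fin (m + 1) → K)), P ∉ E → Function.Surjective φ →
        RingHom.ker φ = Ideal.span {mem f P.rep} → aeval (φ (algebraMap K[X] A X)) p ≠ 0 →
        prox S p (φ (algebraMap K[X] A X)) ≤ κ * Height.logHeight P.rep + C) ∧
    -- the height of the point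
    ∃ C : ℝ, ∀ (M : Type) [Field M] [NumberField M] [Algebra K M] (φ : A →ₐ[K] M)
        (P : ℙ K (Fin (m + 1) → K)), Function.Surjective φ →
        RingHom.ker φ = Ideal.span {mem f P.rep} →
        Height.logHeight₁ (φ (algebraMap K[X] A X)) ≤
          finrank K[X] A * Height.logHeight P.rep + C := by
  classical
  obtain ⟨e, he1, he2, h5⟩ := Pool.Agent.N650.CV.FldC.t Pool.Agent.N265.CV.t
  refine ⟨e, he1, he2, ?_⟩
  intro K A _ _ _ _ _ _ _ _ _ hdom m hm3 f hf htop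
  have hA := countable_A K A
  obtain ⟨Q, d, r, hQ0, hQh, hQ1, hQ2⟩ := Pool.Agent.N752.CV.t K A hdom (m + 1) (by omega) f hf
  obtain ⟨c0, hc0, hc0Q⟩ := exists_c (Nat.succ_le_succ (Nat.zero_le m)) hQ0
  obtain ⟨ν4, C4, hν4, h4'⟩ := Pool.Agent.N752.CV.t2 Pool.Agent.N498.CV.t K (m + 1) Q d hQ0 hQh
  obtain ⟨Ep, hEp1, hEp2⟩ := Pool.Agent.N753.DR.ProxE.proxE K A (m + 1) f (by omega) hf htop
  have hm0 : (0 : ℝ) < (m + 1 : ℕ) := by exact_mod_cast Nat.succ_pos m
  obtain ⟨E0, hE1, hE2⟩ := Pool.Agent.N572.DR.Diag.t (ℙ K (Fin (m + 1) → K))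
    (((Σ u : ℕ, (Fin u → A)) × ℕ × Finset ℕ × ℕ) ⊕ (ℚ ⊕ Unit))
    (fun U P => Height.logHeight P.rep ≤ U) (fun U U' P hUU hP => hP.trans hUU)
    (fun j P => match j with
      | Sum.inl (⟨u, g⟩, w, S, i) => HasWt (K := K) f g w ∧
          BadC f g S (w - 1 / ((i : ℝ) + 1)) P
      | Sum.inr (Sum.inl G) => (0 ≤ G ∧ (G : ℝ) * e r + 2 * finrank K[X] A < m + 1) ∧
          MvPolynomial.eval P.rep Q ≠ 0 ∧ SmD f (G : ℝ) P
      | Sum.inr (Sum.inr _) => MvPolynomial.eval P.rep Q = 0) ((m + 1 : ℕ) : ℝ) hm0 (by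
    rintro (⟨⟨u, g⟩, w, S, i⟩ | G | _)
    · by_cases hg : HasWt (K := K) f g w
      · obtain ⟨L, iL1, iL2, iL3, ψ, hψ1, hψ2, hψ3, hψ4⟩ := id hg
        obtain ⟨ν, C, hν, hC⟩ := cnt3 K A L hdom m u hm3 f hf ψ g (fun i => by
          have : g i ∈ RingHom.ker ψ := by
            rw [hψ2]; exact Ideal.subset_span ⟨i, rfl⟩
          exact this) hψ3 S (1 / ((i : ℝ) + 1)) (by positivity)
        refine ⟨ν, C, hν, fun U hU => ?_⟩
        obtain ⟨hC1, hC2⟩ := hC U hU
        have hsub : {P : ℙ K (Fin (m + 1) → K) | (HasWt (K := K) f g w ∧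
            BadC f g S (w - 1 / ((i : ℝ) + 1)) P) ∧ Height.logHeight P.rep ≤ U} ⊆
            {P : ℙ K (Fin (m + 1) → K) |
            BadC f g S ((wg K fun i => ψ (f i) : ℕ) - 1 / ((i : ℝ) + 1)) P ∧
            Height.logHeight P.rep ≤ U} := by
          rintro P ⟨⟨-, h1⟩, h2⟩
          refine ⟨badC_mono ?_ h1, h2⟩
          have : (w : ℝ) ≤ (wg K fun i => ψ (f i) : ℕ) := by exact_mod_cast hψ4
          linarith
        refine ⟨hC1.subset hsub, le_trans ?_ hC2⟩
        exact_mod_cast Set.ncard_le_ncard hsub hC1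
      · refine ⟨1, 0, one_pos, fun U hU => ?_⟩
        have he : {P : ℙ K (Fin (m + 1) → K) | (HasWt (K := K) f g w ∧
            BadC f g S (w - 1 / ((i : ℝ) + 1)) P) ∧
            Height.logHeight P.rep ≤ U} = ∅ := by
          rw [Set.eq_empty_iff_forall_notMem]
          rintro P ⟨⟨h, _⟩, _⟩
          exact hg h
        show Set.Finite {P : ℙ K (Fin (m + 1) → K) | (HasWt (K := K) f g w ∧
            BadC f g S (w - 1 / ((i : ℝ) + 1)) P) ∧
            Height.logHeight P.rep ≤ U} ∧ (Set.ncard {P : ℙ K (Fin (m + 1) → K) |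
            (HasWt (K := K) f g w ∧ BadC f g S (w - 1 / ((i : ℝ) + 1)) P) ∧
            Height.logHeight P.rep ≤ U} : ℝ) ≤ _
        rw [he]
        simp
    · by_cases hG : 0 ≤ G ∧ (G : ℝ) * e r + 2 * finrank K[X] A < m + 1
      · have hν : 0 < ((m + 1 : ℝ) - ((G : ℝ) * e r + 2 * finrank K[X] A)) / 2 := by
          have := hG.2
          linarith
        obtain ⟨C, hC⟩ := h5 K A (m + 1) f hf Q r hQ1 hQ2 (G : ℝ) (by exact_mod_cast hG.1) _ hν
        refine ⟨_, C, hν, fun U hU => ?_⟩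
        obtain ⟨h7, h8⟩ := hC U hU
        have hsub : {P : ℙ K (Fin (m + 1) → K) | ((0 ≤ G ∧
            (G : ℝ) * e r + 2 * finrank K[X] A < m + 1) ∧
            MvPolynomial.eval P.rep Q ≠ 0 ∧ SmD f (G : ℝ) P) ∧ Height.logHeight P.rep ≤ U} ⊆
            {P : ℙ K (Fin (m + 1) → K) | MvPolynomial.eval P.rep Q ≠ 0 ∧ SmD f (G : ℝ) P ∧
              Height.logHeight P.rep ≤ U} := by
          rintro P ⟨⟨-, h1, h2⟩, h3⟩
          exact ⟨h1, h2, h3⟩
        refine ⟨h7.subset hsub, le_trans ?_ (h8.trans (le_of_eq ?_))⟩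
        · exact_mod_cast Set.ncard_le_ncard hsub h7
        · congr 2
          push_cast
          ring
      · refine ⟨1, 0, one_pos, fun U hU => ?_⟩
        have he : {P : ℙ K (Fin (m + 1) → K) | ((0 ≤ G ∧
            (G : ℝ) * e r + 2 * finrank K[X] A < m + 1) ∧
            MvPolynomial.eval P.rep Q ≠ 0 ∧ SmD f (G : ℝ) P) ∧ Height.logHeight P.rep ≤ U} = ∅ := by
          rw [Set.eq_empty_iff_forall_notMem]
          rintro P ⟨⟨h, _⟩, _⟩
          exact hG h
        show Set.Finite {P : ℙ K (Fin (m + 1) → K) | ((0 ≤ G ∧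
            (G : ℝ) * e r + 2 * finrank K[X] A < m + 1) ∧
            MvPolynomial.eval P.rep Q ≠ 0 ∧ SmD f (G : ℝ) P) ∧ Height.logHeight P.rep ≤ U} ∧
          (Set.ncard {P : ℙ K (Fin (m + 1) → K) | ((0 ≤ G ∧
            (G : ℝ) * e r + 2 * finrank K[X] A < m + 1) ∧
            MvPolynomial.eval P.rep Q ≠ 0 ∧ SmD f (G : ℝ) P) ∧ Height.logHeight P.rep ≤ U} : ℝ) ≤ _
        rw [he]
        simp
    · refine ⟨ν4, C4, hν4, fun U hU => ?_⟩
      obtain ⟨h7, h8⟩ := h4' U hU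
      exact ⟨h7.subset fun P hP => hP.2, h8⟩)
  refine ⟨r, (E0 ∪ {P | MvPolynomial.eval P.rep Q = 0}) ∪ Ep, ⟨c0, mem_ne hf hc0, hQ2 c0 hc0Q⟩,
    ?_, ?_, ⟨1 + |C4| * Real.exp (1 / ν4) + 1, fun U hU => ?_⟩, ?_, ?_, ?_, ?_⟩
  · intro P hP
    exact hQ2 P.rep fun h => hP (Or.inl (Or.inr h))
  · intro P hP P' hPP
    obtain ⟨l, hl, h⟩ := hQ1 P.rep P'.rep (fun h => hP (Or.inl (Or.inr h))) hPP
    rw [← P.mk_rep, ← P'.mk_rep, Projectivization.mk_eq_mk_iff']
    exact ⟨l, h.symm⟩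
  · -- density zero
    obtain ⟨h7, h8⟩ := h4' U hU
    obtain ⟨h9, h10⟩ := hE1 U hU
    obtain ⟨h11, h12⟩ := hEp1 U hU
    have he : {P : ℙ K (Fin (m + 1) → K) | P ∈ (E0 ∪ {P | MvPolynomial.eval P.rep Q = 0}) ∪ Ep ∧
        Height.logHeight P.rep ≤ U} = ({P | P ∈ E0 ∧ Height.logHeight P.rep ≤ U} ∪
        {P | MvPolynomial.eval P.rep Q = 0 ∧ Height.logHeight P.rep ≤ U}) ∪
        {P | P ∈ Ep ∧ Height.logHeight P.rep ≤ U} := by
      ext P
      simp only [Set.mem_union, Set.mem_ofPred_eq]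
      tauto
    refine ⟨h7.subset fun P hP => hP.2, ?_⟩
    rw [he]
    have hU1 := sqrt_bound (M := ((m + 1 : ℕ) : ℝ)) hν4 hU
    push_cast at hU1 h8 h10 h12
    calc ((((({P | P ∈ E0 ∧ Height.logHeight P.rep ≤ U} ∪
        {P | MvPolynomial.eval P.rep Q = 0 ∧ Height.logHeight P.rep ≤ U}) ∪
        {P | P ∈ Ep ∧ Height.logHeight P.rep ≤ U} :
          Set (ℙ K (Fin (m + 1) → K))).ncard : ℕ)) : ℝ) ≤
        ({P : ℙ K (Fin (m + 1) → K) | P ∈ E0 ∧ Height.logHeight P.rep ≤ U}.ncard : ℝ) +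
        ({P : ℙ K (Fin (m + 1) → K) | MvPolynomial.eval P.rep Q = 0 ∧
          Height.logHeight P.rep ≤ U}.ncard : ℝ) +
        ({P : ℙ K (Fin (m + 1) → K) | P ∈ Ep ∧ Height.logHeight P.rep ≤ U}.ncard : ℝ) := by
          exact_mod_cast (Set.ncard_union_le _ _).trans
            (Nat.add_le_add_right (Set.ncard_union_le _ _) _)
      _ ≤ Real.exp ((m + 1) * U - √U) + C4 * Real.exp ((m + 1 - ν4) * U) +
          Real.exp ((m + 1) * U - √U) := add_le_add (add_le_add h10 h8) h12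
      _ ≤ Real.exp ((m + 1) * U - √U) + |C4| * Real.exp (1 / ν4 + ((m + 1) * U - √U)) +
          Real.exp ((m + 1) * U - √U) := by
          gcongr
          exact le_abs_self C4
      _ = _ := by rw [Real.exp_add]; ring
  · -- truncated counting functions
    intro q u g w hmax hne hL S κ hκ
    obtain ⟨Ss, hSs0, hSs⟩ := Pool.Agent.N776.CV.t K A q u g hmax hne
    obtain ⟨i, hi⟩ := exists_nat_one_div_lt (show (0:ℝ) < κ / (q + 1) by positivity)
    have hind : ∀ j, ∃ U : ℝ, 0 ≤ U ∧ ∀ P : ℙ K (Fin (m + 1) → K), P ∉ E0 →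
        BadC f (g j) (Ss ∪ S) (w j - 1 / ((i : ℝ) + 1)) P → Height.logHeight P.rep ≤ U := by
      intro j
      obtain ⟨U, hU0, hU⟩ := hE2 (Sum.inl (⟨u j, g j⟩, w j, Ss ∪ S, i))
      exact ⟨U, hU0, fun P hP hb => hU P hP ⟨hL j, hb⟩⟩
    choose U hU0 hU using hind
    refine ⟨∑ j, (w j : ℝ) * U j, ?_⟩
    intro M _ _ _ φ P hPE hφ hker hkne
    have hP0 : P ∉ E0 := fun h => hPE (Or.inl (Or.inl h))
    have hht : 0 ≤ Height.logHeight P.rep := nonneg_ht P
    -- the finite sets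
    have hfin : ∀ j, {v : HeightOneSpectrum (𝓞 M) | NearC (Ss ∪ S) (g j) φ v}.Finite := by
      intro j
      have hexi : ∃ i, φ (g j i) ≠ 0 := by
        by_contra hcon
        push Not at hcon
        have hle : Ideal.span (Set.range (g j)) ≤ RingHom.ker φ := by
          rw [Ideal.span_le]
          rintro _ ⟨i, rfl⟩
          exact hcon i
        have hker_ne : RingHom.ker φ ≠ ⊤ := RingHom.ker_ne_top _
        exact hkne j ((hmax j).eq_of_le hker_ne hle).symm
      obtain ⟨i, hi⟩ := hexi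
      exact (val_fin hi).subset fun v hv => hv.2.2 i
    have hbound : ∀ j, ((w j : ℝ) - 1 / ((i : ℝ) + 1)) * Height.logHeight P.rep -
        (w j : ℝ) * U j ≤ ∑ v ∈ (hfin j).toFinset, lN v := by
      intro j
      have hd0 : (0 : ℝ) ≤ (w j : ℝ) := by positivity
      have hs0 : 0 ≤ ∑ v ∈ (hfin j).toFinset, lN v := Finset.sum_nonneg fun v _ => lN_nonneg v
      rcases lt_or_ge (∑ v ∈ (hfin j).toFinset, lN v)
        (((w j : ℝ) - 1 / ((i : ℝ) + 1)) * Height.logHeight P.rep) with hlt | hge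
      · have hb : BadC f (g j) (Ss ∪ S) (w j - 1 / ((i : ℝ) + 1)) P :=
          ⟨M, inferInstance, inferInstance, inferInstance, φ, hφ, hker, (hfin j).toFinset,
            fun v hv => (hfin j).mem_toFinset.2 hv, hlt⟩
        have h7 := hU j P hP0 hb
        have h8 := mul_le_mul_of_nonneg_left h7 hd0
        have h9 : 0 ≤ 1 / ((i : ℝ) + 1) * Height.logHeight P.rep := by positivity
        rw [sub_mul]
        linarith
      · have h9 : 0 ≤ (w j : ℝ) * U j := mul_nonneg hd0 (hU0 j)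
        linarith
    have hmono : ∀ (j : Fin q) (v : HeightOneSpectrum (𝓞 M)), NearC (Ss ∪ S) (g j) φ v →
        NearC Ss (g j) φ v ∧ NearC S (g j) φ v := by
      rintro j v ⟨h7, h8, h9⟩
      exact ⟨⟨fun p hp => h7 p (Finset.mem_union_left _ hp), h8, h9⟩,
        ⟨fun p hp => h7 p (Finset.mem_union_right _ hp), h8, h9⟩⟩
    refine ⟨Finset.univ.biUnion fun j => (hfin j).toFinset, ?_, ?_⟩
    · intro v hv
      obtain ⟨j, -, hj⟩ := Finset.mem_biUnion.1 hv
      exact ⟨j, (hmono j v ((hfin j).mem_toFinset.1 hj)).2⟩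
    · rw [Finset.sum_biUnion]
      · have h7 := Finset.sum_le_sum fun j (_ : j ∈ Finset.univ) => hbound j
        rw [Finset.sum_sub_distrib, ← Finset.sum_mul, Finset.sum_sub_distrib] at h7
        simp only [Finset.sum_const, Finset.card_univ, Fintype.card_fin, nsmul_eq_mul] at h7
        have h8 : (q : ℝ) * (1 / ((i : ℝ) + 1)) ≤ κ := by
          have hq : (0 : ℝ) ≤ q := by positivity
          calc (q : ℝ) * (1 / ((i : ℝ) + 1)) ≤ q * (κ / (q + 1)) := by gcongr
            _ ≤ (q + 1) * (κ / (q + 1)) := by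
                gcongr
                linarith
            _ = κ := by field_simp
        have h9 := mul_le_mul_of_nonneg_right h8 hht
        rw [sub_mul] at h7 ⊢
        linarith
      · intro j _ j' _ hjj
        rw [Function.onFun, Finset.disjoint_left]
        intro v hv hv'
        exact hjj (hSs M φ v j j' (hmono j v ((hfin j).mem_toFinset.1 hv)).1
          (hmono j' v ((hfin j').mem_toFinset.1 hv')).1)
  · -- discriminants
    intro G hG0 hG
    obtain ⟨G', hG1, hG2⟩ : ∃ G' : ℚ, G ≤ G' ∧ (G' : ℝ) * e r + 2 * finrank K[X] A < m + 1 := by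
      rcases eq_or_lt_of_le (he2 r) with her | her
      · obtain ⟨G', hG'⟩ := exists_rat_gt G
        refine ⟨G', hG'.le, ?_⟩
        rw [← her] at hG ⊢
        linarith
      · have h7 : G < (m + 1 - 2 * finrank K[X] A) / e r := by
          rw [lt_div_iff₀ her]
          linarith
        obtain ⟨G', hG1, hG2⟩ := exists_rat_btwn h7
        refine ⟨G', hG1.le, ?_⟩
        rw [lt_div_iff₀ her] at hG2
        linarith
    have hG'0 : (0 : ℝ) ≤ G' := hG0.trans hG1
    obtain ⟨U, hU0, hU⟩ := hE2 (Sum.inr (Sum.inl G'))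
    refine ⟨G * U, ?_⟩
    intro M _ _ _ φ P hPE hφ hker
    have hP0 : P ∉ E0 := fun h => hPE (Or.inl (Or.inl h))
    have hPQ : MvPolynomial.eval P.rep Q ≠ 0 := fun h => hPE (Or.inl (Or.inr h))
    have hht : 0 ≤ Height.logHeight P.rep := nonneg_ht P
    rcases lt_or_ge (Real.log |(discr M : ℝ)|) ((G' : ℝ) * Height.logHeight P.rep) with hlt | hge
    · have h7 : Height.logHeight P.rep ≤ U := hU P hP0 ⟨⟨by exact_mod_cast hG'0, hG2⟩, hPQ,
        ⟨M, inferInstance, inferInstance, inferInstance, φ, hφ, hker, hlt⟩⟩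
      have h8 := mul_le_mul_of_nonneg_left h7 hG0
      have h9 : 0 ≤ Real.log |(discr M : ℝ)| := by
        apply Real.log_nonneg
        have h10 : discr M ≠ 0 := discr_ne_zero M
        have h11 : 1 ≤ |discr M| := Int.one_le_abs h10
        exact_mod_cast h11
      linarith
    · have h8 := mul_le_mul_of_nonneg_right hG1 hht
      have h9 := mul_nonneg hG0 hU0
      linarith
  · -- the proximity functions
    intro p hp S hS κ hκ
    obtain ⟨C, hC⟩ := hEp2 p hp S hS κ hκ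
    exact ⟨C, fun M _ _ _ φ P hPE hφ hker hne => hC M φ P (fun h => hPE (Or.inr h)) hφ hker hne⟩
  · -- the height
    obtain ⟨C, hC⟩ := Pool.Agent.N265.CV.t K A (m + 1) f hf
    exact ⟨C, fun M _ _ _ φ P hφ hker => hC M φ P.rep hφ hker P.rep_nonzero⟩

end Pool.Agent.V8H3.Main3
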