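import Mathlib
import Pool.Agent.N751.CV.Stm
import Pool.Agent.Helper259.HtExt
import Pool.Agent.N262.DR.Deg

set_option autoImplicit false

namespace Pool.Agent.V8H3.ProxExt

open NumberField IsDedekindDomain Module Polynomial Pool.Agent.N753.DR

theorem log_mk {M : Type} [Field M] [NumberField M] (v : HeightOneSpectrum (𝓞 M)) {z : M}
    (a : Multiplicative ℤ) (h : v.valuation M z = (a : WithZero (Multiplicative ℤ))) :
    Real.log (FinitePlace.mk v z) = (Multiplicative.toAdd a : ℤ) * lN v := by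
  have h0 : v.valuation M z ≠ 0 := by rw [h]; exact WithZero.coe_ne_zero
  have h1 : WithZero.unzero h0 = a := by
    apply WithZero.coe_injective
    rw [WithZero.coe_unzero, h]
  rw [FinitePlace.mk_apply, FinitePlace.norm_embedding', WithZeroMulInt.toNNReal_neg_apply _ h0, h1]
  push_cast
  rw [Real.log_zpow]
  rfl

variable {M L : Type} [Field M] [NumberField M] [Field L] [NumberField L] [Algebra M L]

theorem log_fp (v : HeightOneSpectrum (𝓞 M)) (w : HeightOneSpectrum (𝓞 L))
    [w.asIdeal.LiesOver v.asIdeal] (z : M) :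
    Real.log (FinitePlace.mk w (algebraMap M L z)) * lN v =
      (v.asIdeal.ramificationIdx' w.asIdeal * lN w) * Real.log (FinitePlace.mk v z) := by
  rcases eq_or_ne z 0 with rfl | hz
  · rw [map_zero, map_zero, map_zero, Real.log_zero, zero_mul, mul_zero]
  · have h0 : v.valuation M z ≠ 0 := (Valuation.ne_zero_iff _).2 hz
    obtain ⟨a, ha⟩ := WithZero.ne_zero_iff_exists.1 h0
    have h1 := HeightOneSpectrum.valuation_liesOver L v w z
    rw [← ha, ← WithZero.coe_pow] at h1
    have h2 : (Multiplicative.toAdd (a ^ v.asIdeal.ramificationIdx' w.asIdeal) : ℤ) =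
        (v.asIdeal.ramificationIdx' w.asIdeal : ℤ) * (Multiplicative.toAdd a : ℤ) := by
      rw [toAdd_pow, nsmul_eq_mul]
    rw [log_mk v a ha.symm, log_mk w _ h1.symm, h2, Int.cast_mul, Int.cast_natCast]
    ring

/-- the constant of proportionality -/
noncomputable def cw (v : HeightOneSpectrum (𝓞 M)) (w : HeightOneSpectrum (𝓞 L)) : ℝ :=
  (v.asIdeal.ramificationIdx' w.asIdeal * lN w) / lN v

theorem lN_pos {F : Type} [Field F] [NumberField F] (v : HeightOneSpectrum (𝓞 F)) : 0 < lN v := by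
  refine Real.log_pos ?_
  exact_mod_cast NumberField.HeightOneSpectrum.one_lt_absNorm v

theorem cw_nonneg (v : HeightOneSpectrum (𝓞 M)) (w : HeightOneSpectrum (𝓞 L)) : 0 ≤ cw v w :=
  div_nonneg (mul_nonneg (Nat.cast_nonneg _) (lN_pos w).le) (lN_pos v).le

theorem log_fp' (v : HeightOneSpectrum (𝓞 M)) (w : HeightOneSpectrum (𝓞 L))
    [w.asIdeal.LiesOver v.asIdeal] (z : M) :
    Real.log (FinitePlace.mk w (algebraMap M L z)) = cw v w * Real.log (FinitePlace.mk v z) := by
  have h := log_fp v w z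
  unfold cw
  rw [div_mul_eq_mul_div, ← h, mul_div_cancel_right₀ _ (lN_pos v).ne']

theorem log_max_one (a : ℝ) (ha : 0 ≤ a) : Real.log (max a 1) = max (Real.log a) 0 := by
  rcases le_total a 1 with h | h
  · rw [max_eq_right h, Real.log_one, max_eq_right (Real.log_nonpos ha h)]
  · rw [max_eq_left h, max_eq_left (Real.log_nonneg h)]

/-- the local heights are proportional -/
theorem loc (v : HeightOneSpectrum (𝓞 M)) (w : HeightOneSpectrum (𝓞 L))
    [w.asIdeal.LiesOver v.asIdeal] (d : ℕ) (y z : M) :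
    Real.log (max (FinitePlace.mk w (algebraMap M L y)) 1 ^ d /
      FinitePlace.mk w (algebraMap M L z)) =
      cw v w * Real.log (max (FinitePlace.mk v y) 1 ^ d / FinitePlace.mk v z) := by
  rcases eq_or_ne z 0 with rfl | hz
  · simp
  have hz' : algebraMap M L z ≠ 0 := (_root_.map_ne_zero _).2 hz
  have h1 : ∀ (a : ℝ), (max a 1 : ℝ) ^ d ≠ 0 := fun a =>
    (pow_pos (lt_of_lt_of_le one_pos (le_max_right _ _)) _).ne'
  rw [Real.log_div (h1 _) (FinitePlace.pos_iff.2 hz').ne', Real.log_div (h1 _)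
    (FinitePlace.pos_iff.2 hz).ne', Real.log_pow, Real.log_pow,
    log_max_one _ (apply_nonneg _ _), log_max_one _ (apply_nonneg _ _), log_fp' v w, log_fp' v w,
    mul_sub]
  have h2 : max (cw v w * Real.log (FinitePlace.mk v y)) 0 =
      cw v w * max (Real.log (FinitePlace.mk v y)) 0 := by
    rw [mul_max_of_nonneg _ _ (cw_nonneg v w), mul_zero]
  rw [h2]
  ring


theorem sum_cw (v : HeightOneSpectrum (𝓞 M)) (T : Finset (HeightOneSpectrum (𝓞 L)))
    (hT : ∀ w, w ∈ T ↔ w.asIdeal.LiesOver v.asIdeal) : ∑ w ∈ T, cw v w = finrank M L := by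
  classical
  have hmax : v.asIdeal.IsMaximal := v.isMaximal
  obtain ⟨I, hI'⟩ : ∃ I : Finset (Ideal (𝓞 L)), I = (v.asIdeal.primesOver (𝓞 L)).toFinset := ⟨_, rfl⟩
  have hI : ∀ Q, Q ∈ I ↔ Q.IsPrime ∧ Q.LiesOver v.asIdeal := by
    intro Q
    rw [hI', Set.mem_toFinset]
    rfl
  have hbot : ∀ Q, Q ∈ I → Q ≠ ⊥ := by
    intro Q hQ
    obtain ⟨h1, h2⟩ := (hI Q).1 hQ
    exact Ideal.ne_bot_of_liesOver_of_ne_bot v.ne_bot Q
  have hmap : Ideal.map (algebraMap (𝓞 M) (𝓞 L)) v.asIdeal =
      ∏ Q ∈ I, Q ^ Q.ramificationIdx (𝓞 M) := by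
    rw [hI']
    exact Ideal.map_algebraMap_eq_finsetProd_pow v.ne_bot
  have hfr : Module.finrank (𝓞 M) (𝓞 L) = Module.finrank M L :=
    (IsFractionRing.finrank_eq (𝓞 M) M (𝓞 L) L).symm
  have s2 : (Module.finrank M L : ℝ) * Real.log (Ideal.absNorm v.asIdeal) =
      ∑ Q ∈ I, (Q.ramificationIdx (𝓞 M) : ℝ) * Real.log (Ideal.absNorm Q) := by
    have h1 := Ideal.absNorm_algebraMap (𝓞 M) (𝓞 L) v.asIdeal
    rw [hmap, map_prod, hfr] at h1
    have h2 : (∏ Q ∈ I, ((Ideal.absNorm Q : ℝ)) ^ Q.ramificationIdx (𝓞 M)) =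
        (Ideal.absNorm v.asIdeal : ℝ) ^ Module.finrank M L := by
      have h3 := congrArg (fun n : ℕ => (n : ℝ)) h1
      simp only [Nat.cast_prod, Nat.cast_pow, map_pow] at h3
      exact h3
    rw [← Real.log_pow, ← h2, Real.log_prod]
    · refine Finset.sum_congr rfl fun Q _ => ?_
      rw [Real.log_pow]
    · intro Q hQ
      refine pow_ne_zero _ ?_
      rw [Nat.cast_ne_zero]
      exact Ideal.absNorm_eq_zero_iff.not.2 (hbot Q hQ)
  have hinj : Set.InjOn (fun w : HeightOneSpectrum (𝓞 L) => w.asIdeal) ↑T :=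
    fun w _ w' _ h => HeightOneSpectrum.ext h
  have himg : T.image (fun w : HeightOneSpectrum (𝓞 L) => w.asIdeal) = I := by
    ext Q
    rw [Finset.mem_image, hI]
    constructor
    · rintro ⟨w, hw, rfl⟩
      exact ⟨w.isPrime, (hT w).1 hw⟩
    · rintro ⟨h1, h2⟩
      exact ⟨⟨Q, h1, hbot Q ((hI Q).2 ⟨h1, h2⟩)⟩, (hT _).2 h2, rfl⟩
  rw [← himg, Finset.sum_image hinj] at s2
  have h3 : ∑ w ∈ T, cw v w * lN v = Module.finrank M L * lN v := by
    rw [show Module.finrank M L * lN v =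
      (Module.finrank M L : ℝ) * Real.log (Ideal.absNorm v.asIdeal) from rfl, s2]
    refine Finset.sum_congr rfl fun w hw => ?_
    have hov : w.asIdeal.LiesOver v.asIdeal := (hT w).1 hw
    have h4 : v.asIdeal.ramificationIdx' w.asIdeal = w.asIdeal.ramificationIdx (𝓞 M) := by
      refine Ideal.ramificationIdx'_eq_ramificationIdx _ _ v.ne_bot
    unfold cw
    rw [div_mul_cancel₀ _ (lN_pos v).ne', h4]
    rfl
  rw [← Finset.sum_mul] at h3
  exact mul_right_cancel₀ (lN_pos v).ne' h3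

theorem sum_inf (G : InfinitePlace M → ℝ) :
    ∑ w : InfinitePlace L, (w.mult : ℝ) * G (w.comap (algebraMap M L)) =
      finrank M L * ∑ v : InfinitePlace M, (v.mult : ℝ) * G v := by
  have h := Pool.Agent.Helper259.HtExt.prod_inf_ext (K := M) (L := L) fun v => Real.exp (G v)
  have h1 : Real.exp (∑ w : InfinitePlace L, (w.mult : ℝ) * G (w.comap (algebraMap M L))) =
      Real.exp (finrank M L * ∑ v : InfinitePlace M, (v.mult : ℝ) * G v) := by
    rw [Real.exp_sum, Real.exp_nat_mul, Real.exp_sum]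
    simp only [Real.exp_nat_mul]
    exact h
  exact Real.exp_injective h1

open Pool.Agent.N262.DR (over_eq badS_finite) in
open Pool.Agent.N751.CV (prox) in
theorem prox_ext {K : Type} [Field K] [Algebra K M] [Algebra K L] [IsScalarTower K M L]
    (S : Finset ℕ) (hS : ∀ q ∈ S, q.Prime) (p : K[X]) (y : M) :
    prox S p (algebraMap M L y) = finrank M L * prox S p y := by
  classical
  unfold prox
  have hae : aeval (algebraMap M L y) p = algebraMap M L (aeval y p) :=
    aeval_algebraMap_apply L y p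
  rw [hae, mul_add, ← sum_inf (L := L)]
  congr 1
  set G : HeightOneSpectrum (𝓞 M) → ℝ := fun v =>
    Real.log (max (FinitePlace.mk v y) 1 ^ p.natDegree / FinitePlace.mk v (aeval y p)) with hG
  have hSM : ∀ v : HeightOneSpectrum (𝓞 M), v ∈ (badS_finite (K := M) S).toFinset ↔
      ∃ q ∈ S, (q : 𝓞 M) ∈ v.asIdeal := by
    intro v
    rw [Set.Finite.mem_toFinset]
    exact ⟨fun ⟨q, h1, _, h2⟩ => ⟨q, h1, h2⟩, fun ⟨q, h1, h2⟩ => ⟨q, h1, (hS q h1).ne_zero, h2⟩⟩
  have hSL : ∀ w : HeightOneSpectrum (𝓞 L), w ∈ (badS_finite (K := L) S).toFinset ↔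
      ∃ q ∈ S, (q : 𝓞 L) ∈ w.asIdeal := by
    intro v
    rw [Set.Finite.mem_toFinset]
    exact ⟨fun ⟨q, h1, _, h2⟩ => ⟨q, h1, h2⟩, fun ⟨q, h1, h2⟩ => ⟨q, h1, (hS q h1).ne_zero, h2⟩⟩
  set VM := (badS_finite (K := M) S).toFinset with hVM
  set VL := (badS_finite (K := L) S).toFinset with hVL
  have hund : ∀ w : HeightOneSpectrum (𝓞 L), w ∈ VL ↔ HeightOneSpectrum.under (𝓞 M) w ∈ VM := by
    intro w
    rw [hSL, hSM]
    refine exists_congr fun q => and_congr_right fun _ => ?_
    rw [HeightOneSpectrum.under_asIdeal, Ideal.under_def, Ideal.mem_comap, map_natCast]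
  have e1 : (∑ᶠ w : HeightOneSpectrum (𝓞 L), if ∃ q ∈ S, (q : 𝓞 L) ∈ w.asIdeal then
      Real.log (max (FinitePlace.mk w (algebraMap M L y)) 1 ^ p.natDegree /
        FinitePlace.mk w (algebraMap M L (aeval y p))) else 0) =
      ∑ w ∈ VL, cw (HeightOneSpectrum.under (𝓞 M) w) w * G (HeightOneSpectrum.under (𝓞 M) w) := by
    rw [finsum_eq_sum_of_support_subset (s := VL)]
    · refine Finset.sum_congr rfl fun w hw => ?_
      rw [if_pos ((hSL w).1 hw)]
      have : w.asIdeal.LiesOver (HeightOneSpectrum.under (𝓞 M) w).asIdeal := by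
        rw [HeightOneSpectrum.under_asIdeal]
        infer_instance
      exact loc _ w _ y _
    · intro w hw
      rw [Function.mem_support] at hw
      by_contra h
      exact hw (if_neg fun h1 => h ((hSL w).2 h1))
  have e2 : (∑ᶠ v : HeightOneSpectrum (𝓞 M), if ∃ q ∈ S, (q : 𝓞 M) ∈ v.asIdeal then
      Real.log (max (FinitePlace.mk v y) 1 ^ p.natDegree /
        FinitePlace.mk v (aeval y p)) else 0) = ∑ v ∈ VM, G v := by
    rw [finsum_eq_sum_of_support_subset (s := VM)]
    · refine Finset.sum_congr rfl fun v hv => ?_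
      rw [if_pos ((hSM v).1 hv)]
    · intro v hv
      rw [Function.mem_support] at hv
      by_contra h
      exact hv (if_neg fun h1 => h ((hSM v).2 h1))
  rw [e1, e2, ← Finset.sum_fiberwise_of_maps_to (s := VL) (t := VM)
    (g := fun w => HeightOneSpectrum.under (𝓞 M) w) fun w hw => (hund w).1 hw, Finset.mul_sum]
  refine Finset.sum_congr rfl fun v hv => ?_
  rw [← sum_cw v (VL.filter fun w => HeightOneSpectrum.under (𝓞 M) w = v) ?_, Finset.sum_mul]
  · refine Finset.sum_congr rfl fun w hw => ?_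
    rw [(Finset.mem_filter.1 hw).2]
  · intro w
    rw [Finset.mem_filter]
    constructor
    · rintro ⟨-, rfl⟩
      rw [HeightOneSpectrum.under_asIdeal]
      infer_instance
    · intro h
      have h1 := over_eq h
      exact ⟨(hund w).2 (by rw [h1]; exact hv), h1⟩

end Pool.Agent.V8H3.ProxExt
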