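import Mathlib
import Pool.Agent.V8H3.Main3
import Pool.Agent.V8H3.ProxExt
import Pool.Agent.N395.CV.KeyB
import Pool.Agent.N803.PX.Ex
import Pool.Agent.Y729.RV.Base
import Pool.Agent.Y729.AE.Ext

/-!
# Covers of a curve, one exceptional set for a linear system
-/

set_option autoImplicit false

namespace Pool.Agent.V8H3.Cover3

open NumberField IsDedekindDomain Module Polynomial Pool.Agent.N753.DR
open scoped LinearAlgebra.Projectivization
open Pool.Agent.V8H3.Main3 (HasWt main3)
open Pool.Agent.N751.CV (prox)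

/-- the prime ideals which contain a given polynomial -/
theorem fin_max (K A : Type) [Field K] [CommRing A] [IsDomain A] [Algebra K A]
    [Algebra K[X] A] [IsScalarTower K K[X] A] [Module.Finite K[X] A] [FaithfulSMul K[X] A]
    (G : K[X]) (hG : G ≠ 0) :
    {I : Ideal A | I.IsPrime ∧ algebraMap K[X] A G ∈ I}.Finite := by
  classical
  obtain ⟨e⟩ := Pool.Agent.N803.PX.exists_equiv (K := K) (A := A) G
  have hfd0 : FiniteDimensional K (K[X] ⧸ Ideal.span {G}) :=
    (AdjoinRoot.powerBasis hG).finite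
  have hfd : FiniteDimensional K (A ⧸ Ideal.span {algebraMap K[X] A G}) :=
    Module.Finite.equiv e.symm
  have hart : IsArtinianRing (A ⧸ Ideal.span {algebraMap K[X] A G}) :=
    isArtinian_of_tower K inferInstance
  have hfin : Finite (PrimeSpectrum (A ⧸ Ideal.span {algebraMap K[X] A G})) := inferInstance
  let π := Ideal.Quotient.mk (Ideal.span {algebraMap K[X] A G})
  have hsub : {I : Ideal A | I.IsPrime ∧ algebraMap K[X] A G ∈ I} ⊆
      Set.range fun P : PrimeSpectrum (A ⧸ Ideal.span {algebraMap K[X] A G}) =>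
        P.asIdeal.comap π := by
    rintro I ⟨hI, hGI⟩
    have hle : Ideal.span {algebraMap K[X] A G} ≤ I := by
      rw [Ideal.span_le, Set.singleton_subset_iff]
      exact hGI
    have hker : RingHom.ker π ≤ I := by
      rw [Ideal.mk_ker]
      exact hle
    have hp : (I.map π).IsPrime := Ideal.map_isPrime_of_surjective Ideal.Quotient.mk_surjective hker
    refine ⟨⟨I.map π, hp⟩, ?_⟩
    show (I.map π).comap π = I
    rw [Ideal.comap_map_of_surjective π Ideal.Quotient.mk_surjective, sup_eq_left]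
    exact hker
  exact (Set.finite_range _).subset hsub

theorem ldiscr_nonneg (F : Type) [Field F] [NumberField F] : 0 ≤ Real.log |(discr F : ℝ)| := by
  refine Real.log_nonneg ?_
  have h : discr F ≠ 0 := discr_ne_zero F
  have h2 : (1 : ℤ) ≤ |discr F| := Int.one_le_abs h
  exact_mod_cast h2

theorem lN_nonneg' {K : Type} [Field K] [NumberField K] (v : HeightOneSpectrum (𝓞 K)) :
    0 ≤ lN v := (Pool.Agent.V8H3.ProxExt.lN_pos v).le

theorem arith1 {W0 G κ h H d pr n D' ε C1 C2 C3 C4 Cp LM SW LL SWL SN H0 : ℝ}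
    (f1 : d * pr ≤ d * (κ / 4 * h + Cp)) (f2 : d * ((W0 - κ / 4) * h) ≤ d * (SW + C1))
    (f5 : d * (G * h) ≤ d * (LM + C2)) (hbc : d * (LM + SW) ≤ LL + SWL)
    (hk : SWL ≤ SN + (D' + ε) * (d * H) + n * C4)
    (g1 : ε * (d * H) ≤ (κ / 4) * (d * h) + ε * (n * |C3|)) (c1 : d * C1 ≤ n * |C1|)
    (c2 : d * C2 ≤ n * |C2|) (cp : d * Cp ≤ n * |Cp|) (g2 : 0 ≤ n * ((W0 + G) * H0))
    (g4 : 0 ≤ κ * (d * h)) :
    d * pr + (W0 + G - κ) * (d * h) ≤ SN + D' * (d * H) + LL +
      n * (|C1| + |C2| + |Cp| + ε * |C3| + C4 + (W0 + G) * H0) := by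
  linarith

theorem arith2 {W0 G κ h H d pr n D' ε C1 C2 C3 C4 Cp LL SN H0 : ℝ}
    (f1 : d * pr ≤ d * (κ / 4 * h + Cp))
    (g1 : (W0 + G) * (d * h) ≤ n * ((W0 + G) * H0)) (cp : d * Cp ≤ n * |Cp|)
    (c1 : 0 ≤ n * |C1|) (c2 : 0 ≤ n * |C2|) (g3 : 0 ≤ ε * (n * |C3|)) (c4 : 0 ≤ n * C4)
    (hcc : 0 ≤ SN) (hDH : 0 ≤ D' * (d * H)) (hDL : 0 ≤ LL) (g4 : 0 ≤ κ * (d * h)) :
    d * pr + (W0 + G - κ) * (d * h) ≤ SN + D' * (d * H) + LL +
      n * (|C1| + |C2| + |Cp| + ε * |C3| + C4 + (W0 + G) * H0) := by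
  linarith

/-- the point `x` is near one of the closed points `g_j` and near `y_j` at `v` -/
def Hits {K A A' : Type} [Field K] [CommRing A] [CommRing A'] [Algebra K A'] [Algebra K[X] A']
    (π : A → A') {q : ℕ} {u s : Fin q → ℕ} (g : ∀ j, Fin (u j) → A) (y : ∀ j, Fin (s j) → A')
    {L : Type} [Field L] [NumberField L] [Algebra K L] (S : Finset ℕ) (P : A' →ₐ[K] L)
    (v : HeightOneSpectrum (𝓞 L)) : Prop :=
  (∀ p ∈ S, (p : 𝓞 L) ∉ v.asIdeal) ∧ v.valuation L (P (algebraMap K[X] A' X)) ≤ 1 ∧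
    ∃ j, (∀ l, v.valuation L (P (π (g j l))) < 1) ∧ ∀ i, v.valuation L (P (y j i)) < 1

theorem cover3 : ∃ e : ℕ → ℝ, (∀ c : ℝ, 1 / (8 * (Real.log 2) ^ 2) < c →
      ∀ᶠ n : ℕ in Filter.atTop, e n ≤ c * (Real.log n) ^ 2) ∧ (∀ n, 0 ≤ e n) ∧
  ∀ (K A : Type) [Field K] [NumberField K] [CommRing A] [IsDomain A]
    [Algebra K A] [Algebra K[X] A] [IsScalarTower K K[X] A] [Module.Finite K[X] A]
    [FaithfulSMul K[X] A], IsDomain (TensorProduct K (AlgebraicClosure K) A) →
    ∀ (m : ℕ), 3 ≤ finrank ℚ K * (m + 1) → ∀ (f : Fin (m + 1) → A), LinearIndependent K f →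
    Ideal.span (Set.range f) = ⊤ →
  ∃ (r : ℕ) (E : Set (ℙ K (Fin (m + 1) → K))),
    (∃ c : Fin (m + 1) → K, mem f c ≠ 0 ∧ finrank K (A ⧸ Ideal.span {mem f c}) = r) ∧
    (∀ c ∉ E, finrank K (A ⧸ Ideal.span {mem f c.rep}) = r) ∧
    (∀ c ∉ E, ∀ c' : ℙ K (Fin (m + 1) → K),
      Ideal.span {mem f c.rep} = Ideal.span {mem f c'.rep} → c' = c) ∧
    (∃ C : ℝ, ∀ U : ℝ, 0 ≤ U →
      {c : ℙ K (Fin (m + 1) → K) | c ∈ E ∧ Height.logHeight c.rep ≤ U}.Finite ∧
      ({c : ℙ K (Fin (m + 1) → K) | c ∈ E ∧ Height.logHeight c.rep ≤ U}.ncard : ℝ) ≤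
        C * Real.exp ((m + 1) * U - √U)) ∧
    -- all covers
    (∀ (A' : Type) [CommRing A'] [IsDedekindDomain A'] [Algebra K A'] [Algebra K[X] A']
      [IsScalarTower K K[X] A'] [Module.Finite K[X] A'] [FaithfulSMul K[X] A']
      (π : A →ₐ[K[X]] A') (q : ℕ) (u s w : Fin q → ℕ) (g : ∀ j, Fin (u j) → A)
      (y : ∀ j, Fin (s j) → A') (F : Fin q → Ideal A'),
      (∀ j, (Ideal.span (Set.range (g j))).IsMaximal) →
      (∀ i j, i ≠ j → Ideal.span (Set.range (g i)) ≠ Ideal.span (Set.range (g j))) →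
      (∀ j, HasWt (K := K) f (g j) (w j)) →
      (∀ j, F j ≠ ⊥) →
      (∀ j i, ∀ a ∈ F j, y j i * a ∈ (Ideal.span (Set.range fun l => π (g j l))).radical) →
      ∀ (p : K[X]), p.Monic → ∀ (S : Finset ℕ), (∀ l ∈ S, l.Prime) → ∀ (G κ : ℝ), 0 ≤ G →
      G * e r + 2 * finrank K[X] A < m + 1 → 0 < κ → ∃ C : ℝ,
        ∀ (L : Type) [Field L] [NumberField L] [Algebra K L] (P : A' →ₐ[K] L)
          (c : ℙ K (Fin (m + 1) → K)), c ∉ E →
          RingHom.ker (P.comp (π.restrictScalars K)) = Ideal.span {mem f c.rep} →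
          (∀ j, RingHom.ker (P.comp (π.restrictScalars K)) ≠ Ideal.span (Set.range (g j))) →
          aeval (P (algebraMap K[X] A' X)) p ≠ 0 →
          prox S p (P (algebraMap K[X] A' X)) +
            (∑ j, (w j : ℝ) + G - κ) * (finrank K L / r * Height.logHeight c.rep) ≤
          (∑ᶠ v : HeightOneSpectrum (𝓞 L), open Classical in if Hits π g y S P v then lN v else 0) +
            (∑ j, (finrank K (A' ⧸ F j) : ℝ)) / finrank K[X] A' *
              Height.logHeight₁ (P (algebraMap K[X] A' X)) +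
            Real.log |(discr L : ℝ)| + finrank ℚ L * C) ∧
    -- the height
    ∃ C : ℝ, ∀ (L : Type) [Field L] [NumberField L] [Algebra K L] (φ : A →ₐ[K] L)
      (c : ℙ K (Fin (m + 1) → K)), c ∉ E → RingHom.ker φ = Ideal.span {mem f c.rep} →
      Height.logHeight₁ (φ (algebraMap K[X] A X)) ≤
        finrank K[X] A * (finrank K L / r * Height.logHeight c.rep) + finrank ℚ L * C := by
  classical
  obtain ⟨e, he1, he2, hmain⟩ := main3
  refine ⟨e, he1, he2, ?_⟩
  intro K A _ _ _ _ _ _ _ _ _ hdom m hm3 f hf htop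
  obtain ⟨r, E, hr1, hr2, huniq, hdens, hcnt, hdisc, hprox, C3, hC3⟩ := hmain K A hdom m hm3 f hf htop
  -- the residue field
  have hres : ∀ (L : Type) [Field L] [NumberField L] [Algebra K L] (φ : A →ₐ[K] L)
      (c : ℙ K (Fin (m + 1) → K)), c ∉ E → RingHom.ker φ = Ideal.span {mem f c.rep} →
      ∃ (M : Type) (_ : Field M) (_ : NumberField M) (_ : Algebra K M) (_ : Algebra M L)
        (_ : IsScalarTower K M L) (φ' : A →ₐ[K] M), Function.Surjective φ' ∧
        RingHom.ker φ' = Ideal.span {mem f c.rep} ∧ (∀ a, algebraMap M L (φ' a) = φ a) ∧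
        (finrank M L : ℝ) = finrank K L / r ∧ (finrank M L : ℝ) ≤ finrank ℚ L := by
    intro L _ _ _ φ c hc hker
    have hfdL : FiniteDimensional K L := FiniteDimensional.right ℚ K L
    let M : IntermediateField K L := φ.range.toIntermediateField fun x hx =>
      φ.range.inv_mem_of_algebraic (x := ⟨x, hx⟩) (Algebra.IsAlgebraic.isAlgebraic _)
    have hM : ∀ a, φ a ∈ M := fun a => ⟨a, rfl⟩
    let φ' : A →ₐ[K] M := φ.codRestrict M.toSubalgebra hM
    have hval : ∀ a, ((φ' a : M) : L) = φ a := fun a => rfl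
    have hsurj : Function.Surjective φ' := by
      rintro ⟨x, a, ha⟩
      exact ⟨a, Subtype.ext ha⟩
    have hker' : RingHom.ker φ' = Ideal.span {mem f c.rep} := by
      rw [← hker]
      ext a
      rw [RingHom.mem_ker, RingHom.mem_ker]
      constructor
      · intro h
        rw [← hval a, h]
        rfl
      · intro h
        exact Subtype.ext (by rw [hval a, h]; rfl)
    have h1 : finrank K M = r := by
      rw [Pool.Agent.N297.CV.MainC.finrank_eq' φ' hsurj hker']
      exact hr2 c hc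
    have hfdM : FiniteDimensional M L := FiniteDimensional.right K M L
    have h2 : finrank K M * finrank M L = finrank K L := finrank_mul_finrank K M L
    have hr0 : 0 < finrank K M := finrank_pos
    have h3 : finrank ℚ K * finrank K L = finrank ℚ L := finrank_mul_finrank ℚ K L
    have hn0 : 0 < finrank ℚ K := finrank_pos
    refine ⟨M, inferInstance, inferInstance, inferInstance, inferInstance, inferInstance, φ',
      hsurj, hker', fun a => rfl, ?_, ?_⟩
    · rw [eq_div_iff (by rw [← h1]; exact_mod_cast hr0.ne'), ← h2, h1]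
      push_cast
      ring
    · have h4 : finrank M L ≤ finrank ℚ L := by
        rw [← h3, ← h2]
        calc finrank M L = 1 * (1 * finrank M L) := by ring
          _ ≤ finrank ℚ K * (finrank K M * finrank M L) :=
            Nat.mul_le_mul hn0 (Nat.mul_le_mul_right _ hr0)
      exact_mod_cast h4
  refine ⟨r, E, hr1, hr2, huniq, hdens, ?_, ⟨|C3|, ?_⟩⟩
  swap
  · -- the height
    intro L _ _ _ φ c hc hker
    obtain ⟨M, _, _, _, _, _, φ', hsurj, hker', hval, hd, hdL⟩ := hres L φ c hc hker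
    have h1 := hC3 M φ' c hsurj hker'
    have h2 : Height.logHeight₁ (φ (algebraMap K[X] A X)) =
        finrank M L * Height.logHeight₁ (φ' (algebraMap K[X] A X)) := by
      rw [← hval]
      exact Pool.Agent.Y729.AE.ht_ext _
    have hd0 : (0 : ℝ) ≤ finrank M L := Nat.cast_nonneg _
    rw [h2, ← hd]
    have h3 := mul_le_mul_of_nonneg_left h1 hd0
    have h4 : (finrank M L : ℝ) * C3 ≤ finrank ℚ L * |C3| :=
      (mul_le_mul_of_nonneg_left (le_abs_self C3) hd0).trans
        (mul_le_mul_of_nonneg_right hdL (abs_nonneg _))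
    linarith
  intro A' _ _ _ _ _ _ _ π q u s w g y F hmax hne hwt hF hyF p hp S hS G κ hG hGe hκ
  set N : ℝ := (finrank K[X] A : ℝ) with hN
  have hN0 : 0 ≤ N := Nat.cast_nonneg _
  set D' : ℝ := (∑ j, (finrank K (A' ⧸ F j) : ℝ)) / finrank K[X] A' with hD'
  have hD'0 : 0 ≤ D' := div_nonneg (Finset.sum_nonneg fun _ _ => Nat.cast_nonneg _)
    (Nat.cast_nonneg _)
  set ε : ℝ := κ / (4 * (N + 1)) with hε
  have hε0 : 0 < ε := by positivity
  obtain ⟨T, C4, Gp, hT, hC4, hGp, hkey⟩ := Pool.Agent.N395.CV.t K A A' π q u s g y F hF hyF ε hε0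
  obtain ⟨C1, hC1⟩ := hcnt q u g w hmax hne hwt (S ∪ T.primeFactors) (κ / 4) (by positivity)
  obtain ⟨C2, hC2⟩ := hdisc G hG hGe
  obtain ⟨Cp, hCp⟩ := hprox p hp S hS (κ / 4) (by positivity)
  -- the exceptional points
  have hGp' : Gp.map (algebraMap ℚ K) ≠ 0 := by
    rwa [Ne, Polynomial.map_eq_zero]
  have hfin := fin_max K A (Gp.map (algebraMap ℚ K)) hGp'
  set Z := hfin.toFinset with hZ
  obtain ⟨hh, hhh⟩ : ∃ hh : Ideal A → ℝ, hh = fun I =>
      if h : ∃ c : ℙ K (Fin (m + 1) → K), c ∉ E ∧ Ideal.span {mem f c.rep} = I then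
        Height.logHeight h.choose.rep else 0 := ⟨_, rfl⟩
  have hhpos : ∀ I, 0 ≤ hh I := by
    intro I
    rw [hhh]
    dsimp only
    split_ifs
    · exact Height.logHeight_nonneg _
    · exact le_rfl
  set H0 : ℝ := ∑ I ∈ Z, hh I with hH0
  have hH00 : 0 ≤ H0 := Finset.sum_nonneg fun I _ => hhpos I
  have hbd : ∀ c : ℙ K (Fin (m + 1) → K), c ∉ E → Ideal.span {mem f c.rep} ∈ Z →
      Height.logHeight c.rep ≤ H0 := by
    intro c hc hcZ
    have h1 : hh (Ideal.span {mem f c.rep}) = Height.logHeight c.rep := by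
      rw [hhh]
      dsimp only
      have hex : ∃ c' : ℙ K (Fin (m + 1) → K), c' ∉ E ∧
        Ideal.span {mem f c'.rep} = Ideal.span {mem f c.rep} := ⟨c, hc, rfl⟩
      rw [dif_pos hex]
      have h2 := huniq hex.choose hex.choose_spec.1 c hex.choose_spec.2
      rw [← h2]
    rw [← h1, hH0]
    exact Finset.single_le_sum (fun I _ => hhpos I) hcZ
  set W0 : ℝ := ∑ j, (w j : ℝ) with hW0
  have hW00 : 0 ≤ W0 := Finset.sum_nonneg fun _ _ => Nat.cast_nonneg _
  refine ⟨|C1| + |C2| + |Cp| + ε * |C3| + C4 + (W0 + G) * H0, ?_⟩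
  intro L _ _ _ P c hc hker hkne hpne
  obtain ⟨M, _, _, _, _, _, φ', hsurj, hker', hval, hd, hdL⟩ :=
    hres L (P.comp (π.restrictScalars K)) c hc hker
  have hX : algebraMap M L (φ' (algebraMap K[X] A X)) = P (algebraMap K[X] A' X) := by
    rw [hval]
    show P (π (algebraMap K[X] A X)) = _
    rw [π.commutes]
  have hd0 : (0 : ℝ) ≤ finrank M L := Nat.cast_nonneg _
  have hh0 : 0 ≤ Height.logHeight c.rep := Height.logHeight_nonneg _
  have hn0 : (0 : ℝ) ≤ finrank ℚ L := Nat.cast_nonneg _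
  -- the proximity function
  have hpne' : aeval (φ' (algebraMap K[X] A X)) p ≠ 0 := by
    intro h
    apply hpne
    rw [← hX, aeval_algebraMap_apply, h, map_zero]
  have e1 := hCp M φ' c hc hsurj hker' hpne'
  have e2 : prox S p (P (algebraMap K[X] A' X)) =
      finrank M L * prox S p (φ' (algebraMap K[X] A X)) := by
    rw [← hX]
    exact Pool.Agent.V8H3.ProxExt.prox_ext S hS p _
  have e3 := hC3 M φ' c hsurj hker'
  have e4 : Height.logHeight₁ (P (algebraMap K[X] A' X)) =
      finrank M L * Height.logHeight₁ (φ' (algebraMap K[X] A X)) := by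
    rw [← hX]
    exact Pool.Agent.Y729.AE.ht_ext _
  have e5 := hC2 M φ' c hc hsurj hker'
  rw [← hd, e2, e4]
  set h : ℝ := Height.logHeight c.rep with hh'
  set H : ℝ := Height.logHeight₁ (φ' (algebraMap K[X] A X)) with hHdef
  have hHnn : 0 ≤ H := Height.zero_le_logHeight₁ _
  set d : ℝ := (finrank M L : ℝ) with hdd
  set pr : ℝ := prox S p (φ' (algebraMap K[X] A X)) with hpr
  have hcc0 : 0 ≤ ∑ᶠ v : HeightOneSpectrum (𝓞 L), if Hits π g y S P v then lN v else 0 :=
    finsum_nonneg fun v => by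
      split_ifs
      · exact lN_nonneg' v
      · exact le_rfl
  have hDL := ldiscr_nonneg L
  -- bounds of the constants
  have c1 : d * C1 ≤ finrank ℚ L * |C1| := (mul_le_mul_of_nonneg_left (le_abs_self C1) hd0).trans
    (mul_le_mul_of_nonneg_right hdL (abs_nonneg _))
  have c2 : d * C2 ≤ finrank ℚ L * |C2| := (mul_le_mul_of_nonneg_left (le_abs_self C2) hd0).trans
    (mul_le_mul_of_nonneg_right hdL (abs_nonneg _))
  have cp : d * Cp ≤ finrank ℚ L * |Cp| := (mul_le_mul_of_nonneg_left (le_abs_self Cp) hd0).trans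
    (mul_le_mul_of_nonneg_right hdL (abs_nonneg _))
  have c3 : d * C3 ≤ finrank ℚ L * |C3| := (mul_le_mul_of_nonneg_left (le_abs_self C3) hd0).trans
    (mul_le_mul_of_nonneg_right hdL (abs_nonneg _))
  have c1' : 0 ≤ finrank ℚ L * |C1| := mul_nonneg hn0 (abs_nonneg _)
  have c2' : 0 ≤ finrank ℚ L * |C2| := mul_nonneg hn0 (abs_nonneg _)
  have c3' : 0 ≤ finrank ℚ L * |C3| := mul_nonneg hn0 (abs_nonneg _)
  have c4' : 0 ≤ finrank ℚ L * C4 := mul_nonneg hn0 hC4
  have hdh : 0 ≤ d * h := mul_nonneg hd0 hh0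
  have f1 := mul_le_mul_of_nonneg_left e1 hd0
  have f3 := mul_le_mul_of_nonneg_left e3 hd0
  have f5 := mul_le_mul_of_nonneg_left e5 hd0
  have hεN : ε * N ≤ κ / 4 := by
    rw [hε, div_mul_eq_mul_div, div_le_iff₀ (by positivity)]
    nlinarith
  have hDH : 0 ≤ D' * (d * H) := mul_nonneg hD'0 (mul_nonneg hd0 hHnn)
  by_cases hGx : aeval (P (algebraMap K[X] A' X)) Gp ≠ 0
  · -- the main case
    have hexi : ∀ j, ∃ l, P (π (g j l)) ≠ 0 := by
      intro j
      by_contra hcon
      push Not at hcon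
      have hle : Ideal.span (Set.range (g j)) ≤
          RingHom.ker (P.comp (π.restrictScalars K)) := by
        rw [Ideal.span_le]
        rintro _ ⟨i, rfl⟩
        exact hcon i
      exact hkne j ((hmax j).eq_of_le (RingHom.ker_ne_top _) hle).symm
    have hkne' : ∀ j, RingHom.ker φ' ≠ Ideal.span (Set.range (g j)) := by
      intro j
      rw [hker', ← hker]
      exact hkne j
    obtain ⟨W, hW1, hW2⟩ := hC1 M φ' c hc hsurj hker' hkne'
    -- the primes above
    have hWL : {v : HeightOneSpectrum (𝓞 L) | HeightOneSpectrum.under (𝓞 M) v ∈ W}.Finite := by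
      have h1 : ∀ z : M, z ≠ 0 → {v : HeightOneSpectrum (𝓞 L) |
          v.valuation L (algebraMap M L z) < 1}.Finite := fun z hz =>
        Pool.Agent.N297.CV.MainC.val_fin ((_root_.map_ne_zero _).2 hz)
      choose l hl using hexi
      refine (Set.finite_iUnion fun j => h1 (φ' (g j (l j))) ?_).subset ?_
      · intro h0
        apply hl j
        have := hval (g j (l j))
        rw [h0, map_zero] at this
        exact this.symm
      · intro v hv
        obtain ⟨j, hj⟩ := hW1 _ hv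
        have hov : v.asIdeal.LiesOver (HeightOneSpectrum.under (𝓞 M) v).asIdeal := by
          rw [HeightOneSpectrum.under_asIdeal]
          infer_instance
        refine Set.mem_iUnion.2 ⟨j, ?_⟩
        show v.valuation L (algebraMap M L (φ' (g j (l j)))) < 1
        rw [← HeightOneSpectrum.valuation_liesOver L (HeightOneSpectrum.under (𝓞 M) v) v]
        exact (pow_lt_one_iff_of_nonneg zero_le
          (Ideal.IsDedekindDomain.ramificationIdx'_ne_zero_of_liesOver v.asIdeal
            (HeightOneSpectrum.under (𝓞 M) v).ne_bot)).2 (hj.2.2 (l j))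
    set WL := hWL.toFinset with hWLdef
    have hbc := Pool.Agent.Y729.RV.base_change (k := M) (L := L) W WL (by
      intro v hv v' hv'
      rw [hWLdef, Set.Finite.mem_toFinset]
      show HeightOneSpectrum.under (𝓞 M) v' ∈ W
      rw [Pool.Agent.N262.DR.over_eq hv']
      exact hv)
    -- the primes counted
    have hNf : {v : HeightOneSpectrum (𝓞 L) | Hits π g y S P v}.Finite := by
      choose l hl using hexi
      refine (Set.finite_iUnion fun j =>
        Pool.Agent.N297.CV.MainC.val_fin (hl j)).subset ?_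
      rintro v ⟨-, -, j, h1, -⟩
      exact Set.mem_iUnion.2 ⟨j, h1 (l j)⟩
    have hsum : (∑ᶠ v : HeightOneSpectrum (𝓞 L), if Hits π g y S P v then lN v else 0) =
        ∑ v ∈ hNf.toFinset, lN v := by
      rw [finsum_eq_sum_of_support_subset (s := hNf.toFinset)]
      · refine Finset.sum_congr rfl fun v hv => ?_
        exact if_pos (show Hits π g y S P v from hNf.mem_toFinset.1 hv)
      · intro v hv
        rw [Function.mem_support] at hv
        rw [Finset.mem_coe, Set.Finite.mem_toFinset]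
        by_contra h1
        exact hv (if_neg h1)
    have hk := hkey S L P hGx hexi WL hNf.toFinset (by
      intro v hv
      rw [hWLdef, Set.Finite.mem_toFinset] at hv
      obtain ⟨j, hj1, hj2, hj3⟩ := hW1 _ hv
      have hov : v.asIdeal.LiesOver (HeightOneSpectrum.under (𝓞 M) v).asIdeal := by
        rw [HeightOneSpectrum.under_asIdeal]
        infer_instance
      have he : (HeightOneSpectrum.under (𝓞 M) v).asIdeal.ramificationIdx' v.asIdeal ≠ 0 :=
        Ideal.IsDedekindDomain.ramificationIdx'_ne_zero_of_liesOver v.asIdeal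
          (HeightOneSpectrum.under (𝓞 M) v).ne_bot
      have hmemM : ∀ n : ℕ, (n : 𝓞 L) ∈ v.asIdeal →
          (n : 𝓞 M) ∈ (HeightOneSpectrum.under (𝓞 M) v).asIdeal := by
        intro n hn
        rw [HeightOneSpectrum.under_asIdeal, Ideal.under_def, Ideal.mem_comap, map_natCast]
        exact hn
      refine ⟨?_, ?_, ?_, j, ?_⟩
      · intro hTv
        -- some prime factor of `T` is in `v`
        obtain ⟨l, hl1, hl2⟩ : ∃ l ∈ T.primeFactors, (l : 𝓞 L) ∈ v.asIdeal := by
          have h1 : ((∏ l ∈ T.primeFactors, l ^ T.factorization l : ℕ) : 𝓞 L) ∈ v.asIdeal := by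
            have h2 : (∏ l ∈ T.primeFactors, l ^ T.factorization l : ℕ) = T :=
              Nat.prod_factorization_pow_eq_self hT
            rw [h2]
            exact hTv
          rw [Nat.cast_prod] at h1
          obtain ⟨l, hl1, hl2⟩ := (v.isPrime.prod_mem_iff).1 h1
          rw [Nat.cast_pow] at hl2
          exact ⟨l, hl1, v.isPrime.mem_of_pow_mem _ hl2⟩
        exact hj1 l (Finset.mem_union_right _ hl1)
          (Nat.prime_of_mem_primeFactors hl1).ne_zero (hmemM l hl2)
      · intro l hl hlv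
        exact hj1 l (Finset.mem_union_left _ hl) (hS l hl).ne_zero (hmemM l hlv)
      · rw [← hX, ← HeightOneSpectrum.valuation_liesOver L (HeightOneSpectrum.under (𝓞 M) v) v]
        exact (pow_le_one_iff_of_nonneg zero_le he).2 hj2
      · intro l
        have h1 : P (π (g j l)) = algebraMap M L (φ' (g j l)) := (hval (g j l)).symm
        rw [h1, ← HeightOneSpectrum.valuation_liesOver L (HeightOneSpectrum.under (𝓞 M) v) v]
        exact (pow_lt_one_iff_of_nonneg zero_le he).2 (hj3 l)) (by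
      intro v hv1 hv2 hv3
      rw [Set.Finite.mem_toFinset]
      exact ⟨hv1, hv2, hv3⟩)
    rw [hsum]
    rw [e4] at hk
    have hk' : ∑ v ∈ WL, lN v ≤ ∑ v ∈ hNf.toFinset, lN v + (D' + ε) * (d * H) +
        finrank ℚ L * C4 := hk
    have hbc' : d * (Real.log |(discr M : ℝ)| + ∑ v ∈ W, lN v) ≤
        Real.log |(discr L : ℝ)| + ∑ v ∈ WL, lN v := hbc
    have f2 := mul_le_mul_of_nonneg_left hW2 hd0
    have g1 : ε * (d * H) ≤ (κ / 4) * (d * h) + ε * (finrank ℚ L * |C3|) := by
      have h1 : ε * (d * H) ≤ ε * (d * (N * h + C3)) := mul_le_mul_of_nonneg_left f3 hε0.le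
      have h2 : ε * (d * (N * h + C3)) = (ε * N) * (d * h) + ε * (d * C3) := by ring
      have h3 := mul_le_mul_of_nonneg_right hεN hdh
      have h4 := mul_le_mul_of_nonneg_left c3 hε0.le
      linarith
    have g2 : 0 ≤ (finrank ℚ L : ℝ) * ((W0 + G) * H0) := by positivity
    exact arith1 f1 f2 f5 hbc' hk' g1 c1 c2 cp g2 (mul_nonneg hκ.le hdh)
  · -- the exceptional points
    rw [not_not] at hGx
    have hcZ : Ideal.span {mem f c.rep} ∈ Z := by
      rw [hZ, Set.Finite.mem_toFinset]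
      refine ⟨?_, ?_⟩
      · rw [← hker]
        exact RingHom.ker_isPrime _
      · rw [← hker, RingHom.mem_ker]
        show P (π (algebraMap K[X] A (Gp.map (algebraMap ℚ K)))) = 0
        rw [π.commutes]
        have h1 : P (algebraMap K[X] A' (Gp.map (algebraMap ℚ K))) =
            aeval (P (algebraMap K[X] A' X)) (Gp.map (algebraMap ℚ K)) := by
          have h2 : ∀ Q : K[X], P (algebraMap K[X] A' Q) = aeval (P (algebraMap K[X] A' X)) Q := by
            intro Q
            have h3 : (P.comp (IsScalarTower.toAlgHom K K[X] A')) =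
                aeval (P (algebraMap K[X] A' X)) := by
              apply Polynomial.algHom_ext
              rw [aeval_X]
              rfl
            exact congrArg (fun t : K[X] →ₐ[K] L => t Q) h3
          exact h2 _
        rw [h1, aeval_map_algebraMap]
        exact hGx
    have hle := hbd c hc hcZ
    have g1 : (W0 + G) * (d * h) ≤ (finrank ℚ L : ℝ) * ((W0 + G) * H0) := by
      have h1 : d * h ≤ finrank ℚ L * H0 := mul_le_mul hdL hle hh0 hn0
      have h2 := mul_le_mul_of_nonneg_left h1 (add_nonneg hW00 hG)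
      linarith
    have g3 : 0 ≤ ε * (finrank ℚ L * |C3|) := mul_nonneg hε0.le c3'
    have g4 : 0 ≤ κ * (d * h) := mul_nonneg hκ.le hdh
    exact arith2 f1 g1 cp c1' c2' g3 c4' hcc0 hDH hDL g4

end Pool.Agent.V8H3.Cover3
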