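import Mathlib
import Pool.Agent.N265.CV.Htc

/-!
# The height of a polynomial is at most the sum of the heights of its roots
-/

set_option autoImplicit false

namespace Pool.Agent.V8H3.HtRev

open Polynomial Height Module NumberField
open Pool.Agent.N265.CV (cf cf_ne_zero logHeight_le_of ht1_ext)

section height

variable {F : Type*} [Field F] [AdmissibleAbsValues F]

theorem logHeight_root_rev (D : ℕ) (y : F) (R : F[X]) (hR : R ≠ 0)
    (hD : ((X - C y) * R).natDegree ≤ D) :
    logHeight (cf D ((X - C y) * R)) ≤
      totalWeight F * Real.log ((2 : ℕ) : ℝ) + (logHeight₁ y + logHeight (cf D R)) := by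
  have hXy : (X - C y) ≠ 0 := X_sub_C_ne_zero y
  have hdeg : R.natDegree + 1 ≤ D := by
    rw [natDegree_mul hXy hR, natDegree_X_sub_C] at hD
    omega
  have hQ0 : (X - C y) * R ≠ 0 := mul_ne_zero hXy hR
  have hx0 : (![y, 1] : Fin 2 → F) ≠ 0 := by
    intro h
    have := congrFun h 1
    simp at this
  rw [logHeight₁_eq_logHeight, ← logHeight_fun_mul_eq hx0 (cf_ne_zero hR (by omega))]
  have hle : ∀ (v : AbsoluteValue F ℝ) (i : Fin 2) (j : Fin (D + 1)),
      v ((![y, 1] : Fin 2 → F) i * cf D R j) ≤
        ⨆ a : Fin 2 × Fin (D + 1), v ((![y, 1] : Fin 2 → F) a.1 * cf D R a.2) := fun v i j =>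
    Finite.le_ciSup_of_le (f := fun a : Fin 2 × Fin (D + 1) =>
      v ((![y, 1] : Fin 2 → F) a.1 * cf D R a.2)) ((i, j) : Fin 2 × Fin (D + 1)) le_rfl
  have hsup0 : ∀ v : AbsoluteValue F ℝ,
      0 ≤ ⨆ a : Fin 2 × Fin (D + 1), v ((![y, 1] : Fin 2 → F) a.1 * cf D R a.2) :=
    fun v => Real.iSup_nonneg fun i => v.nonneg _
  obtain ⟨h0, h1⟩ := Pool.Agent.N265.CV.coeff_root y R
  refine logHeight_le_of (cf_ne_zero hQ0 hD) ?_ 2 (by omega) ?_ ?_
  · intro h
    apply cf_ne_zero (D := D) hR (by omega)
    funext k
    have := congrFun h (1, k)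
    simpa using this
  · intro v
    refine ciSup_le fun k => ?_
    obtain ⟨k, hk⟩ := k
    cases k with
    | zero =>
      show v (((X - C y) * R).coeff 0) ≤ _
      rw [h0, v.map_neg]
      have := hle v 0 ⟨0, by omega⟩
      have h2 := hsup0 v
      simp only [Matrix.cons_val_zero] at this
      change v (y * R.coeff 0) ≤ _ at this
      push_cast
      linarith
    | succ k =>
      show v (((X - C y) * R).coeff (k + 1)) ≤ _
      rw [h1]
      have e1 := hle v 1 ⟨k, by omega⟩
      have e2 := hle v 0 ⟨k + 1, hk⟩
      simp only [Matrix.cons_val_zero, Matrix.cons_val_one, one_mul] at e1 e2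
      change v (R.coeff k) ≤ _ at e1
      change v (y * R.coeff (k + 1)) ≤ _ at e2
      have e3 : v (R.coeff k - y * R.coeff (k + 1)) ≤ v (R.coeff k) + v (y * R.coeff (k + 1)) := by
        rw [sub_eq_add_neg]
        refine (v.add_le _ _).trans ?_
        rw [v.map_neg]
      push_cast
      linarith
  · intro v hv
    refine ciSup_le fun k => ?_
    obtain ⟨k, hk⟩ := k
    cases k with
    | zero =>
      show v (((X - C y) * R).coeff 0) ≤ _
      rw [h0, v.map_neg]
      have := hle v 0 ⟨0, by omega⟩
      simp only [Matrix.cons_val_zero] at this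
      exact this
    | succ k =>
      show v (((X - C y) * R).coeff (k + 1)) ≤ _
      rw [h1]
      have e1 := hle v 1 ⟨k, by omega⟩
      have e2 := hle v 0 ⟨k + 1, hk⟩
      simp only [Matrix.cons_val_zero, Matrix.cons_val_one, one_mul] at e1 e2
      change v (R.coeff k) ≤ _ at e1
      change v (y * R.coeff (k + 1)) ≤ _ at e2
      rw [sub_eq_add_neg]
      refine (hv _ _).trans (max_le e1 ?_)
      rw [v.map_neg]
      exact e2

theorem logHeight_const (D : ℕ) (a : F) (ha : a ≠ 0) : logHeight (cf D (C a)) ≤ 0 := by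
  have h0 : cf D (C a) ≠ 0 := cf_ne_zero (C_ne_zero.2 ha) (by rw [natDegree_C]; omega)
  have h1 : (fun _ : Fin 1 => a) ≠ 0 := fun h => ha (congrFun h 0)
  have h2 : ∀ v : AbsoluteValue F ℝ, (⨆ i, v (cf D (C a) i)) ≤ ⨆ i : Fin 1, v a := by
    intro v
    refine ciSup_le fun k => ?_
    rw [ciSup_const]
    unfold cf
    rw [coeff_C]
    split_ifs
    · exact le_rfl
    · rw [v.map_zero]
      exact v.nonneg _
  have h3 := logHeight_le_of h0 h1 1 le_rfl (fun v => by
    have := h2 v
    push_cast
    rw [one_mul]
    exact this) (fun v _ => h2 v)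
  have h4 : logHeight (fun _ : Fin 1 => a) = 0 := by
    have : (fun _ : Fin 1 => a) = a • (1 : Fin 1 → F) := by
      funext i
      simp
    rw [this, logHeight_smul_eq_logHeight _ ha]
    exact logHeight_one
  rw [h4] at h3
  simpa using h3

theorem logHeight_roots_rev (D : ℕ) (a : F) (ha : a ≠ 0) (s : Multiset F)
    (hs : Multiset.card s ≤ D) :
    logHeight (cf D (C a * (s.map fun y => X - C y).prod)) ≤
      Multiset.card s * (totalWeight F * Real.log ((2 : ℕ) : ℝ)) +
        (s.map fun y => logHeight₁ y).sum := by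
  induction s using Multiset.induction_on with
  | empty =>
    simp only [Multiset.map_zero, Multiset.sum_zero, Multiset.card_zero, Nat.cast_zero, zero_mul,
      zero_add, Multiset.prod_zero, mul_one]
    exact logHeight_const D a ha
  | cons y s ih =>
    rw [Multiset.card_cons] at hs
    have hp : (s.map fun y => X - C y).prod ≠ 0 := by
      apply Multiset.prod_ne_zero
      intro h
      obtain ⟨z, -, hz⟩ := Multiset.mem_map.1 h
      exact X_sub_C_ne_zero z hz
    have hR : C a * (s.map fun y => X - C y).prod ≠ 0 := mul_ne_zero (C_ne_zero.2 ha) hp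
    have hE : C a * ((y ::ₘ s).map fun y => X - C y).prod =
        (X - C y) * (C a * (s.map fun y => X - C y).prod) := by
      rw [Multiset.map_cons, Multiset.prod_cons]
      ring
    have hdeg : ((X - C y) * (C a * (s.map fun y => X - C y).prod)).natDegree ≤ D := by
      rw [natDegree_mul (X_sub_C_ne_zero y) hR, natDegree_X_sub_C,
        natDegree_mul (C_ne_zero.2 ha) hp, natDegree_C, natDegree_multiset_prod_X_sub_C_eq_card]
      omega
    have h1 := logHeight_root_rev D y _ hR hdeg
    have h2 := ih (by omega)
    rw [hE, Multiset.map_cons, Multiset.sum_cons, Multiset.card_cons]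
    push_cast at h1 h2 ⊢
    linarith

end height

/-- the height of a power of the minimal polynomial -/
theorem ht_field_rev {K M : Type} [Field K] [NumberField K] [Field M] [NumberField M] [Algebra K M]
    (x : M) (f : K[X]) (hf : Irreducible f) (hx : aeval x f = 0) (a : K) (ha : a ≠ 0) (j : ℕ)
    (hj : j * f.natDegree = finrank K M) (hm : f.Monic) :
    logHeight (cf (finrank K M) (C a * f ^ j)) ≤ logHeight₁ x +
      finrank K M * (totalWeight K * Real.log ((2 : ℕ) : ℝ)) := by
  have : Fact (Irreducible f) := ⟨hf⟩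
  obtain ⟨D, hD⟩ : ∃ D, D = finrank K M := ⟨_, rfl⟩
  -- the field generated by a root
  have hE : ∃ (E : Type) (_ : Field E) (_ : NumberField E) (_ : Algebra K E) (r : E),
      aeval r f = 0 ∧ finrank K E = f.natDegree ∧
      ∀ (N : Type) [Field N] [Algebra K N] (y : N), aeval y f = 0 →
        ∃ g : E →ₐ[K] N, g r = y := by
    have : FiniteDimensional K (AdjoinRoot f) :=
      (AdjoinRoot.powerBasis hf.ne_zero).finite
    have : CharZero (AdjoinRoot f) := charZero_of_injective_algebraMap
      (algebraMap K (AdjoinRoot f)).injective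
    refine ⟨AdjoinRoot f, inferInstance, NumberField.of_module_finite K _, inferInstance,
      AdjoinRoot.root f, ?_, ?_, ?_⟩
    · simp [aeval_def, AdjoinRoot.algebraMap_eq]
    · rw [(AdjoinRoot.powerBasis hf.ne_zero).finrank, AdjoinRoot.powerBasis_dim]
    · intro N _ _ y hy
      refine ⟨AdjoinRoot.liftAlgHom f (Algebra.ofId K N) y ?_, ?_⟩
      · simpa [aeval_def] using hy
      · simp
  obtain ⟨E, _, _, _, r, hr, hfin, hlift⟩ := hE
  have hfd : 0 < f.natDegree := by
    rw [← hfin]
    exact finrank_pos
  have htw : ∀ (N : Type) [Field N] [NumberField N] [Algebra K N] (y : N), aeval y f = 0 →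
      f.natDegree * logHeight₁ y = finrank K N * logHeight₁ r := by
    intro N _ _ _ y hy
    obtain ⟨g, hg⟩ := hlift N y hy
    let _ : Algebra E N := g.toRingHom.toAlgebra
    have : IsScalarTower K E N := IsScalarTower.of_algebraMap_eq fun z => (g.commutes z).symm
    have h1 : algebraMap E N r = y := hg
    rw [← h1, ht1_ext, ← finrank_mul_finrank K E N, hfin]
    push_cast
    ring
  -- a splitting field
  have hO : ∃ (Om : Type) (_ : Field Om) (_ : NumberField Om) (_ : Algebra K Om),
      (f.map (algebraMap K Om)).Splits := by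
    have : CharZero (SplittingField f) := charZero_of_injective_algebraMap
      (algebraMap K (SplittingField f)).injective
    exact ⟨SplittingField f, inferInstance, NumberField.of_module_finite K _, inferInstance,
      SplittingField.splits f⟩
  obtain ⟨Om, _, _, _, hs⟩ := hO
  obtain ⟨s, hs'⟩ : ∃ s, s = (f.map (algebraMap K Om)).roots := ⟨_, rfl⟩
  have hcard : Multiset.card s = f.natDegree := by
    rw [hs', ← hs.natDegree_eq_card_roots, natDegree_map]
  have hprod : f.map (algebraMap K Om) = (s.map fun y => X - C y).prod := by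
    rw [hs']
    have := hs.eq_prod_roots
    rwa [(hm.map _).leadingCoeff, C_1, one_mul] at this
  have hroot : ∀ y ∈ s, aeval y f = 0 := by
    intro y hy
    rw [hs', mem_roots', IsRoot.def, eval_map_algebraMap] at hy
    exact hy.2
  -- heights
  have h1 := logHeight_roots_rev (F := Om) D (algebraMap K Om a)
    (by rw [Ne, FaithfulSMul.algebraMap_eq_zero_iff]; exact ha) (j • s)
    (by rw [Multiset.card_nsmul, hcard, hj, hD])
  have h2 : C (algebraMap K Om a) * ((j • s).map fun y => X - C y).prod =
      (C a * f ^ j).map (algebraMap K Om) := by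
    rw [Polynomial.map_mul, Polynomial.map_pow, map_C, hprod, Multiset.map_nsmul,
      Multiset.prod_nsmul]
  have h3 : logHeight (cf D ((C a * f ^ j).map (algebraMap K Om))) =
      finrank K Om * logHeight (cf D (C a * f ^ j)) := by
    rw [← Pool.Agent.Helper259.HtExt.logHeight_ext]
    congr 1
    funext k
    simp only [cf, coeff_map]
  have h4 : f.natDegree * ((j • s).map fun y => logHeight₁ y).sum =
      (j * f.natDegree) * (finrank K Om * logHeight₁ r) := by
    have h5 : (s.map fun y => (f.natDegree : ℝ) * logHeight₁ y).sum =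
        f.natDegree * (finrank K Om * logHeight₁ r) := by
      rw [Multiset.map_congr rfl fun y hy => htw Om y (hroot y hy), Multiset.map_const',
        Multiset.sum_replicate, hcard, nsmul_eq_mul]
    rw [Multiset.map_nsmul, Multiset.sum_nsmul, nsmul_eq_mul]
    rw [Multiset.sum_map_mul_left] at h5
    have h6 : (f.natDegree : ℝ) * (j * (s.map fun y => logHeight₁ y).sum) =
      j * (f.natDegree * (s.map fun y => logHeight₁ y).sum) := by ring
    rw [h6, h5]
    ring
  have h5 := htw M x hx
  have h6 : (totalWeight Om : ℝ) = finrank K Om * totalWeight K := by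
    rw [NumberField.totalWeight_eq_finrank, NumberField.totalWeight_eq_finrank,
      ← finrank_mul_finrank ℚ K Om]
    push_cast
    ring
  rw [h2, h3, Multiset.card_nsmul, hcard, hj, ← hD, h6] at h1
  have hOm : (0 : ℝ) < finrank K Om := by
    have : 0 < finrank K Om := finrank_pos
    exact_mod_cast this
  have hfd' : (0 : ℝ) < f.natDegree := by exact_mod_cast hfd
  have hj' : (j : ℝ) * f.natDegree = D := by
    rw [hD]
    exact_mod_cast hj
  rw [← hD] at h5 ⊢
  rw [hj'] at h4
  have h7 : ((j • s).map fun y => logHeight₁ y).sum = finrank K Om * logHeight₁ x := by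
    have : (f.natDegree : ℝ) * ((j • s).map fun y => logHeight₁ y).sum =
        f.natDegree * (finrank K Om * logHeight₁ x) := by
      rw [h4]
      linear_combination (-(finrank K Om : ℝ)) * h5
    exact mul_left_cancel₀ hfd'.ne' this
  rw [h7] at h1
  have h8 : (finrank K Om : ℝ) * logHeight (cf D (C a * f ^ j)) ≤
      finrank K Om * (logHeight₁ x + D * (totalWeight K * Real.log ((2 : ℕ) : ℝ))) := by
    linarith
  exact le_of_mul_le_mul_left h8 hOm

end Pool.Agent.V8H3.HtRev
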