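import Mathlib
import Pool.Agent.N488.CV.L2
import Pool.Agent.N752.CV.UniC
import Pool.Agent.V8H3.HtRevA

/-!
# The height of the zero of a member is at least the height of the member
-/

set_option autoImplicit false

namespace Pool.Agent.V8H3.HtRev

open Polynomial Height Module NumberField Pool.Agent.N753.DR
open Pool.Agent.N265.CV (cf cf_ne_zero logHeight_le_of ht1_ext)
open Pool.Agent.N488.CV (Gg Gg_map Gm null)
open Pool.Agent.N752.CV (Hom)

theorem hom_comp_mul {σ R : Type} [CommRing R] {p : MvPolynomial σ R} {N : ℕ}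
    (hp : p.IsHomogeneous N) (q : MvPolynomial σ R) (M : ℕ) :
    MvPolynomial.homogeneousComponent (M + N) (q * p) =
      MvPolynomial.homogeneousComponent M q * p := by
  classical
  conv_lhs => rw [← MvPolynomial.sum_homogeneousComponent q]
  rw [Finset.sum_mul, map_sum]
  have h1 : ∀ i ∈ Finset.range (q.totalDegree + 1),
      MvPolynomial.homogeneousComponent (M + N) (MvPolynomial.homogeneousComponent i q * p) =
        if i = M then MvPolynomial.homogeneousComponent M q * p else 0 := by
    intro i _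
    have h2 : (MvPolynomial.homogeneousComponent i q * p).IsHomogeneous (i + N) :=
      (MvPolynomial.homogeneousComponent_isHomogeneous i q).mul hp
    rw [MvPolynomial.homogeneousComponent_of_mem
      ((MvPolynomial.mem_homogeneousSubmodule _ _).2 h2)]
    by_cases h : i = M
    · subst h
      simp
    · rw [if_neg (by omega), if_neg h]
  rw [Finset.sum_congr rfl h1, Finset.sum_ite_eq']
  split_ifs with h
  · rfl
  · rw [Finset.mem_range, not_lt] at h
    rw [MvPolynomial.homogeneousComponent_eq_zero _ _ (by omega), zero_mul]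

section

variable {K A : Type} [Field K] [NumberField K] [CommRing A] [IsDomain A] [Algebra K A]
  [Algebra K[X] A] [IsScalarTower K K[X] A] {N : ℕ}

omit [NumberField K] [IsDomain A] [Algebra K A] [IsScalarTower K K[X] A] in
theorem Gg_hom (e : Basis (Fin N) K[X] A) {m : ℕ} (f : Fin m → A) (k : ℕ) :
    ((Gg e f).det.coeff k).IsHomogeneous N := by
  have h : Hom (Gg e f).det N := by
    refine Pool.Agent.N752.CV.Hom.det _ fun i j => ?_
    have h1 : Gg e f i j = ∑ l, (C (MvPolynomial.X l : MvPolynomial (Fin m) K)) *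
        (Algebra.leftMulMatrix e (f l) i j).map MvPolynomial.C := by
      simp only [Gg, Matrix.sum_apply, Matrix.smul_apply, Matrix.map_apply, smul_eq_mul]
    rw [h1]
    refine Hom.sum _ _ fun l _ t => ?_
    rw [coeff_C_mul, coeff_map]
    have := (MvPolynomial.isHomogeneous_X K l).mul
      (MvPolynomial.isHomogeneous_C (Fin m) ((Algebra.leftMulMatrix e (f l) i j).coeff t))
    rwa [add_zero] at this
  exact h k

omit [NumberField K] [IsDomain A] in
theorem eval_coeff (e : Basis (Fin N) K[X] A) {m : ℕ} (f : Fin m → A) (c : Fin m → K) (k : ℕ) :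
    MvPolynomial.eval c ((Gg e f).det.coeff k) = (Algebra.norm K[X] (mem f c)).coeff k := by
  have h1 := Gg_map (F := K) e f c
  have h2 : (Gm e f c : Matrix (Fin N) (Fin N) K[X]) = Algebra.leftMulMatrix e (mem f c) := by
    have h3 : ∀ i, c i • f i = (C (c i) : K[X]) • f i := by
      intro i
      rw [← algebraMap_smul K[X] (c i) (f i)]
      rfl
    rw [Gm, mem, map_sum]
    refine Finset.sum_congr rfl fun i _ => ?_
    rw [h3, map_smul]
    congr 1
    ext a b : 2
    rw [Matrix.map_apply, Algebra.algebraMap_self, Polynomial.map_id]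
  rw [h2, ← Algebra.norm_eq_matrix_det e] at h1
  rw [← h1, coeff_map]
  rfl

omit [IsDomain A] in
/-- the height of the norm of a member is at least `N` times the height of the member -/
theorem lower (hdom : IsDomain (TensorProduct K (AlgebraicClosure K) A))
    (e : Basis (Fin N) K[X] A) {m : ℕ} {f : Fin m → A} (hf : LinearIndependent K f) :
    ∃ D0 : ℕ, (∀ c : Fin m → K, (Algebra.norm K[X] (mem f c)).natDegree ≤ D0) ∧
    ∃ C0 : ℝ, ∀ c : Fin m → K,
      N * logHeight c ≤ logHeight (cf D0 (Algebra.norm K[X] (mem f c))) + C0 := by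
  classical
  obtain ⟨D0, hD0⟩ : ∃ D0, D0 = (Gg e f).det.natDegree := ⟨_, rfl⟩
  refine ⟨D0, ?_, ?_⟩
  · intro c
    rw [natDegree_le_iff_coeff_eq_zero]
    intro k hk
    rw [← eval_coeff e f c k, coeff_eq_zero_of_natDegree_lt (by omega), map_zero]
  choose E h hE using fun i => null e hf i
  obtain ⟨E0, hE0⟩ : ∃ E0 : ℕ, ∀ i, E i ≤ E0 :=
    ⟨Finset.univ.sup E, fun i => Finset.le_sup (Finset.mem_univ i)⟩
  obtain ⟨q, hq⟩ : ∃ q : Fin m × Fin (D0 + 1) → MvPolynomial (Fin m) K, q = fun a =>
    MvPolynomial.homogeneousComponent E0 ((MvPolynomial.X a.1) ^ (E0 + N - E a.1) * h a.1 a.2) :=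
    ⟨_, rfl⟩
  have hqh : ∀ a, (q a).IsHomogeneous E0 := by
    intro a
    rw [hq]
    exact MvPolynomial.homogeneousComponent_isHomogeneous _ _
  have hsum : ∀ i, (MvPolynomial.X i : MvPolynomial (Fin m) K) ^ (E0 + N) =
      ∑ k : Fin (D0 + 1), q (i, k) * (Gg e f).det.coeff k := by
    intro i
    have h1 : (MvPolynomial.X i : MvPolynomial (Fin m) K) ^ (E0 + N) =
        ∑ k : Fin (D0 + 1), (MvPolynomial.X i) ^ (E0 + N - E i) * h i k *
          (Gg e f).det.coeff k := by
      have h2 : (h i).sum (fun k q => q * (Gg e f).det.coeff k) =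
          ∑ k : Fin (D0 + 1), h i k * (Gg e f).det.coeff k := by
        rw [Finset.sum_fin_eq_sum_range, Finsupp.sum]
        have h3 : ∀ k, (if hk : k < D0 + 1 then
            h i (⟨k, hk⟩ : Fin (D0 + 1)) * (Gg e f).det.coeff ((⟨k, hk⟩ : Fin (D0 + 1)) : ℕ)
            else 0) = h i k * (Gg e f).det.coeff k := by
          intro k
          split_ifs with hk
          · rfl
          · rw [coeff_eq_zero_of_natDegree_lt (by omega), mul_zero]
        rw [Finset.sum_congr rfl fun k _ => h3 k]
        refine Finset.sum_congr_of_eq_on_inter ?_ ?_ ?_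
        · intro k _ hk
          rw [Finset.mem_range, not_lt] at hk
          rw [coeff_eq_zero_of_natDegree_lt (by omega), mul_zero]
        · intro k _ hk
          rw [Finsupp.notMem_support_iff.1 hk, zero_mul]
        · intro k _ _
          rfl
      have h4 : (MvPolynomial.X i : MvPolynomial (Fin m) K) ^ (E0 + N) =
          (MvPolynomial.X i) ^ (E0 + N - E i) * (MvPolynomial.X i) ^ (E i) := by
        rw [← pow_add]
        congr 1
        have := hE0 i
        omega
      rw [h4, hE i, h2, Finset.mul_sum]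
      refine Finset.sum_congr rfl fun k _ => ?_
      ring
    have h5 : MvPolynomial.homogeneousComponent (E0 + N)
        ((MvPolynomial.X i : MvPolynomial (Fin m) K) ^ (E0 + N)) =
          (MvPolynomial.X i : MvPolynomial (Fin m) K) ^ (E0 + N) := by
      apply MvPolynomial.homogeneousComponent_eq_self
      have := (MvPolynomial.isHomogeneous_X K i).pow (E0 + N)
      rwa [one_mul] at this
    rw [← h5]
    conv_lhs => rw [h1]
    rw [map_sum]
    refine Finset.sum_congr rfl fun k _ => ?_
    rw [hom_comp_mul (Gg_hom e f k), hq]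
  obtain ⟨C1, hC1⟩ := logHeight_eval_ge' (K := K) (M := E0) (N := N) hqh
  refine ⟨-C1, fun c => ?_⟩
  have h1 := hC1 (fun k => (Gg e f).det.coeff k) (x := c) (by
    intro i
    have h2 := congrArg (MvPolynomial.eval c) (hsum i)
    rw [map_pow, MvPolynomial.eval_X, map_sum] at h2
    rw [h2]
    exact Finset.sum_congr rfl fun k _ => (map_mul _ _ _).symm)
  have h2 : (fun k : Fin (D0 + 1) => MvPolynomial.eval c ((Gg e f).det.coeff k)) =
      cf D0 (Algebra.norm K[X] (mem f c)) := by
    funext k
    exact eval_coeff e f c k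
  rw [h2] at h1
  linarith

end

/-- **the height of the zero of a member is at least the height of the member** -/
theorem htc_rev (K A : Type) [Field K] [NumberField K] [CommRing A] [IsDomain A]
    [Algebra K A] [Algebra K[X] A] [IsScalarTower K K[X] A] [Module.Finite K[X] A]
    [FaithfulSMul K[X] A] (hdom : IsDomain (TensorProduct K (AlgebraicClosure K) A))
    (m : ℕ) (f : Fin m → A) (hf : LinearIndependent K f) :
    ∃ C : ℝ, ∀ (M : Type) [Field M] [NumberField M] [Algebra K M] (φ : A →ₐ[K] M)
      (c : Fin m → K), Function.Surjective φ → RingHom.ker φ = Ideal.span {mem f c} → c ≠ 0 →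
      finrank K[X] A * Height.logHeight c ≤
        Height.logHeight₁ (φ (algebraMap K[X] A X)) + C := by
  classical
  obtain ⟨b, -⟩ : ∃ b : Basis (Fin (finrank K[X] A)) K[X] A, b = b := by
    have : Module.IsTorsionFree K[X] A := by
      rw [Module.isTorsionFree_iff_faithfulSMul]
      infer_instance
    exact ⟨Module.finBasis K[X] A, rfl⟩
  obtain ⟨D, hdeg, C0, hC0⟩ := lower hdom b hf
  refine ⟨C0 + D * (totalWeight K * Real.log ((2 : ℕ) : ℝ)), ?_⟩
  intro M _ _ _ φ c hφ hker hc
  obtain ⟨P, hP⟩ : ∃ P, P = Algebra.norm K[X] (mem f c) := ⟨_, rfl⟩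
  obtain ⟨x, hx⟩ : ∃ x, x = φ (algebraMap K[X] A X) := ⟨_, rfl⟩
  have hs0 : mem f c ≠ 0 := by
    intro h
    apply hc
    funext i
    exact Fintype.linearIndependent_iff.1 hf c h i
  -- the degree
  have hfin : finrank K M = P.natDegree := by
    rw [hP, ← finrank_quotient_span_eq_natDegree_norm b hs0, ← hker]
    exact (LinearEquiv.finrank_eq (Ideal.quotientKerAlgEquivOfSurjective hφ).toLinearEquiv).symm
  -- the minimal polynomial
  obtain ⟨g, hg⟩ : ∃ g, g = minpoly K x := ⟨_, rfl⟩
  have hint : IsIntegral K x := Algebra.IsIntegral.isIntegral x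
  have hgi : Irreducible g := hg ▸ minpoly.irreducible hint
  have hgm : g.Monic := hg ▸ minpoly.monic hint
  have hgx : aeval x g = 0 := hg ▸ minpoly.aeval K x
  have h1 : φ (algebraMap K[X] A g) = 0 := by
    rw [← hgx, hx]
    have h2 : (φ.comp (IsScalarTower.toAlgHom K K[X] A)) =
        aeval (φ (algebraMap K[X] A X)) := by
      apply Polynomial.algHom_ext
      simp
    exact congrArg (fun h => h g) h2
  have h2 : algebraMap K[X] A g ∈ Ideal.span {mem f c} := by
    rw [← hker]
    exact h1
  obtain ⟨q, hq⟩ := Ideal.mem_span_singleton.1 h2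
  have h3 : P ∣ g ^ Fintype.card (Fin (finrank K[X] A)) := by
    rw [← Algebra.norm_algebraMap_of_basis b g, hq, map_mul, ← hP]
    exact dvd_mul_right _ _
  obtain ⟨j, -, hj⟩ := (dvd_prime_pow hgi.prime _).1 h3
  obtain ⟨a, ha, hPa⟩ : ∃ a : K, a ≠ 0 ∧ P = C a * g ^ j := by
    obtain ⟨u, hu⟩ := hj.symm
    obtain ⟨a, ha, hau⟩ := Polynomial.isUnit_iff.1 u.isUnit
    refine ⟨a, ha.ne_zero, ?_⟩
    rw [← hu, hau, mul_comm]
  have hjd : j * g.natDegree = finrank K M := by
    rw [hfin, hPa, natDegree_C_mul ha, natDegree_pow]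
  have h4 := ht_field_rev x g hgi hgx a ha j hjd hgm
  rw [← hPa] at h4
  have hle : finrank K M ≤ D := by
    rw [hfin, hP]
    exact hdeg c
  have h5 : logHeight (cf D P) ≤ logHeight (cf (finrank K M) P) := by
    have hP0 : P ≠ 0 := by
      rw [hPa]
      exact mul_ne_zero (C_ne_zero.2 ha) (pow_ne_zero _ hgi.ne_zero)
    have hs : ∀ v : AbsoluteValue K ℝ, (⨆ i, v (cf D P i)) ≤ ⨆ i, v (cf (finrank K M) P i) := by
      intro v
      refine ciSup_le fun k => ?_
      by_cases hk : (k : ℕ) < finrank K M + 1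
      · exact Finite.le_ciSup_of_le (f := fun i => v (cf (finrank K M) P i))
          (⟨k, hk⟩ : Fin (finrank K M + 1)) le_rfl
      · have h6 : cf D P k = 0 := coeff_eq_zero_of_natDegree_lt (by omega)
        rw [h6, v.map_zero]
        exact Real.iSup_nonneg fun i => v.nonneg _
    have h6 := logHeight_le_of (cf_ne_zero (D := D) hP0 (by omega))
      (cf_ne_zero (D := finrank K M) hP0 (by omega)) 1 le_rfl (fun v => by
        have := hs v
        push_cast
        rw [one_mul]
        exact this) (fun v _ => hs v)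
    simpa using h6
  have h6 := hC0 c
  rw [← hP] at h6
  rw [← hx]
  have h7 : (finrank K M : ℝ) * (totalWeight K * Real.log ((2 : ℕ) : ℝ)) ≤
      D * (totalWeight K * Real.log ((2 : ℕ) : ℝ)) := by
    refine mul_le_mul_of_nonneg_right (by exact_mod_cast hle) ?_
    exact mul_nonneg (Nat.cast_nonneg _) (Real.log_nonneg (by norm_num))
  linarith

end Pool.Agent.V8H3.HtRev
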