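import Mathlib
import Pool.Agent.V8H3.Cover3
import Pool.Agent.V8H3.HtRevB

/-!
# Covers of a curve: the inequality in terms of the height of the point
-/

set_option autoImplicit false

namespace Pool.Agent.V8H3.Cover4

open NumberField IsDedekindDomain Module Polynomial Pool.Agent.N753.DR
open scoped LinearAlgebra.Projectivization
open Pool.Agent.V8H3.Main3 (HasWt)
open Pool.Agent.V8H3.Cover3 (Hits cover3)
open Pool.Agent.N751.CV (prox)

theorem arith {W0 G κ dh H N n C3 Cr pr SN D' LL C : ℝ} (hN : 0 < N) (hW : 0 ≤ W0)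
    (hG : 0 ≤ G) (hκ : 0 < κ)
    (h1 : pr + (W0 + G - κ * N) * dh ≤ SN + D' * H + LL + n * C)
    (h2 : H ≤ N * dh + n * C3) (h3 : N * dh ≤ H + n * Cr) :
    pr + ((W0 + G) / N - κ) * H ≤ SN + D' * H + LL +
      n * (C + (W0 + G) / N * C3 + κ * Cr) := by
  have e1 : (W0 + G) / N * H ≤ (W0 + G) / N * (N * dh + n * C3) :=
    mul_le_mul_of_nonneg_left h2 (div_nonneg (add_nonneg hW hG) hN.le)
  have e2 : (W0 + G) / N * (N * dh) = (W0 + G) * dh := by
    field_simp
  have e3 : κ * (N * dh) ≤ κ * (H + n * Cr) := mul_le_mul_of_nonneg_left h3 hκ.le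
  linarith

/-- the residue field -/
theorem res {K A : Type} [Field K] [NumberField K] [CommRing A]
    [Algebra K A] {r : ℕ} (I : Ideal A) (L : Type) [Field L] [NumberField L] [Algebra K L]
    (φ : A →ₐ[K] L) (hker : RingHom.ker φ = I) (hr : finrank K (A ⧸ I) = r) :
    ∃ (M : Type) (_ : Field M) (_ : NumberField M) (_ : Algebra K M) (_ : Algebra M L)
        (_ : IsScalarTower K M L) (φ' : A →ₐ[K] M), Function.Surjective φ' ∧
        RingHom.ker φ' = I ∧ (∀ a, algebraMap M L (φ' a) = φ a) ∧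
        (finrank M L : ℝ) = finrank K L / r ∧ (finrank M L : ℝ) ≤ finrank ℚ L := by
  have hfdL : FiniteDimensional K L := FiniteDimensional.right ℚ K L
  let M : IntermediateField K L := φ.range.toIntermediateField fun x hx =>
    φ.range.inv_mem_of_algebraic (x := ⟨x, hx⟩) (Algebra.IsAlgebraic.isAlgebraic _)
  have hM : ∀ a, φ a ∈ M := fun a => ⟨a, rfl⟩
  let φ' : A →ₐ[K] M := φ.codRestrict M.toSubalgebra hM
  have hval : ∀ a, ((φ' a : M) : L) = φ a := fun a => rfl
  have hsurj : Function.Surjective φ' := by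
    rintro ⟨x, a, ha⟩
    exact ⟨a, Subtype.ext ha⟩
  have hker' : RingHom.ker φ' = I := by
    rw [← hker]
    ext a
    rw [RingHom.mem_ker, RingHom.mem_ker]
    constructor
    · intro h
      rw [← hval a, h]
      rfl
    · intro h
      exact Subtype.ext (by rw [hval a, h]; rfl)
  have h1 : finrank K M = r := by
    rw [Pool.Agent.N297.CV.MainC.finrank_eq' φ' hsurj hker']
    exact hr
  have hfdM : FiniteDimensional M L := FiniteDimensional.right K M L
  have h2 : finrank K M * finrank M L = finrank K L := finrank_mul_finrank K M L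
  have hr0 : 0 < finrank K M := finrank_pos
  have h3 : finrank ℚ K * finrank K L = finrank ℚ L := finrank_mul_finrank ℚ K L
  have hn0 : 0 < finrank ℚ K := finrank_pos
  refine ⟨M, inferInstance, inferInstance, inferInstance, inferInstance, inferInstance, φ',
    hsurj, hker', fun a => rfl, ?_, ?_⟩
  · rw [eq_div_iff (by rw [← h1]; exact_mod_cast hr0.ne'), ← h2, h1]
    push_cast
    ring
  · have h4 : finrank M L ≤ finrank ℚ L := by
      rw [← h3, ← h2]
      calc finrank M L = 1 * (1 * finrank M L) := by ring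
        _ ≤ finrank ℚ K * (finrank K M * finrank M L) :=
          Nat.mul_le_mul hn0 (Nat.mul_le_mul_right _ hr0)
    exact_mod_cast h4

/-- the lower bound for the height over a larger field -/
theorem low_ext {K A : Type} [Field K] [NumberField K] [CommRing A]
    [Algebra K A] [Algebra K[X] A] {m r : ℕ} (f : Fin m → A) (Cr : ℝ)
    (hCr : ∀ (M : Type) [Field M] [NumberField M] [Algebra K M] (φ : A →ₐ[K] M)
      (c : Fin m → K), Function.Surjective φ → RingHom.ker φ = Ideal.span {mem f c} → c ≠ 0 →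
      finrank K[X] A * Height.logHeight c ≤
        Height.logHeight₁ (φ (algebraMap K[X] A X)) + Cr)
    (L : Type) [Field L] [NumberField L] [Algebra K L] (φ : A →ₐ[K] L) (c : Fin m → K)
    (hc0 : c ≠ 0) (hker : RingHom.ker φ = Ideal.span {mem f c})
    (hr : finrank K (A ⧸ Ideal.span {mem f c}) = r) :
    finrank K[X] A * (finrank K L / r * Height.logHeight c) ≤
      Height.logHeight₁ (φ (algebraMap K[X] A X)) + finrank ℚ L * |Cr| := by
  obtain ⟨M, _, _, _, _, _, φ', hsurj, hker', hval, hd, hdL⟩ := res _ L φ hker hr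
  have h4 := hCr M φ' c hsurj hker' hc0
  have h5 : Height.logHeight₁ (φ (algebraMap K[X] A X)) =
      finrank M L * Height.logHeight₁ (φ' (algebraMap K[X] A X)) := by
    rw [← hval]
    exact Pool.Agent.Y729.AE.ht_ext _
  have hd0 : (0 : ℝ) ≤ finrank M L := Nat.cast_nonneg _
  rw [h5, ← hd]
  have h6 := mul_le_mul_of_nonneg_left h4 hd0
  have h7 : (finrank M L : ℝ) * Cr ≤ finrank ℚ L * |Cr| :=
    (mul_le_mul_of_nonneg_left (le_abs_self Cr) hd0).trans
      (mul_le_mul_of_nonneg_right hdL (abs_nonneg _))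
  linarith

theorem cover4 : ∃ e : ℕ → ℝ, (∀ c : ℝ, 1 / (8 * (Real.log 2) ^ 2) < c →
      ∀ᶠ n : ℕ in Filter.atTop, e n ≤ c * (Real.log n) ^ 2) ∧ (∀ n, 0 ≤ e n) ∧
  ∀ (K A : Type) [Field K] [NumberField K] [CommRing A] [IsDomain A]
    [Algebra K A] [Algebra K[X] A] [IsScalarTower K K[X] A] [Module.Finite K[X] A]
    [FaithfulSMul K[X] A], IsDomain (TensorProduct K (AlgebraicClosure K) A) →
    ∀ (m : ℕ), 3 ≤ finrank ℚ K * (m + 1) → ∀ (f : Fin (m + 1) → A), LinearIndependent K f →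
    Ideal.span (Set.range f) = ⊤ →
  ∃ (r : ℕ) (E : Set (ℙ K (Fin (m + 1) → K))),
    (∃ c : Fin (m + 1) → K, mem f c ≠ 0 ∧ finrank K (A ⧸ Ideal.span {mem f c}) = r) ∧
    (∀ c ∉ E, finrank K (A ⧸ Ideal.span {mem f c.rep}) = r) ∧
    (∀ c ∉ E, ∀ c' : ℙ K (Fin (m + 1) → K),
      Ideal.span {mem f c.rep} = Ideal.span {mem f c'.rep} → c' = c) ∧
    (∃ C : ℝ, ∀ U : ℝ, 0 ≤ U →
      {c : ℙ K (Fin (m + 1) → K) | c ∈ E ∧ Height.logHeight c.rep ≤ U}.Finite ∧
      ({c : ℙ K (Fin (m + 1) → K) | c ∈ E ∧ Height.logHeight c.rep ≤ U}.ncard : ℝ) ≤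
        C * Real.exp ((m + 1) * U - √U)) ∧
    -- all covers
    (∀ (A' : Type) [CommRing A'] [IsDedekindDomain A'] [Algebra K A'] [Algebra K[X] A']
      [IsScalarTower K K[X] A'] [Module.Finite K[X] A'] [FaithfulSMul K[X] A']
      (π : A →ₐ[K[X]] A') (q : ℕ) (u s w : Fin q → ℕ) (g : ∀ j, Fin (u j) → A)
      (y : ∀ j, Fin (s j) → A') (F : Fin q → Ideal A'),
      (∀ j, (Ideal.span (Set.range (g j))).IsMaximal) →
      (∀ i j, i ≠ j → Ideal.span (Set.range (g i)) ≠ Ideal.span (Set.range (g j))) →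
      (∀ j, HasWt (K := K) f (g j) (w j)) →
      (∀ j, F j ≠ ⊥) →
      (∀ j i, ∀ a ∈ F j, y j i * a ∈ (Ideal.span (Set.range fun l => π (g j l))).radical) →
      ∀ (p : K[X]), p.Monic → ∀ (S : Finset ℕ), (∀ l ∈ S, l.Prime) → ∀ (G κ : ℝ), 0 ≤ G →
      G * e r + 2 * finrank K[X] A < m + 1 → 0 < κ → ∃ C : ℝ,
        ∀ (L : Type) [Field L] [NumberField L] [Algebra K L] (P : A' →ₐ[K] L)
          (c : ℙ K (Fin (m + 1) → K)), c ∉ E →
          RingHom.ker (P.comp (π.restrictScalars K)) = Ideal.span {mem f c.rep} →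
          (∀ j, RingHom.ker (P.comp (π.restrictScalars K)) ≠ Ideal.span (Set.range (g j))) →
          aeval (P (algebraMap K[X] A' X)) p ≠ 0 →
          prox S p (P (algebraMap K[X] A' X)) +
            ((∑ j, (w j : ℝ) + G) / finrank K[X] A - κ) *
              Height.logHeight₁ (P (algebraMap K[X] A' X)) ≤
          (∑ᶠ v : HeightOneSpectrum (𝓞 L), open Classical in if Hits π g y S P v then lN v else 0) +
            (∑ j, (finrank K (A' ⧸ F j) : ℝ)) / finrank K[X] A' *
              Height.logHeight₁ (P (algebraMap K[X] A' X)) +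
            Real.log |(discr L : ℝ)| + finrank ℚ L * C) ∧
    -- the height
    ∃ C : ℝ, ∀ (L : Type) [Field L] [NumberField L] [Algebra K L] (φ : A →ₐ[K] L)
      (c : ℙ K (Fin (m + 1) → K)), c ∉ E → RingHom.ker φ = Ideal.span {mem f c.rep} →
      |Height.logHeight₁ (φ (algebraMap K[X] A X)) -
        finrank K[X] A * (finrank K L / r * Height.logHeight c.rep)| ≤ finrank ℚ L * C := by
  classical
  obtain ⟨e, he1, he2, hmain⟩ := cover3
  refine ⟨e, he1, he2, ?_⟩
  intro K A _ _ _ _ _ _ _ _ _ hdom m hm3 f hf htop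
  obtain ⟨r, E, hr1, hr2, huniq, hdens, hcov, C3, hC3⟩ := hmain K A hdom m hm3 f hf htop
  obtain ⟨Cr, hCr⟩ := Pool.Agent.V8H3.HtRev.htc_rev K A hdom (m + 1) f hf
  -- the lower bound
  have hlow : ∀ (L : Type) [Field L] [NumberField L] [Algebra K L] (φ : A →ₐ[K] L)
      (c : ℙ K (Fin (m + 1) → K)), c ∉ E → RingHom.ker φ = Ideal.span {mem f c.rep} →
      finrank K[X] A * (finrank K L / r * Height.logHeight c.rep) ≤
        Height.logHeight₁ (φ (algebraMap K[X] A X)) + finrank ℚ L * |Cr| :=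
    fun L _ _ _ φ c hc hker => low_ext f Cr hCr L φ c.rep c.rep_nonzero hker (hr2 c hc)
  refine ⟨r, E, hr1, hr2, huniq, hdens, ?_, ⟨|C3| + |Cr|, ?_⟩⟩
  swap
  · intro L _ _ _ φ c hc hker
    have h1 := hC3 L φ c hc hker
    have h2 := hlow L φ c hc hker
    have hn : (0 : ℝ) ≤ finrank ℚ L := Nat.cast_nonneg _
    have h3 : (finrank ℚ L : ℝ) * C3 ≤ finrank ℚ L * |C3| :=
      mul_le_mul_of_nonneg_left (le_abs_self C3) hn
    have h4 : 0 ≤ (finrank ℚ L : ℝ) * |C3| := mul_nonneg hn (abs_nonneg _)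
    have h5 : 0 ≤ (finrank ℚ L : ℝ) * |Cr| := mul_nonneg hn (abs_nonneg _)
    rw [abs_le]
    constructor <;> linarith
  intro A' _ _ _ _ _ _ _ π q u s w g y F hmax hne hwt hF hyF p hp S hS G κ hG hGe hκ
  have hN : 0 < finrank K[X] A := by
    have : Module.IsTorsionFree K[X] A := by
      rw [Module.isTorsionFree_iff_faithfulSMul]
      infer_instance
    have : Nontrivial A := inferInstance
    exact Module.finrank_pos
  have hN' : (0 : ℝ) < finrank K[X] A := by exact_mod_cast hN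
  obtain ⟨C, hC⟩ := hcov A' π q u s w g y F hmax hne hwt hF hyF p hp S hS G
    (κ * finrank K[X] A) hG hGe (mul_pos hκ hN')
  refine ⟨C + (∑ j, (w j : ℝ) + G) / finrank K[X] A * C3 + κ * |Cr|, ?_⟩
  intro L _ _ _ P c hc hker hkne hpne
  have h1 := hC L P c hc hker hkne hpne
  have hX : (P.comp (π.restrictScalars K)) (algebraMap K[X] A X) = P (algebraMap K[X] A' X) := by
    show P (π (algebraMap K[X] A X)) = _
    rw [π.commutes]
  have h2 := hC3 L _ c hc hker
  have h3 := hlow L _ c hc hker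
  rw [hX] at h2 h3
  exact arith hN' (Finset.sum_nonneg fun _ _ => Nat.cast_nonneg _) hG hκ
    h1 h2 h3

end Pool.Agent.V8H3.Cover4
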