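import Mathlib

/-!
# The fundamental identity for a cover of curves over a field
-/

set_option autoImplicit false

namespace Pool.Agent.V8H3.Ram

open Module Polynomial

theorem tower (K A A' : Type) [Field K] [CommRing A] [Algebra K A] [Algebra K[X] A]
    [IsScalarTower K K[X] A] [CommRing A'] [Algebra K A'] [Algebra K[X] A']
    [IsScalarTower K K[X] A'] [Algebra A A'] [IsScalarTower K[X] A A'] :
    IsScalarTower K A A' := by
  refine IsScalarTower.of_algebraMap_eq fun x => ?_
  rw [IsScalarTower.algebraMap_apply K K[X] A', IsScalarTower.algebraMap_apply K[X] A A',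
    ← IsScalarTower.algebraMap_apply K K[X] A]

theorem faithful (K A A' : Type) [Field K] [CommRing A] [IsDomain A]
    [Algebra K[X] A] [Module.Finite K[X] A] [CommRing A'] [Algebra K[X] A']
    [FaithfulSMul K[X] A'] [Algebra A A'] [IsScalarTower K[X] A A'] :
    FaithfulSMul A A' := by
  rw [faithfulSMul_iff_algebraMap_injective]
  have hint : Algebra.IsIntegral K[X] A := Algebra.IsIntegral.of_finite K[X] A
  rw [injective_iff_map_eq_zero]
  intro a ha
  by_contra h
  have h1 : (Ideal.span {a}).comap (algebraMap K[X] A) ≠ ⊥ :=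
    Ideal.comap_ne_bot_of_integral_mem h (Ideal.mem_span_singleton_self a)
      (Algebra.IsIntegral.isIntegral a)
  obtain ⟨p, hp, hp0⟩ := Submodule.exists_mem_ne_zero_of_ne_bot h1
  rw [Ideal.mem_comap, Ideal.mem_span_singleton] at hp
  obtain ⟨b, hb⟩ := hp
  apply hp0
  apply FaithfulSMul.algebraMap_injective K[X] A'
  rw [IsScalarTower.algebraMap_apply K[X] A A', hb, map_mul, ha, zero_mul, map_zero]

theorem fd_res (K A : Type) [Field K] [CommRing A] [Algebra K A] [Algebra K[X] A]
    [IsScalarTower K K[X] A] [Module.Finite K[X] A] (I : Ideal A) (hI : I.IsMaximal) :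
    FiniteDimensional K (A ⧸ I) := by
  let _ : Field (A ⧸ I) := Ideal.Quotient.field I
  have hft : Algebra.FiniteType K A := Algebra.FiniteType.trans (S := K[X])
    inferInstance inferInstance
  have hft2 : Algebra.FiniteType K (A ⧸ I) :=
    hft.of_surjective (Ideal.Quotient.mkₐ K I) (Ideal.Quotient.mkₐ_surjective K I)
  exact finite_of_finite_type_of_isJacobsonRing K (A ⧸ I)

theorem deg_mul {K A A' : Type} [Field K] [CommRing A] [Algebra K A] [CommRing A'] [Algebra K A']
    [Algebra A A'] [IsScalarTower K A A'] (p : Ideal A) (hp : p.IsMaximal) (q : Ideal A')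
    (hq : q.IsMaximal) (hqp : q.LiesOver p) :
    q.inertiaDeg A * finrank K (A ⧸ p) = finrank K (A' ⧸ q) := by
  rw [Ideal.inertiaDeg_eq_of_isMaximal p q]
  have : IsScalarTower K (A ⧸ p) (A' ⧸ q) := by
    refine IsScalarTower.of_algebraMap_eq fun x => ?_
    show Ideal.Quotient.mk q (algebraMap K A' x) =
      algebraMap (A ⧸ p) (A' ⧸ q) (Ideal.Quotient.mk p (algebraMap K A x))
    rw [Ideal.Quotient.algebraMap_mk_of_liesOver, ← IsScalarTower.algebraMap_apply K A A']
  let _ : Field (A ⧸ p) := Ideal.Quotient.field p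
  rw [mul_comm]
  exact finrank_mul_finrank K (A ⧸ p) (A' ⧸ q)

theorem over_max {A A' : Type} [CommRing A] [CommRing A'] [Algebra A A']
    [Algebra.IsIntegral A A'] (p : Ideal A) (hp : p.IsMaximal) (q : Ideal A')
    (hq : q ∈ p.primesOver A') : q.IsMaximal := by
  obtain ⟨h1, h2⟩ := hq
  refine Ideal.isMaximal_of_isIntegral_of_isMaximal_comap (R := A) q ?_
  have h3 : p = q.comap (algebraMap A A') := h2.over
  rw [← h3]
  exact hp

section

variable {K A A' : Type} [Field K] [CommRing A] [IsDedekindDomain A] [Algebra K A]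
  [Algebra K[X] A] [IsScalarTower K K[X] A] [Module.Finite K[X] A] [FaithfulSMul K[X] A]
  [CommRing A'] [IsDedekindDomain A'] [Algebra K A'] [Algebra K[X] A'] [IsScalarTower K K[X] A']
  [Module.Finite K[X] A'] [FaithfulSMul K[X] A'] [Algebra A A'] [IsScalarTower K[X] A A']

omit [FaithfulSMul K[X] A] in
/-- **the fundamental identity** -/
theorem fund (p : Ideal A) (hp : p.IsMaximal) :
    (p.primesOver A').Finite ∧
    (finrank K[X] A : ℝ) * ∑ᶠ q ∈ p.primesOver A', (q.ramificationIdx A : ℝ) *
      (finrank K (A' ⧸ q) : ℝ) = finrank K[X] A' * finrank K (A ⧸ p) := by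
  have hfin : Module.Finite A A' := Module.Finite.of_restrictScalars_finite K[X] A A'
  have hfs : FaithfulSMul A A' := faithful K A A'
  have htf : Module.IsTorsionFree A A' := by
    rw [Module.isTorsionFree_iff_faithfulSMul]
    infer_instance
  have htow := tower K A A'
  have hint : Algebra.IsIntegral A A' := Algebra.IsIntegral.of_finite A A'
  have hfi : (p.primesOver A').Finite := IsDedekindDomain.primesOver_finite p A'
  refine ⟨hfi, ?_⟩
  let _ : Fintype (p.primesOver A') := hfi.fintype
  have h1 := Ideal.sum_ramification_inertia_eq_finrank p A'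
  have h2 : ∑ᶠ q ∈ p.primesOver A', (q.ramificationIdx A : ℝ) * (finrank K (A' ⧸ q) : ℝ) =
      ∑ q : p.primesOver A', (q.1.ramificationIdx A : ℝ) * (finrank K (A' ⧸ q.1) : ℝ) := by
    rw [← finsum_set_coe_eq_finsum_mem, finsum_eq_sum_of_fintype]
  rw [h2]
  have h3 : ∀ q : p.primesOver A', (q.1.ramificationIdx A : ℝ) * (finrank K (A' ⧸ q.1) : ℝ) =
      ((q.1.ramificationIdx A * q.1.inertiaDeg A : ℕ) : ℝ) * finrank K (A ⧸ p) := by
    intro q
    rw [← deg_mul (K := K) p hp q.1 (over_max p hp q.1 q.2) q.2.2]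
    push_cast
    ring
  rw [Finset.sum_congr rfl fun q _ => h3 q, ← Finset.sum_mul, ← Nat.cast_sum, h1, ← mul_assoc]
  congr 1
  have h4 := Module.finrank_mul_finrank' (R := K[X]) (S := A) A'
  exact_mod_cast h4

end

end Pool.Agent.V8H3.Ram
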