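import Mathlib
import Pool.Agent.V8H3.Ram

/-!
# The complement of a divisor in the fibres
-/

set_option autoImplicit false

namespace Pool.Agent.V8H3.Vojta

open Module Polynomial
open Pool.Agent.V8H3.Ram

/-- the dimension of the quotient by an intersection -/
theorem finrank_inf_le {K R : Type} [Field K] [CommRing R] [Algebra K R] (s : Finset (Ideal R))
    (hs : ∀ I ∈ s, FiniteDimensional K (R ⧸ I)) :
    finrank K (R ⧸ s.inf id) ≤ ∑ I ∈ s, finrank K (R ⧸ I) := by
  classical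
  have hfd : ∀ I : s, FiniteDimensional K (R ⧸ I.1) := fun I => hs I.1 I.2
  let φ : R →ₐ[K] (∀ I : s, R ⧸ I.1) := AlgHom.pi fun I => Ideal.Quotient.mkₐ K I.1
  have hφ : ∀ a ∈ s.inf id, φ a = 0 := by
    intro a ha
    funext I
    show Ideal.Quotient.mk I.1 a = 0
    rw [Ideal.Quotient.eq_zero_iff_mem]
    exact (Finset.inf_le (f := id) I.2 : s.inf id ≤ I.1) ha
  let ψ : (R ⧸ s.inf id) →ₐ[K] (∀ I : s, R ⧸ I.1) := Ideal.Quotient.liftₐ _ φ hφ
  have hinj : Function.Injective ψ := by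
    rw [injective_iff_map_eq_zero]
    intro z hz
    obtain ⟨a, rfl⟩ := Ideal.Quotient.mk_surjective z
    have h1 : φ a = 0 := hz
    rw [Ideal.Quotient.eq_zero_iff_mem]
    rw [Submodule.mem_finsetInf]
    intro I hI
    have h2 := congrFun h1 ⟨I, hI⟩
    exact Ideal.Quotient.eq_zero_iff_mem.1 h2
  have h1 := LinearMap.finrank_le_finrank_of_injective (f := ψ.toLinearMap) hinj
  rw [Module.finrank_pi_fintype] at h1
  refine h1.trans (le_of_eq ?_)
  exact Finset.sum_coe_sort s fun I => finrank K (R ⧸ I)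

theorem inf_ne_bot {R : Type} [CommRing R] [IsDomain R] (s : Finset (Ideal R))
    (hs : ∀ I ∈ s, I ≠ ⊥) : s.inf id ≠ ⊥ := by
  classical
  intro h
  have h1 : ∏ I ∈ s, I ≤ ⊥ := by
    rw [← h]
    exact Ideal.prod_le_inf
  rw [le_bot_iff, ← Ideal.zero_eq_bot, Finset.prod_eq_zero_iff] at h1
  obtain ⟨I, hI, h2⟩ := h1
  exact hs I hI h2

/-- the ramification of the cover over a closed point -/
noncomputable def ramP (K : Type) {A : Type} (A' : Type) [Field K] [CommRing A] [CommRing A']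
    [Algebra A A'] [Algebra K A'] (p : Ideal A) : ℝ :=
  ∑ᶠ q ∈ p.primesOver A', ((q.ramificationIdx A : ℝ) - 1) * (finrank K (A' ⧸ q) : ℝ)

/-- the number of the points over `p` which are not in `T`, counted with their degrees -/
theorem compl_deg (K : Type) {A A' : Type} [Field K] [CommRing A] [IsDedekindDomain A]
    [Algebra K A] [Algebra K[X] A] [IsScalarTower K K[X] A] [Module.Finite K[X] A]
    [FaithfulSMul K[X] A] [CommRing A'] [IsDedekindDomain A'] [Algebra K A'] [Algebra K[X] A']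
    [IsScalarTower K K[X] A'] [Module.Finite K[X] A'] [FaithfulSMul K[X] A'] [Algebra A A']
    [IsScalarTower K[X] A A'] (p : Ideal A) (hp : p.IsMaximal) (hp0 : p ≠ ⊥)
    (T : Finset (Ideal A')) :
    ∃ F : Ideal A', F ≠ ⊥ ∧ (∀ J : Ideal A', J.IsPrime → p.map (algebraMap A A') ≤ J →
      J ∉ T → F ≤ J) ∧
      (finrank K (A' ⧸ F) : ℝ) / finrank K[X] A' ≤ (finrank K (A ⧸ p) : ℝ) / finrank K[X] A -
        (ramP K A' p + ∑ᶠ q ∈ p.primesOver A' ∩ T, (finrank K (A' ⧸ q) : ℝ)) /
          finrank K[X] A' := by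
  classical
  obtain ⟨hfi, hfund⟩ := fund (K := K) (A' := A') p hp
  have hfin : Module.Finite A A' := Module.Finite.of_restrictScalars_finite K[X] A A'
  have hfs : FaithfulSMul A A' := faithful K A A'
  have hint : Algebra.IsIntegral A A' := Algebra.IsIntegral.of_finite A A'
  have hN : (0 : ℝ) < finrank K[X] A := by
    have : Module.IsTorsionFree K[X] A := by
      rw [Module.isTorsionFree_iff_faithfulSMul]
      infer_instance
    exact_mod_cast Module.finrank_pos
  have hN' : (0 : ℝ) < finrank K[X] A' := by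
    have : Module.IsTorsionFree K[X] A' := by
      rw [Module.isTorsionFree_iff_faithfulSMul]
      infer_instance
    exact_mod_cast Module.finrank_pos
  set O := hfi.toFinset with hO
  have hmemO : ∀ q, q ∈ O ↔ q ∈ p.primesOver A' := fun q => hfi.mem_toFinset
  have hmax : ∀ q ∈ O, q.IsMaximal := fun q hq => over_max p hp q ((hmemO q).1 hq)
  refine ⟨(O.filter (· ∉ T)).inf id, ?_, ?_, ?_⟩
  · refine inf_ne_bot _ fun I hI => ?_
    rw [Finset.mem_filter, hmemO] at hI
    have : I.LiesOver p := hI.1.2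
    exact Ideal.ne_bot_of_liesOver_of_ne_bot hp0 I
  · intro J hJ hpJ hJT
    have hJO : J ∈ O := by
      rw [hmemO]
      refine ⟨hJ, ⟨?_⟩⟩
      refine hp.eq_of_le ?_ (Ideal.map_le_iff_le_comap.1 hpJ)
      exact Ideal.comap_ne_top _ hJ.ne_top
    exact Finset.inf_le (f := id) (Finset.mem_filter.2 ⟨hJO, hJT⟩)
  · have h1 := finrank_inf_le (K := K) (O.filter (· ∉ T)) fun I hI =>
      fd_res K A' I (hmax I (Finset.mem_filter.1 hI).1)
    have h2 : ((finrank K (A' ⧸ (O.filter (· ∉ T)).inf id) : ℕ) : ℝ) ≤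
        ∑ I ∈ O.filter (· ∉ T), (finrank K (A' ⧸ I) : ℝ) := by
      exact_mod_cast h1
    have h3 : (finrank K[X] A : ℝ) * ∑ q ∈ O, (q.ramificationIdx A : ℝ) *
        (finrank K (A' ⧸ q) : ℝ) = finrank K[X] A' * finrank K (A ⧸ p) := by
      rw [← hfund, finsum_mem_eq_finite_toFinset_sum _ hfi]
    have h4 : ramP K A' p = ∑ q ∈ O, ((q.ramificationIdx A : ℝ) - 1) *
        (finrank K (A' ⧸ q) : ℝ) := by
      rw [ramP, finsum_mem_eq_finite_toFinset_sum _ hfi]
    have h5 : ∑ᶠ q ∈ p.primesOver A' ∩ T, (finrank K (A' ⧸ q) : ℝ) =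
        ∑ q ∈ O.filter (· ∈ T), (finrank K (A' ⧸ q) : ℝ) := by
      have hset : p.primesOver A' ∩ (T : Set (Ideal A')) =
          ((O.filter (· ∈ T) : Finset (Ideal A')) : Set (Ideal A')) := by
        ext q
        rw [Finset.mem_coe, Finset.mem_filter, hmemO]
        rfl
      rw [hset, finsum_mem_coe_finset]
    have h6 : ∑ q ∈ O, (finrank K (A' ⧸ q) : ℝ) =
        ∑ q ∈ O.filter (· ∈ T), (finrank K (A' ⧸ q) : ℝ) +
          ∑ q ∈ O.filter (· ∉ T), (finrank K (A' ⧸ q) : ℝ) :=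
      (Finset.sum_filter_add_sum_filter_not O (· ∈ T) _).symm
    have h7 : ramP K A' p = ∑ q ∈ O, (q.ramificationIdx A : ℝ) * (finrank K (A' ⧸ q) : ℝ) -
        ∑ q ∈ O, (finrank K (A' ⧸ q) : ℝ) := by
      rw [h4, ← Finset.sum_sub_distrib]
      refine Finset.sum_congr rfl fun q _ => ?_
      ring
    have h8 : (finrank K (A ⧸ p) : ℝ) / finrank K[X] A =
        (∑ q ∈ O, (q.ramificationIdx A : ℝ) * (finrank K (A' ⧸ q) : ℝ)) / finrank K[X] A' := by
      rw [div_eq_div_iff hN.ne' hN'.ne']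
      linarith
    rw [h8, h5, ← sub_div]
    refine div_le_div_of_nonneg_right ?_ hN'.le
    linarith

end Pool.Agent.V8H3.Vojta
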