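import Mathlib
import Pool.Agent.V8H3.VojtaA
import Pool.Agent.V8H3.Cover4

/-!
# Vojta's inequality with truncated counting functions on the covers of a curve
-/

set_option autoImplicit false

namespace Pool.Agent.V8H3.Vojta

open Module Polynomial NumberField IsDedekindDomain Pool.Agent.N753.DR
open Pool.Agent.V8H3.Ram
open scoped LinearAlgebra.Projectivization
open Pool.Agent.V8H3.Main3 (HasWt)
open Pool.Agent.V8H3.Cnt3 (Full wg)
open Pool.Agent.V8H3.Cover3 (Hits)
open Pool.Agent.V8H3.Cover4 (cover4)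
open Pool.Agent.N751.CV (prox)

/-- `w` is an admissible weight for the closed point `p` of the curve -/
def Wt {K A : Type} [Field K] [NumberField K] [CommRing A] [Algebra K A] {m : ℕ} (f : Fin m → A)
    (p : Ideal A) (w : ℕ) : Prop :=
  ∃ (L : Type) (_ : Field L) (_ : NumberField L) (_ : Algebra K L) (ψ : A →ₐ[K] L),
    Function.Surjective ψ ∧ RingHom.ker ψ = p ∧
      Full K (fun i => ψ (f i)) ∧ w ≤ wg K (fun i => ψ (f i))

/-- the point `P` is integral at `v` and meets `T` there -/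
def Meets {A' : Type} [CommRing A'] (x : A') (T : Finset (Ideal A'))
    (Y : Ideal A' → Finset A') {L : Type} [Field L] [NumberField L] (S : Finset ℕ) (P : A' →+* L)
    (v : HeightOneSpectrum (𝓞 L)) : Prop :=
  (∀ l ∈ S, (l : 𝓞 L) ∉ v.asIdeal) ∧ v.valuation L (P x) ≤ 1 ∧
    ∃ Q ∈ T, ∀ y ∈ Y Q, v.valuation L (P y) < 1

theorem ne_bot (K A : Type) [Field K] [CommRing A] [IsDomain A] [Algebra K[X] A]
    [Module.Finite K[X] A] [FaithfulSMul K[X] A] (p : Ideal A) (hp : p.IsMaximal) : p ≠ ⊥ := by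
  refine Ring.ne_bot_of_isMaximal_of_not_isField hp fun h1 => ?_
  have hint : Algebra.IsIntegral K[X] A := Algebra.IsIntegral.of_finite K[X] A
  have h2 : IsField K[X] := isField_of_isIntegral_of_isField
    (FaithfulSMul.algebraMap_injective K[X] A) h1
  exact Polynomial.not_isField K h2

/-- products of generators -/
theorem exists_prod {A' : Type} [CommRing A'] (T : Finset (Ideal A')) (Y : Ideal A' → Finset A')
    (hY : ∀ Q ∈ T, Ideal.span (Y Q : Set A') = Q) :
    ∃ (s : ℕ) (y : Fin s → A'), (∀ i, ∀ Q ∈ T, y i ∈ Q) ∧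
      ∀ (L : Type) [Field L] [NumberField L] (P : A' →+* L) (v : HeightOneSpectrum (𝓞 L)),
        (∀ i, v.valuation L (P (y i)) < 1) → ∃ Q ∈ T, ∀ z ∈ Y Q, v.valuation L (P z) < 1 := by
  classical
  let e : (∀ Q : T, Y Q.1) ≃ Fin (Fintype.card (∀ Q : T, Y Q.1)) := Fintype.equivFin _
  refine ⟨_, fun i => ∏ Q : T, ((e.symm i Q : A')), ?_, ?_⟩
  · intro i Q hQ
    have h1 : ((e.symm i ⟨Q, hQ⟩ : Y Q) : A') ∈ Q := by
      have h2 : ((e.symm i ⟨Q, hQ⟩ : Y Q) : A') ∈ Ideal.span (Y Q : Set A') :=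
        Ideal.subset_span (e.symm i ⟨Q, hQ⟩).2
      exact (hY Q hQ).le h2
    exact Ideal.mem_of_dvd _ (Finset.dvd_prod_of_mem _ (Finset.mem_univ (⟨Q, hQ⟩ : T))) h1
  · intro L _ _ P v hv
    by_contra hcon
    push Not at hcon
    choose z hz hz1 using fun Q : T => hcon Q.1 Q.2
    have h1 := hv (e fun Q => ⟨z Q, hz Q⟩)
    dsimp only at h1
    rw [Equiv.symm_apply_apply, map_prod, map_prod] at h1
    exact absurd (Finset.one_le_prod' fun Q _ => hz1 Q) (not_le.2 h1)

/-- the truncated counting functions -/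
theorem count_le {A A' K : Type} [Field K] [CommRing A] [CommRing A'] [Algebra K A']
    [Algebra K[X] A'] {q : ℕ} {u s : Fin q → ℕ} (π : A → A') (g : ∀ j, Fin (u j) → A)
    (y : ∀ j, Fin (s j) → A') (T : Finset (Ideal A')) (Y : Ideal A' → Finset A')
    (hy : ∀ j, ∀ (L : Type) [Field L] [NumberField L] (P : A' →+* L)
      (v : HeightOneSpectrum (𝓞 L)),
        (∀ i, v.valuation L (P (y j i)) < 1) → ∃ Q ∈ T, ∀ z ∈ Y Q, v.valuation L (P z) < 1)
    {L : Type} [Field L] [NumberField L] [Algebra K L] (S : Finset ℕ) (P : A' →ₐ[K] L)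
    (hP : ∀ Q ∈ T, ∃ z ∈ Y Q, P z ≠ 0) :
    (∑ᶠ v : HeightOneSpectrum (𝓞 L), open Classical in
      if Hits π g y S P v then lN v else 0) ≤
    ∑ᶠ v : HeightOneSpectrum (𝓞 L), open Classical in
      if Meets (algebraMap K[X] A' X) T Y S (P : A' →+* L) v then lN v else 0 := by
  classical
  choose! z hz hz0 using hP
  have hfin : {v : HeightOneSpectrum (𝓞 L) |
      Meets (algebraMap K[X] A' X) T Y S (P : A' →+* L) v}.Finite := by
    refine (Set.Finite.biUnion T.finite_toSet fun Q hQ =>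
      Pool.Agent.N297.CV.MainC.val_fin (hz0 Q hQ)).subset ?_
    rintro v ⟨-, -, Q, hQ, h1⟩
    exact Set.mem_biUnion hQ (h1 _ (hz Q hQ))
  have himp : ∀ v : HeightOneSpectrum (𝓞 L), Hits π g y S P v →
      Meets (algebraMap K[X] A' X) T Y S (P : A' →+* L) v := by
    rintro v ⟨h1, h2, j, -, h3⟩
    exact ⟨h1, h2, hy j L (P : A' →+* L) v h3⟩
  refine finsum_le_finsum' ?_ ?_ ?_
  · refine hfin.subset fun v hv => ?_
    rw [Function.mem_support] at hv
    by_contra h1
    apply hv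
    rw [if_neg]
    intro h2
    exact h1 (himp v h2)
  · refine hfin.subset fun v hv => ?_
    rw [Function.mem_support] at hv
    by_contra h1
    exact hv (if_neg h1)
  · intro v
    show (if Hits π g y S P v then lN v else 0) ≤
      if Meets (algebraMap K[X] A' X) T Y S (P : A' →+* L) v then lN v else 0
    by_cases h1 : Hits π g y S P v
    · rw [if_pos h1, if_pos (himp v h1)]
    · rw [if_neg h1]
      split_ifs
      · exact Pool.Agent.V8H3.Cover3.lN_nonneg' v
      · exact le_rfl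

/-- enumeration of the points of `B`: the data for `cover4` -/
theorem data (K : Type) {A A' : Type} [Field K] [CommRing A] [IsDedekindDomain A]
    [Algebra K A] [Algebra K[X] A] [IsScalarTower K K[X] A] [Module.Finite K[X] A]
    [FaithfulSMul K[X] A] [CommRing A'] [IsDedekindDomain A'] [Algebra K A'] [Algebra K[X] A']
    [IsScalarTower K K[X] A'] [Module.Finite K[X] A'] [FaithfulSMul K[X] A'] [Algebra A A']
    [IsScalarTower K[X] A A'] (p : Ideal A) (hp : p.IsMaximal) (T : Finset (Ideal A'))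
    (Y : Ideal A' → Finset A')
    (hT : ∀ Q ∈ T, Q.IsPrime ∧ Ideal.span (Y Q : Set A') = Q) :
    ∃ (u s : ℕ) (g : Fin u → A) (y : Fin s → A') (F : Ideal A'),
      Ideal.span (Set.range g) = p ∧ F ≠ ⊥ ∧
      (∀ i, ∀ a ∈ F, y i * a ∈
        (Ideal.span (Set.range fun l => algebraMap A A' (g l))).radical) ∧
      (∀ (L : Type) [Field L] [NumberField L] (P : A' →+* L) (v : HeightOneSpectrum (𝓞 L)),
        (∀ i, v.valuation L (P (y i)) < 1) → ∃ Q ∈ T, ∀ z ∈ Y Q, v.valuation L (P z) < 1) ∧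
      (finrank K (A' ⧸ F) : ℝ) / finrank K[X] A' ≤ (finrank K (A ⧸ p) : ℝ) / finrank K[X] A -
        (ramP K A' p + ∑ᶠ q ∈ {Q | Q ∈ T ∧ Q.comap (algebraMap A A') = p},
          (finrank K (A' ⧸ q) : ℝ)) / finrank K[X] A' := by
  classical
  obtain ⟨u, g, hg⟩ := Submodule.fg_iff_exists_fin_generating_family.1
    (IsNoetherian.noetherian p)
  have hg' : Ideal.span (Set.range g) = p := hg
  set T' := T.filter fun Q => Q.comap (algebraMap A A') = p with hT'
  obtain ⟨s, y, hy1, hy2⟩ := exists_prod T' Y (fun Q hQ => (hT Q (Finset.mem_filter.1 hQ).1).2)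
  obtain ⟨F, hF0, hF1, hF2⟩ := compl_deg K p hp (ne_bot K A p hp) T'
  refine ⟨u, s, g, y, F, hg', hF0, ?_, ?_, ?_⟩
  · intro i a ha
    have h1 : Ideal.span (Set.range fun l => algebraMap A A' (g l)) =
        p.map (algebraMap A A') := by
      rw [← hg', Ideal.map_span, ← Set.range_comp]
      rfl
    rw [h1, Ideal.radical_eq_sInf, Submodule.mem_sInf]
    rintro J ⟨hJ1, hJ2⟩
    by_cases hJT : J ∈ T'
    · exact Ideal.mul_mem_right _ J (hy1 i J hJT)
    · exact Ideal.mul_mem_left J _ (hF1 J hJ2 hJ1 hJT ha)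
  · intro L _ _ P v hv
    obtain ⟨Q, hQ, h1⟩ := hy2 L P v hv
    exact ⟨Q, (Finset.mem_filter.1 hQ).1, h1⟩
  · have hset : {Q | Q ∈ T ∧ Q.comap (algebraMap A A') = p} =
        p.primesOver A' ∩ (T' : Set (Ideal A')) := by
      ext Q
      constructor
      · rintro ⟨h1, h2⟩
        exact ⟨⟨(hT Q h1).1, ⟨h2.symm⟩⟩, Finset.mem_coe.2 (Finset.mem_filter.2 ⟨h1, h2⟩)⟩
      · rintro ⟨-, h2⟩
        exact Finset.mem_filter.1 (Finset.mem_coe.1 h2)
    rw [hset]
    exact hF2

end Pool.Agent.V8H3.Vojta
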