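import Mathlib
import Pool.Agent.V8H3.VojtaB

/-!
# Vojta's inequality with truncated counting functions on the covers of a curve
-/

set_option autoImplicit false

namespace Pool.Agent.V8H3.Vojta

open Module Polynomial NumberField IsDedekindDomain Pool.Agent.N753.DR
open Pool.Agent.V8H3.Ram
open scoped LinearAlgebra.Projectivization
open Pool.Agent.V8H3.Main3 (HasWt)
open Pool.Agent.V8H3.Cover3 (Hits)
open Pool.Agent.V8H3.Cover4 (cover4)
open Pool.Agent.N751.CV (prox)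

theorem arith2 {pr W0 G N κ H SN SN' D' LL nC R N' d : ℝ}
    (h1 : pr + ((W0 + G) / N - κ) * H ≤ SN + D' * H + LL + nC) (hH : 0 ≤ H)
    (hS : SN ≤ SN') (hD : D' ≤ d / N - R / N') :
    pr + (R / N' + (G - (d - W0)) / N - κ) * H ≤ SN' + LL + nC := by
  have h2 := mul_le_mul_of_nonneg_right hD hH
  have h3 : (R / N' + (G - (d - W0)) / N - κ) * H =
      ((W0 + G) / N - κ) * H - (d / N - R / N') * H := by ring
  rw [h3]
  linarith

/-- **Vojta's inequality on the covers of a curve, for the points above the zeros of almost all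
members of a linear system** -/
theorem vojta : ∃ e : ℕ → ℝ, (∀ c : ℝ, 1 / (8 * (Real.log 2) ^ 2) < c →
      ∀ᶠ n : ℕ in Filter.atTop, e n ≤ c * (Real.log n) ^ 2) ∧ (∀ n, 0 ≤ e n) ∧
  ∀ (K A : Type) [Field K] [NumberField K] [CommRing A] [IsDedekindDomain A]
    [Algebra K A] [Algebra K[X] A] [IsScalarTower K K[X] A] [Module.Finite K[X] A]
    [FaithfulSMul K[X] A], IsDomain (TensorProduct K (AlgebraicClosure K) A) →
    ∀ (m : ℕ), 3 ≤ finrank ℚ K * (m + 1) → ∀ (f : Fin (m + 1) → A), LinearIndependent K f →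
    Ideal.span (Set.range f) = ⊤ →
  ∃ (r : ℕ) (E : Set (ℙ K (Fin (m + 1) → K))),
    (∃ c : Fin (m + 1) → K, mem f c ≠ 0 ∧ finrank K (A ⧸ Ideal.span {mem f c}) = r) ∧
    (∀ c ∉ E, finrank K (A ⧸ Ideal.span {mem f c.rep}) = r) ∧
    (∀ c ∉ E, ∀ c' : ℙ K (Fin (m + 1) → K),
      Ideal.span {mem f c.rep} = Ideal.span {mem f c'.rep} → c' = c) ∧
    (∃ C : ℝ, ∀ U : ℝ, 0 ≤ U →
      {c : ℙ K (Fin (m + 1) → K) | c ∈ E ∧ Height.logHeight c.rep ≤ U}.Finite ∧
      ({c : ℙ K (Fin (m + 1) → K) | c ∈ E ∧ Height.logHeight c.rep ≤ U}.ncard : ℝ) ≤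
        C * Real.exp ((m + 1) * U - √U)) ∧
    -- all covers
    (∀ (A' : Type) [CommRing A'] [IsDedekindDomain A'] [Algebra K A'] [Algebra K[X] A']
      [IsScalarTower K K[X] A'] [Module.Finite K[X] A'] [FaithfulSMul K[X] A'] [Algebra A A']
      [IsScalarTower K[X] A A'] (B : Finset (Ideal A)) (w : Ideal A → ℕ) (T : Finset (Ideal A'))
      (Y : Ideal A' → Finset A'), (∀ I ∈ B, I.IsMaximal ∧ Wt (K := K) f I (w I)) →
      (∀ Q ∈ T, Q.IsPrime ∧ Q.comap (algebraMap A A') ∈ B ∧ Ideal.span (Y Q : Set A') = Q) →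
      ∀ (p : K[X]), p.Monic → ∀ (S : Finset ℕ), (∀ l ∈ S, l.Prime) → ∀ (G κ : ℝ), 0 ≤ G →
      G * e r + 2 * finrank K[X] A < m + 1 → 0 < κ → ∃ C : ℝ,
        ∀ (L : Type) [Field L] [NumberField L] [Algebra K L] (P : A' →ₐ[K] L)
          (c : ℙ K (Fin (m + 1) → K)), c ∉ E →
          (RingHom.ker P).comap (algebraMap A A') = Ideal.span {mem f c.rep} →
          (RingHom.ker P).comap (algebraMap A A') ∉ B →
          aeval (P (algebraMap K[X] A' X)) p ≠ 0 →
          prox S p (P (algebraMap K[X] A' X)) +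
            ((∑ I ∈ B, ramP K A' I + ∑ Q ∈ T, (finrank K (A' ⧸ Q) : ℝ)) / finrank K[X] A' +
              (G - (∑ I ∈ B, (finrank K (A ⧸ I) : ℝ) - ∑ I ∈ B, (w I : ℝ))) / finrank K[X] A -
              κ) * Height.logHeight₁ (P (algebraMap K[X] A' X)) ≤
          (∑ᶠ v : HeightOneSpectrum (𝓞 L), open Classical in
            if Meets (algebraMap K[X] A' X) T Y S (P : A' →+* L) v then lN v else 0) +
            Real.log |(discr L : ℝ)| + finrank ℚ L * C) ∧
    -- the height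
    ∃ C : ℝ, ∀ (L : Type) [Field L] [NumberField L] [Algebra K L] (φ : A →ₐ[K] L)
      (c : ℙ K (Fin (m + 1) → K)), c ∉ E → RingHom.ker φ = Ideal.span {mem f c.rep} →
      |Height.logHeight₁ (φ (algebraMap K[X] A X)) -
        finrank K[X] A * (finrank K L / r * Height.logHeight c.rep)| ≤ finrank ℚ L * C := by
  classical
  obtain ⟨e, he1, he2, hmain⟩ := cover4
  refine ⟨e, he1, he2, ?_⟩
  intro K A _ _ _ _ _ _ _ _ _ hdom m hm3 f hf htop
  obtain ⟨r, E, hr1, hr2, huniq, hdens, hcov, hht⟩ := hmain K A hdom m hm3 f hf htop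
  refine ⟨r, E, hr1, hr2, huniq, hdens, ?_, hht⟩
  intro A' _ _ _ _ _ _ _ _ _ B w T Y hB hT p hp S hS G κ hG hGe hκ
  -- the enumeration
  let eB : B ≃ Fin B.card := B.equivFin
  have hmem : ∀ j, (eB.symm j).1 ∈ B := fun j => (eB.symm j).2
  have hdata : ∀ j : Fin B.card, ∃ (u s : ℕ) (g : Fin u → A) (y : Fin s → A') (F : Ideal A'),
      Ideal.span (Set.range g) = (eB.symm j).1 ∧ F ≠ ⊥ ∧
      (∀ i, ∀ a ∈ F, y i * a ∈
        (Ideal.span (Set.range fun l => algebraMap A A' (g l))).radical) ∧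
      (∀ (L : Type) [Field L] [NumberField L] (P : A' →+* L) (v : HeightOneSpectrum (𝓞 L)),
        (∀ i, v.valuation L (P (y i)) < 1) → ∃ Q ∈ T, ∀ z ∈ Y Q, v.valuation L (P z) < 1) ∧
      (finrank K (A' ⧸ F) : ℝ) / finrank K[X] A' ≤
        (finrank K (A ⧸ (eB.symm j).1) : ℝ) / finrank K[X] A -
        (ramP K A' (eB.symm j).1 + ∑ᶠ q ∈ {Q | Q ∈ T ∧ Q.comap (algebraMap A A') =
          (eB.symm j).1}, (finrank K (A' ⧸ q) : ℝ)) / finrank K[X] A' :=
    fun j => data K _ (hB _ (hmem j)).1 T Y fun Q hQ => ⟨(hT Q hQ).1, (hT Q hQ).2.2⟩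
  choose u s g y F hg hF0 hyF hy hdeg using hdata
  let π : A →ₐ[K[X]] A' := IsScalarTower.toAlgHom K[X] A A'
  obtain ⟨C, hC⟩ := hcov A' π B.card u s (fun j => w (eB.symm j).1) g y F
    (fun j => by rw [hg j]; exact (hB _ (hmem j)).1)
    (fun i j hij => by
      rw [hg i, hg j]
      intro h
      exact hij (eB.symm.injective (Subtype.ext h)))
    (fun j => by
      obtain ⟨L, i1, i2, i3, ψ, h1, h2, h3, h4⟩ := (hB _ (hmem j)).2
      exact ⟨L, i1, i2, i3, ψ, h1, by rw [hg j]; exact h2, h3, h4⟩)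
    hF0 hyF p hp S hS G κ hG hGe hκ
  refine ⟨C, ?_⟩
  intro L _ _ _ P c hc hker hkB hpne
  have hker' : RingHom.ker (P.comp (π.restrictScalars K)) =
      (RingHom.ker P).comap (algebraMap A A') := rfl
  have h1 := hC L P c hc (hker'.trans hker) (fun j h => hkB (by
    rw [← hker', h, hg j]
    exact hmem j)) hpne
  -- the counting functions
  have h2 := count_le (K := K) π g y T Y hy S P (by
    intro Q hQ
    by_contra hcon
    push Not at hcon
    obtain ⟨hQ1, hQ2, hQ3⟩ := hT Q hQ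
    have hQle : Q ≤ RingHom.ker P := by
      rw [← hQ3, Ideal.span_le]
      intro z hz
      exact hcon z hz
    have h3 : Q.comap (algebraMap A A') ≤ (RingHom.ker P).comap (algebraMap A A') :=
      Ideal.comap_mono hQle
    have h4 := (hB _ hQ2).1.eq_of_le (Ideal.comap_ne_top _ (RingHom.ker_ne_top _)) h3
    exact hkB (h4 ▸ hQ2))
  -- the degrees
  have e1 : ∀ φ : Ideal A → ℝ, ∑ j : Fin B.card, φ (eB.symm j).1 = ∑ I ∈ B, φ I := by
    intro φ
    rw [Equiv.sum_comp eB.symm fun b : B => φ b.1]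
    exact Finset.sum_coe_sort B φ
  have e2 : ∑ I ∈ B, ∑ᶠ q ∈ {Q | Q ∈ T ∧ Q.comap (algebraMap A A') = I},
      (finrank K (A' ⧸ q) : ℝ) = ∑ Q ∈ T, (finrank K (A' ⧸ Q) : ℝ) := by
    rw [← Finset.sum_fiberwise_of_maps_to (s := T) (t := B)
      (g := fun Q => Q.comap (algebraMap A A')) fun Q hQ => (hT Q hQ).2.1]
    refine Finset.sum_congr rfl fun I _ => ?_
    rw [← finsum_mem_coe_finset, Finset.coe_filter]
  have h3 : (∑ j, (finrank K (A' ⧸ F j) : ℝ)) / finrank K[X] A' ≤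
      (∑ I ∈ B, (finrank K (A ⧸ I) : ℝ)) / finrank K[X] A -
        (∑ I ∈ B, ramP K A' I + ∑ Q ∈ T, (finrank K (A' ⧸ Q) : ℝ)) / finrank K[X] A' := by
    rw [Finset.sum_div]
    refine (Finset.sum_le_sum fun j _ => hdeg j).trans (le_of_eq ?_)
    rw [e1 fun I => (finrank K (A ⧸ I) : ℝ) / finrank K[X] A -
        (ramP K A' I + ∑ᶠ q ∈ {Q | Q ∈ T ∧ Q.comap (algebraMap A A') = I},
          (finrank K (A' ⧸ q) : ℝ)) / finrank K[X] A', Finset.sum_sub_distrib, ← Finset.sum_div,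
      ← Finset.sum_div, Finset.sum_add_distrib, e2]
  have h4 : ∑ j : Fin B.card, (w (eB.symm j).1 : ℝ) = ∑ I ∈ B, (w I : ℝ) :=
    e1 fun I => (w I : ℝ)
  rw [h4] at h1
  exact arith2 h1 (Height.zero_le_logHeight₁ _) h2 h3

end Pool.Agent.V8H3.Vojta
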