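import Mathlib
import Pool.Agent.V8H3.Main3
import Pool.Agent.N776.CV.VnC

/-!
# The linear systems `V_n`: weights
-/

set_option autoImplicit false

namespace Pool.Agent.V8H3.Vn3

open NumberField IsDedekindDomain Module Polynomial Pool.Agent.N753.DR
open Pool.Agent.V8H3.Cnt3 (Full wg)
open Pool.Agent.V8H3.Main3 (HasWt)
open Pool.Agent.N752.HY (W2)
open Pool.Agent.N776.CV (psi_Vn psi_repr wide_Vn deg_Vn li_Vn exists_le_nat)

/-- the weight of a closed point of degree `d` for the linear system `V_n` -/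
def wn (N n d : ℕ) : ℕ := if d < 3 * (N * (n + 1)) then d else 2 * (N * (n + 1))

theorem fd_quot {K A : Type} [Field K] [CommRing A] [IsDomain A] [Algebra K A]
    [Algebra K[X] A] [IsScalarTower K K[X] A] {N : ℕ} (b : Basis (Fin N) K[X] A) {f : A}
    (hf : f ≠ 0) : FiniteDimensional K (A ⧸ Ideal.span {f}) := by
  have hI : Ideal.span {f} ≠ ⊥ := Ideal.span_singleton_eq_bot.not.2 hf
  exact Module.Finite.equiv (Ideal.quotientEquivDirectSum K b hI).symm

section

variable {K A : Type} [Field K] [NumberField K] [CommRing A] [IsDomain A] [Algebra K A]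
  [Algebra K[X] A] [IsScalarTower K K[X] A] {N : ℕ}

omit [NumberField K] in
/-- the values of the members at a point of large degree are independent -/
theorem rank_eq (e : Basis (Fin N) K[X] A) (c1 : ℕ)
    (h1 : ∀ i j l, (e.repr (e i * e j) l).natDegree ≤ c1) (n : ℕ) {L : Type} [Field L]
    [NumberField L] [Algebra K L] (ψ : A →ₐ[K] L)
    (hd : N * n + N * c1 < finrank K L) (hψ : Function.Surjective ψ) :
    LinearIndependent K (fun i => ψ (Vn (K := K) e n i)) := by
  rw [Fintype.linearIndependent_iff]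
  intro c hc
  have h2 : ψ (mem (Vn (K := K) e n) c) = 0 := by
    rw [mem, map_sum]
    simpa only [map_smul] using hc
  by_cases h3 : mem (Vn (K := K) e n) c = 0
  · exact Fintype.linearIndependent_iff.1 (li_Vn e n) c h3
  exfalso
  have h4 := deg_Vn e c1 h1 n c h3
  have h5 : Ideal.span {mem (Vn (K := K) e n) c} ≤ RingHom.ker ψ := by
    rw [Ideal.span_le, Set.singleton_subset_iff]
    exact h2
  have hfd := fd_quot e h3
  let g : (A ⧸ Ideal.span {mem (Vn (K := K) e n) c}) →ₐ[K] L :=
    Ideal.Quotient.liftₐ _ ψ fun a ha => h5 ha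
  have hg : Function.Surjective g := by
    intro z
    obtain ⟨a, rfl⟩ := hψ z
    exact ⟨Ideal.Quotient.mk _ a, rfl⟩
  have h6 : finrank K L ≤ finrank K (A ⧸ Ideal.span {mem (Vn (K := K) e n) c}) :=
    LinearMap.finrank_le_finrank_of_surjective (f := g.toLinearMap) hg
  omega

/-- the values span a space of large dimension -/
theorem rank_ge (e : Basis (Fin N) K[X] A) (hN : 0 < N) (c1 : ℕ)
    (h1 : ∀ i j l, (e.repr (e i * e j) l).natDegree ≤ c1) (n : ℕ) {L : Type} [Field L]
    [NumberField L] [Algebra K L] (ψ : A →ₐ[K] L) (hψ : Function.Surjective ψ)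
    (hd : finrank K L ≤ N * n + N * c1) :
    finrank K L ≤ finrank K (Submodule.span K (Set.range fun i => ψ (Vn (K := K) e n i))) +
      N * c1 := by
  have hfdL : FiniteDimensional K L := FiniteDimensional.right ℚ K L
  rcases le_or_gt (finrank K L) (N * c1) with h2 | h2
  · omega
  -- the largest `k` with `N k + N c1 < finrank K L`
  obtain ⟨k, hk⟩ : ∃ k, k = (finrank K L - N * c1 - 1) / N := ⟨_, rfl⟩
  have hk1 : N * k + N * c1 < finrank K L := by
    have := Nat.mul_div_le (finrank K L - N * c1 - 1) N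
    rw [← hk] at this
    omega
  have hk2 : finrank K L ≤ N * (k + 1) + N * c1 := by
    have := Nat.lt_mul_div_succ (finrank K L - N * c1 - 1) hN
    rw [← hk] at this
    omega
  have hkn : k ≤ n := by
    by_contra hcon
    push Not at hcon
    have : N * (n + 1) ≤ N * k := Nat.mul_le_mul_left N hcon
    rw [mul_add] at this
    omega
  have h3 := (rank_eq e c1 h1 k ψ hk1 hψ)
  have h4 : Submodule.span K (Set.range fun i => ψ (Vn (K := K) e k i)) ≤
      Submodule.span K (Set.range fun i => ψ (Vn (K := K) e n i)) := by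
    rw [Submodule.span_le]
    rintro _ ⟨i, rfl⟩
    obtain ⟨⟨j, l⟩, rfl⟩ := finProdFinEquiv.surjective i
    refine Submodule.subset_span ⟨finProdFinEquiv (j, ⟨l, by omega⟩), ?_⟩
    show ψ (Vn (K := K) e n _) = ψ (Vn (K := K) e k _)
    rw [psi_Vn, psi_Vn]
  have h5 := Submodule.finrank_mono h4
  have h6 := finrank_span_eq_card h3
  rw [Fintype.card_fin] at h6
  omega

/-- **the weights for `V_n`** -/
theorem wt_Vn (e : Basis (Fin N) K[X] A) {j0 : Fin N} (h0 : e j0 = 1) (c1 : ℕ)
    (h1 : ∀ i j l, (e.repr (e i * e j) l).natDegree ≤ c1) (n : ℕ) (hn : 1 ≤ n)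
    (hn2 : N * c1 ≤ n) {L : Type} [Field L]
    [NumberField L] [Algebra K L] (ψ : A →ₐ[K] L) (hψ : Function.Surjective ψ) :
    Full K (fun i => ψ (Vn (K := K) e n i)) ∧
      wg K (fun i => ψ (Vn (K := K) e n i)) = wn N n (finrank K L) := by
  have hN : 0 < N := j0.pos
  have hfdL : FiniteDimensional K L := FiniteDimensional.right ℚ K L
  constructor
  · set y := ψ (algebraMap K[X] A X) with hy
    have hpow : ∀ k : Fin (n + 1), ψ (Vn (K := K) e n (finProdFinEquiv (j0, k))) =
        y ^ (k : ℕ) := by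
      intro k
      rw [psi_Vn, h0, map_one, mul_one]
    refine ⟨finProdFinEquiv (j0, 0), ?_, ?_⟩
    · change ψ (Vn (K := K) e n (finProdFinEquiv (j0, 0))) ≠ 0
      rw [hpow, Fin.val_zero, pow_zero]
      exact one_ne_zero
    · set F := IntermediateField.adjoin K (Set.range fun i => (fun i => ψ (Vn (K := K) e n i)) i /
        (fun i => ψ (Vn (K := K) e n i)) (finProdFinEquiv (j0, 0))) with hF
      have hm : ∀ i, ψ (Vn (K := K) e n i) ∈ F := by
        intro i
        have h1 : ψ (Vn (K := K) e n i) / ψ (Vn (K := K) e n (finProdFinEquiv (j0, 0))) ∈ F :=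
          IntermediateField.subset_adjoin _ _ ⟨i, rfl⟩
        rwa [hpow, Fin.val_zero, pow_zero, div_one] at h1
      have hyF : y ∈ F := by
        have h1 := hm (finProdFinEquiv (j0, ⟨1, by omega⟩))
        rwa [hpow, pow_one] at h1
      rw [eq_top_iff]
      intro z _
      obtain ⟨a, rfl⟩ := hψ z
      rw [psi_repr ψ e a]
      refine sum_mem fun j _ => mul_mem ?_ ?_
      · rw [aeval_eq_sum_range]
        exact sum_mem fun i _ => F.smul_mem (pow_mem hyF i)
      · have h1 := hm (finProdFinEquiv (j, 0))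
        rwa [psi_Vn, Fin.val_zero, pow_zero, one_mul] at h1
  · unfold wg wn W2
    have hNn : n + 1 ≤ N * (n + 1) := Nat.le_mul_of_pos_left _ hN
    have hNn' : N * (n + 1) = N * n + N := by ring
    rcases le_or_gt (finrank K L) (2 * n + 1) with h2 | h2
    · have h3 := (wide_Vn e h0 n hn ψ hψ h2).2
      rw [if_pos (by omega), if_pos (by omega)]
    · rcases le_or_gt (finrank K L) (N * n + N * c1) with h3 | h3
      · have h4 := rank_ge e hN c1 h1 n ψ hψ h3
        rw [if_pos (by omega), if_pos (by omega)]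
      · have h4 := finrank_span_eq_card (rank_eq e c1 h1 n ψ h3 hψ)
        rw [Fintype.card_fin] at h4
        rw [h4]

/-- the constants of `V_n` -/
theorem const (e : Basis (Fin N) K[X] A) (he : ∃ i, e i = 1) : ∃ c₀ : ℕ, ∀ n : ℕ, c₀ ≤ n →
    LinearIndependent K (Vn (K := K) e n) ∧ Ideal.span (Set.range (Vn (K := K) e n)) = ⊤ ∧
    (∀ c : Fin (N * (n + 1)) → K, mem (Vn (K := K) e n) c ≠ 0 →
      finrank K (A ⧸ Ideal.span {mem (Vn (K := K) e n) c}) ≤ N * n + c₀) ∧
    ∀ (u : ℕ) (g : Fin u → A), (Ideal.span (Set.range g)).IsMaximal →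
      HasWt (K := K) (Vn (K := K) e n) g (wn N n (finrank K (A ⧸ Ideal.span (Set.range g)))) := by
  obtain ⟨j0, h0⟩ := he
  have hN : 0 < N := j0.pos
  obtain ⟨c1, hc1⟩ : ∃ c1 : ℕ, ∀ i j l, (e.repr (e i * e j) l).natDegree ≤ c1 :=
    exists_le_nat fun i j l => (e.repr (e i * e j) l).natDegree
  refine ⟨N * c1 + 1, fun n hn => ⟨li_Vn e n, ?_, ?_, ?_⟩⟩
  · rw [Ideal.eq_top_iff_one]
    refine Ideal.subset_span ⟨finProdFinEquiv (j0, 0), ?_⟩
    rw [Vn, Equiv.symm_apply_apply]
    simp [h0]
  · intro c hc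
    exact (deg_Vn e c1 hc1 n c hc).trans (by omega)
  · intro u g hg
    -- the residue field is a number field
    have : Module.Finite K[X] A := Module.Finite.of_basis e
    set I := Ideal.span (Set.range g) with hI
    let _ : Field (A ⧸ I) := Ideal.Quotient.field I
    have hft : Algebra.FiniteType K A := Algebra.FiniteType.trans (S := K[X])
      inferInstance inferInstance
    have hft2 : Algebra.FiniteType K (A ⧸ I) :=
      hft.of_surjective (Ideal.Quotient.mkₐ K I) (Ideal.Quotient.mkₐ_surjective K I)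
    have hfin : Module.Finite K (A ⧸ I) := finite_of_finite_type_of_isJacobsonRing K (A ⧸ I)
    have : CharZero (A ⧸ I) := charZero_of_injective_algebraMap
      (algebraMap K (A ⧸ I)).injective
    have : NumberField (A ⧸ I) := NumberField.of_module_finite K _
    have h2 := wt_Vn e h0 c1 hc1 n (by omega) (by omega) (Ideal.Quotient.mkₐ K I)
      (Ideal.Quotient.mkₐ_surjective K I)
    exact ⟨A ⧸ I, inferInstance, inferInstance, inferInstance, Ideal.Quotient.mkₐ K I,
      Ideal.Quotient.mkₐ_surjective K I, Ideal.Quotient.mkₐ_ker K I, h2.1, h2.2.ge⟩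

end

end Pool.Agent.V8H3.Vn3
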