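import Mathlib
import Pool.Agent.V8H3.VojtaC
import Pool.Agent.V8H3.Vn3

/-!
# Vojta's inequality for the systems `V_n`: the growth condition
-/

set_option autoImplicit false

namespace Pool.Agent.V8H3.VojtaD

open Filter Asymptotics

/-- the growth condition holds for large `n` -/
theorem growth (e : ℕ → ℝ) (he1 : ∀ c : ℝ, 1 / (8 * (Real.log 2) ^ 2) < c →
      ∀ᶠ n : ℕ in Filter.atTop, e n ≤ c * (Real.log n) ^ 2) (he2 : ∀ n, 0 ≤ e n)
    (G : ℝ) (hG : 0 ≤ G) (N c₀ : ℕ) (hN : 0 < N) :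
    ∃ n₀ : ℕ, ∀ n, n₀ ≤ n → ∀ r ≤ N * n + c₀, G * e r + 2 * N < ((N * (n + 1) : ℕ) : ℝ) := by
  have hlog2 : 1 / (8 * (Real.log 2) ^ 2) < (1 : ℝ) := by
    have h1 : (0.6931471803 : ℝ) < Real.log 2 := Real.log_two_gt_d9
    rw [div_lt_one (by positivity)]
    nlinarith
  obtain ⟨n1, hn1⟩ := eventually_atTop.1 (he1 1 hlog2)
  obtain ⟨C0, hC0, hC⟩ : ∃ C0 : ℝ, 0 ≤ C0 ∧ ∀ r < n1, e r ≤ C0 :=
    ⟨∑ k ∈ Finset.range n1, e k, Finset.sum_nonneg fun k _ => he2 k, fun r hr =>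
      Finset.single_le_sum (fun k _ => he2 k) (Finset.mem_range.2 hr)⟩
  have hbd : ∀ (M r : ℕ), r ≤ M → e r ≤ C0 + (Real.log ((M : ℝ) + 1)) ^ 2 := by
    intro M r hr
    rcases lt_or_ge r n1 with h | h
    · have := hC r h
      nlinarith [sq_nonneg (Real.log ((M : ℝ) + 1))]
    · have h1 := hn1 r h
      rw [one_mul] at h1
      have h2 : Real.log r ≤ Real.log ((M : ℝ) + 1) := by
        rcases Nat.eq_zero_or_pos r with h0 | h0
        · rw [h0, Nat.cast_zero, Real.log_zero]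
          exact Real.log_nonneg (by linarith [Nat.cast_nonneg (α := ℝ) M])
        · apply Real.log_le_log
          · exact_mod_cast h0
          · have : (r : ℝ) ≤ M := by exact_mod_cast hr
            linarith
      have h3 : 0 ≤ Real.log r := Real.log_natCast_nonneg r
      have h4 : (Real.log r) ^ 2 ≤ (Real.log ((M : ℝ) + 1)) ^ 2 := pow_le_pow_left₀ h3 h2 2
      linarith
  -- the growth of the logarithm
  have hlo : (fun x : ℝ => (Real.log x) ^ 2) =o[atTop] (fun x : ℝ => x) := by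
    have := Real.isLittleO_pow_log_id_atTop (n := 2)
    exact this
  have hev : ∀ᶠ x : ℝ in atTop, (Real.log x) ^ 2 ≤ (1 / (4 * (G + 1))) * x := by
    have h1 := hlo.bound (show (0 : ℝ) < 1 / (4 * (G + 1)) by positivity)
    filter_upwards [h1, eventually_ge_atTop (0 : ℝ)] with x hx hx0
    rwa [Real.norm_of_nonneg (sq_nonneg _), Real.norm_of_nonneg hx0] at hx
  obtain ⟨x0, hx0⟩ := eventually_atTop.1 hev
  obtain ⟨n2, hn2⟩ := exists_nat_ge (max x0 (4 * (G * C0 + (c₀ : ℝ) + 2 * N + 1)))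
  refine ⟨n2, fun n hn r hr => ?_⟩
  have hNr : (1 : ℝ) ≤ N := by exact_mod_cast hN
  have hnr : (n2 : ℝ) ≤ n := by exact_mod_cast hn
  have hn0 : (0 : ℝ) ≤ n := Nat.cast_nonneg n
  have hc0 : (0 : ℝ) ≤ c₀ := Nat.cast_nonneg c₀
  have hNn : (n : ℝ) ≤ N * n := by nlinarith
  have h1 := hbd (N * n + c₀) r hr
  push_cast at h1 ⊢
  have h2 := hx0 ((N : ℝ) * n + c₀ + 1) (by
    have := (le_max_left _ _).trans hn2
    linarith)
  have h3 : 4 * (G * C0 + (c₀ : ℝ) + 2 * N + 1) ≤ n := ((le_max_right _ _).trans hn2).trans hnr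
  have h4 : G * e r ≤ G * (C0 + (1 / (4 * (G + 1))) * ((N : ℝ) * n + c₀ + 1)) :=
    mul_le_mul_of_nonneg_left (h1.trans (by linarith)) hG
  have h5 : G * (1 / (4 * (G + 1))) ≤ 1 / 4 := by
    rw [mul_one_div, div_le_div_iff₀ (by positivity) (by positivity)]
    nlinarith
  have h6 : G * (1 / (4 * (G + 1))) * ((N : ℝ) * n + c₀ + 1) ≤
      1 / 4 * ((N : ℝ) * n + c₀ + 1) := mul_le_mul_of_nonneg_right h5 (by positivity)
  have h7 : 0 ≤ G * C0 := mul_nonneg hG hC0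
  nlinarith

end Pool.Agent.V8H3.VojtaD
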