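import Mathlib
import Pool.Agent.N753.DR.Stm2
import Pool.Agent.N340.DR.Comb
import Pool.Agent.N262.DR.Box
import Pool.Agent.N394.CV.TypB

/-!
# CV/SMALLB, part A: primes above `p`, the family of conditions at `p`, local counts
-/

set_option autoImplicit false
set_option linter.unusedSectionVars false

namespace Pool.Agent.V8H3.SmallB

open NumberField IsDedekindDomain Module Polynomial Pool.Agent.N753.DR Finset

section primes

variable {F : Type} [Field F] [NumberField F]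

/-- distinct primes which contain `p`: the product of the norms divides `p ^ [F : ℚ]` -/
lemma prod_absNorm_dvd (W : Finset (HeightOneSpectrum (𝓞 F))) (p : ℕ)
    (hW : ∀ w ∈ W, (p : 𝓞 F) ∈ w.asIdeal) :
    ∏ w ∈ W, Ideal.absNorm w.asIdeal ∣ p ^ finrank ℚ F := by
  classical
  have h1 : ∏ w ∈ W, w.asIdeal ∣ Ideal.span {(p : 𝓞 F)} := by
    have h2 := Finset.prod_primes_dvd (s := W.image fun w => w.asIdeal) (Ideal.span {(p : 𝓞 F)})
      (by
        intro a ha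
        obtain ⟨w, -, rfl⟩ := Finset.mem_image.1 ha
        exact w.prime)
      (by
        intro a ha
        obtain ⟨w, hw, rfl⟩ := Finset.mem_image.1 ha
        rw [Ideal.dvd_span_singleton]
        exact hW w hw)
    rwa [Finset.prod_image] at h2
    intro w _ w' _ h
    exact HeightOneSpectrum.ext h
  have h2 : Ideal.absNorm (∏ w ∈ W, w.asIdeal) ∣ Ideal.absNorm (Ideal.span {(p : 𝓞 F)}) :=
    map_dvd _ h1
  rwa [map_prod, Ideal.absNorm_span_natCast, RingOfIntegers.rank] at h2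

lemma absNorm_ge {p : ℕ} (hp : p.Prime) {v : HeightOneSpectrum (𝓞 F)}
    (hv : (p : 𝓞 F) ∈ v.asIdeal) : p ≤ Ideal.absNorm v.asIdeal := by
  have h1 := prod_absNorm_dvd {v} p (by simpa using hv)
  rw [Finset.prod_singleton] at h1
  obtain ⟨j, -, hj⟩ := (Nat.dvd_prime_pow hp).1 h1
  rw [hj]
  have h2 : j ≠ 0 := by
    rintro rfl
    rw [pow_zero, Ideal.absNorm_eq_one_iff] at hj
    exact v.isPrime.ne_top hj
  exact Nat.le_self_pow h2 p

lemma card_primes_above {p : ℕ} (hp : p.Prime) (W : Finset (HeightOneSpectrum (𝓞 F)))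
    (hW : ∀ w ∈ W, (p : 𝓞 F) ∈ w.asIdeal) : W.card ≤ finrank ℚ F := by
  have h1 := Nat.le_of_dvd (pow_pos hp.pos _) (prod_absNorm_dvd W p hW)
  have h2 : p ^ W.card ≤ ∏ w ∈ W, Ideal.absNorm w.asIdeal := by
    rw [← Finset.prod_const]
    exact Finset.prod_le_prod' fun w hw => absNorm_ge hp (hW w hw)
  exact (Nat.pow_le_pow_iff_right hp.one_lt).1 (h2.trans h1)

lemma primes_above_finite {p : ℕ} (hp : p ≠ 0) :
    {v : HeightOneSpectrum (𝓞 F) | (p : 𝓞 F) ∈ v.asIdeal}.Finite := by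
  have h1 : Ideal.span {(p : 𝓞 F)} ≠ 0 := by
    rw [Ne, Ideal.zero_eq_bot, Ideal.span_singleton_eq_bot]
    exact_mod_cast hp
  refine (Ideal.finite_factors h1).subset ?_
  intro v hv
  rw [Set.mem_ofPred_eq, Ideal.dvd_span_singleton]
  exact hv

lemma primes_above_ncard {p : ℕ} (hp : p.Prime) :
    {v : HeightOneSpectrum (𝓞 F) | (p : 𝓞 F) ∈ v.asIdeal}.ncard ≤ finrank ℚ F := by
  have hf := primes_above_finite (F := F) hp.ne_zero
  rw [Set.ncard_eq_toFinset_card _ hf]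
  exact card_primes_above hp _ fun w hw => by simpa using hw

end primes

section

variable {K L : Type} [Field K] [NumberField K] [Field L] [NumberField L] [Algebra K L]

/-- the ideals which describe a divisibility by `w ^ k`, or a double zero above `p` -/
def Fam (Bad : Finset (HeightOneSpectrum (𝓞 K))) (L : Type) [Field L] [NumberField L]
    [Algebra K L] (p k : ℕ) : Set (Ideal (𝓞 L)) :=
  {b | ∃ v ∉ Bad, (p : 𝓞 K) ∈ v.asIdeal ∧
    ((∃ w : HeightOneSpectrum (𝓞 L), w.asIdeal.LiesOver v.asIdeal ∧ b = w.asIdeal ^ k) ∨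
      (k = 2 ∧ IsTyp v b))}

/-- what we use of `StmTypB` -/
def GoodB (β0 β1 : 𝓞 L) (v : HeightOneSpectrum (𝓞 K)) : Prop :=
    (∀ w : HeightOneSpectrum (𝓞 L), w.asIdeal.LiesOver v.asIdeal → β0 ∉ w.asIdeal) ∧
    (∀ w : HeightOneSpectrum (𝓞 L), w.asIdeal.LiesOver v.asIdeal → ∀ (e : ℕ) (c : 𝓞 K),
      algebraMap (𝓞 K) (𝓞 L) c ∈ w.asIdeal ^ e → c ∈ v.asIdeal ^ e) ∧
    (∀ p : ℕ, p.Prime → (p : 𝓞 K) ∈ v.asIdeal → ∀ (e : ℕ) (m : ℤ),
      (m : 𝓞 K) ∈ v.asIdeal ^ e → (p : ℤ) ^ e ∣ m) ∧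
    (∀ w : HeightOneSpectrum (𝓞 L), w.asIdeal.LiesOver v.asIdeal → ∀ c0 c1 : 𝓞 K,
      algebraMap (𝓞 K) (𝓞 L) c0 * β0 + algebraMap (𝓞 K) (𝓞 L) c1 * β1 ∈ w.asIdeal →
      (Ideal.absNorm v.asIdeal < Ideal.absNorm w.asIdeal ∨
        ∃ w' : HeightOneSpectrum (𝓞 L), w'.asIdeal.LiesOver v.asIdeal ∧ w' ≠ w ∧
          algebraMap (𝓞 K) (𝓞 L) c0 * β0 + algebraMap (𝓞 K) (𝓞 L) c1 * β1 ∈ w'.asIdeal) →
      c0 ∈ v.asIdeal ∧ c1 ∈ v.asIdeal)

lemma fam_finite_card (Bad : Finset (HeightOneSpectrum (𝓞 K)))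
    (hBad : ∀ v ∉ Bad, {b : Ideal (𝓞 L) | IsTyp v b}.Finite ∧
      {b : Ideal (𝓞 L) | IsTyp v b}.ncard ≤ 2 * finrank K L ^ 2) {p k : ℕ} (hp : p.Prime) :
    (Fam Bad L p k).Finite ∧
      (Fam Bad L p k).ncard ≤ finrank ℚ K * (finrank K L + 2 * finrank K L ^ 2) := by
  classical
  have hnz := Pool.Agent.N147.DR.nzsd (K := K) (L := L)
  have hf := primes_above_finite (F := K) hp.ne_zero
  set V := hf.toFinset.filter (fun v => v ∉ Bad) with hV
  set G : HeightOneSpectrum (𝓞 K) → Set (Ideal (𝓞 L)) := fun v =>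
    (((IsDedekindDomain.primesOverFinset v.asIdeal (𝓞 L)).image fun I => I ^ k : Finset (Ideal (𝓞 L))) :
      Set (Ideal (𝓞 L))) ∪ {b : Ideal (𝓞 L) | IsTyp v b} with hG
  have hsub : Fam Bad L p k ⊆ ⋃ v ∈ V, G v := by
    rintro b ⟨v, hv, hpv, h⟩
    rw [Set.mem_iUnion₂]
    refine ⟨v, ?_, ?_⟩
    · rw [hV, Finset.mem_filter, Set.Finite.mem_toFinset]
      exact ⟨hpv, hv⟩
    · rcases h with ⟨w, hw, rfl⟩ | ⟨-, h⟩
      · left
        rw [Finset.mem_coe, Finset.mem_image]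
        refine ⟨w.asIdeal, ?_, rfl⟩
        rw [IsDedekindDomain.mem_primesOverFinset_iff v.ne_bot]
        exact ⟨w.isPrime, hw⟩
      · right
        exact h
  have hfin : ∀ v ∈ V, (G v).Finite := by
    intro v hv
    rw [hV, Finset.mem_filter] at hv
    exact (Finset.finite_toSet _).union (hBad v hv.2).1
  have hcard : ∀ v ∈ V, (G v).ncard ≤ finrank K L + 2 * finrank K L ^ 2 := by
    intro v hv
    rw [hV, Finset.mem_filter] at hv
    refine (Set.ncard_union_le _ _).trans (Nat.add_le_add ?_ (hBad v hv.2).2)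
    rw [Set.ncard_coe_finset]
    exact Finset.card_image_le.trans (Ideal.card_primesOverFinset_le_finrank (𝓞 L) K L v.ne_bot)
  have hU : (⋃ v ∈ V, G v).Finite := Set.Finite.biUnion V.finite_toSet hfin
  refine ⟨hU.subset hsub, (Set.ncard_le_ncard hsub hU).trans ?_⟩
  have h1 : (⋃ v ∈ V, G v).ncard ≤ ∑ v ∈ V, (G v).ncard := by
    clear hsub hfin hcard hU
    induction V using Finset.induction_on with
    | empty => simp
    | insert x T hx ih =>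
      rw [Finset.set_biUnion_insert, Finset.sum_insert hx]
      exact (Set.ncard_union_le _ _).trans (Nat.add_le_add_left ih _)
  refine h1.trans ((Finset.sum_le_sum hcard).trans ?_)
  rw [Finset.sum_const, smul_eq_mul]
  refine Nat.mul_le_mul_right _ ?_
  refine (Finset.card_filter_le _ _).trans ?_
  exact card_primes_above hp _ fun w hw => by simpa using hw

lemma mem_of_liesOver {v : HeightOneSpectrum (𝓞 K)} {w : HeightOneSpectrum (𝓞 L)}
    (h : w.asIdeal.LiesOver v.asIdeal) {c : 𝓞 K} (hc : c ∈ v.asIdeal) :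
    algebraMap (𝓞 K) (𝓞 L) c ∈ w.asIdeal := by
  have h1 := h.over
  rw [h1, Ideal.under_def, Ideal.mem_comap] at hc
  exact hc

lemma natCast_mem {v : HeightOneSpectrum (𝓞 K)} {w : HeightOneSpectrum (𝓞 L)}
    (h : w.asIdeal.LiesOver v.asIdeal) {p : ℕ} (hc : (p : 𝓞 K) ∈ v.asIdeal) :
    (p : 𝓞 L) ∈ w.asIdeal := by
  have := mem_of_liesOver h hc
  rwa [map_natCast] at this

lemma pow_mem_fam {Bad : Finset (HeightOneSpectrum (𝓞 K))} {p k : ℕ} {b : Ideal (𝓞 L)}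
    (hb : b ∈ Fam Bad L p k) : (p : 𝓞 L) ^ k ∈ b := by
  obtain ⟨v, -, hpv, h⟩ := hb
  rcases h with ⟨w, hw, rfl⟩ | ⟨rfl, w, hw, h⟩
  · exact Ideal.pow_mem_pow (natCast_mem hw hpv) k
  · have hpw := natCast_mem hw hpv
    rcases h with rfl | ⟨w', hw', -, rfl⟩ | ⟨rfl, -⟩
    · exact Ideal.pow_mem_pow hpw 2
    · rw [sq]
      exact Ideal.mul_mem_mul hpw (natCast_mem hw' hpv)
    · rw [sq]
      exact Ideal.mul_mem_left _ _ hpw

/-- local count at `w ^ k` -/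
lemma count_pow {β0 β1 : 𝓞 L} {v : HeightOneSpectrum (𝓞 K)} (hG : GoodB β0 β1 v)
    {w : HeightOneSpectrum (𝓞 L)} (hw : w.asIdeal.LiesOver v.asIdeal) {p : ℕ} (hp : p.Prime)
    (hpv : (p : 𝓞 K) ∈ v.asIdeal) (k : ℕ) (y : 𝓞 L) (T : Finset (ℕ × ℕ))
    (hT : ∀ m ∈ T, m.1 < p ^ k ∧ m.2 < p ^ k ∧
      y + (m.1 : 𝓞 L) * β0 + (m.2 : 𝓞 L) * β1 ∈ w.asIdeal ^ k) : T.card ≤ p ^ k := by
  have h1 : T.card ≤ (range (p ^ k)).card := by
    refine Finset.card_le_card_of_injOn Prod.snd ?_ ?_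
    · intro m hm
      rw [mem_coe, mem_range]
      exact (hT m hm).2.1
    · intro m hm m' hm' h
      obtain ⟨a1, a2, a3⟩ := hT m hm
      obtain ⟨b1, b2, b3⟩ := hT m' hm'
      have h2 : (((m.1 : ℤ) - (m'.1 : ℤ) : ℤ) : 𝓞 L) * β0 ∈ w.asIdeal ^ k := by
        have h3 := Ideal.sub_mem _ a3 b3
        rw [h] at h3
        convert h3 using 1
        push_cast
        ring
      have h3 : (((m.1 : ℤ) - (m'.1 : ℤ) : ℤ) : 𝓞 L) ∈ w.asIdeal ^ k := by
        have hwp := w.isPrime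
        rw [mul_comm] at h2
        exact (Ideal.IsPrime.mul_mem_pow w.asIdeal h2).resolve_left (hG.1 w hw)
      have h4 : (((m.1 : ℤ) - (m'.1 : ℤ) : ℤ) : 𝓞 K) ∈ v.asIdeal ^ k := by
        apply hG.2.1 w hw k
        rwa [map_intCast]
      have h5 := hG.2.2.1 p hp hpv k _ h4
      have h6 : m.1 = m'.1 := by
        have h7 : (p : ℤ) ^ k = ((p ^ k : ℕ) : ℤ) := by push_cast; rfl
        rw [h7] at h5
        have h8 : (m.1 : ℤ) - m'.1 = 0 := by
          apply Int.eq_zero_of_abs_lt_dvd h5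
          rw [abs_lt]
          constructor <;> omega
        omega
      exact Prod.ext h6 h
  rwa [card_range] at h1

/-- local count for the double zeros which are not squares -/
lemma count_two {β0 β1 : 𝓞 L} {v : HeightOneSpectrum (𝓞 K)} (hG : GoodB β0 β1 v)
    {p : ℕ} (hp : p.Prime) (hpv : (p : 𝓞 K) ∈ v.asIdeal) (y : 𝓞 L) (b : Ideal (𝓞 L))
    (hb : ∀ c0 c1 : 𝓞 K,
      algebraMap (𝓞 K) (𝓞 L) c0 * β0 + algebraMap (𝓞 K) (𝓞 L) c1 * β1 ∈ b →
        c0 ∈ v.asIdeal ∧ c1 ∈ v.asIdeal) (T : Finset (ℕ × ℕ))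
    (hT : ∀ m ∈ T, m.1 < p ^ 2 ∧ m.2 < p ^ 2 ∧
      y + (m.1 : 𝓞 L) * β0 + (m.2 : 𝓞 L) * β1 ∈ b) : T.card ≤ p ^ 2 := by
  have hmod : ∀ m ∈ T, ∀ m' ∈ T, (m.1 : ℤ) ≡ m'.1 [ZMOD p] ∧ (m.2 : ℤ) ≡ m'.2 [ZMOD p] := by
    intro m hm m' hm'
    obtain ⟨-, -, a3⟩ := hT m hm
    obtain ⟨-, -, b3⟩ := hT m' hm'
    have h3 := Ideal.sub_mem _ b3 a3
    have h4 : algebraMap (𝓞 K) (𝓞 L) (((m'.1 : ℤ) - (m.1 : ℤ) : ℤ) : 𝓞 K) * β0 +
        algebraMap (𝓞 K) (𝓞 L) (((m'.2 : ℤ) - (m.2 : ℤ) : ℤ) : 𝓞 K) * β1 ∈ b := by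
      convert h3 using 1
      rw [map_intCast, map_intCast]
      push_cast
      ring
    obtain ⟨h5, h6⟩ := hb _ _ h4
    have h7 := hG.2.2.1 p hp hpv 1 ((m'.1 : ℤ) - (m.1 : ℤ)) (by rwa [pow_one])
    have h8 := hG.2.2.1 p hp hpv 1 ((m'.2 : ℤ) - (m.2 : ℤ)) (by rwa [pow_one])
    rw [pow_one] at h7 h8
    exact ⟨(Int.modEq_iff_dvd).2 h7, (Int.modEq_iff_dvd).2 h8⟩
  have h1 : T.card ≤ (range p ×ˢ range p).card := by
    refine Finset.card_le_card_of_injOn (fun m => (m.1 / p, m.2 / p)) ?_ ?_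
    · intro m hm
      obtain ⟨a1, a2, -⟩ := hT m hm
      rw [mem_coe, mem_product, mem_range, mem_range]
      rw [sq] at a1 a2
      exact ⟨Nat.div_lt_of_lt_mul a1, Nat.div_lt_of_lt_mul a2⟩
    · intro m hm m' hm' h
      simp only [Prod.mk.injEq] at h
      obtain ⟨h1, h2⟩ := hmod m hm m' hm'
      have h1' : m.1 % p = m'.1 % p := (Int.natCast_modEq_iff).1 h1
      have h2' : m.2 % p = m'.2 % p := (Int.natCast_modEq_iff).1 h2
      have e1 := Nat.mod_add_div m.1 p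
      have e2 := Nat.mod_add_div m'.1 p
      have e3 := Nat.mod_add_div m.2 p
      have e4 := Nat.mod_add_div m'.2 p
      rw [h1', h.1] at e1
      rw [h2', h.2] at e3
      exact Prod.ext (e1.symm.trans e2) (e3.symm.trans e4)
  rwa [card_product, card_range, ← sq] at h1

/-- local count for one member of the family -/
lemma count_fam {β0 β1 : 𝓞 L} {Bad : Finset (HeightOneSpectrum (𝓞 K))}
    (hG : ∀ v ∉ Bad, GoodB β0 β1 v) {p k : ℕ} (hp : p.Prime) {b : Ideal (𝓞 L)}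
    (hb : b ∈ Fam Bad L p k) (y : 𝓞 L) (T : Finset (ℕ × ℕ))
    (hT : ∀ m ∈ T, m.1 < p ^ k ∧ m.2 < p ^ k ∧
      y + (m.1 : 𝓞 L) * β0 + (m.2 : 𝓞 L) * β1 ∈ b) : T.card ≤ p ^ k := by
  obtain ⟨v, hv, hpv, h⟩ := hb
  have hGv := hG v hv
  rcases h with ⟨w, hw, rfl⟩ | ⟨rfl, w, hw, h⟩
  · exact count_pow hGv hw hp hpv k y T hT
  · rcases h with rfl | ⟨w', hw', hne, rfl⟩ | ⟨rfl, hlt⟩
    · exact count_pow hGv hw hp hpv 2 y T hT
    · refine count_two hGv hp hpv y _ ?_ T hT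
      intro c0 c1 hc
      have e1 : w.asIdeal * w'.asIdeal ≤ w.asIdeal := Ideal.mul_le_left
      have e2 : w.asIdeal * w'.asIdeal ≤ w'.asIdeal := Ideal.mul_le_right
      exact hGv.2.2.2 w hw c0 c1 (e1 hc) (Or.inr ⟨w', hw', hne, e2 hc⟩)
    · refine count_two hGv hp hpv y _ ?_ T hT
      intro c0 c1 hc
      exact hGv.2.2.2 w hw c0 c1 hc (Or.inl hlt)

end

end Pool.Agent.V8H3.SmallB
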