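import Mathlib
import Pool.Agent.V8H3.SmallA

/-!
# CV/SMALLB, part B: the number of the `c` with conditions modulo `q`
-/

set_option autoImplicit false
set_option linter.unusedSectionVars false

namespace Pool.Agent.V8H3.SmallB

open NumberField IsDedekindDomain Module Polynomial Pool.Agent.N753.DR Finset

section

variable {K L : Type} [Field K] [NumberField K] [Field L] [NumberField L] [Algebra K L]

/-- the two directions -/
noncomputable def dir {m : ℕ} (i0 i1 : Fin m) (z : ℕ × ℕ) : Fin m → 𝓞 K :=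
  Pi.single i0 (z.1 : 𝓞 K) + Pi.single i1 (z.2 : 𝓞 K)

lemma evB_dir {m : ℕ} (β : Fin m → 𝓞 L) (i0 i1 : Fin m) (Q : Fin m → 𝓞 K) (z : ℕ × ℕ) :
    evB K β (Q + dir i0 i1 z) = evB K β Q + (z.1 : 𝓞 L) * β i0 + (z.2 : 𝓞 L) * β i1 := by
  unfold dir
  rw [map_add, map_add, Pool.Agent.N394.CV.evB_single, Pool.Agent.N394.CV.evB_single,
    map_natCast, map_natCast]
  ring

lemma sz_single {m : ℕ} (i j : Fin m) (a : ℕ) :
    sz ((Pi.single i (a : 𝓞 K) : Fin m → 𝓞 K) j) ≤ a * sz (1 : 𝓞 K) := by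
  by_cases h0 : j = i
  · subst h0
    rw [Pi.single_eq_same]
    exact Pool.Agent.N262.DR.sz_nat a
  · rw [Pi.single_eq_of_ne h0]
    have : sz (0 : 𝓞 K) = 0 := by
      apply Nat.eq_zero_of_le_zero
      rw [Pool.Agent.N262.DR.sz_le_iff]
      intro i; simp
    rw [this]; exact Nat.zero_le _

lemma sz_dir {m B q : ℕ} (hq : q ≤ B) (i0 i1 : Fin m) {c : Fin m → 𝓞 K} (hc : c ∈ Bx K m B)
    {z : ℕ × ℕ} (hz : z ∈ range q ×ˢ range q) :
    c - dir i0 i1 z ∈ Bx K m ((1 + 2 * sz (1 : 𝓞 K)) * B) := by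
  rw [mem_product, mem_range, mem_range] at hz
  intro j
  have h1 : c j - dir i0 i1 z j =
      (c j - (Pi.single i0 (z.1 : 𝓞 K) : Fin m → 𝓞 K) j) -
        (Pi.single i1 (z.2 : 𝓞 K) : Fin m → 𝓞 K) j := by
    unfold dir
    rw [Pi.add_apply]
    ring
  rw [Pi.sub_apply, h1]
  have h2 := Pool.Agent.N262.DR.sz_sub (c j - (Pi.single i0 (z.1 : 𝓞 K) : Fin m → 𝓞 K) j)
    ((Pi.single i1 (z.2 : 𝓞 K) : Fin m → 𝓞 K) j)
  have h3 := Pool.Agent.N262.DR.sz_sub (c j) ((Pi.single i0 (z.1 : 𝓞 K) : Fin m → 𝓞 K) j)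
  have h4 := sz_single (K := K) i0 j z.1
  have h5 := sz_single (K := K) i1 j z.2
  have h6 : sz (c j) ≤ B := hc j
  have h7 : z.1 * sz (1 : 𝓞 K) ≤ B * sz (1 : 𝓞 K) := Nat.mul_le_mul_right _ (by omega)
  have h8 : z.2 * sz (1 : 𝓞 K) ≤ B * sz (1 : 𝓞 K) := Nat.mul_le_mul_right _ (by omega)
  calc _ ≤ B + B * sz (1 : 𝓞 K) + B * sz (1 : 𝓞 K) := by omega
    _ = _ := by ring

/-- the condition at `p ^ k` -/
def Cond (Bad : Finset (HeightOneSpectrum (𝓞 K))) (p k : ℕ) (y : 𝓞 L) : Prop :=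
  ∃ b ∈ Fam Bad L p k, y ∈ b

/-- the admissible moduli of `y` -/
def Adm (Bad : Finset (HeightOneSpectrum (𝓞 K))) (y₀ : ℝ) (y : 𝓞 L) (q : ℕ) : Prop :=
  q ≠ 0 ∧ ∀ p ∈ q.primeFactors, 2 ≤ q.factorization p ∧ (p : ℝ) ≤ y₀ ∧
    Cond Bad p (q.factorization p) y

open Classical in
/-- the number of the `c` with conditions modulo `q` -/
lemma count_q {m : ℕ} (β : Fin m → 𝓞 L) (i0 i1 : Fin m) (Bad : Finset (HeightOneSpectrum (𝓞 K)))
    (hG : ∀ v ∉ Bad, GoodB (β i0) (β i1) v) {τ : ℕ}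
    (hτ : ∀ p k : ℕ, p.Prime → (Fam Bad L p k).Finite ∧ (Fam Bad L p k).ncard ≤ τ)
    {B q : ℕ} (hq0 : q ≠ 0) (hqB : q ≤ B) :
    {c ∈ Bx K m B | ∀ p ∈ q.primeFactors, Cond Bad p (q.factorization p) (evB K β c)}.ncard * q ≤
      τ ^ q.primeFactors.card * (Bx K m ((1 + 2 * sz (1 : 𝓞 K)) * B)).ncard := by
  set S₀ : Set (Fin m → 𝓞 K) :=
    {c ∈ Bx K m B | ∀ p ∈ q.primeFactors, Cond Bad p (q.factorization p) (evB K β c)} with hS₀
  have hSf : S₀.Finite := (Pool.Agent.N262.DR.Bx_finite _ _).subset fun c hc => hc.1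
  have hBf := Pool.Agent.N262.DR.Bx_finite (K := K) m ((1 + 2 * sz (1 : 𝓞 K)) * B)
  have h1 := Pool.Agent.N340.DR.dcount hSf.toFinset hBf.toFinset (range q ×ˢ range q)
    (fun z => dir i0 i1 z) (τ ^ q.primeFactors.card * q) ?_ ?_
  · rw [← Set.ncard_eq_toFinset_card _ hSf, ← Set.ncard_eq_toFinset_card _ hBf, card_product,
      card_range] at h1
    have h2 : (S₀.ncard * q) * q ≤ (τ ^ q.primeFactors.card *
        (Bx K m ((1 + 2 * sz (1 : 𝓞 K)) * B)).ncard) * q := by
      calc (S₀.ncard * q) * q = S₀.ncard * (q * q) := by ring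
        _ ≤ τ ^ q.primeFactors.card * q * (Bx K m ((1 + 2 * sz (1 : 𝓞 K)) * B)).ncard := h1
        _ = _ := by ring
    exact Nat.le_of_mul_le_mul_right h2 (Nat.pos_of_ne_zero hq0)
  · intro c hc z hz
    rw [Set.Finite.mem_toFinset] at hc ⊢
    exact sz_dir hqB i0 i1 hc.1 hz
  · intro Q _
    have h2 := Pool.Agent.N340.DR.crt hq0
      (fun p z => Cond Bad p (q.factorization p)
        (evB K β Q + (z.1 : 𝓞 L) * β i0 + (z.2 : 𝓞 L) * β i1))
      (fun p => τ * p ^ q.factorization p) ?_ ?_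
    · refine (Finset.card_le_card ?_).trans (h2.trans (le_of_eq ?_))
      · intro z hz
        rw [mem_filter] at hz ⊢
        refine ⟨hz.1, fun p hp => ?_⟩
        have h3 := hz.2
        rw [Set.Finite.mem_toFinset] at h3
        have h4 := h3.2 p hp
        rwa [evB_dir] at h4
      · rw [Finset.prod_mul_distrib, Finset.prod_const]
        congr 1
        exact Nat.prod_factorization_pow_eq_self hq0
    · rintro p hp z ⟨b, hb, h⟩
      refine ⟨b, hb, ?_⟩
      have h3 := pow_mem_fam hb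
      set k := q.factorization p with hk
      have e1 : ((z.1 : ℕ) : 𝓞 L) = ((z.1 % p ^ k : ℕ) : 𝓞 L) + (p : 𝓞 L) ^ k *
          ((z.1 / p ^ k : ℕ) : 𝓞 L) := by
        have := Nat.mod_add_div z.1 (p ^ k)
        exact_mod_cast this.symm
      have e2 : ((z.2 : ℕ) : 𝓞 L) = ((z.2 % p ^ k : ℕ) : 𝓞 L) + (p : 𝓞 L) ^ k *
          ((z.2 / p ^ k : ℕ) : 𝓞 L) := by
        have := Nat.mod_add_div z.2 (p ^ k)
        exact_mod_cast this.symm
      rw [e1, e2] at h
      have h4 : (p : 𝓞 L) ^ k * (((z.1 / p ^ k : ℕ) : 𝓞 L) * β i0 +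
          ((z.2 / p ^ k : ℕ) : 𝓞 L) * β i1) ∈ b := Ideal.mul_mem_right _ _ h3
      have h5 := Ideal.sub_mem _ h h4
      convert h5 using 1
      simp only
      ring
    · intro p hp
      have hpp := Nat.prime_of_mem_primeFactors hp
      set k := q.factorization p with hk
      obtain ⟨hfin, hcard⟩ := hτ p k hpp
      set T : Ideal (𝓞 L) → Finset (ℕ × ℕ) := fun b =>
        (range (p ^ k) ×ˢ range (p ^ k)).filter fun z =>
          evB K β Q + (z.1 : 𝓞 L) * β i0 + (z.2 : 𝓞 L) * β i1 ∈ b with hT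
      calc _ ≤ (hfin.toFinset.biUnion T).card := by
            refine Finset.card_le_card ?_
            intro z hz
            rw [mem_filter] at hz
            obtain ⟨hz1, b, hb, h⟩ := hz
            rw [mem_biUnion]
            refine ⟨b, by rwa [Set.Finite.mem_toFinset], ?_⟩
            rw [hT, mem_filter]
            exact ⟨hz1, h⟩
        _ ≤ ∑ b ∈ hfin.toFinset, (T b).card := card_biUnion_le
        _ ≤ ∑ b ∈ hfin.toFinset, p ^ k := by
            refine Finset.sum_le_sum fun b hb => ?_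
            rw [Set.Finite.mem_toFinset] at hb
            refine count_fam hG hpp hb (evB K β Q) (T b) ?_
            intro z hz
            rw [hT, mem_filter, mem_product, mem_range, mem_range] at hz
            exact ⟨hz.1.1, hz.1.2, hz.2⟩
        _ = hfin.toFinset.card * p ^ k := by rw [sum_const, smul_eq_mul]
        _ ≤ τ * p ^ k := by
            refine Nat.mul_le_mul_right _ ?_
            rw [← Set.ncard_eq_toFinset_card _ hfin]
            exact hcard

lemma cond_succ {Bad : Finset (HeightOneSpectrum (𝓞 K))} {p k : ℕ} {y : 𝓞 L} (hk : 2 ≤ k)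
    (h : Cond Bad p (k + 1) y) : Cond Bad p k y := by
  obtain ⟨b, ⟨v, hv, hpv, h⟩, hy⟩ := h
  rcases h with ⟨w, hw, rfl⟩ | ⟨h, -⟩
  · exact ⟨w.asIdeal ^ k, ⟨v, hv, hpv, Or.inl ⟨w, hw, rfl⟩⟩,
      Ideal.pow_le_pow_right (Nat.le_succ k) hy⟩
  · omega

/-- the descent step -/
lemma adm_step {Bad : Finset (HeightOneSpectrum (𝓞 K))} {y₀ : ℝ} (hy₀ : 1 ≤ y₀) {y : 𝓞 L} (q : ℕ)
    (hq : Adm Bad y₀ y q) (hq1 : q ≠ 1) :
    ∃ q' d, q = q' * d ∧ Adm Bad y₀ y q' ∧ 2 ≤ d ∧ (d : ℝ) ≤ y₀ ^ 2 := by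
  obtain ⟨hq0, h⟩ := hq
  obtain ⟨p, hp⟩ := Nat.nonempty_primeFactors.2 (by omega : 1 < q)
  have hpp := Nat.prime_of_mem_primeFactors hp
  obtain ⟨hk2, hpy, hc⟩ := h p hp
  have hp1 : (1 : ℝ) ≤ p := by exact_mod_cast hpp.one_lt.le
  have hlow : ∀ e : ℕ, e ≤ q.factorization p → (e = q.factorization p ∨ 2 ≤ q.factorization p - e) →
      ∀ q', q = q' * p ^ e → (Cond Bad p (q.factorization p - e) y ∨ e = q.factorization p) →
      Adm Bad y₀ y q' := by
    intro e he he' q' hqq hce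
    have hq'0 : q' ≠ 0 := by
      rintro rfl
      rw [zero_mul] at hqq
      exact hq0 hqq
    have hfac : ∀ r, r.Prime → q'.factorization r =
        if r = p then q.factorization p - e else q.factorization r := by
      intro r hr
      have h1 : q.factorization r = q'.factorization r + (p ^ e).factorization r := by
        conv_lhs => rw [hqq]
        rw [Nat.factorization_mul hq'0 (pow_ne_zero _ hpp.ne_zero)]
        rfl
      rw [hpp.factorization_pow] at h1
      split_ifs with hrp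
      · subst hrp
        rw [Finsupp.single_eq_same] at h1
        omega
      · rw [Finsupp.single_eq_of_ne hrp] at h1
        omega
    refine ⟨hq'0, fun r hr => ?_⟩
    have hrp := Nat.prime_of_mem_primeFactors hr
    have hrpos : q'.factorization r ≠ 0 := by
      rw [← Nat.support_factorization, Finsupp.mem_support_iff] at hr
      exact hr
    rw [hfac r hrp] at hrpos ⊢
    split_ifs at hrpos ⊢ with hrq
    · subst hrq
      rcases he' with he' | he'
      · omega
      · rcases hce with hce | hce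
        · exact ⟨he', hpy, hce⟩
        · omega
    · refine h r ?_
      rw [← Nat.support_factorization, Finsupp.mem_support_iff]
      exact hrpos
  rcases Nat.lt_or_ge 2 (q.factorization p) with hk3 | hk3
  · obtain ⟨q', hq'⟩ : p ∣ q := Nat.dvd_of_mem_primeFactors hp
    refine ⟨q', p, by rw [hq']; ring, ?_, hpp.two_le, ?_⟩
    · refine hlow 1 (by omega) (Or.inr (by omega)) q' (by rw [pow_one, hq']; ring) (Or.inl ?_)
      refine cond_succ (by omega) ?_
      rwa [Nat.sub_add_cancel (by omega)]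
    · nlinarith
  · have hk : q.factorization p = 2 := by omega
    obtain ⟨q', hq'⟩ : p ^ 2 ∣ q := (hpp.pow_dvd_iff_le_factorization hq0).2 (by omega)
    refine ⟨q', p ^ 2, by rw [hq']; ring, ?_, ?_, ?_⟩
    · exact hlow 2 (by omega) (Or.inl hk.symm) q' (by rw [hq']; ring) (Or.inr hk.symm)
    · have := hpp.two_le
      nlinarith
    · push_cast
      exact pow_le_pow_left₀ (by linarith) hpy 2

end

end Pool.Agent.V8H3.SmallB
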