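import Mathlib
import Pool.Agent.V8H3.SmallB

/-!
# CV/SMALLB and DR/SMALL: the part of the small primes with double zeros is rarely large
-/

set_option autoImplicit false
set_option linter.unusedSectionVars false

namespace Pool.Agent.V8H3.SmallB

open NumberField IsDedekindDomain Module Polynomial Pool.Agent.N753.DR Finset

lemma exists_prime_mem {F : Type} [Field F] [NumberField F] (w : HeightOneSpectrum (𝓞 F)) :
    ∃ p : ℕ, p.Prime ∧ (p : 𝓞 F) ∈ w.asIdeal := by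
  have key : ∀ n : ℕ, n ≠ 0 → (n : 𝓞 F) ∈ w.asIdeal → ∃ p : ℕ, p.Prime ∧ (p : 𝓞 F) ∈ w.asIdeal := by
    intro n
    induction n using Nat.strong_induction_on with
    | _ n ih =>
      intro hn0 hn
      have hn1 : n ≠ 1 := by
        rintro rfl
        rw [Nat.cast_one] at hn
        exact w.isPrime.ne_top ((Ideal.eq_top_iff_one _).2 hn)
      have hp := Nat.minFac_prime hn1
      obtain ⟨k, hk⟩ := Nat.minFac_dvd n
      rw [hk, Nat.cast_mul] at hn
      rcases w.isPrime.mem_or_mem hn with h | h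
      · exact ⟨_, hp, h⟩
      · have hk0 : k ≠ 0 := by
          rintro rfl
          rw [mul_zero] at hk
          exact hn0 hk
        refine ih k ?_ hk0 h
        have := hp.two_le
        have h3 : 0 < k := Nat.pos_of_ne_zero hk0
        calc k < 2 * k := by omega
          _ ≤ n.minFac * k := Nat.mul_le_mul_right _ this
          _ = n := hk.symm
  exact key _ (by
    rw [Ne, Ideal.absNorm_eq_zero_iff]
    exact w.ne_bot) (Ideal.absNorm_mem w.asIdeal)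

/-- the rational prime below -/
noncomputable def pr {F : Type} [Field F] [NumberField F] (w : HeightOneSpectrum (𝓞 F)) : ℕ :=
  (exists_prime_mem w).choose

lemma pr_prime {F : Type} [Field F] [NumberField F] (w : HeightOneSpectrum (𝓞 F)) :
    (pr w).Prime := (exists_prime_mem w).choose_spec.1

lemma pr_mem {F : Type} [Field F] [NumberField F] (w : HeightOneSpectrum (𝓞 F)) :
    (pr w : 𝓞 F) ∈ w.asIdeal := (exists_prime_mem w).choose_spec.2

lemma fact_prod (s : Finset ℕ) (hs : ∀ p ∈ s, p.Prime) (k : ℕ → ℕ) (r : ℕ) :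
    (∏ p ∈ s, p ^ k p).factorization r = if r ∈ s then k r else 0 := by
  classical
  rw [Nat.factorization_prod fun p hp => pow_ne_zero _ (hs p hp).ne_zero, Finsupp.finset_sum_apply]
  split_ifs with h
  · rw [Finset.sum_eq_single r]
    · rw [(hs r h).factorization_pow, Finsupp.single_eq_same]
    · intro p hp hne
      rw [(hs p hp).factorization_pow, Finsupp.single_eq_of_ne (Ne.symm hne)]
    · intro h'
      exact absurd h h'
  · refine Finset.sum_eq_zero fun p hp => ?_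
    rw [(hs p hp).factorization_pow, Finsupp.single_eq_of_ne]
    rintro rfl
    exact h hp

section

variable {K L : Type} [Field K] [NumberField K] [Field L] [NumberField L] [Algebra K L]

/-- the large modulus -/
lemma exists_Q {m : ℕ} (β : Fin m → 𝓞 L) (Bad : Finset (HeightOneSpectrum (𝓞 K))) {y₀ : ℝ}
    (c : Fin m → 𝓞 K) (W : Finset (HeightOneSpectrum (𝓞 L)))
    (hW : ∀ w ∈ W, ∃ v ∉ Bad, w.asIdeal.LiesOver v.asIdeal ∧
      (Ideal.absNorm v.asIdeal : ℝ) ≤ y₀ ∧ NSB β c v)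
    (e : HeightOneSpectrum (𝓞 L) → ℕ) (he : ∀ w ∈ W, evB K β c ∈ w.asIdeal ^ e w) :
    ∃ Q, Adm Bad y₀ (evB K β c) Q ∧
      ∑ w ∈ W, e w * lN w ≤ finrank ℚ L * Real.log Q := by
  classical
  set s := W.image pr with hs
  have hsp : ∀ p ∈ s, p.Prime := by
    intro p hp
    obtain ⟨w, -, rfl⟩ := mem_image.1 hp
    exact pr_prime w
  set k : ℕ → ℕ := fun p => max 2 ((W.filter fun w => pr w = p).sup e) with hk
  set Q := ∏ p ∈ s, p ^ k p with hQ
  have hfac := fact_prod s hsp k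
  have hQ0 : Q ≠ 0 := Finset.prod_ne_zero_iff.2 fun p hp => pow_ne_zero _ (hsp p hp).ne_zero
  have hk2 : ∀ p, 2 ≤ k p := fun p => le_max_left _ _
  have hprim : ∀ p, p ∈ Q.primeFactors → p ∈ s := by
    intro p hp
    rw [← Nat.support_factorization, Finsupp.mem_support_iff, hfac] at hp
    by_contra h
    rw [if_neg h] at hp
    exact hp rfl
  refine ⟨Q, ⟨hQ0, fun p hp => ?_⟩, ?_⟩
  · have hps := hprim p hp
    rw [hfac, if_pos hps]
    obtain ⟨w, hw, hwp⟩ := mem_image.1 hps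
    obtain ⟨v, hv, hwv, hvy, hns⟩ := hW w hw
    have hpv : ∀ (w : HeightOneSpectrum (𝓞 L)) (v : HeightOneSpectrum (𝓞 K)),
        w.asIdeal.LiesOver v.asIdeal → pr w = p → (p : 𝓞 K) ∈ v.asIdeal := by
      intro w v hwv hwp
      rw [← Pool.Agent.N147.DR.under_mem hwv, map_natCast, ← hwp]
      exact pr_mem w
    have hpv1 := hpv w v hwv hwp
    refine ⟨hk2 p, ?_, ?_⟩
    · refine le_trans ?_ hvy
      exact_mod_cast absNorm_ge (hsp p hps) hpv1
    · rcases Nat.lt_or_ge 2 (k p) with h | h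
      · have h1 : k p = (W.filter fun w => pr w = p).sup e := by
          rcases max_choice 2 ((W.filter fun w => pr w = p).sup e) with h2 | h2
          · have h3 : k p = 2 := h2
            omega
          · exact h2
        have hne : (W.filter fun w => pr w = p).Nonempty :=
          ⟨w, mem_filter.2 ⟨hw, hwp⟩⟩
        obtain ⟨w', hw', he'⟩ := Finset.exists_mem_eq_sup _ hne e
        rw [mem_filter] at hw'
        obtain ⟨v', hv', hwv', -, -⟩ := hW w' hw'.1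
        refine ⟨w'.asIdeal ^ k p, ⟨v', hv', hpv w' v' hwv' hw'.2, Or.inl ⟨w', hwv', rfl⟩⟩, ?_⟩
        rw [h1, he']
        exact he w' hw'.1
      · have h2 : k p = 2 := le_antisymm h (hk2 p)
        obtain ⟨b, hb, hcb⟩ := hns
        rw [h2]
        exact ⟨b, ⟨v, hv, hpv1, Or.inr ⟨rfl, hb⟩⟩, hcb⟩
  · have h1 : Real.log Q = ∑ p ∈ s, (k p : ℝ) * Real.log p := by
      rw [hQ, Nat.cast_prod, Real.log_prod]
      · refine Finset.sum_congr rfl fun p _ => ?_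
        rw [Nat.cast_pow, Real.log_pow]
      · intro p hp
        exact_mod_cast pow_ne_zero _ (hsp p hp).ne_zero
    have h2 : ∑ w ∈ W, (e w : ℝ) * lN w =
        ∑ p ∈ s, ∑ w ∈ W.filter (fun w => pr w = p), (e w : ℝ) * lN w := by
      rw [hs]
      exact (Finset.sum_fiberwise_of_maps_to (fun w hw => mem_image_of_mem _ hw) _).symm
    rw [h2, h1, Finset.mul_sum]
    refine Finset.sum_le_sum fun p hp => ?_
    have h3 : ∀ w ∈ W.filter (fun w => pr w = p), (e w : ℝ) * lN w ≤ (k p : ℝ) * lN w := by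
      intro w hw
      refine mul_le_mul_of_nonneg_right ?_ (Real.log_natCast_nonneg _)
      have h4 : e w ≤ k p := (Finset.le_sup hw).trans (le_max_right _ _)
      exact_mod_cast h4
    refine (Finset.sum_le_sum h3).trans ?_
    rw [← Finset.mul_sum]
    have h5 : ∑ w ∈ W.filter (fun w => pr w = p), lN w ≤ finrank ℚ L * Real.log p := by
      have h6 := prod_absNorm_dvd (W.filter fun w => pr w = p) p (fun w hw => by
        rw [mem_filter] at hw
        rw [← hw.2]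
        exact pr_mem w)
      have h7 := Nat.le_of_dvd (pow_pos (hsp p hp).pos _) h6
      have h8 : ∑ w ∈ W.filter (fun w => pr w = p), lN w =
          Real.log ((∏ w ∈ W.filter (fun w => pr w = p), Ideal.absNorm w.asIdeal : ℕ) : ℝ) := by
        rw [Nat.cast_prod, Real.log_prod]
        · rfl
        · intro w _
          have : Ideal.absNorm w.asIdeal ≠ 0 := by
            rw [Ne, Ideal.absNorm_eq_zero_iff]
            exact w.ne_bot
          exact_mod_cast this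
      rw [h8, ← Real.log_pow]
      refine Real.log_le_log ?_ (by exact_mod_cast h7)
      have h9 : 0 < ∏ w ∈ W.filter (fun w => pr w = p), Ideal.absNorm w.asIdeal := by
        refine Finset.prod_pos fun w _ => Nat.pos_of_ne_zero ?_
        rw [Ne, Ideal.absNorm_eq_zero_iff]
        exact w.ne_bot
      exact_mod_cast h9
    calc (k p : ℝ) * ∑ w ∈ W.filter (fun w => pr w = p), lN w ≤
          (k p : ℝ) * (finrank ℚ L * Real.log p) :=
          mul_le_mul_of_nonneg_left h5 (Nat.cast_nonneg _)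
      _ = _ := by ring

end

lemma ncard_biUnion_le' {α β : Type} [DecidableEq β] (T : Finset β) (f : β → Set α) :
    (⋃ b ∈ T, f b).ncard ≤ ∑ b ∈ T, (f b).ncard := by
  induction T using Finset.induction_on with
  | empty => simp
  | insert x T hx ih =>
    rw [Finset.set_biUnion_insert, Finset.sum_insert hx]
    exact (Set.ncard_union_le _ _).trans (Nat.add_le_add_left ih _)

theorem smallB : StmSmallB := by
  classical
  intro K L _ _ _ _ _ m β i0 i1 h0 hgen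
  obtain ⟨Bad, hBad⟩ := Pool.Agent.N394.CV.typB K L m β i0 i1 h0 hgen
  refine ⟨Bad, fun κ hκ => ?_⟩
  have hG : ∀ v ∉ Bad, GoodB (β i0) (β i1) v := fun v hv =>
    ⟨(hBad v hv).1, (hBad v hv).2.1, (hBad v hv).2.2.1, (hBad v hv).2.2.2.1⟩
  obtain ⟨τ, hτdef⟩ : ∃ τ : ℕ, τ = finrank ℚ K * (finrank K L + 2 * finrank K L ^ 2) + 1 :=
    ⟨_, rfl⟩
  have hτ : ∀ p k : ℕ, p.Prime → (Fam Bad L p k).Finite ∧ (Fam Bad L p k).ncard ≤ τ := by
    intro p k hp
    have h1 := fam_finite_card (L := L) Bad (fun v hv => (hBad v hv).2.2.2.2.2.2) (k := k) hp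
    exact ⟨h1.1, h1.2.trans (by omega)⟩
  obtain ⟨C1, hC1, htau⟩ := Pool.Agent.N340.DR.tau_bound (τ := τ) (by omega)
  obtain ⟨C2, hC2, hsum⟩ := Pool.Agent.N340.DR.sum_bound
  have hN : (0 : ℝ) < finrank ℚ L := by exact_mod_cast Module.finrank_pos
  obtain ⟨η, hη⟩ : ∃ η : ℝ, η = min (κ / finrank ℚ L) (1 / 2) := ⟨_, rfl⟩
  have hη0 : 0 < η := by
    rw [hη]
    positivity
  have hη1 : η ≤ κ / finrank ℚ L := hη ▸ min_le_left _ _
  have hη2 : η ≤ 1 / 2 := hη ▸ min_le_right _ _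
  obtain ⟨A, hA⟩ : ∃ A : ℕ, A = 2 * (1 + 2 * sz (1 : 𝓞 K)) + 1 := ⟨_, rfl⟩
  refine ⟨1 / 8, η / 8, C1 * C2 * (A : ℝ) ^ (finrank ℚ K * m), by norm_num, by positivity, ?_⟩
  intro B hB
  have hB1 : (1 : ℝ) ≤ B := by exact_mod_cast hB
  have hB0 : (0 : ℝ) < B := by linarith
  set y₀ : ℝ := (B : ℝ) ^ (1 / 8 : ℝ) with hy₀
  set X : ℝ := (B : ℝ) ^ η with hX
  have hy1 : 1 ≤ y₀ := Real.one_le_rpow hB1 (by norm_num)
  have hX1 : 1 ≤ X := Real.one_le_rpow hB1 hη0.le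
  have hXy : X * y₀ ^ 2 ≤ B := by
    rw [hX, hy₀, ← Real.rpow_natCast ((B : ℝ) ^ (1 / 8 : ℝ)) 2, ← Real.rpow_mul hB0.le,
      ← Real.rpow_add hB0]
    calc (B : ℝ) ^ (η + 1 / 8 * ((2 : ℕ) : ℝ)) ≤ (B : ℝ) ^ (1 : ℝ) :=
          Real.rpow_le_rpow_of_exponent_le hB1 (by push_cast; linarith)
      _ = B := Real.rpow_one _
  set Sq : ℕ → Set (Fin m → 𝓞 K) := fun q =>
    {c ∈ Bx K m B | ∀ p ∈ q.primeFactors, Cond Bad p (q.factorization p) (evB K β c)} with hSq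
  set Z : Finset (ℕ × ℕ) := (Icc 1 B ×ˢ Icc 1 B).filter
    (fun z : ℕ × ℕ => X ≤ ((z.1 ^ 2 * z.2 ^ 3 : ℕ) : ℝ)) with hZ
  set Z' : Finset (ℕ × ℕ) := Z.filter fun z => z.1 ^ 2 * z.2 ^ 3 ≤ B with hZ'
  have hBf := Pool.Agent.N262.DR.Bx_finite (K := K) m B
  have hsub : {c ∈ Bx K m B | ∃ W : Finset (HeightOneSpectrum (𝓞 L)),
      (∀ w ∈ W, ∃ v ∉ Bad, w.asIdeal.LiesOver v.asIdeal ∧
        (Ideal.absNorm v.asIdeal : ℝ) ≤ (B : ℝ) ^ (1 / 8 : ℝ) ∧ NSB β c v) ∧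
      ∃ e : HeightOneSpectrum (𝓞 L) → ℕ, (∀ w ∈ W, evB K β c ∈ w.asIdeal ^ e w) ∧
        κ * Real.log B ≤ ∑ w ∈ W, e w * lN w} ⊆ ⋃ z ∈ Z', Sq (z.1 ^ 2 * z.2 ^ 3) := by
    rintro c ⟨hcB, W, hW, e, he, hκe⟩
    obtain ⟨Q, hQ, hle⟩ := exists_Q β Bad c W hW e he
    have hQ0 : (0 : ℝ) < Q := by exact_mod_cast Nat.pos_of_ne_zero hQ.1
    have hXQ : X ≤ Q := by
      have h1 : κ / finrank ℚ L * Real.log B ≤ Real.log Q := by
        rw [div_mul_eq_mul_div, div_le_iff₀ hN, mul_comm (Real.log Q)]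
        exact hκe.trans hle
      have h2 : η * Real.log B ≤ Real.log Q :=
        (mul_le_mul_of_nonneg_right hη1 (Real.log_nonneg hB1)).trans h1
      rw [hX, ← Real.exp_log hQ0, Real.rpow_def_of_pos hB0, mul_comm]
      exact Real.exp_le_exp.2 h2
    obtain ⟨q, hq, hqX, hqy⟩ := Pool.Agent.N340.DR.descend (Adm Bad y₀ (evB K β c)) hy1 hX1
      (fun q hq hq1 => adm_step hy1 q hq hq1) (fun q hq => hq.1) Q hQ hXQ
    obtain ⟨x, y, hxy⟩ := Pool.Agent.N340.DR.pow_rep hq.1 fun p hp => (hq.2 p hp).1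
    have hqB : q ≤ B := by exact_mod_cast hqy.trans hXy
    have hx0 : x ≠ 0 := by
      rintro rfl
      apply hq.1
      rw [hxy]
      ring
    have hy0 : y ≠ 0 := by
      rintro rfl
      apply hq.1
      rw [hxy]
      ring
    have hx1 : 1 ≤ x := Nat.one_le_iff_ne_zero.2 hx0
    have hyy1 : 1 ≤ y := Nat.one_le_iff_ne_zero.2 hy0
    have hxB : x ≤ B := by
      refine le_trans ?_ hqB
      rw [hxy]
      calc x = x * 1 := (mul_one x).symm
        _ ≤ x ^ 2 * y ^ 3 := Nat.mul_le_mul (by nlinarith) (Nat.one_le_pow _ _ hyy1)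
    have hyB : y ≤ B := by
      refine le_trans ?_ hqB
      rw [hxy]
      calc y = 1 * y := (one_mul y).symm
        _ ≤ x ^ 2 * y ^ 3 := Nat.mul_le_mul (Nat.one_le_pow _ _ hx1)
            (Nat.le_self_pow (by norm_num) y)
    rw [Set.mem_iUnion₂]
    refine ⟨(x, y), ?_, ?_⟩
    · rw [hZ', mem_filter, hZ, mem_filter, mem_product, mem_Icc, mem_Icc]
      refine ⟨⟨⟨⟨hx1, hxB⟩, hyy1, hyB⟩, ?_⟩, ?_⟩
      · simp only
        rw [← hxy]
        exact hqX
      · simp only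
        rw [← hxy]
        exact hqB
    · simp only
      rw [← hxy]
      exact ⟨hcB, fun p hp => (hq.2 p hp).2.2⟩
  have hfin : (⋃ z ∈ Z', Sq (z.1 ^ 2 * z.2 ^ 3)).Finite :=
    Set.Finite.biUnion Z'.finite_toSet fun z _ => hBf.subset fun c hc => hc.1
  have hbig : ((Bx K m ((1 + 2 * sz (1 : 𝓞 K)) * B)).ncard : ℝ) ≤
      (A : ℝ) ^ (finrank ℚ K * m) * (B : ℝ) ^ (finrank ℚ K * m) := by
    have h1 := Pool.Agent.N262.DR.Bx_card (K := K) m ((1 + 2 * sz (1 : 𝓞 K)) * B)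
    rw [← mul_pow]
    calc ((Bx K m ((1 + 2 * sz (1 : 𝓞 K)) * B)).ncard : ℝ) ≤
          ((2 * ((1 + 2 * sz (1 : 𝓞 K)) * B) + 1 : ℕ) : ℝ) ^ (finrank ℚ K * m) := by
          exact_mod_cast h1
      _ ≤ _ := by
          refine pow_le_pow_left₀ (by positivity) ?_ _
          rw [hA]
          push_cast
          nlinarith
  have hone : ∀ z ∈ Z', ((Sq (z.1 ^ 2 * z.2 ^ 3)).ncard : ℝ) ≤
      C1 * ((A : ℝ) ^ (finrank ℚ K * m) * (B : ℝ) ^ (finrank ℚ K * m)) *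
        (((z.1 ^ 2 * z.2 ^ 3 : ℕ) : ℝ)) ^ (-(7 / 8) : ℝ) := by
    intro z hz
    rw [hZ', mem_filter, hZ, mem_filter, mem_product, mem_Icc, mem_Icc] at hz
    set q := z.1 ^ 2 * z.2 ^ 3 with hq
    have hq0 : q ≠ 0 := by
      have h1 : 0 < z.1 := hz.1.1.1.1
      have h2 : 0 < z.2 := hz.1.1.2.1
      rw [hq]
      positivity
    have hq0' : (0 : ℝ) < q := by exact_mod_cast Nat.pos_of_ne_zero hq0
    have h1 := count_q β i0 i1 Bad hG hτ hq0 hz.2
    have h2 : ((Sq q).ncard : ℝ) * q ≤ (τ : ℝ) ^ q.primeFactors.card *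
        ((Bx K m ((1 + 2 * sz (1 : 𝓞 K)) * B)).ncard : ℝ) := by exact_mod_cast h1
    have h3 := htau q hq0
    have h4 : ((Sq q).ncard : ℝ) * q ≤ (C1 * (q : ℝ) ^ (1 / 8 : ℝ)) *
        ((A : ℝ) ^ (finrank ℚ K * m) * (B : ℝ) ^ (finrank ℚ K * m)) :=
      h2.trans (mul_le_mul h3 hbig (by positivity) (by positivity))
    have h5 : (q : ℝ) ^ (-(7 / 8) : ℝ) * q = (q : ℝ) ^ (1 / 8 : ℝ) := by
      nth_rewrite 2 [← Real.rpow_one (q : ℝ)]
      rw [← Real.rpow_add hq0']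
      norm_num
    refine le_of_mul_le_mul_right (h4.trans (le_of_eq ?_)) hq0'
    rw [mul_assoc _ _ (q : ℝ), h5]
    ring
  have hle : ((⋃ z ∈ Z', Sq (z.1 ^ 2 * z.2 ^ 3)).ncard : ℝ) ≤
      ∑ z ∈ Z', ((Sq (z.1 ^ 2 * z.2 ^ 3)).ncard : ℝ) := by
    exact_mod_cast ncard_biUnion_le' Z' fun z => Sq (z.1 ^ 2 * z.2 ^ 3)
  have hcard : (({c ∈ Bx K m B | ∃ W : Finset (HeightOneSpectrum (𝓞 L)),
      (∀ w ∈ W, ∃ v ∉ Bad, w.asIdeal.LiesOver v.asIdeal ∧
        (Ideal.absNorm v.asIdeal : ℝ) ≤ (B : ℝ) ^ (1 / 8 : ℝ) ∧ NSB β c v) ∧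
      ∃ e : HeightOneSpectrum (𝓞 L) → ℕ, (∀ w ∈ W, evB K β c ∈ w.asIdeal ^ e w) ∧
        κ * Real.log B ≤ ∑ w ∈ W, e w * lN w}.ncard : ℕ) : ℝ) ≤
      ((⋃ z ∈ Z', Sq (z.1 ^ 2 * z.2 ^ 3)).ncard : ℝ) := by
    exact_mod_cast Set.ncard_le_ncard hsub hfin
  refine hcard.trans (hle.trans ((Finset.sum_le_sum hone).trans ?_))
  rw [← Finset.mul_sum]
  have h1 : ∑ z ∈ Z', (((z.1 ^ 2 * z.2 ^ 3 : ℕ) : ℝ)) ^ (-(7 / 8) : ℝ) ≤ C2 * X ^ (-(1 / 8) : ℝ) :=
    (Finset.sum_le_sum_of_subset_of_nonneg (Finset.filter_subset _ _)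
      fun _ _ _ => by positivity).trans (hsum B X hX1)
  have h2 : X ^ (-(1 / 8) : ℝ) = (B : ℝ) ^ (-(η / 8)) := by
    rw [hX, ← Real.rpow_mul hB0.le]
    congr 1
    ring
  have h3 : (B : ℝ) ^ ((finrank ℚ K : ℝ) * m - η / 8) =
      (B : ℝ) ^ (finrank ℚ K * m) * (B : ℝ) ^ (-(η / 8)) := by
    rw [← Real.rpow_natCast (B : ℝ) (finrank ℚ K * m), ← Real.rpow_add hB0]
    congr 1
    push_cast
    ring
  rw [h3]
  calc C1 * ((A : ℝ) ^ (finrank ℚ K * m) * (B : ℝ) ^ (finrank ℚ K * m)) *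
        ∑ z ∈ Z', (((z.1 ^ 2 * z.2 ^ 3 : ℕ) : ℝ)) ^ (-(7 / 8) : ℝ) ≤
      C1 * ((A : ℝ) ^ (finrank ℚ K * m) * (B : ℝ) ^ (finrank ℚ K * m)) *
        (C2 * X ^ (-(1 / 8) : ℝ)) := mul_le_mul_of_nonneg_left h1 (by positivity)
    _ = _ := by
        rw [h2]
        ring

end Pool.Agent.V8H3.SmallB
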