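import Mathlib
import Pool.Agent.V8H3.SmallC
import Pool.Agent.N572.DR.Diag
import Pool.Agent.N147.DR.Lat
import Pool.Agent.N394.CV.TypB
import Pool.Agent.N966.CV.LargeB
import Pool.Agent.N966.CV.PlacesB
import Pool.Agent.N490.CV.CoreB
import Pool.Agent.N328.CV.CoreV
import Pool.Agent.N498.CV.Redc
import Pool.Agent.N488.CV.LinkC
import Pool.Agent.N849.CV.CntC
import Pool.Agent.N265.CV.Htc
import Pool.Agent.N752.CV.UniC
import Pool.Agent.N752.CV.ZeroC
import Pool.Agent.N650.CV.FldC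
import Pool.Agent.N776.CV.VnC
import Pool.Agent.N776.CV.Sep
import Pool.Agent.N297.CV.MainC
import Pool.Agent.N395.CV.KeyB

/-!
# Project CV: the unconditional statements
-/

set_option autoImplicit false

namespace Pool.Agent.V8H3.CVAll

open Pool.Agent.N753.DR

theorem coreB : StmCoreB :=
  Pool.Agent.N490.CV.CoreB.t Pool.Agent.N394.CV.t
    (Pool.Agent.N966.CV.LargeB.t Pool.Agent.N147.DR.t Pool.Agent.N394.CV.t)
    Pool.Agent.V8H3.SmallB.smallB Pool.Agent.N966.CV.PlacesB.t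

theorem coreV : StmCoreV := Pool.Agent.N328.CV.t coreB

theorem cntC : StmCntC :=
  Pool.Agent.N849.CVN.cntC coreV Pool.Agent.N488.CV.t Pool.Agent.N498.CV.t

theorem zeroC : StmZeroC := Pool.Agent.N752.CV.t2 Pool.Agent.N498.CV.t

theorem fldC : StmFldC := Pool.Agent.N650.CV.FldC.t Pool.Agent.N265.CV.t

theorem mainC : StmMainC :=
  Pool.Agent.N297.CV.MainC.t Pool.Agent.N572.DR.Diag.t cntC Pool.Agent.N265.CV.t
    Pool.Agent.N752.CV.t zeroC fldC Pool.Agent.N776.CV.t

theorem vnC : StmVnC := Pool.Agent.N776.CV.tVnC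

theorem keyB : StmKeyB := Pool.Agent.N395.CV.t

end Pool.Agent.V8H3.CVAll
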