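import Mathlib
import Pool.Agent.V8H3.SmallC

/-!
# DR/SMALL from CV/SMALLB
-/

set_option autoImplicit false

namespace Pool.Agent.V8H3.SmallB

open NumberField IsDedekindDomain Module Polynomial Pool.Agent.N753.DR

theorem small : StmSmall := by
  intro K L _ _ _ _ _ θ a r hgen ha hr
  set β : Fin (r + 1) → 𝓞 L := fun i => (a : 𝓞 L) ^ (r - (i : ℕ)) * θ ^ (i : ℕ) with hβ
  have ha' : (a : 𝓞 L) ≠ 0 := by exact_mod_cast ha
  have haL : (a : L) ≠ 0 := by exact_mod_cast ha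
  have h0 : β 0 ≠ 0 := by
    rw [hβ]
    simp only [Fin.val_zero, pow_zero, mul_one]
    exact pow_ne_zero _ ha'
  have h1v : ((1 : Fin (r + 1)) : ℕ) = 1 := by
    rw [Fin.val_one']
    exact Nat.mod_eq_of_lt (by omega)
  have hq : (β 1 : L) / β 0 = (θ : L) / a := by
    simp only [hβ, h1v, Fin.val_zero, pow_zero, mul_one, pow_one, map_mul, map_pow, map_natCast,
      Nat.sub_zero]
    obtain ⟨k, rfl⟩ : ∃ k, r = k + 1 := ⟨r - 1, by omega⟩
    rw [Nat.add_sub_cancel, pow_succ]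
    have : (a : L) ^ k ≠ 0 := pow_ne_zero _ haL
    field_simp
  have hgen' : IntermediateField.adjoin K {(β 1 : L) / β 0} = ⊤ := by
    rw [hq, ← top_le_iff, ← hgen, IntermediateField.adjoin_le_iff, Set.singleton_subset_iff]
    have h2 : (θ : L) / a ∈ IntermediateField.adjoin K {(θ : L) / a} :=
      IntermediateField.mem_adjoin_simple_self K _
    have h3 := mul_mem h2 (_root_.natCast_mem (IntermediateField.adjoin K {(θ : L) / a}) a)
    rwa [div_mul_cancel₀ _ haL] at h3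
  obtain ⟨Bad, hBad⟩ := smallB K L (r + 1) β 0 1 h0 hgen'
  refine ⟨Bad, fun κ hκ => ?_⟩
  obtain ⟨δ, ν, C, hδ, hν, h⟩ := hBad κ hκ
  refine ⟨δ, ν, C, hδ, hν, fun B hB => ?_⟩
  have h4 := h B hB
  have h5 : ((r + 1 : ℕ) : ℝ) = (r : ℝ) + 1 := by push_cast; ring
  rw [h5] at h4
  exact h4

end Pool.Agent.V8H3.SmallB
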