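import Mathlib
import Pool.Agent.V8H3.SmallD
import Pool.Agent.N572.DR.Diag
import Pool.Agent.N147.DR.Lat
import Pool.Agent.N147.DR.Typ
import Pool.Agent.N530.DR.Large
import Pool.Agent.N262.DR.Places
import Pool.Agent.N97.DR.Core
import Pool.Agent.N459.DR.Red
import Pool.Agent.N572.DR.Link
import Pool.Agent.N262.DR.Deg
import Pool.Agent.N572.DR.KE
import Pool.Agent.N415.DR.VK
import Pool.Agent.N707.DR.VkG

/-!
# Project DR: the unconditional statements
-/

set_option autoImplicit false

namespace Pool.Agent.V8H3.DRAll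

open Pool.Agent.N753.DR

theorem core : StmCore :=
  Pool.Agent.N97.DR.Core.t Pool.Agent.N147.DR.typ
    (Pool.Agent.N530.DR.t Pool.Agent.N147.DR.t Pool.Agent.N147.DR.typ)
    Pool.Agent.V8H3.SmallB.small Pool.Agent.N262.DR.places

theorem deg : StmDeg :=
  Pool.Agent.N262.DR.deg core Pool.Agent.N459.DR.t Pool.Agent.N572.DR.Link.t

theorem ke : StmKE := Pool.Agent.N572.DR.KE.t Pool.Agent.N572.DR.Diag.t deg

theorem vk : StmVk := Pool.Agent.N415.DRVK.t ke

theorem vkG : StmVkG := Pool.Agent.N707.DRVkG.t vk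

end Pool.Agent.V8H3.DRAll
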