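import Mathlib
import Pool.Agent.N650.CV.FldC

/-!
# The algebraic points of projective space with small discriminant: definitions, few points
-/

set_option autoImplicit false

namespace Pool.Agent.V8H3.Gen

open NumberField IsDedekindDomain Module Height
open Pool.Agent.W301.Lin (FS)
open scoped LinearAlgebra.Projectivization

/-- the algebraic points of `ℙ^m` -/
abbrev Pt (K : Type) [Field K] (m : ℕ) : Type :=
  ℙ (AlgebraicClosure K) (Fin (m + 1) → AlgebraicClosure K)

section

variable {K : Type} [Field K] {m : ℕ}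

/-- the residue field `K(x)` is generated by the ratios of the homogeneous coordinates -/
noncomputable def fld (x : Pt K m) : IntermediateField K (AlgebraicClosure K) :=
  IntermediateField.adjoin K (Set.range fun p : Fin (m + 1) × Fin (m + 1) => x.rep p.1 / x.rep p.2)

theorem exists_idx (x : Pt K m) : ∃ i, x.rep i ≠ 0 := Function.ne_iff.1 x.rep_nonzero

/-- a coordinate which is not zero -/
noncomputable def idx (x : Pt K m) : Fin (m + 1) := (exists_idx x).choose

theorem idx_ne (x : Pt K m) : x.rep (idx x) ≠ 0 := (exists_idx x).choose_spec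

theorem ratio_mem (x : Pt K m) (i j : Fin (m + 1)) : x.rep i / x.rep j ∈ fld x :=
  IntermediateField.subset_adjoin _ _ ⟨(i, j), rfl⟩

/-- homogeneous coordinates of `x` in `K(x)` -/
noncomputable def coord (x : Pt K m) (i : Fin (m + 1)) : fld x :=
  ⟨x.rep i / x.rep (idx x), ratio_mem x i (idx x)⟩

theorem coord_coe (x : Pt K m) (i : Fin (m + 1)) :
    (coord x i : AlgebraicClosure K) = x.rep i / x.rep (idx x) := rfl

theorem coord_idx (x : Pt K m) : coord x (idx x) = 1 := by
  apply Subtype.ext
  rw [coord_coe, div_self (idx_ne x)]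
  rfl

theorem coord_ne_zero (x : Pt K m) : coord x ≠ 0 := by
  intro h
  have h1 := congrFun h (idx x)
  rw [coord_idx] at h1
  exact one_ne_zero h1

instance fd (x : Pt K m) : FiniteDimensional K (fld x) :=
  IntermediateField.finiteDimensional_adjoin fun _ _ => Algebra.IsIntegral.isIntegral _

end

section

variable {K : Type} [Field K] [NumberField K] {m : ℕ}

instance nf (x : Pt K m) : NumberField (fld x) := NumberField.of_module_finite K (fld x)

/-- the degree of `x` over `K` -/
noncomputable def degree (x : Pt K m) : ℕ := finrank K (fld x)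

/-- the height of `x` relative to `K` -/
noncomputable def height (x : Pt K m) : ℝ := logHeight (coord x) / finrank K (fld x)

/-- the logarithmic discriminant of `x` relative to `K` -/
noncomputable def logDisc (x : Pt K m) : ℝ :=
  Real.log |(discr (fld x) : ℝ)| / finrank K (fld x) - Real.log |(discr K : ℝ)|

theorem degree_pos (x : Pt K m) : 0 < degree x := finrank_pos

theorem height_nonneg (x : Pt K m) : 0 ≤ height x :=
  div_nonneg (logHeight_nonneg _) (Nat.cast_nonneg _)

theorem inj_aux (x y : Pt K m) (h : ∀ i, x.rep i / x.rep (idx x) = y.rep i / y.rep (idx y)) :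
    x = y := by
  rw [← x.mk_rep, ← y.mk_rep, Projectivization.mk_eq_mk_iff']
  refine ⟨x.rep (idx x) / y.rep (idx y), ?_⟩
  funext i
  have h1 := h i
  have hx := idx_ne x
  have hy := idx_ne y
  rw [div_eq_div_iff hx hy] at h1
  rw [Pi.smul_apply, smul_eq_mul, div_mul_eq_mul_div, div_eq_iff hy, mul_comm, ← h1]

end

/-- the tuples of bounded height in a field of bounded degree -/
theorem tuples {L : Type} [Field L] [NumberField L] {m : ℕ} {B D ε : ℝ} (hB : 0 ≤ B)
    (hD : ∀ X : ℝ, 0 ≤ X → ∀ E : Finset L, (∀ y ∈ E, logHeight₁ y ≤ X) →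
        (E.card : ℝ) ≤ D * Real.exp ((2 + ε) * X)) (i0 : Fin (m + 1))
    (E : Finset (Fin (m + 1) → L)) (hE : ∀ v ∈ E, v i0 = 1 ∧ logHeight v ≤ B) :
    (E.card : ℝ) ≤ (D * Real.exp ((2 + ε) * B)) ^ m := by
  classical
  have hone : ∀ v ∈ E, ∀ i, logHeight₁ (v i) ≤ B := by
    intro v hv i
    obtain ⟨h1, h2⟩ := hE v hv
    rw [logHeight₁_eq_logHeight]
    have h3 : (![v i, 1] : Fin 2 → L) = fun k => v ((![i, i0] : Fin 2 → Fin (m + 1)) k) := by
      funext k
      fin_cases k
      · rfl
      · show (1 : L) = v i0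
        rw [h1]
    rw [h3]
    exact (logHeight_comp_le _ v).trans h2
  set Y : Finset L := E.biUnion fun v => Finset.univ.image v with hY
  have hYc : (Y.card : ℝ) ≤ D * Real.exp ((2 + ε) * B) := by
    refine hD B hB Y ?_
    intro y hy
    rw [hY, Finset.mem_biUnion] at hy
    obtain ⟨v, hv, hy⟩ := hy
    obtain ⟨i, -, rfl⟩ := Finset.mem_image.1 hy
    exact hone v hv i
  have h1 : E.card ≤ (Fintype.piFinset fun _ : Fin m => Y).card := by
    refine Finset.card_le_card_of_injOn (fun v k => v (i0.succAbove k)) ?_ ?_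
    · intro v hv
      rw [Finset.mem_coe, Fintype.mem_piFinset]
      intro k
      rw [hY, Finset.mem_biUnion]
      exact ⟨v, hv, Finset.mem_image_of_mem _ (Finset.mem_univ _)⟩
    · intro v hv w hw h
      funext i
      rcases Fin.eq_self_or_eq_succAbove i0 i with rfl | ⟨k, rfl⟩
      · rw [(hE v hv).1, (hE w hw).1]
      · exact congrFun h k
  rw [Fintype.card_piFinset, Finset.prod_const, Finset.card_univ, Fintype.card_fin] at h1
  have h2 : (E.card : ℝ) ≤ (Y.card : ℝ) ^ m := by exact_mod_cast h1
  exact h2.trans (pow_le_pow_left₀ (Nat.cast_nonneg _) hYc m)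

end Pool.Agent.V8H3.Gen
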