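import Mathlib
import Pool.Agent.V8H3.GenA

/-!
# There are few algebraic points with small discriminant
-/

set_option autoImplicit false

namespace Pool.Agent.V8H3.Gen

open NumberField IsDedekindDomain Module Height
open Pool.Agent.W301.Lin (FS)
open scoped LinearAlgebra.Projectivization

/-- the coordinates in a field `L = K(x)` -/
theorem transport {K : Type} [Field K] [NumberField K] {m : ℕ} (x : Pt K m)
    (L : IntermediateField K (AlgebraicClosure K)) [NumberField L] (h : fld x = L) :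
    ∃ v : Fin (m + 1) → L, (∀ i, (v i : AlgebraicClosure K) = x.rep i / x.rep (idx x)) ∧
      v (idx x) = 1 ∧ logHeight v = logHeight (coord x) := by
  subst h
  exact ⟨coord x, fun i => rfl, coord_idx x, rfl⟩

/-- the number of points with a given field of bounded degree -/
theorem fibre {K : Type} [Field K] [NumberField K] {m j : ℕ} {D ε U : ℝ} (hU : 0 ≤ U)
    (hD : ∀ (L : Type) [Field L] [NumberField L], finrank ℚ L = finrank ℚ K * j → ∀ X : ℝ, 0 ≤ X →
      ∀ E : Finset L, (∀ y ∈ E, logHeight₁ y ≤ X) → (E.card : ℝ) ≤ D * Real.exp ((2 + ε) * X))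
    (L : IntermediateField K (AlgebraicClosure K)) (i0 : Fin (m + 1)) (T : Finset (Pt K m))
    (hT : ∀ x ∈ T, fld x = L ∧ idx x = i0 ∧ degree x = j ∧ height x ≤ U)
    (hD0 : 0 < D) :
    (T.card : ℝ) ≤ (D * Real.exp ((2 + ε) * (j * U))) ^ m := by
  classical
  rcases T.eq_empty_or_nonempty with hTe | ⟨x0, hx0⟩
  · rw [hTe, Finset.card_empty, Nat.cast_zero]
    positivity
  obtain ⟨g1, -, g3, -⟩ := hT x0 hx0
  have hdegL : finrank K L = j := by rw [← g1]; exact g3
  haveI : NumberField L := by rw [← g1]; exact nf x0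
  have key : ∀ x : Pt K m, ∃ v : Fin (m + 1) → L, x ∈ T →
      (∀ i, (v i : AlgebraicClosure K) = x.rep i / x.rep (idx x)) ∧
        v i0 = 1 ∧ logHeight v ≤ j * U := by
    intro x
    by_cases hx : x ∈ T
    · obtain ⟨h1, h2, h3, h4⟩ := hT x hx
      obtain ⟨v, k1, k2, k3⟩ := transport x L h1
      refine ⟨v, fun _ => ⟨k1, ?_, ?_⟩⟩
      · rw [← h2]
        exact k2
      · rw [k3]
        unfold height at h4
        have h5 : (finrank K (fld x) : ℝ) = j := by
          have : finrank K (fld x) = j := h3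
          rw [this]
        have h6 : 0 < (finrank K (fld x) : ℝ) := by exact_mod_cast degree_pos x
        rw [h5] at h4 h6
        rw [div_le_iff₀ h6] at h4
        linarith
    · exact ⟨0, fun h => absurd h hx⟩
  choose v hv using key
  have hinj : Set.InjOn v (T : Set (Pt K m)) := by
    intro x hx y hy hxy
    refine inj_aux x y fun i => ?_
    rw [← (hv x (Finset.mem_coe.1 hx)).1 i, ← (hv y (Finset.mem_coe.1 hy)).1 i, hxy]
  rw [← Finset.card_image_of_injOn hinj]
  refine tuples (by positivity) (hD L (by rw [← hdegL, finrank_mul_finrank])) i0 _ ?_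
  intro w hw
  obtain ⟨x, hx, rfl⟩ := Finset.mem_image.1 hw
  exact (hv x hx).2

/-- the number of the points with small discriminant, in terms of the number of fields -/
theorem few_aux {K : Type} [Field K] [NumberField K] {m j : ℕ} (hj : 1 ≤ j) {D ε e C1 G : ℝ}
    (hG : 0 ≤ G) (hD0 : 0 < D) (hC1 : 0 < C1)
    (hD : ∀ (L : Type) [Field L] [NumberField L], finrank ℚ L = finrank ℚ K * j → ∀ X : ℝ, 0 ≤ X →
      ∀ E : Finset L, (∀ y ∈ E, logHeight₁ y ≤ X) → (E.card : ℝ) ≤ D * Real.exp ((2 + ε) * X))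
    (hF : ∀ X : ℝ, 1 ≤ X → (FS K j X).Finite ∧ ((FS K j X).ncard : ℝ) ≤ C1 * X ^ e)
    {U : ℝ} (hU : 0 ≤ U) (T : Finset (Pt K m))
    (hT : ∀ x ∈ T, degree x = j ∧ height x ≤ U ∧ logDisc x < G * height x) :
    (T.card : ℝ) ≤ (m + 1) * (C1 * Real.exp (j * (e * Real.log |(discr K : ℝ)|)) * D ^ m) *
      Real.exp (j * (G * e + (2 + ε) * m) * U) := by
  classical
  set dK : ℝ := Real.log |(discr K : ℝ)| with hdK
  have hdK0 : 0 ≤ dK := by
    refine Real.log_nonneg ?_
    have h1 : (1 : ℤ) ≤ |discr K| := Int.one_le_abs (discr_ne_zero K)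
    exact_mod_cast h1
  set X0 : ℝ := Real.exp (j * (G * U + dK)) with hX0
  have hX1 : 1 ≤ X0 := Real.one_le_exp (by positivity)
  obtain ⟨hfin, hcf⟩ := hF X0 hX1
  set F : Finset (IntermediateField K (AlgebraicClosure K)) := T.image fld with hFd
  have hFsub : F ⊆ hfin.toFinset := by
    intro L hL
    obtain ⟨x, hx, rfl⟩ := Finset.mem_image.1 hL
    obtain ⟨h1, h2, h3⟩ := hT x hx
    rw [Set.Finite.mem_toFinset]
    refine ⟨h1, nf x, ?_⟩
    have hj0 : (0 : ℝ) < finrank K (fld x) := by exact_mod_cast degree_pos x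
    have h4 : Real.log |(discr (fld x) : ℝ)| ≤ j * (G * U + dK) := by
      have h5 : (finrank K (fld x) : ℝ) = j := by
        have : finrank K (fld x) = j := h1
        rw [this]
      unfold logDisc at h3
      have h6 : Real.log |(discr (fld x) : ℝ)| / finrank K (fld x) ≤ G * U + dK := by
        have := mul_le_mul_of_nonneg_left h2 hG
        linarith
      rw [div_le_iff₀ hj0, h5] at h6
      linarith
    have h7 : 0 < |(discr (fld x) : ℝ)| := by
      rw [abs_pos]
      exact_mod_cast discr_ne_zero (fld x)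
    have h8 := (Real.log_le_iff_le_exp h7).1 h4
    push_cast
    exact h8
  have hFs : (F.card : ℝ) ≤ C1 * X0 ^ e := by
    refine le_trans ?_ hcf
    rw [Set.ncard_eq_toFinset_card _ hfin]
    exact_mod_cast Finset.card_le_card hFsub
  have hmaps : ∀ x ∈ T, (idx x, fld x) ∈ (Finset.univ : Finset (Fin (m + 1))) ×ˢ F := by
    intro x hx
    rw [Finset.mem_product]
    exact ⟨Finset.mem_univ _, Finset.mem_image_of_mem _ hx⟩
  have hcard : (T.card : ℝ) = ∑ p ∈ (Finset.univ : Finset (Fin (m + 1))) ×ˢ F,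
      ((T.filter fun x => (idx x, fld x) = p).card : ℝ) := by
    rw [Finset.card_eq_sum_card_fiberwise (s := T)
      (t := (Finset.univ : Finset (Fin (m + 1))) ×ˢ F) (f := fun x => (idx x, fld x)) hmaps]
    push_cast
    rfl
  have hone : ∀ p ∈ (Finset.univ : Finset (Fin (m + 1))) ×ˢ F,
      ((T.filter fun x => (idx x, fld x) = p).card : ℝ) ≤
        (D * Real.exp ((2 + ε) * (j * U))) ^ m := by
    intro p _
    refine fibre hU hD p.2 p.1 _ ?_ hD0
    intro x hx
    rw [Finset.mem_filter] at hx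
    obtain ⟨hx, h1⟩ := hx
    obtain ⟨h2, h3, -⟩ := hT x hx
    refine ⟨?_, ?_, h2, h3⟩
    · rw [← h1]
    · rw [← h1]
  have e1 : X0 ^ e = Real.exp (j * (e * dK)) * Real.exp (j * (G * e) * U) := by
    rw [hX0, ← Real.exp_mul, ← Real.exp_add]
    congr 1
    ring
  have e2 : (D * Real.exp ((2 + ε) * (j * U))) ^ m =
      D ^ m * Real.exp (j * ((2 + ε) * m) * U) := by
    rw [mul_pow, ← Real.exp_nat_mul]
    congr 2
    ring
  calc (T.card : ℝ) = ∑ p ∈ (Finset.univ : Finset (Fin (m + 1))) ×ˢ F,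
      ((T.filter fun x => (idx x, fld x) = p).card : ℝ) := hcard
    _ ≤ ∑ _p ∈ (Finset.univ : Finset (Fin (m + 1))) ×ˢ F,
        (D * Real.exp ((2 + ε) * (j * U))) ^ m := Finset.sum_le_sum hone
    _ = (m + 1) * F.card * (D * Real.exp ((2 + ε) * (j * U))) ^ m := by
        rw [Finset.sum_const, nsmul_eq_mul, Finset.card_product, Finset.card_univ,
          Fintype.card_fin]
        push_cast
        ring
    _ ≤ (m + 1) * (C1 * X0 ^ e) * (D * Real.exp ((2 + ε) * (j * U))) ^ m := by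
        gcongr
    _ = (m + 1) * (C1 * Real.exp (j * (e * dK)) * D ^ m) *
          (Real.exp (j * (G * e) * U) * Real.exp (j * ((2 + ε) * m) * U)) := by
        rw [e1, e2]
        ring
    _ = _ := by
        rw [← Real.exp_add]
        congr 2
        ring

/-- **few points have small discriminant** -/
theorem few : ∃ e : ℕ → ℝ, (∀ c : ℝ, 1 / (8 * (Real.log 2) ^ 2) < c →
      ∀ᶠ n : ℕ in Filter.atTop, e n ≤ c * (Real.log n) ^ 2) ∧ (∀ n, 0 ≤ e n) ∧
    ∀ (K : Type) [Field K] [NumberField K] (m j : ℕ), 1 ≤ j → ∀ G ν : ℝ, 0 ≤ G → 0 < ν →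
      ∃ C : ℝ, 0 < C ∧ ∀ U : ℝ, 0 ≤ U →
        {x : Pt K m | degree x = j ∧ height x ≤ U ∧ logDisc x < G * height x}.Finite ∧
        ({x : Pt K m | degree x = j ∧ height x ≤ U ∧ logDisc x < G * height x}.ncard : ℝ) ≤
          C * Real.exp (j * (G * e j + (2 + ν) * m) * U) := by
  classical
  obtain ⟨e, he1, he2, -, -, hF⟩ := Pool.Agent.Y729.AE.linnikK
  refine ⟨e, he1, he2, ?_⟩
  intro K _ _ m j hj G ν hG hν
  obtain ⟨D, hD, hel⟩ := Pool.Agent.N650.CV.FldC.elts (finrank ℚ K * j) hν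
  obtain ⟨C1, hC1, hfs⟩ := hF j hj (finrank ℚ K)
  refine ⟨(m + 1) * (C1 * Real.exp (j * (e j * Real.log |(discr K : ℝ)|)) * D ^ m),
    by positivity, fun U hU => ?_⟩
  refine Pool.Agent.N650.CV.FldC.fin_of fun T hT => ?_
  exact few_aux hj hG hD hC1 hel (hfs K rfl) hU T hT

end Pool.Agent.V8H3.Gen
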