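import Mathlib
import Pool.Agent.N265.CV.HtcB

/-!
# Heights of tuples, values of polynomials and integral elements
-/

set_option autoImplicit false

namespace Pool.Agent.V8H3.Gen

open NumberField Module Height Polynomial
open Pool.Agent.N265.CV (cf cf_ne_zero logHeight_root ht1_ext)

/-- the height of a tuple is at most the sum of the heights of its elements -/
theorem logHeight_le_sum {F : Type*} [Field F] [AdmissibleAbsValues F] {ι : Type*} [Fintype ι]
    (v : ι → F) : logHeight v ≤ ∑ i, logHeight₁ (v i) := by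
  classical
  have h1 : ∀ a : ι, (![v a, 1] : Fin 2 → F) ≠ 0 := by
    intro a h
    have := congrFun h 1
    simp at this
  have h2 := logHeight_fun_prod_eq (x := fun (a : ι) => (![v a, 1] : Fin 2 → F)) h1
  have h3 : v = (fun I : ι → Fin 2 => ∏ a, (![v a, 1] : Fin 2 → F) (I a)) ∘
      fun i a => if a = i then 0 else 1 := by
    funext i
    rw [Function.comp_apply, Finset.prod_eq_single i]
    · simp
    · intro b _ hb
      simp [hb]
    · intro h
      exact absurd (Finset.mem_univ i) h
  calc logHeight v = logHeight ((fun I : ι → Fin 2 => ∏ a, (![v a, 1] : Fin 2 → F) (I a)) ∘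
        fun i a => if a = i then 0 else 1) := by rw [← h3]
    _ ≤ logHeight (fun I : ι → Fin 2 => ∏ a, (![v a, 1] : Fin 2 → F) (I a)) :=
        logHeight_comp_le _ _
    _ = ∑ a, logHeight (![v a, 1] : Fin 2 → F) := h2
    _ = ∑ i, logHeight₁ (v i) := Finset.sum_congr rfl fun a _ =>
        (logHeight₁_eq_logHeight (v a)).symm

/-- the height of a root of a monic polynomial -/
theorem logHeight₁_root {F : Type*} [Field F] [AdmissibleAbsValues F] (Q : F[X]) (hQ : Q.Monic)
    (w : F) (hw : Q.eval w = 0) : logHeight₁ w ≤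
      totalWeight F * Real.log ((Q.natDegree + 1 : ℕ) : ℝ) +
        ∑ i : Fin (Q.natDegree + 1), logHeight₁ (Q.coeff i) := by
  obtain ⟨R, hR⟩ := dvd_iff_isRoot.2 (show Q.IsRoot w from hw)
  have hR0 : R ≠ 0 := by
    rintro rfl
    rw [mul_zero] at hR
    exact hQ.ne_zero hR
  have h1 := logHeight_root Q.natDegree w R hR0 (by rw [← hR])
  rw [← hR] at h1
  have h2 := logHeight_le_sum (cf Q.natDegree Q)
  have h3 := logHeight_nonneg (cf Q.natDegree R)
  have h4 : ∑ i : Fin (Q.natDegree + 1), logHeight₁ (cf Q.natDegree Q i) =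
      ∑ i : Fin (Q.natDegree + 1), logHeight₁ (Q.coeff i) := rfl
  linarith

variable {K : Type} [Field K] [NumberField K]

/-- the height of the value of a polynomial -/
theorem ht_aeval (u : K[X]) : ∃ D C : ℝ, 0 ≤ D ∧ 0 ≤ C ∧
    ∀ (M : Type) [Field M] [NumberField M] [Algebra K M] (t : M),
      logHeight₁ (aeval t u) ≤ D * logHeight₁ t + C * finrank K M := by
  have hw : ∀ (M : Type) [Field M] [NumberField M] [Algebra K M],
      (totalWeight M : ℝ) = finrank ℚ K * finrank K M := by
    intro M _ _ _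
    rw [NumberField.totalWeight_eq_finrank]
    exact_mod_cast (finrank_mul_finrank ℚ K M).symm
  have hl2 : 0 ≤ Real.log 2 := Real.log_nonneg (by norm_num)
  induction u using Polynomial.induction_on with
  | C a =>
    refine ⟨0, logHeight₁ a, le_rfl, zero_le_logHeight₁ _, ?_⟩
    intro M _ _ _ t
    rw [aeval_C, ht1_ext K M a, mul_comm, zero_mul, zero_add]
  | add p q hp hq =>
    obtain ⟨D, C, hD, hC, h1⟩ := hp
    obtain ⟨D', C', hD', hC', h2⟩ := hq
    refine ⟨D + D', C + C' + finrank ℚ K * Real.log 2, by positivity, by positivity, ?_⟩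
    intro M _ _ _ t
    have h3 := h1 M t
    have h4 := h2 M t
    have h5 := logHeight₁_add_le (aeval t p) (aeval t q)
    rw [map_add]
    rw [hw M] at h5
    nlinarith
  | monomial n a _ =>
    refine ⟨(n + 1 : ℕ), logHeight₁ a, Nat.cast_nonneg _, zero_le_logHeight₁ _, ?_⟩
    intro M _ _ _ t
    rw [map_mul, aeval_C, map_pow, aeval_X]
    refine (logHeight₁_mul_le _ _).trans ?_
    rw [ht1_ext K M a, logHeight₁_pow]
    linarith

/-- the height of an integral element -/
theorem ht_integral (q : K[X][X]) (hq : q.Monic) : ∃ D C : ℝ, 0 ≤ D ∧ 0 ≤ C ∧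
    ∀ (M : Type) [Field M] [NumberField M] [Algebra K M] (t w : M),
      (q.map (aeval t : K[X] →ₐ[K] M).toRingHom).eval w = 0 →
      logHeight₁ w ≤ D * logHeight₁ t + C * finrank K M := by
  choose D C hD hC h using fun i : Fin (q.natDegree + 1) => ht_aeval (q.coeff i)
  refine ⟨∑ i, D i, ∑ i, C i + finrank ℚ K * Real.log ((q.natDegree + 1 : ℕ) : ℝ),
    Finset.sum_nonneg fun i _ => hD i, add_nonneg (Finset.sum_nonneg fun i _ => hC i)
      (mul_nonneg (Nat.cast_nonneg _) (Real.log_nonneg (by
        push_cast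
        linarith [Nat.cast_nonneg (α := ℝ) q.natDegree]))), ?_⟩
  intro M _ _ _ t w hw
  have hw1 : (totalWeight M : ℝ) = finrank ℚ K * finrank K M := by
    rw [NumberField.totalWeight_eq_finrank]
    exact_mod_cast (finrank_mul_finrank ℚ K M).symm
  have h1 := logHeight₁_root (q.map (aeval t : K[X] →ₐ[K] M).toRingHom) (hq.map _) w hw
  rw [hq.natDegree_map] at h1
  have h2 : ∑ i : Fin (q.natDegree + 1),
      logHeight₁ ((q.map (aeval t : K[X] →ₐ[K] M).toRingHom).coeff i) ≤
      ∑ i, (D i * logHeight₁ t + C i * finrank K M) := by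
    refine Finset.sum_le_sum fun i _ => ?_
    rw [coeff_map]
    exact h i M t
  rw [Finset.sum_add_distrib, ← Finset.sum_mul, ← Finset.sum_mul] at h2
  rw [hw1] at h1
  nlinarith

end Pool.Agent.V8H3.Gen
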