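import Mathlib
import Pool.Agent.V8H3.GenA
import Pool.Agent.V8H3.GenC

/-!
# Lifting points through finite morphisms
-/

set_option autoImplicit false

namespace Pool.Agent.V8H3.Gen

open NumberField Module Height Polynomial
open scoped LinearAlgebra.Projectivization

/-- points lift through integral injective homomorphisms -/
theorem lift_point {R A Ω : Type} [CommRing R] [CommRing A] [Algebra R A] [Algebra.IsIntegral R A]
    (hinj : Function.Injective (algebraMap R A)) [Field Ω] [IsAlgClosed Ω] (f : R →+* Ω) :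
    ∃ φ : A →+* Ω, φ.comp (algebraMap R A) = f := by
  have hfs : FaithfulSMul R A := (faithfulSMul_iff_algebraMap_injective R A).2 hinj
  obtain ⟨P, hP⟩ : ∃ P : Ideal R, P = RingHom.ker f := ⟨_, rfl⟩
  have hPp : P.IsPrime := hP ▸ RingHom.ker_isPrime f
  obtain ⟨⟨Q, hQ1, hQ2⟩⟩ := Ideal.nonempty_primesOver (S := A) P
  letI : Algebra (R ⧸ P) Ω := (Ideal.Quotient.lift P f fun a ha => by
    rw [hP] at ha
    exact ha).toAlgebra
  have hinj2 : Function.Injective (algebraMap (R ⧸ P) Ω) := by
    rw [injective_iff_map_eq_zero]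
    intro a ha
    obtain ⟨a, rfl⟩ := Ideal.Quotient.mk_surjective a
    rw [Ideal.Quotient.eq_zero_iff_mem, hP]
    exact ha
  have hinj3 : Function.Injective (algebraMap (R ⧸ P) (A ⧸ Q)) :=
    FaithfulSMul.algebraMap_injective _ _
  haveI : IsTorsionFree (R ⧸ P) Ω :=
    (Module.isTorsionFree_iff_faithfulSMul).2 ((faithfulSMul_iff_algebraMap_injective _ _).2 hinj2)
  haveI : IsTorsionFree (R ⧸ P) (A ⧸ Q) :=
    (Module.isTorsionFree_iff_faithfulSMul).2 ((faithfulSMul_iff_algebraMap_injective _ _).2 hinj3)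
  haveI : Algebra.IsIntegral (R ⧸ P) (A ⧸ Q) := inferInstance
  haveI : Algebra.IsAlgebraic (R ⧸ P) (A ⧸ Q) := inferInstance
  let ψ : (A ⧸ Q) →ₐ[R ⧸ P] Ω := IsAlgClosed.lift
  refine ⟨(ψ : (A ⧸ Q) →+* Ω).comp (Ideal.Quotient.mk Q), ?_⟩
  ext r
  have h1 : Ideal.Quotient.mk Q (algebraMap R A r) =
      algebraMap (R ⧸ P) (A ⧸ Q) (Ideal.Quotient.mk P r) := rfl
  rw [RingHom.comp_apply, RingHom.comp_apply, h1]
  have h2 := ψ.commutes (Ideal.Quotient.mk P r)
  exact h2

theorem lift_alg {K R A Ω : Type} [Field K] [CommRing R] [CommRing A] [Algebra K R] [Algebra K A]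
    [Algebra R A] [IsScalarTower K R A] [Algebra.IsIntegral R A]
    (hinj : Function.Injective (algebraMap R A)) [Field Ω] [IsAlgClosed Ω] [Algebra K Ω]
    (f : R →ₐ[K] Ω) : ∃ φ : A →ₐ[K] Ω, ∀ r, φ (algebraMap R A r) = f r := by
  obtain ⟨φ, hφ⟩ := lift_point hinj (f : R →+* Ω)
  have h1 : ∀ r, φ (algebraMap R A r) = f r := fun r => RingHom.congr_fun hφ r
  refine ⟨{ φ with commutes' := fun c => ?_ }, h1⟩
  show φ (algebraMap K A c) = algebraMap K Ω c
  rw [IsScalarTower.algebraMap_apply K R A, h1, AlgHom.commutes]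

section

variable {K : Type} [Field K] {m : ℕ}

/-- the point with given affine coordinates -/
noncomputable def pt (v : Fin (m + 1) → AlgebraicClosure K) (i : Fin (m + 1)) (hv : v i = 1) :
    Pt K m := Projectivization.mk _ v fun h => by
  rw [h] at hv
  exact zero_ne_one hv

theorem rep_pt (v : Fin (m + 1) → AlgebraicClosure K) (i : Fin (m + 1)) (hv : v i = 1) :
    ∃ c : AlgebraicClosure K, c ≠ 0 ∧ (pt v i hv).rep = c • v := by
  obtain ⟨a, ha⟩ := Projectivization.exists_smul_eq_mk_rep (AlgebraicClosure K) v (by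
    intro h
    rw [h] at hv
    exact zero_ne_one hv)
  exact ⟨a, a.ne_zero, ha.symm⟩

theorem ratio_pt (v : Fin (m + 1) → AlgebraicClosure K) (i : Fin (m + 1)) (hv : v i = 1)
    (a b : Fin (m + 1)) : (pt v i hv).rep a / (pt v i hv).rep b = v a / v b := by
  obtain ⟨c, hc, h⟩ := rep_pt v i hv
  rw [h, Pi.smul_apply, Pi.smul_apply, smul_eq_mul, smul_eq_mul, mul_div_mul_left _ _ hc]

theorem fld_pt (v : Fin (m + 1) → AlgebraicClosure K) (i : Fin (m + 1)) (hv : v i = 1) :
    fld (pt v i hv) = IntermediateField.adjoin K (Set.range v) := by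
  apply le_antisymm
  · unfold fld
    rw [IntermediateField.adjoin_le_iff]
    rintro _ ⟨⟨a, b⟩, rfl⟩
    simp only
    rw [ratio_pt]
    exact div_mem (IntermediateField.subset_adjoin _ _ ⟨a, rfl⟩)
      (IntermediateField.subset_adjoin _ _ ⟨b, rfl⟩)
  · rw [IntermediateField.adjoin_le_iff]
    rintro _ ⟨a, rfl⟩
    have h1 := ratio_mem (pt v i hv) a i
    rw [ratio_pt, hv, div_one] at h1
    exact h1

theorem pt_inj (v w : Fin (m + 1) → AlgebraicClosure K) (i : Fin (m + 1)) (hv : v i = 1)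
    (hw : w i = 1) (h : pt v i hv = pt w i hw) : v = w := by
  funext a
  have h1 := ratio_pt v i hv a i
  have h2 := ratio_pt w i hw a i
  rw [h, h2, hv, hw, div_one, div_one] at h1
  exact h1.symm

end

section

variable {K : Type} [Field K] [NumberField K] {m : ℕ}

/-- the height of a point with given affine coordinates in a field -/
theorem height_pt (v : Fin (m + 1) → AlgebraicClosure K) (i : Fin (m + 1)) (hv : v i = 1)
    (w : Fin (m + 1) → fld (pt v i hv)) (hw : ∀ l, (w l : AlgebraicClosure K) = v l) :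
    height (pt v i hv) * finrank K (fld (pt v i hv)) = logHeight w := by
  have h0 : (0 : ℝ) < finrank K (fld (pt v i hv)) := by exact_mod_cast degree_pos (pt v i hv)
  unfold height
  rw [div_mul_cancel₀ _ h0.ne']
  have hne : v (idx (pt v i hv)) ≠ 0 := by
    intro h
    obtain ⟨c, hc, h1⟩ := rep_pt v i hv
    have h2 := idx_ne (pt v i hv)
    rw [h1, Pi.smul_apply, smul_eq_mul, h, mul_zero] at h2
    exact h2 rfl
  have hne' : w (idx (pt v i hv)) ≠ 0 := by
    intro h
    apply hne
    rw [← hw, h]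
    rfl
  have h3 : w = (w (idx (pt v i hv))) • coord (pt v i hv) := by
    funext l
    apply Subtype.ext
    rw [Pi.smul_apply, smul_eq_mul]
    show (w l : AlgebraicClosure K) = (w (idx (pt v i hv)) : AlgebraicClosure K) *
      (coord (pt v i hv) l : AlgebraicClosure K)
    rw [coord_coe, ratio_pt, hw, hw, mul_div_cancel₀ _ hne]
  rw [h3, logHeight_smul_eq_logHeight _ hne']

end

end Pool.Agent.V8H3.Gen
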