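import Mathlib
import Pool.Agent.V8H3.GenD

/-!
# The points of a variety above the points of a line
-/

set_option autoImplicit false

namespace Pool.Agent.V8H3.Gen

open NumberField Module Height Polynomial
open scoped LinearAlgebra.Projectivization

/-- the restriction of the coordinate functions to the first coordinate line -/
noncomputable def sg (K : Type) [Field K] (n : ℕ) : MvPolynomial (Fin (n + 1)) K →ₐ[K] K[X] :=
  MvPolynomial.aeval fun j => if j = 0 then X else 0

/-- the degree of the points above `t` -/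
theorem deg_aux {K A : Type} [Field K] [NumberField K] [CommRing A] [Algebra K A] {n m k : ℕ}
    [Algebra (MvPolynomial (Fin (n + 1)) K) A] (b : Fin k → A)
    (hb : Submodule.span (MvPolynomial (Fin (n + 1)) K) (Set.range b) = ⊤)
    (t : AlgebraicClosure K) (φ : A →ₐ[K] AlgebraicClosure K)
    (hφ : ∀ r, φ (algebraMap (MvPolynomial (Fin (n + 1)) K) A r) = aeval t (sg K n r))
    (v : Fin (m + 1) → AlgebraicClosure K) (hv : ∀ l, v l ∈ φ.range) :
    finrank K (IntermediateField.adjoin K (Set.range v)) ≤ k * (minpoly K t).natDegree := by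
  classical
  set E := IntermediateField.adjoin K (Set.range v) with hE
  haveI : FiniteDimensional K (IntermediateField.adjoin K {t}) :=
    IntermediateField.adjoin.finiteDimensional (Algebra.IsIntegral.isIntegral t)
  let L : (Fin k → IntermediateField.adjoin K {t}) →ₗ[K] AlgebraicClosure K :=
    { toFun := fun c => ∑ j, (c j : AlgebraicClosure K) * φ (b j)
      map_add' := by
        intro c d
        rw [← Finset.sum_add_distrib]
        refine Finset.sum_congr rfl fun j _ => ?_
        rw [Pi.add_apply, ← add_mul]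
        rfl
      map_smul' := by
        intro a c
        rw [RingHom.id_apply, Finset.smul_sum]
        refine Finset.sum_congr rfl fun j _ => ?_
        rw [Pi.smul_apply, ← smul_mul_assoc]
        rfl }
  have h1 : ∀ a : A, φ a ∈ LinearMap.range L := by
    intro a
    have ha : a ∈ Submodule.span (MvPolynomial (Fin (n + 1)) K) (Set.range b) := by
      rw [hb]
      exact Submodule.mem_top
    obtain ⟨c, hc⟩ := (Submodule.mem_span_range_iff_exists_fun _).1 ha
    refine ⟨fun j => ⟨aeval t (sg K n (c j)), ?_⟩, ?_⟩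
    · have h2 : aeval t (sg K n (c j)) ∈ Algebra.adjoin K {t} := aeval_mem_adjoin_singleton K t
      exact IntermediateField.algebra_adjoin_le_adjoin K {t} h2
    · show ∑ j, aeval t (sg K n (c j)) * φ (b j) = φ a
      rw [← hc, map_sum]
      refine Finset.sum_congr rfl fun j _ => ?_
      rw [Algebra.smul_def, map_mul, hφ]
  have h2 : E.toSubalgebra ≤ φ.range := by
    rw [hE, IntermediateField.adjoin_toSubalgebra_of_isAlgebraic
      (fun x _ => Algebra.IsAlgebraic.isAlgebraic x)]
    rw [Algebra.adjoin_le_iff]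
    rintro _ ⟨l, rfl⟩
    exact hv l
  have h3 : Subalgebra.toSubmodule E.toSubalgebra ≤ LinearMap.range L := by
    intro x hx
    obtain ⟨a, ha⟩ := h2 hx
    have h4 := h1 a
    have h5 : φ a = x := ha
    rw [h5] at h4
    exact h4
  have h4 := Submodule.finrank_mono h3
  have h5 := LinearMap.finrank_range_le L
  rw [Module.finrank_pi_fintype, Finset.sum_const, Finset.card_univ, Fintype.card_fin,
    smul_eq_mul, IntermediateField.adjoin.finrank (Algebra.IsIntegral.isIntegral t)] at h5
  exact h4.trans h5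

/-- the roots of a monic polynomial with integral coefficients are integral -/
theorem integral_root {F : Type} [Field F] (Q : F[X]) (hQ : Q.Monic)
    (hc : ∀ j, IsIntegral ℤ (Q.coeff j)) (w : F) (hw : Q.eval w = 0) : IsIntegral ℤ w := by
  have hsub : (↑Q.coeffs : Set F) ⊆ (integralClosure ℤ F).toSubring := by
    intro c hc'
    obtain ⟨j, -, rfl⟩ := Polynomial.mem_coeffs_iff.1 (Finset.mem_coe.1 hc')
    exact hc j
  have h1 : (Q.toSubring (integralClosure ℤ F).toSubring hsub).Monic :=
    (Polynomial.monic_toSubring _ _ _).2 hQ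
  have h2 : IsIntegral (integralClosure ℤ F) w := by
    refine ⟨Q.toSubring (integralClosure ℤ F).toSubring hsub, h1, ?_⟩
    have h3 : (Q.toSubring (integralClosure ℤ F).toSubring hsub).map
        (integralClosure ℤ F).toSubring.subtype = Q := Polynomial.map_toSubring _ _ _
    have h4 : eval₂ (integralClosure ℤ F).toSubring.subtype w
        (Q.toSubring (integralClosure ℤ F).toSubring hsub) = 0 := by
      rw [← eval_map, h3, hw]
    exact h4
  exact isIntegral_trans (R := ℤ) (A := integralClosure ℤ F) w h2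

/-- values of polynomials with integral coefficients -/
theorem integral_aeval {K F : Type} [Field K] [Field F] [Algebra K F] (u : K[X])
    (hu : ∀ j, IsIntegral ℤ (u.coeff j)) (t : F) (ht : IsIntegral ℤ t) :
    IsIntegral ℤ (aeval t u) := by
  rw [aeval_eq_sum_range]
  refine IsIntegral.sum _ fun j _ => ?_
  rw [Algebra.smul_def]
  exact ((hu j).map ((algebraMap K F).toIntAlgHom)).mul (ht.pow j)

/-- integral elements have values with bounded denominators -/
theorem integral_aux {K : Type} [Field K] [NumberField K] (q : K[X][X]) (hq : q.Monic) :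
    ∃ N : ℕ, 1 ≤ N ∧ ∀ t w : AlgebraicClosure K, IsIntegral ℤ t →
      (q.map (aeval t : K[X] →ₐ[K] AlgebraicClosure K).toRingHom).eval w = 0 →
      IsIntegral ℤ ((N : AlgebraicClosure K) * w) := by
  classical
  haveI : Algebra.IsAlgebraic ℤ K :=
    (IsFractionRing.comap_isAlgebraic_iff (A := ℤ) (K := ℚ) (C := K)).2 inferInstance
  obtain ⟨y, hy, hy1⟩ := Algebra.IsAlgebraic.exists_integral_multiples ℤ
    (q.coeffs.biUnion fun u : K[X] => u.coeffs)
  obtain ⟨N, hN⟩ : ∃ N : ℕ, N = y.natAbs := ⟨_, rfl⟩
  have hN1 : 1 ≤ N := hN ▸ Int.natAbs_pos.2 hy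
  have hint : ∀ a b : ℕ, IsIntegral ℤ ((N : K) * (q.coeff a).coeff b) := by
    intro a b
    rcases eq_or_ne ((q.coeff a).coeff b) 0 with h | h
    · rw [h, mul_zero]
      exact isIntegral_zero
    · have hne : q.coeff a ≠ 0 := by
        intro h'
        rw [h', coeff_zero] at h
        exact h rfl
      have h1 : (q.coeff a).coeff b ∈ q.coeffs.biUnion fun u : K[X] => u.coeffs := by
        rw [Finset.mem_biUnion]
        exact ⟨q.coeff a, Polynomial.coeff_mem_coeffs hne, Polynomial.coeff_mem_coeffs h⟩
      have h2 := hy1 _ h1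
      rw [zsmul_eq_mul] at h2
      have hcast : ∀ n : ℕ, (((n : ℕ) : ℤ) : K) = (n : K) := fun n => Int.cast_natCast n
      rcases Int.natAbs_eq y with h3 | h3
      · have h4 : (y : K) = (N : K) := by
          rw [hN, h3, Int.natAbs_natCast, hcast]
        rw [h4] at h2
        exact h2
      · have h4 : (y : K) = -(N : K) := by
          rw [hN, h3, Int.natAbs_neg, Int.natAbs_natCast, Int.cast_neg, hcast]
        rw [h4, neg_mul] at h2
        have h5 := h2.neg
        rw [neg_neg] at h5
        exact h5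
  refine ⟨N, hN1, fun t w ht hw => ?_⟩
  obtain ⟨Q, hQ⟩ : ∃ Q : (AlgebraicClosure K)[X],
    Q = q.map (aeval t : K[X] →ₐ[K] AlgebraicClosure K).toRingHom := ⟨_, rfl⟩
  rw [← hQ] at hw
  have hQm : Q.Monic := hQ ▸ hq.map _
  refine integral_root (Q.scaleRoots (N : AlgebraicClosure K))
    ((Polynomial.monic_scaleRoots_iff _).2 hQm) ?_ _ ?_
  · intro j
    rw [Polynomial.coeff_scaleRoots]
    rcases lt_trichotomy j Q.natDegree with h | h | h
    · obtain ⟨e, he⟩ : ∃ e, Q.natDegree - j = e + 1 := ⟨Q.natDegree - j - 1, by omega⟩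
      rw [he, pow_succ, ← mul_assoc, mul_right_comm]
      refine IsIntegral.mul ?_ (IsIntegral.pow (isIntegral_natCast (R := ℤ) N) e)
      rw [hQ, coeff_map]
      show IsIntegral ℤ (aeval t (q.coeff j) * (N : AlgebraicClosure K))
      have h1 : aeval t (q.coeff j) * (N : AlgebraicClosure K) =
          aeval t (C (N : K) * q.coeff j) := by
        rw [map_mul, aeval_C, map_natCast, mul_comm]
      rw [h1]
      refine integral_aeval _ (fun b => ?_) t ht
      rw [coeff_C_mul]
      exact hint j b
    · rw [h, Nat.sub_self, pow_zero, mul_one, hQm.coeff_natDegree]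
      exact isIntegral_one
    · rw [coeff_eq_zero_of_natDegree_lt h, zero_mul]
      exact isIntegral_zero
  · have h1 := Polynomial.scaleRoots_eval₂_mul (p := Q) (f := RingHom.id _) (r := w)
      (s := (N : AlgebraicClosure K))
    rw [eval₂_id] at h1
    have h2 : eval₂ (RingHom.id (AlgebraicClosure K)) w Q = 0 := by
      rw [eval₂_id]
      exact hw
    rw [h2, mul_zero] at h1
    exact h1

theorem fam_aux {K A : Type} [Field K] [NumberField K] [CommRing A] [Algebra K A] {m n : ℕ}
    [Algebra (MvPolynomial (Fin (n + 1)) K) A]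
    [IsScalarTower K (MvPolynomial (Fin (n + 1)) K) A]
    [Module.Finite (MvPolynomial (Fin (n + 1)) K) A]
    (hg : Function.Injective (algebraMap (MvPolynomial (Fin (n + 1)) K) A))
    (π : MvPolynomial (Fin (m + 1)) K →ₐ[K] A) (hπ : Function.Surjective π) (i : Fin (m + 1))
    (hi : π (MvPolynomial.X i) = 1) :
    ∃ (k : ℕ) (D C : ℝ) (P0 : MvPolynomial (Fin (m + 1)) K) (N : ℕ), 0 ≤ D ∧ 0 ≤ C ∧ 1 ≤ N ∧
      ∀ t : AlgebraicClosure K, ∃ (v : Fin (m + 1) → AlgebraicClosure K) (hv : v i = 1)
        (s : fld (pt v i hv)),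
        (∀ p, π p = 0 → MvPolynomial.aeval v p = 0) ∧ MvPolynomial.aeval v P0 = t ∧
        (s : AlgebraicClosure K) = t ∧ degree (pt v i hv) ≤ k * (minpoly K t).natDegree ∧
        height (pt v i hv) * degree (pt v i hv) ≤ D * logHeight₁ s + C * degree (pt v i hv) ∧
        (IsIntegral ℤ t → ∀ l, IsIntegral ℤ ((N : AlgebraicClosure K) * v l)) := by
  classical
  obtain ⟨k, b, hb⟩ := Module.Finite.exists_fin (R := MvPolynomial (Fin (n + 1)) K) (M := A)
  have hint : ∀ l : Fin (m + 1), ∃ p : (MvPolynomial (Fin (n + 1)) K)[X], p.Monic ∧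
      eval₂ (algebraMap (MvPolynomial (Fin (n + 1)) K) A) (π (MvPolynomial.X l)) p = 0 := fun l => by
    obtain ⟨p, hp, h⟩ := IsIntegral.of_finite (MvPolynomial (Fin (n + 1)) K)
      (π (MvPolynomial.X l))
    exact ⟨p, hp, h⟩
  choose p hp hp0 using hint
  choose D C hD hC hDC using fun l => ht_integral ((p l).map (sg K n).toRingHom) ((hp l).map _)
  choose N hN1 hN2 using fun l => integral_aux ((p l).map (sg K n).toRingHom) ((hp l).map _)
  obtain ⟨P0, hP0⟩ := hπ (algebraMap (MvPolynomial (Fin (n + 1)) K) A (MvPolynomial.X 0))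
  refine ⟨k, ∑ l, D l, ∑ l, C l, P0, ∏ l, N l, Finset.sum_nonneg fun l _ => hD l,
    Finset.sum_nonneg fun l _ => hC l, Finset.one_le_prod' fun l _ => hN1 l, fun t => ?_⟩
  obtain ⟨φ, hφ⟩ := lift_alg (A := A) hg
    ((aeval t : K[X] →ₐ[K] AlgebraicClosure K).comp (sg K n))
  set v : Fin (m + 1) → AlgebraicClosure K := fun l => φ (π (MvPolynomial.X l)) with hvd
  have hav : ∀ q : MvPolynomial (Fin (m + 1)) K, MvPolynomial.aeval v q = φ (π q) := by
    intro q
    have h1 : MvPolynomial.aeval v = φ.comp π := by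
      apply MvPolynomial.algHom_ext
      intro l
      rw [MvPolynomial.aeval_X]
      rfl
    rw [h1]
    rfl
  have hv : v i = 1 := by
    rw [hvd]
    simp only
    rw [hi, map_one]
  have ht : MvPolynomial.aeval v P0 = t := by
    rw [hav, hP0, hφ, AlgHom.comp_apply]
    unfold sg
    rw [MvPolynomial.aeval_X, if_pos rfl, aeval_X]
  have hvE : ∀ l, v l ∈ fld (pt v i hv) := by
    intro l
    rw [fld_pt]
    exact IntermediateField.subset_adjoin _ _ ⟨l, rfl⟩
  obtain ⟨w, hw⟩ : ∃ w : Fin (m + 1) → fld (pt v i hv), ∀ l, (w l : AlgebraicClosure K) = v l :=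
    ⟨fun l => ⟨v l, hvE l⟩, fun l => rfl⟩
  obtain ⟨s, hs⟩ : ∃ s : fld (pt v i hv), (s : AlgebraicClosure K) = t := by
    refine ⟨MvPolynomial.aeval w P0, ?_⟩
    rw [← ht]
    have h1 : (fld (pt v i hv)).val.comp (MvPolynomial.aeval w) = MvPolynomial.aeval v := by
      apply MvPolynomial.algHom_ext
      intro l
      rw [AlgHom.comp_apply, MvPolynomial.aeval_X, MvPolynomial.aeval_X]
      exact hw l
    rw [← h1]
    rfl
  refine ⟨v, hv, s, ?_, ht, hs, ?_, ?_, ?_⟩
  · intro q hq
    rw [hav, hq, map_zero]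
  · unfold degree
    have h1 := deg_aux (K := K) (m := m) b hb t φ (fun r => by rw [hφ]; rfl) v
      (fun l => ⟨_, rfl⟩)
    rw [fld_pt]
    exact h1
  · have h1 := height_pt v i hv w hw
    have h2 : height (pt v i hv) * degree (pt v i hv) = logHeight w := h1
    rw [h2]
    refine (logHeight_le_sum w).trans ?_
    rw [Finset.sum_mul, Finset.sum_mul, ← Finset.sum_add_distrib]
    refine Finset.sum_le_sum fun l _ => ?_
    refine hDC l (fld (pt v i hv)) s (w l) ?_
    -- the equation
    have h3 : Function.Injective ((fld (pt v i hv)).val) := (fld (pt v i hv)).val.injective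
    apply h3
    rw [map_zero]
    have h4 : (((p l).map (sg K n).toRingHom).map
        (aeval s : K[X] →ₐ[K] fld (pt v i hv)).toRingHom).eval (w l) =
        eval₂ (((aeval s : K[X] →ₐ[K] fld (pt v i hv)).toRingHom).comp (sg K n).toRingHom) (w l)
          (p l) := by
      rw [eval_map, eval₂_map]
    rw [h4]
    have h5 := Polynomial.hom_eval₂ (p l)
      (((aeval s : K[X] →ₐ[K] fld (pt v i hv)).toRingHom).comp (sg K n).toRingHom)
      ((fld (pt v i hv)).val : fld (pt v i hv) →+* AlgebraicClosure K) (w l)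
    have h6 : ((fld (pt v i hv)).val : fld (pt v i hv) →+* AlgebraicClosure K).comp
        (((aeval s : K[X] →ₐ[K] fld (pt v i hv)).toRingHom).comp (sg K n).toRingHom) =
        (φ : A →+* AlgebraicClosure K).comp
          (algebraMap (MvPolynomial (Fin (n + 1)) K) A) := by
      apply RingHom.ext
      intro r
      have h7 : (fld (pt v i hv)).val.comp (aeval s) =
          (aeval t : K[X] →ₐ[K] AlgebraicClosure K) := by
        apply Polynomial.algHom_ext
        rw [AlgHom.comp_apply, aeval_X, aeval_X]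
        exact hs
      have h8 := hφ r
      rw [AlgHom.comp_apply, ← h7] at h8
      exact h8.symm
    have h7 : ((fld (pt v i hv)).val : fld (pt v i hv) →+* AlgebraicClosure K) (w l) =
        (φ : A →+* AlgebraicClosure K) (π (MvPolynomial.X l)) := hw l
    rw [h6, h7, ← Polynomial.hom_eval₂, hp0, map_zero] at h5
    exact h5
  · intro hti l
    have h1 : (((p l).map (sg K n).toRingHom).map
        (aeval t : K[X] →ₐ[K] AlgebraicClosure K).toRingHom).eval (v l) = 0 := by
      rw [eval_map, eval₂_map]
      have h6 : ((aeval t : K[X] →ₐ[K] AlgebraicClosure K).toRingHom).comp (sg K n).toRingHom =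
          (φ : A →+* AlgebraicClosure K).comp
            (algebraMap (MvPolynomial (Fin (n + 1)) K) A) := by
        apply RingHom.ext
        intro r
        exact (hφ r).symm
      rw [h6]
      have h7 := Polynomial.hom_eval₂ (p l) (algebraMap (MvPolynomial (Fin (n + 1)) K) A)
        (φ : A →+* AlgebraicClosure K) (π (MvPolynomial.X l))
      rw [hp0, map_zero] at h7
      exact h7.symm
    have h2 := hN2 l t (v l) hti h1
    obtain ⟨e, he⟩ : N l ∣ ∏ l, N l := Finset.dvd_prod_of_mem N (Finset.mem_univ l)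
    rw [he, Nat.cast_mul, mul_comm (N l : AlgebraicClosure K), mul_assoc]
    exact (isIntegral_natCast (R := ℤ) e).mul h2

theorem fam {K A : Type} [Field K] [NumberField K] [CommRing A] [Algebra K A] {m n : ℕ}
    (g : MvPolynomial (Fin (n + 1)) K →ₐ[K] A)
    (hg : Function.Injective g) (hgf : g.Finite)
    (π : MvPolynomial (Fin (m + 1)) K →ₐ[K] A) (hπ : Function.Surjective π) (i : Fin (m + 1))
    (hi : π (MvPolynomial.X i) = 1) :
    ∃ (k : ℕ) (D C : ℝ) (P0 : MvPolynomial (Fin (m + 1)) K) (N : ℕ), 0 ≤ D ∧ 0 ≤ C ∧ 1 ≤ N ∧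
      ∀ t : AlgebraicClosure K, ∃ (v : Fin (m + 1) → AlgebraicClosure K) (hv : v i = 1)
        (s : fld (pt v i hv)),
        (∀ p, π p = 0 → MvPolynomial.aeval v p = 0) ∧ MvPolynomial.aeval v P0 = t ∧
        (s : AlgebraicClosure K) = t ∧ degree (pt v i hv) ≤ k * (minpoly K t).natDegree ∧
        height (pt v i hv) * degree (pt v i hv) ≤ D * logHeight₁ s + C * degree (pt v i hv) ∧
        (IsIntegral ℤ t → ∀ l, IsIntegral ℤ ((N : AlgebraicClosure K) * v l)) := by
  letI : Algebra (MvPolynomial (Fin (n + 1)) K) A := g.toRingHom.toAlgebra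
  haveI : IsScalarTower K (MvPolynomial (Fin (n + 1)) K) A :=
    IsScalarTower.of_algebraMap_eq fun c => (g.commutes c).symm
  haveI : Module.Finite (MvPolynomial (Fin (n + 1)) K) A := hgf
  exact fam_aux hg π hπ i hi

end Pool.Agent.V8H3.Gen
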