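import Mathlib
import Pool.Agent.V8H3.GenE
import Pool.Agent.V8H31.PC.Hts
import Pool.Agent.N31.FR.Tot
import Pool.Agent.N130.PC.Cnt

/-!
# Every variety of positive dimension has many points of bounded degree
-/

set_option autoImplicit false

namespace Pool.Agent.V8H3.Gen

open NumberField Module Height Polynomial
open Pool.Agent.N753.DR (AtH)
open scoped LinearAlgebra.Projectivization

section

variable {K : Type} [Field K] [NumberField K] {m : ℕ}

/-- finitely many points of bounded degree and height -/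
theorem fin_eq (j : ℕ) (U : ℝ) : {x : Pt K m | degree x = j ∧ height x ≤ U}.Finite := by
  classical
  rcases lt_or_ge U 0 with hU | hU
  · refine Set.Finite.subset Set.finite_empty ?_
    rintro x ⟨-, h⟩
    exact absurd h (not_le.2 (hU.trans_le (height_nonneg x)))
  -- the minimal polynomials
  have h1 : ∀ a : ℕ, 1 ≤ a → {p : K[X] | AtH a (a * U) p}.Finite := by
    intro a ha
    obtain ⟨C, -, hC⟩ := Pool.Agent.N130.PC.Cnt.t K a ha
    exact (hC (a * U) (by positivity)).1
  have h2 : (⋃ a ∈ Finset.Icc 1 j, {p : K[X] | AtH a (a * U) p}).Finite := by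
    refine Set.Finite.biUnion (Finset.finite_toSet _) fun a ha => h1 a ?_
    exact (Finset.mem_Icc.1 ha).1
  have h3 : (⋃ p ∈ (⋃ a ∈ Finset.Icc 1 j, {p : K[X] | AtH a (a * U) p}),
      {z : AlgebraicClosure K | p ≠ 0 ∧ aeval z p = 0}).Finite := by
    refine Set.Finite.biUnion h2 fun p _ => ?_
    rcases eq_or_ne p 0 with rfl | hp
    · refine Set.Finite.subset Set.finite_empty ?_
      rintro z ⟨h, -⟩
      exact absurd rfl h
    · refine Set.Finite.subset (Polynomial.rootSet_finite p (AlgebraicClosure K)) ?_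
      rintro z ⟨-, hz⟩
      rw [Polynomial.mem_rootSet]
      exact ⟨hp, hz⟩
  obtain ⟨Z, hZ⟩ : ∃ Z : Set (AlgebraicClosure K), Z = ⋃ p ∈ (⋃ a ∈ Finset.Icc 1 j,
    {p : K[X] | AtH a (a * U) p}), {z : AlgebraicClosure K | p ≠ 0 ∧ aeval z p = 0} := ⟨_, rfl⟩
  rw [← hZ] at h3
  have h4 : (Set.univ.pi fun _ : Fin (m + 1) => Z).Finite := Set.Finite.pi fun _ => h3
  refine Set.Finite.of_finite_image (f := fun (x : Pt K m) (l : Fin (m + 1)) =>
    x.rep l / x.rep (idx x)) (h4.subset ?_) ?_
  · rintro _ ⟨x, ⟨hx1, hx2⟩, rfl⟩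
    rw [Set.mem_univ_pi]
    intro l
    have hlog : logHeight₁ (coord x l) ≤ U * degree x := by
      rw [logHeight₁_eq_logHeight]
      have e1 : (![coord x l, 1] : Fin 2 → fld x) =
          coord x ∘ (![l, idx x] : Fin 2 → Fin (m + 1)) := by
        funext k
        fin_cases k
        · rfl
        · show (1 : fld x) = coord x (idx x)
          rw [coord_idx]
      rw [e1]
      refine (logHeight_comp_le _ _).trans ?_
      unfold height at hx2
      have h0 : (0 : ℝ) < finrank K (fld x) := by exact_mod_cast degree_pos x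
      rw [div_le_iff₀ h0] at hx2
      exact hx2
    have hint : IsIntegral K (coord x l) := Algebra.IsIntegral.isIntegral _
    have hdeg : (minpoly K (coord x l)).natDegree ≤ j := by
      have h5 : (minpoly K (coord x l)).natDegree ≤ finrank K (fld x) :=
        minpoly.natDegree_le (coord x l)
      have h6 : finrank K (fld x) = j := hx1
      rw [h6] at h5
      exact h5
    have hdeg1 : 1 ≤ (minpoly K (coord x l)).natDegree := minpoly.natDegree_pos hint
    rw [hZ, Set.mem_iUnion₂]
    refine ⟨minpoly K (coord x l), ?_, minpoly.ne_zero hint, ?_⟩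
    · rw [Set.mem_iUnion₂]
      refine ⟨(minpoly K (coord x l)).natDegree, Finset.mem_Icc.2 ⟨hdeg1, hdeg⟩, ?_⟩
      show AtH _ _ _
      rw [Pool.Agent.V8H31.PC.atH_iff hdeg1 (coord x l) rfl U]
      have h7 : (finrank ℚ (fld x) : ℝ) = finrank ℚ K * degree x := by
        exact_mod_cast (finrank_mul_finrank ℚ K (fld x)).symm
      rw [h7]
      have h8 : (0 : ℝ) ≤ finrank ℚ K := Nat.cast_nonneg _
      have h9 := mul_le_mul_of_nonneg_left hlog h8
      linarith
    · have h5 := minpoly.aeval K (coord x l)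
      have h6 : ((aeval (coord x l) (minpoly K (coord x l)) : fld x) : AlgebraicClosure K) =
          aeval ((coord x l : fld x) : AlgebraicClosure K) (minpoly K (coord x l)) :=
        (Polynomial.aeval_algHom_apply (fld x).val (coord x l) (minpoly K (coord x l))).symm
      rw [h5] at h6
      exact h6.symm
  · intro x _ y _ hxy
    exact inj_aux x y fun i => congrFun hxy i

theorem fin_deg (r : ℕ) (U : ℝ) : {x : Pt K m | degree x ≤ r ∧ height x ≤ U}.Finite := by
  refine Set.Finite.subset (Set.Finite.biUnion (Finset.finite_toSet (Finset.range (r + 1)))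
    fun j _ => fin_eq (K := K) (m := m) j U) ?_
  rintro x ⟨h1, h2⟩
  rw [Set.mem_iUnion₂]
  exact ⟨degree x, Finset.mem_coe.2 (Finset.mem_range.2 (by omega)), rfl, h2⟩

/-- many points from a family -/
theorem many_aux {k : ℕ} {D C : ℝ} {i : Fin (m + 1)} {P0 : MvPolynomial (Fin (m + 1)) K}
    {V : AlgebraicClosure K → Set (Fin (m + 1) → AlgebraicClosure K)} (hD : 0 ≤ D)
    (h : ∀ t : AlgebraicClosure K, ∃ (v : Fin (m + 1) → AlgebraicClosure K) (hv : v i = 1)
        (s : fld (pt v i hv)), v ∈ V t ∧ MvPolynomial.aeval v P0 = t ∧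
        (s : AlgebraicClosure K) = t ∧ degree (pt v i hv) ≤ k * (minpoly K t).natDegree ∧
        height (pt v i hv) * degree (pt v i hv) ≤ D * logHeight₁ s + C * degree (pt v i hv))
    {a : ℕ} (ha : 1 ≤ a) {P : K[X] → Prop} {β : ℝ} (hcount : ∃ c U₀ : ℝ, 0 < c ∧
      ∀ U : ℝ, U₀ ≤ U → ∃ T : Finset K[X], (∀ p ∈ T, AtH a U p ∧ P p) ∧
        c * Real.exp (β * U) ≤ T.card) :
    ∃ c U₀ : ℝ, 0 < c ∧ ∀ U : ℝ, U₀ ≤ U → ∃ T : Finset (Pt K m),
      (∀ x ∈ T, (∃ t, P (minpoly K t) ∧ ∃ v ∈ V t, ∃ hv : v i = 1, x = pt v i hv) ∧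
        degree x ≤ k * a ∧ height x ≤ U) ∧
      c * Real.exp (a * β / (D + 1) * U) ≤ T.card := by
  classical
  obtain ⟨c, U₀, hc, hT⟩ := hcount
  have ha0 : (0 : ℝ) < a := by exact_mod_cast ha
  refine ⟨c * Real.exp (-(a * β / (D + 1) * C)), (D + 1) * (|U₀| / a) + C, by positivity,
    fun U hU => ?_⟩
  obtain ⟨W, hW⟩ : ∃ W : ℝ, W = (U - C) / (D + 1) := ⟨_, rfl⟩
  have hW1 : |U₀| / a ≤ W := by
    rw [hW, le_div_iff₀ (by positivity)]
    linarith
  have hW0 : 0 ≤ W := le_trans (by positivity) hW1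
  have hW2 : U₀ ≤ a * W := by
    have h1 : |U₀| ≤ a * W := by
      rw [div_le_iff₀ ha0] at hW1
      linarith
    exact (le_abs_self _).trans h1
  obtain ⟨Q, hQ1, hQ2⟩ := hT (a * W) hW2
  -- roots
  have hroot : ∀ p : K[X], ∃ t : AlgebraicClosure K, p ∈ Q → minpoly K t = p := by
    intro p
    by_cases hp : p ∈ Q
    · obtain ⟨M, _, _, _, y, h1, h2, h3, h4⟩ := (hQ1 p hp).1
      haveI : FiniteDimensional K M := Module.Finite.of_restrictScalars_finite ℚ K M
      let φ : M →ₐ[K] AlgebraicClosure K := IsAlgClosed.lift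
      refine ⟨φ y, fun _ => ?_⟩
      rw [← h3]
      exact minpoly.algHom_eq φ φ.injective y
    · exact ⟨0, fun h => absurd h hp⟩
  choose t ht using hroot
  choose v hv s hs1 hs2 hs3 hs4 hs5 using h
  obtain ⟨F, hF⟩ : ∃ F : K[X] → Pt K m, F = fun p => pt (v (t p)) i (hv (t p)) := ⟨_, rfl⟩
  refine ⟨Q.image F, ?_, ?_⟩
  · intro x hx
    obtain ⟨p, hp, rfl⟩ := Finset.mem_image.1 hx
    have h1 := ht p hp
    obtain ⟨M, _, _, _, y, g1, g2, g3, g4⟩ := (hQ1 p hp).1
    have hdeg : (minpoly K (t p)).natDegree = a := by rw [h1, ← g3, g2]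
    refine ⟨⟨t p, by rw [h1]; exact (hQ1 p hp).2, v (t p), hs1 _, hv _, by rw [hF]⟩, ?_, ?_⟩
    · rw [hF]
      have h2 := hs4 (t p)
      rw [hdeg] at h2
      exact h2
    · rw [hF]
      have h2 := hs5 (t p)
      have hmin : minpoly K (s (t p)) = minpoly K (t p) := by
        have e1 := minpoly.algHom_eq (fld (pt (v (t p)) i (hv (t p)))).val
          (fld (pt (v (t p)) i (hv (t p)))).val.injective (s (t p))
        rw [← e1]
        congr 1
        exact hs3 (t p)
      have h3 := Pool.Agent.V8H31.PC.atH_iff (K := K) ha (s (t p))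
        (by rw [hmin]; exact hdeg) W
      have h4 : AtH a (a * W) (minpoly K (s (t p))) := by
        rw [hmin, h1]
        exact (hQ1 p hp).1
      have h5 := h3.1 h4
      have h6 : (finrank ℚ (fld (pt (v (t p)) i (hv (t p)))) : ℝ) =
          finrank ℚ K * degree (pt (v (t p)) i (hv (t p))) := by
        exact_mod_cast (finrank_mul_finrank ℚ K (fld (pt (v (t p)) i (hv (t p))))).symm
      have hK0 : (0 : ℝ) < finrank ℚ K := by exact_mod_cast finrank_pos
      have hd0 : (0 : ℝ) < degree (pt (v (t p)) i (hv (t p))) := by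
        exact_mod_cast degree_pos _
      have h7 : logHeight₁ (s (t p)) ≤ W * degree (pt (v (t p)) i (hv (t p))) := by
        rw [h6] at h5
        have e2 : (finrank ℚ K : ℝ) * logHeight₁ (s (t p)) ≤
            finrank ℚ K * (W * degree (pt (v (t p)) i (hv (t p)))) := by linarith
        exact le_of_mul_le_mul_left e2 hK0
      have h8 : D * logHeight₁ (s (t p)) ≤
          (D + 1) * (W * degree (pt (v (t p)) i (hv (t p)))) := by
        have e3 := mul_le_mul_of_nonneg_left h7 hD
        have e4 : 0 ≤ W * degree (pt (v (t p)) i (hv (t p))) := by positivity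
        linarith
      have h9 : height (pt (v (t p)) i (hv (t p))) * degree (pt (v (t p)) i (hv (t p))) ≤
          ((D + 1) * W + C) * degree (pt (v (t p)) i (hv (t p))) := by linarith
      have h10 := le_of_mul_le_mul_right h9 hd0
      have h11 : (D + 1) * W + C = U := by
        rw [hW]
        field_simp
        ring
      rw [h11] at h10
      exact h10
  · have hinj : Set.InjOn F (Q : Set K[X]) := by
      intro p hp q hq hpq
      rw [hF] at hpq
      have h1 := pt_inj _ _ i (hv (t p)) (hv (t q)) hpq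
      have h2 : t p = t q := by rw [← hs2 (t p), ← hs2 (t q), h1]
      rw [← ht p (Finset.mem_coe.1 hp), ← ht q (Finset.mem_coe.1 hq), h2]
    rw [Finset.card_image_of_injOn hinj]
    refine le_trans (le_of_eq ?_) hQ2
    rw [mul_assoc, ← Real.exp_add]
    congr 2
    rw [hW]
    field_simp
    ring

end

end Pool.Agent.V8H3.Gen
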