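import Mathlib
import Pool.Agent.V8H3.GenA
import Pool.Agent.N265.CV.HtcB
import Pool.Agent.N753.DR.Stm

/-!
# Many algebraic integers of a given degree
-/

set_option autoImplicit false

namespace Pool.Agent.V8H3.Gen

open NumberField IsDedekindDomain Module Height Polynomial
open Pool.Agent.N753.DR (AtH)
open Pool.Agent.N265.CV (cf)

variable {K : Type} [Field K] [NumberField K]

/-- the coefficients of small degree -/
noncomputable def ec (x₀ : 𝓞 K) (N : ℕ) {a : ℕ} (c : Fin a → ℕ) (j : Fin a) : 𝓞 K :=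
  (N : 𝓞 K) * (c j : 𝓞 K) + if (j : ℕ) = 0 then x₀ else 0

/-- the low part -/
noncomputable def lowp (x₀ : 𝓞 K) (N : ℕ) {a : ℕ} (c : Fin a → ℕ) : (𝓞 K)[X] :=
  ∑ j : Fin a, C (ec x₀ N c j) * X ^ (j : ℕ)

/-- the polynomials -/
noncomputable def eis (x₀ : 𝓞 K) (N : ℕ) {a : ℕ} (c : Fin a → ℕ) : (𝓞 K)[X] :=
  X ^ a + lowp x₀ N c

theorem lowp_coeff (x₀ : 𝓞 K) (N : ℕ) {a : ℕ} (c : Fin a → ℕ) (k : ℕ) :
    (lowp x₀ N c).coeff k = if h : k < a then ec x₀ N c ⟨k, h⟩ else 0 := by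
  unfold lowp
  rw [finsetSum_coeff]
  simp only [coeff_C_mul, coeff_X_pow]
  by_cases h : k < a
  · rw [dif_pos h, Finset.sum_eq_single ⟨k, h⟩]
    · simp
    · intro b _ hb
      rw [if_neg, mul_zero]
      intro h'
      exact hb (Fin.ext h'.symm)
    · intro h'
      exact absurd (Finset.mem_univ _) h'
  · rw [dif_neg h]
    refine Finset.sum_eq_zero fun b _ => ?_
    rw [if_neg, mul_zero]
    intro h'
    exact h (h' ▸ b.2)

theorem lowp_degree (x₀ : 𝓞 K) (N : ℕ) {a : ℕ} (c : Fin a → ℕ) : (lowp x₀ N c).degree < a := by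
  rw [degree_lt_iff_coeff_zero]
  intro k hk
  rw [lowp_coeff, dif_neg (by omega)]

theorem eis_monic (x₀ : 𝓞 K) (N : ℕ) {a : ℕ} (c : Fin a → ℕ) : (eis x₀ N c).Monic :=
  monic_X_pow_add (lowp_degree x₀ N c)

theorem eis_natDegree (x₀ : 𝓞 K) (N : ℕ) {a : ℕ} (c : Fin a → ℕ) :
    (eis x₀ N c).natDegree = a := by
  unfold eis
  have h1 : (lowp x₀ N c).degree < ((X : (𝓞 K)[X]) ^ a).degree := by
    rw [degree_X_pow]
    exact lowp_degree x₀ N c
  rw [natDegree_eq_of_degree_eq (degree_add_eq_left_of_degree_lt h1), natDegree_X_pow]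

theorem eis_coeff (x₀ : 𝓞 K) (N : ℕ) {a : ℕ} (c : Fin a → ℕ) {k : ℕ} (hk : k < a) :
    (eis x₀ N c).coeff k = ec x₀ N c ⟨k, hk⟩ := by
  unfold eis
  rw [coeff_add, coeff_X_pow, if_neg (by omega), zero_add, lowp_coeff, dif_pos hk]

theorem eis_irreducible {q : Ideal (𝓞 K)} (hq : q.IsPrime) {x₀ : 𝓞 K} (h1 : x₀ ∈ q)
    (h2 : x₀ ∉ q ^ 2) {N : ℕ} (hN : (N : 𝓞 K) ∈ q ^ 2) {a : ℕ} (ha : 1 ≤ a) (c : Fin a → ℕ) :
    Irreducible (eis x₀ N c) := by
  have hNq : (N : 𝓞 K) ∈ q := Ideal.pow_le_self two_ne_zero hN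
  have hE : (eis x₀ N c).IsEisensteinAt q := by
    refine ⟨?_, ?_, ?_⟩
    · rw [(eis_monic x₀ N c).leadingCoeff]
      exact fun h => hq.ne_top ((Ideal.eq_top_iff_one _).2 h)
    · intro k hk
      rw [eis_natDegree] at hk
      rw [eis_coeff x₀ N c hk]
      unfold ec
      refine q.add_mem (q.mul_mem_right _ hNq) ?_
      split_ifs
      · exact h1
      · exact q.zero_mem
    · rw [eis_coeff x₀ N c ha]
      unfold ec
      rw [if_pos rfl]
      intro h
      exact h2 ((Ideal.add_mem_iff_right _ (Ideal.mul_mem_right _ _ hN)).1 h)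
  exact hE.irreducible hq (eis_monic x₀ N c).isPrimitive (by rw [eis_natDegree]; exact ha)

theorem eis_inj (x₀ : 𝓞 K) {N : ℕ} (hN : 1 ≤ N) {a : ℕ} {c c' : Fin a → ℕ}
    (h : eis x₀ N c = eis x₀ N c') : c = c' := by
  funext j
  have h1 : (eis x₀ N c).coeff j = (eis x₀ N c').coeff j := by rw [h]
  rw [eis_coeff x₀ N c j.2, eis_coeff x₀ N c' j.2] at h1
  unfold ec at h1
  have h2 := add_right_cancel h1
  have hN0 : (N : 𝓞 K) ≠ 0 := by
    rw [Nat.cast_ne_zero]
    omega
  have h3 := mul_left_cancel₀ hN0 h2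
  exact_mod_cast h3

/-- the height of a vector with natural coordinates -/
theorem ht_nat {a B : ℕ} (hB : 1 ≤ B) (c : Fin a → ℕ) (hc : ∀ j, c j ≤ B) :
    logHeight (fun k : Fin (a + 1) => ((Fin.cons 1 c : Fin (a + 1) → ℕ) k : K)) ≤
      finrank ℚ K * Real.log B := by
  have e1 : (fun k : Fin (a + 1) => ((Fin.cons 1 c : Fin (a + 1) → ℕ) k : K)) =
      fun k => algebraMap ℚ K ((((↑) : ℤ → ℚ) ∘ fun k =>
        ((Fin.cons 1 c : Fin (a + 1) → ℕ) k : ℤ)) k) := by
    funext k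
    simp
  rw [e1, Pool.Agent.Helper259.HtExt.logHeight_ext]
  refine mul_le_mul_of_nonneg_left ?_ (Nat.cast_nonneg _)
  have hgcd : Finset.univ.gcd (fun k => ((Fin.cons 1 c : Fin (a + 1) → ℕ) k : ℤ)) = 1 := by
    have h1 : Finset.univ.gcd (fun k => ((Fin.cons 1 c : Fin (a + 1) → ℕ) k : ℤ)) ∣ 1 := by
      have h2 := Finset.gcd_dvd (s := Finset.univ)
        (f := fun k => ((Fin.cons 1 c : Fin (a + 1) → ℕ) k : ℤ)) (Finset.mem_univ 0)
      simpa using h2
    have h2 : 0 ≤ Finset.univ.gcd (fun k => ((Fin.cons 1 c : Fin (a + 1) → ℕ) k : ℤ)) :=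
      Int.nonneg_of_normalize_eq_self Finset.normalize_gcd
    exact Int.eq_one_of_dvd_one h2 h1
  rw [Rat.logHeight_eq_max_abs_of_gcd_eq_one hgcd]
  obtain ⟨S, hS⟩ : ∃ S : ℤ, S = ⨆ k, |((Fin.cons 1 c : Fin (a + 1) → ℕ) k : ℤ)| := ⟨_, rfl⟩
  have h3 : (⨆ k, |((Fin.cons 1 c : Fin (a + 1) → ℕ) k : ℤ)|) ≤ (B : ℤ) := by
    refine ciSup_le fun k => ?_
    rw [Nat.abs_cast]
    refine Fin.cases ?_ (fun j => ?_) k
    · simp only [Fin.cons_zero]
      exact_mod_cast hB
    · simp only [Fin.cons_succ]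
      exact_mod_cast hc j
  have h4 : 1 ≤ (⨆ k, |((Fin.cons 1 c : Fin (a + 1) → ℕ) k : ℤ)|) := by
    have := le_ciSup (f := fun k => |((Fin.cons 1 c : Fin (a + 1) → ℕ) k : ℤ)|)
      (Set.finite_range _).bddAbove 0
    simpa using this
  rw [← hS] at h3 h4 ⊢
  have h5 : (0 : ℝ) < (S : ℝ) := by exact_mod_cast (by omega : (0 : ℤ) < S)
  refine Real.log_le_log h5 ?_
  exact_mod_cast h3

/-- the coefficients as a linear function -/
noncomputable def ma (x₀ : 𝓞 K) (N a : ℕ) (p : Fin (a + 1) × Fin (a + 1)) : K :=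
  if (p.1 : ℕ) = a then (if (p.2 : ℕ) = 0 then 1 else 0) else
    (if (p.2 : ℕ) = p.1 + 1 then (N : K) else 0) +
      (if (p.1 : ℕ) = 0 ∧ (p.2 : ℕ) = 0 then (x₀ : K) else 0)

theorem cf_eq (x₀ : 𝓞 K) (N : ℕ) {a : ℕ} (c : Fin a → ℕ) :
    cf a ((eis x₀ N c).map (algebraMap (𝓞 K) K)) =
      fun k => ∑ i, ma x₀ N a (k, i) * ((Fin.cons 1 c : Fin (a + 1) → ℕ) i : K) := by
  funext k
  unfold cf
  rw [coeff_map, Fin.sum_univ_succ]
  rcases Nat.lt_or_ge (k : ℕ) a with hk | hk
  · rw [eis_coeff x₀ N c hk]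
    have h1 : ∑ i : Fin a, ma x₀ N a (k, i.succ) *
        ((Fin.cons 1 c : Fin (a + 1) → ℕ) i.succ : K) = (N : K) * (c ⟨k, hk⟩ : K) := by
      rw [Finset.sum_eq_single ⟨k, hk⟩]
      · rw [Fin.cons_succ]
        unfold ma
        simp [hk.ne]
      · intro b _ hb
        unfold ma
        have h2 : ¬ ((b : ℕ) = (k : ℕ)) := fun h => hb (Fin.ext h)
        simp [hk.ne, h2]
      · intro h'
        exact absurd (Finset.mem_univ _) h'
    rw [h1]
    unfold ma ec
    by_cases h0 : (k : ℕ) = 0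
    · have h2 : (0 : ℕ) ≠ a := by omega
      simp [h0, h2]
      ring
    · simp [hk.ne, h0]
  · have hka : (k : ℕ) = a := by
      have := k.2
      omega
    have h1 : ∑ i : Fin a, ma x₀ N a (k, i.succ) *
        ((Fin.cons 1 c : Fin (a + 1) → ℕ) i.succ : K) = 0 := by
      refine Finset.sum_eq_zero fun i _ => ?_
      unfold ma
      simp [hka]
    rw [h1]
    have h2 : (eis x₀ N c).coeff k = 1 := by
      have h3 := eis_monic x₀ N c
      unfold Monic leadingCoeff at h3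
      rw [eis_natDegree] at h3
      rw [hka]
      exact h3
    rw [h2]
    unfold ma
    simp [hka]

/-- **there are many algebraic integers of degree `a`** -/
theorem int_count (K : Type) [Field K] [NumberField K] (a : ℕ) (ha : 1 ≤ a) :
    ∃ c U₀ : ℝ, 0 < c ∧ ∀ U : ℝ, U₀ ≤ U → ∃ T : Finset K[X],
      (∀ p ∈ T, AtH a U p ∧ ∀ t : AlgebraicClosure K, minpoly K t = p → IsIntegral ℤ t) ∧
        c * Real.exp (a / finrank ℚ K * U) ≤ T.card := by
  classical
  obtain ⟨q⟩ : Nonempty (HeightOneSpectrum (𝓞 K)) := by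
    obtain ⟨M, hM⟩ := Ideal.exists_maximal (𝓞 K)
    exact ⟨⟨M, hM.isPrime, Ring.ne_bot_of_isMaximal_of_not_isField hM
      (RingOfIntegers.not_isField K)⟩⟩
  obtain ⟨x₀, hx₀, hx₀'⟩ : ∃ x₀ : 𝓞 K, x₀ ∈ q.asIdeal ∧ x₀ ∉ q.asIdeal ^ 2 := by
    have h1 : q.asIdeal ^ 2 < q.asIdeal := by
      refine Ideal.pow_right_strictAnti q.asIdeal q.ne_bot q.isPrime.ne_top (by norm_num : 1 < 2)
        |>.trans_eq (pow_one _)
    exact SetLike.exists_of_lt h1
  obtain ⟨N, hN, hNq⟩ : ∃ N : ℕ, 1 ≤ N ∧ (N : 𝓞 K) ∈ q.asIdeal ^ 2 := by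
    refine ⟨Ideal.absNorm q.asIdeal ^ 2, ?_, ?_⟩
    · have h1 : Ideal.absNorm q.asIdeal ≠ 0 := by
        rw [Ne, Ideal.absNorm_eq_zero_iff]
        exact q.ne_bot
      exact Nat.one_le_iff_ne_zero.2 (pow_ne_zero 2 h1)
    · rw [Nat.cast_pow]
      exact Ideal.pow_mem_pow (Ideal.absNorm_mem q.asIdeal) 2
  obtain ⟨d, hd⟩ : ∃ d : ℝ, d = (finrank ℚ K : ℝ) := ⟨_, rfl⟩
  have hd0 : 0 < d := by
    rw [hd]
    exact_mod_cast finrank_pos
  obtain ⟨C, hC⟩ : ∃ C : ℝ, C = totalWeight K * Real.log (Nat.card (Fin (a + 1))) +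
    logHeight (ma x₀ N a) + a * (totalWeight K * Real.log ((a + 1 : ℕ) : ℝ)) := ⟨_, rfl⟩
  refine ⟨(Real.exp (-(C / d)) / 2) ^ a, C, by positivity, fun U hU => ?_⟩
  obtain ⟨B, hB⟩ : ∃ B : ℕ, B = ⌊Real.exp ((U - C) / d)⌋₊ := ⟨_, rfl⟩
  have hX1 : 1 ≤ Real.exp ((U - C) / d) := Real.one_le_exp (by
    apply div_nonneg _ hd0.le
    linarith)
  have hB1 : 1 ≤ B := by
    rw [hB]
    exact (Nat.one_le_floor_iff _).2 hX1
  have hB2 : (B : ℝ) ≤ Real.exp ((U - C) / d) := by
    rw [hB]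
    exact Nat.floor_le (by positivity)
  have hB3 : Real.exp ((U - C) / d) / 2 ≤ B := by
    have h1 := Nat.lt_floor_add_one (Real.exp ((U - C) / d))
    rw [← hB] at h1
    have h2 : (1 : ℝ) ≤ B := by exact_mod_cast hB1
    linarith
  obtain ⟨F, hF⟩ : ∃ F : (Fin a → Fin B) → K[X], F = fun c =>
    (eis x₀ N (fun j => (c j : ℕ))).map (algebraMap (𝓞 K) K) := ⟨_, rfl⟩
  have hFinj : Function.Injective F := by
    intro c c' h
    rw [hF] at h
    have h1 := Polynomial.map_injective _ (FaithfulSMul.algebraMap_injective (𝓞 K) K) h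
    have h2 := eis_inj x₀ hN h1
    funext j
    exact Fin.ext (congrFun h2 j)
  refine ⟨Finset.univ.image F, ?_, ?_⟩
  · intro p hp
    obtain ⟨c, -, rfl⟩ := Finset.mem_image.1 hp
    have hirr : Irreducible (F c) := by
      rw [hF]
      exact ((eis_monic x₀ N _).irreducible_iff_irreducible_map_fraction_map).1
        (eis_irreducible q.isPrime hx₀ hx₀' hNq ha _)
    have hmon : (F c).Monic := by
      rw [hF]
      exact (eis_monic x₀ N _).map _
    have hdeg : (F c).natDegree = a := by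
      rw [hF]
      simp only
      rw [(eis_monic x₀ N _).natDegree_map, eis_natDegree]
    refine ⟨?_, ?_⟩
    · obtain ⟨t, ht⟩ := IsAlgClosed.exists_aeval_eq_zero (AlgebraicClosure K) (F c)
        (by
          rw [degree_eq_natDegree hmon.ne_zero, hdeg]
          exact_mod_cast (by omega : a ≠ 0))
      have hmin : minpoly K t = F c :=
        (minpoly.eq_of_irreducible_of_monic hirr ht hmon).symm
      haveI : FiniteDimensional K (IntermediateField.adjoin K {t}) :=
        IntermediateField.adjoin.finiteDimensional (Algebra.IsIntegral.isIntegral t)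
      haveI : NumberField (IntermediateField.adjoin K {t}) :=
        NumberField.of_module_finite K _
      have hfr : finrank K (IntermediateField.adjoin K {t}) = a := by
        rw [IntermediateField.adjoin.finrank (Algebra.IsIntegral.isIntegral t), hmin, hdeg]
      have hmin' : minpoly K (IntermediateField.AdjoinSimple.gen K t) = F c := by
        rw [IntermediateField.minpoly_gen, hmin]
      refine ⟨IntermediateField.adjoin K {t}, inferInstance, inferInstance, inferInstance,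
        IntermediateField.AdjoinSimple.gen K t, hfr, by rw [hmin', hdeg], hmin', ?_⟩
      have h1 := Pool.Agent.N265.CV.ht_field (IntermediateField.AdjoinSimple.gen K t) (F c) hirr
        (by rw [← hmin']; exact minpoly.aeval _ _) 1 one_ne_zero 1
        (by rw [one_mul, hdeg, hfr]) hmon
      rw [hfr, C_1, one_mul, pow_one] at h1
      have h2 : logHeight (cf a (F c)) ≤ totalWeight K * Real.log (Nat.card (Fin (a + 1))) +
          logHeight (ma x₀ N a) + d * Real.log B := by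
        rw [hF]
        simp only
        rw [cf_eq]
        refine (logHeight_linearMap_apply_le _ _).trans ?_
        have h3 := ht_nat (K := K) hB1 (fun j => (c j : ℕ)) (fun j => (c j).2.le)
        rw [← hd] at h3
        linarith
      have h3 : d * Real.log B ≤ U - C := by
        have h4 : Real.log B ≤ (U - C) / d := by
          rw [Real.log_le_iff_le_exp (by exact_mod_cast hB1)]
          exact hB2
        rw [le_div_iff₀ hd0] at h4
        linarith
      rw [hC] at h3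
      linarith
    · intro t ht
      have h1 : aeval t (F c) = 0 := by
        rw [← ht]
        exact minpoly.aeval K t
      have h2 : IsIntegral (𝓞 K) t := by
        refine ⟨eis x₀ N (fun j => (c j : ℕ)), eis_monic _ _ _, ?_⟩
        rw [hF] at h1
        rw [aeval_map_algebraMap] at h1
        exact h1
      exact isIntegral_trans (R := ℤ) (A := 𝓞 K) t h2
  · rw [Finset.card_image_of_injective _ hFinj, Finset.card_univ, Fintype.card_fun,
      Fintype.card_fin, Fintype.card_fin]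
    have h1 : (Real.exp (-(C / d)) / 2) ^ a * Real.exp (a / finrank ℚ K * U) =
        (Real.exp ((U - C) / d) / 2) ^ a := by
      have h2 : Real.exp (a / finrank ℚ K * U) = Real.exp (U / d) ^ a := by
        rw [← Real.exp_nat_mul, ← hd]
        congr 1
        ring
      rw [h2, ← mul_pow, div_mul_eq_mul_div, ← Real.exp_add]
      congr 3
      ring
    rw [h1]
    push_cast
    exact pow_le_pow_left₀ (by positivity) hB3 a

end Pool.Agent.V8H3.Gen
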