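import Mathlib
import Pool.Agent.V8H3.GenF
import Pool.Agent.V8H3.GenH

/-!
# Every variety of positive dimension has many points of bounded degree, II
-/

set_option autoImplicit false

namespace Pool.Agent.V8H3.Gen

open NumberField Module Height
open scoped LinearAlgebra.Projectivization

/-- values of homogeneous polynomials -/
theorem aeval_smul {K Ω : Type} [Field K] [Field Ω] [Algebra K Ω] {m : ℕ}
    {p : MvPolynomial (Fin (m + 1)) K} {n : ℕ} (hp : p.IsHomogeneous n) (c : Ω)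
    (v : Fin (m + 1) → Ω) :
    MvPolynomial.aeval (c • v) p = c ^ n * MvPolynomial.aeval v p := by
  rw [MvPolynomial.aeval_def, MvPolynomial.aeval_def, MvPolynomial.eval₂_eq',
    MvPolynomial.eval₂_eq', Finset.mul_sum]
  refine Finset.sum_congr rfl fun d hd => ?_
  have h1 : ∑ i, d i = n := by
    rw [hp.degree_eq_sum_deg_support hd]
    refine (Finset.sum_subset (Finset.subset_univ _) fun i _ hi => ?_).symm
    exact Finsupp.notMem_support_iff.1 hi
  have h2 : ∏ i, (c • v) i ^ d i = c ^ n * ∏ i, v i ^ d i := by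
    rw [← h1, ← Finset.prod_pow_eq_pow_sum, ← Finset.prod_mul_distrib]
    refine Finset.prod_congr rfl fun i _ => ?_
    rw [Pi.smul_apply, smul_eq_mul, mul_pow]
  rw [h2]
  ring

/-- the algebraic points of the projective variety with the equations `p = 0`, `p ∈ I` -/
def variety (K : Type) [Field K] (m : ℕ) (I : Set (MvPolynomial (Fin (m + 1)) K)) :
    Set (Pt K m) := {x | ∀ p ∈ I, MvPolynomial.aeval x.rep p = 0}

/-- a point of the chart as a homomorphism -/
theorem hom_of {K : Type} [Field K] {m : ℕ} (I : Set (MvPolynomial (Fin (m + 1)) K))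
    (hI : ∀ p ∈ I, ∃ n, p.IsHomogeneous n) (i : Fin (m + 1)) (x : Pt K m)
    (hx : x ∈ variety K m I ∧ x.rep i ≠ 0) :
    ∃ φ : (MvPolynomial (Fin (m + 1)) K ⧸ Ideal.span (I ∪ {MvPolynomial.X i - 1})) →ₐ[K]
      AlgebraicClosure K, ∀ l, φ (Ideal.Quotient.mk _ (MvPolynomial.X l)) = x.rep l / x.rep i := by
  obtain ⟨hx1, hx2⟩ := hx
  have h2 : Ideal.span (I ∪ {MvPolynomial.X i - 1}) ≤
      RingHom.ker (MvPolynomial.aeval (fun l => x.rep l / x.rep i) :
      MvPolynomial (Fin (m + 1)) K →ₐ[K] AlgebraicClosure K) := by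
    rw [Ideal.span_le]
    rintro p (hp | hp)
    · obtain ⟨n, hn⟩ := hI p hp
      show MvPolynomial.aeval (fun l => x.rep l / x.rep i) p = 0
      have h3 : (fun l => x.rep l / x.rep i) = (x.rep i)⁻¹ • x.rep := by
        funext l
        rw [Pi.smul_apply, smul_eq_mul, div_eq_inv_mul]
      rw [h3, aeval_smul hn, hx1 p hp, mul_zero]
    · rw [Set.mem_singleton_iff] at hp
      rw [hp]
      show MvPolynomial.aeval (fun l => x.rep l / x.rep i) (MvPolynomial.X i - 1) = 0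
      rw [map_sub, MvPolynomial.aeval_X, map_one, div_self hx2, sub_self]
  have h3 : ∀ a ∈ Ideal.span (I ∪ {MvPolynomial.X i - 1}),
      (MvPolynomial.aeval (fun l => x.rep l / x.rep i) :
      MvPolynomial (Fin (m + 1)) K →ₐ[K] AlgebraicClosure K) a = 0 := fun a ha => h2 ha
  refine ⟨Ideal.Quotient.liftₐ _ _ h3, fun l => ?_⟩
  rw [Ideal.Quotient.liftₐ_apply]
  exact (Ideal.Quotient.lift_mk _ _ _).trans (MvPolynomial.aeval_X _ _)

/-- a variety of positive dimension is finite over the affine space of a positive dimension -/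
theorem noether {K A : Type} [Field K] [CommRing A] [Algebra K A] [Algebra.FiniteType K A]
    (hinf : Infinite (A →ₐ[K] AlgebraicClosure K)) : ∃ (n : ℕ)
      (g : MvPolynomial (Fin (n + 1)) K →ₐ[K] A), Function.Injective g ∧ g.Finite := by
  have hnt : Nontrivial A := by
    obtain ⟨φ⟩ : Nonempty (A →ₐ[K] AlgebraicClosure K) := inferInstance
    exact φ.toRingHom.domain_nontrivial
  obtain ⟨n, g, hg, hgf⟩ := exists_finite_inj_algHom_of_fg K A
  rcases n with _ | n
  · exfalso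
    letI : Algebra (MvPolynomial (Fin 0) K) A := g.toRingHom.toAlgebra
    haveI : IsScalarTower K (MvPolynomial (Fin 0) K) A :=
      IsScalarTower.of_algebraMap_eq fun c => (g.commutes c).symm
    haveI : Module.Finite (MvPolynomial (Fin 0) K) A := hgf
    haveI : Module.Finite K (MvPolynomial (Fin 0) K) :=
      Module.Finite.equiv (MvPolynomial.isEmptyAlgEquiv K (Fin 0)).symm.toLinearEquiv
    haveI : Module.Finite K A := Module.Finite.trans (MvPolynomial (Fin 0) K) A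
    exact hinf.not_finite inferInstance
  · exact ⟨n, g, hg, hgf⟩

/-- the points of the affine variety `x_i ≠ 0` with integral coordinates, up to the denominator `N` -/
def intPts (K : Type) [Field K] (m : ℕ) (I : Set (MvPolynomial (Fin (m + 1)) K))
    (i : Fin (m + 1)) (N : ℕ) : Set (Pt K m) :=
  {x | x ∈ variety K m I ∧ x.rep i ≠ 0 ∧
    ∀ l, IsIntegral ℤ ((N : AlgebraicClosure K) * (x.rep l / x.rep i))}

theorem many {K : Type} [Field K] [NumberField K] {m : ℕ}
    (I : Set (MvPolynomial (Fin (m + 1)) K)) (hI : ∀ p ∈ I, ∃ n, p.IsHomogeneous n)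
    (i : Fin (m + 1)) (hi : {x | x ∈ variety K m I ∧ x.rep i ≠ 0}.Infinite) :
    ∃ (k : ℕ) (D : ℝ) (N : ℕ), 0 ≤ D ∧ 1 ≤ N ∧ ∀ a : ℕ, 1 ≤ a →
      (∃ c U₀ : ℝ, 0 < c ∧ ∀ U : ℝ, U₀ ≤ U → ∃ T : Finset (Pt K m),
        (∀ x ∈ T, x ∈ variety K m I ∧ degree x ≤ k * a ∧ height x ≤ U) ∧
        c * Real.exp (a * (a + 1) / (D + 1) * U) ≤ T.card) ∧
      (∃ c U₀ : ℝ, 0 < c ∧ ∀ U : ℝ, U₀ ≤ U → ∃ T : Finset (Pt K m),
        (∀ x ∈ T, x ∈ intPts K m I i N ∧ degree x ≤ k * a ∧ height x ≤ U) ∧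
        c * Real.exp (a * (a / finrank ℚ K) / (D + 1) * U) ≤ T.card) := by
  classical
  have hinf : Infinite ((MvPolynomial (Fin (m + 1)) K ⧸ Ideal.span (I ∪ {MvPolynomial.X i - 1}))
      →ₐ[K] AlgebraicClosure K) := by
    by_contra hcon
    rw [not_infinite_iff_finite] at hcon
    apply hi
    have hch : ∀ x : Pt K m, ∃ φ : (MvPolynomial (Fin (m + 1)) K ⧸
        Ideal.span (I ∪ {MvPolynomial.X i - 1})) →ₐ[K] AlgebraicClosure K,
        x ∈ variety K m I ∧ x.rep i ≠ 0 →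
        ∀ l, φ (Ideal.Quotient.mk _ (MvPolynomial.X l)) = x.rep l / x.rep i := by
      intro x
      by_cases hx : x ∈ variety K m I ∧ x.rep i ≠ 0
      · obtain ⟨φ, h⟩ := hom_of I hI i x hx
        exact ⟨φ, fun _ => h⟩
      · obtain ⟨y, hy⟩ := hi.nonempty
        obtain ⟨φ, -⟩ := hom_of I hI i y hy
        exact ⟨φ, fun h => absurd h hx⟩
    choose φ hφ using hch
    have hinj : Set.InjOn φ {x | x ∈ variety K m I ∧ x.rep i ≠ 0} := by
      intro x hx y hy hxy
      have h1 : ∀ l, x.rep l / x.rep i = y.rep l / y.rep i := fun l => by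
        rw [← hφ x hx l, ← hφ y hy l, hxy]
      rw [← x.mk_rep, ← y.mk_rep, Projectivization.mk_eq_mk_iff']
      refine ⟨x.rep i / y.rep i, ?_⟩
      funext l
      have h2 := h1 l
      rw [div_eq_div_iff hx.2 hy.2] at h2
      rw [Pi.smul_apply, smul_eq_mul, div_mul_eq_mul_div, div_eq_iff hy.2, mul_comm, ← h2]
    exact Set.Finite.of_finite_image (Set.toFinite _) hinj
  obtain ⟨n, g, hg, hgf⟩ := noether hinf
  obtain ⟨k, D, C, P0, N, hD, -, hN, h⟩ := fam g hg hgf (Ideal.Quotient.mkₐ K _)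
    (Ideal.Quotient.mkₐ_surjective K _) i (by
      have h1 : Ideal.Quotient.mk (Ideal.span (I ∪ {MvPolynomial.X i - 1})) (MvPolynomial.X i) =
          1 := by
        rw [← map_one (Ideal.Quotient.mk _), Ideal.Quotient.eq]
        exact Ideal.subset_span (Or.inr rfl)
      exact h1)
  have hfam : ∀ t : AlgebraicClosure K, ∃ (v : Fin (m + 1) → AlgebraicClosure K) (hv : v i = 1)
        (s : fld (pt v i hv)),
        v ∈ {v : Fin (m + 1) → AlgebraicClosure K | (∀ p ∈ I, MvPolynomial.aeval v p = 0) ∧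
          (IsIntegral ℤ t → ∀ l, IsIntegral ℤ ((N : AlgebraicClosure K) * v l))} ∧
        MvPolynomial.aeval v P0 = t ∧
        (s : AlgebraicClosure K) = t ∧ degree (pt v i hv) ≤ k * (minpoly K t).natDegree ∧
        height (pt v i hv) * degree (pt v i hv) ≤ D * logHeight₁ s + C * degree (pt v i hv) := by
    intro t
    obtain ⟨v, hv, s, h1, h2, h3, h4, h5, h6⟩ := h t
    refine ⟨v, hv, s, ⟨?_, h6⟩, h2, h3, h4, h5⟩
    intro p hp
    refine h1 p ?_
    have h7 : Ideal.Quotient.mk (Ideal.span (I ∪ {MvPolynomial.X i - 1})) p = 0 := by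
      rw [Ideal.Quotient.eq_zero_iff_mem]
      exact Ideal.subset_span (Or.inl hp)
    exact h7
  have hvar : ∀ (v : Fin (m + 1) → AlgebraicClosure K) (hv : v i = 1),
      (∀ p ∈ I, MvPolynomial.aeval v p = 0) → pt v i hv ∈ variety K m I := by
    intro v hv hvI p hp
    obtain ⟨nn, hn⟩ := hI p hp
    obtain ⟨c0, hc0, hrep⟩ := rep_pt v i hv
    rw [hrep, aeval_smul hn, hvI p hp, mul_zero]
  refine ⟨k, D, N, hD, hN, fun a ha => ⟨?_, ?_⟩⟩
  · obtain ⟨c, U₀, hc, hT⟩ := many_aux (P := fun _ => True) (β := (a : ℝ) + 1) hD hfam ha (by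
        obtain ⟨c, U₀, hc, h⟩ := Pool.Agent.N31.FR.t K a ha
        refine ⟨c, U₀, hc, fun U hU => ?_⟩
        obtain ⟨T, hT1, hT2⟩ := h U hU
        exact ⟨T, fun p hp => ⟨hT1 p hp, trivial⟩, hT2⟩)
    refine ⟨c, U₀, hc, fun U hU => ?_⟩
    obtain ⟨T, hT1, hT2⟩ := hT U hU
    refine ⟨T, fun x hx => ?_, hT2⟩
    obtain ⟨⟨t, -, v, hvV, hv, hxv⟩, h1⟩ := hT1 x hx
    refine ⟨?_, h1⟩
    rw [hxv]
    exact hvar v hv hvV.1
  · obtain ⟨c, U₀, hc, hT⟩ := many_aux
      (P := fun p => ∀ t : AlgebraicClosure K, minpoly K t = p → IsIntegral ℤ t) hD hfam ha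
      (int_count K a ha)
    refine ⟨c, U₀, hc, fun U hU => ?_⟩
    obtain ⟨T, hT1, hT2⟩ := hT U hU
    refine ⟨T, fun x hx => ?_, hT2⟩
    obtain ⟨⟨t, ht, v, hvV, hv, hxv⟩, h1⟩ := hT1 x hx
    refine ⟨⟨?_, ?_, ?_⟩, h1⟩
    · rw [hxv]
      exact hvar v hv hvV.1
    · obtain ⟨c0, hc0, hrep⟩ := rep_pt v i hv
      rw [hxv, hrep, Pi.smul_apply, smul_eq_mul, hv, mul_one]
      exact hc0
    · intro l
      have h2 := hvV.2 (ht t rfl) l
      rw [hxv, ratio_pt, hv, div_one]
      exact h2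

end Pool.Agent.V8H3.Gen
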