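import Mathlib
import Pool.Agent.Helper259.HtExt

/-!
# The local heights of a closed subscheme and their sums
-/

set_option autoImplicit false

namespace Pool.Agent.V8H3.Gen

open NumberField Module Height

section sup

variable {L : Type} [Field L] [NumberField L] {ι : Type} [Fintype ι]

theorem sup_pos (w : AbsoluteValue L ℝ) {x : ι → L} (hx : x ≠ 0) : 0 < ⨆ i, w (x i) := by
  obtain ⟨i, hi⟩ := Function.ne_iff.1 hx
  exact (w.pos hi).trans_le (le_ciSup (f := fun i => w (x i)) (Set.finite_range _).bddAbove i)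

/-- the height in terms of finitely many places -/
theorem lh_sup {x : ι → L} (hx : x ≠ 0) : ∃ S : Finset (FinitePlace L),
    ∀ T : Finset (FinitePlace L), S ⊆ T → logHeight x =
      ∑ w : InfinitePlace L, (w.mult : ℝ) * Real.log (⨆ i, w (x i)) +
        ∑ u ∈ T, Real.log (⨆ i, u (x i)) := by
  classical
  have hfin : ∀ i, {u : FinitePlace L | x i ≠ 0 ∧ u (x i) ≠ 1}.Finite := by
    intro i
    rcases eq_or_ne (x i) 0 with h | h
    · refine Set.Finite.subset Set.finite_empty ?_
      rintro u ⟨h1, -⟩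
      exact absurd h h1
    · refine (FinitePlace.hasFiniteMulSupport h).subset ?_
      rintro u ⟨-, h1⟩
      exact h1
  have hall := Set.finite_iUnion hfin
  have hone : ∀ u : FinitePlace L, u ∉ hall.toFinset → ⨆ i, u (x i) = 1 := by
    intro u hu
    rw [Set.Finite.mem_toFinset, Set.mem_iUnion] at hu
    push Not at hu
    have h1 : ∀ i, x i ≠ 0 → u (x i) = 1 := by
      intro i hi
      by_contra hc
      exact hu i ⟨hi, hc⟩
    obtain ⟨i0, hi0⟩ := Function.ne_iff.1 hx
    haveI : Nonempty ι := ⟨i0⟩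
    apply le_antisymm
    · refine ciSup_le fun i => ?_
      rcases eq_or_ne (x i) 0 with h | h
      · rw [h, map_zero]
        exact zero_le_one
      · exact (h1 i h).le
    · rw [← h1 i0 hi0]
      exact le_ciSup (f := fun i => u (x i)) (Set.finite_range _).bddAbove i0
  refine ⟨hall.toFinset, fun T hT => ?_⟩
  rw [logHeight_eq_log_mulHeight, NumberField.mulHeight_eq hx]
  have h2 : ∏ᶠ u : FinitePlace L, ⨆ i, u (x i) = ∏ u ∈ T, ⨆ i, u (x i) := by
    refine finprod_eq_prod_of_mulSupport_subset _ ?_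
    intro u hu
    by_contra hc
    exact hu (hone u fun h => hc (hT h))
  rw [h2, Real.log_mul, Real.log_prod, Real.log_prod]
  · congr 1
    refine Finset.sum_congr rfl fun w _ => ?_
    rw [Real.log_pow]
  · intro u _
    exact (sup_pos u.1 hx).ne'
  · intro w _
    exact (pow_pos (sup_pos w.1 hx) _).ne'
  · exact (Finset.prod_pos fun w _ => pow_pos (sup_pos w.1 hx) _).ne'
  · exact (Finset.prod_pos fun u _ => sup_pos u.1 hx).ne'

end sup

/-- the local height `log (max |x_i| ^ e / max |F_j(x)|)` of `x` relative to the closed subscheme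
`F_0 = … = F_(q-1) = 0`, where the `F_j` are forms of degree `e` -/
noncomputable def localHeight {K L : Type} [Field K] [Field L] [Algebra K L] {m q : ℕ}
    (F : Fin q → MvPolynomial (Fin (m + 1)) K) (e : ℕ) (x : Fin (m + 1) → L) (v : L → ℝ) : ℝ :=
  Real.log ((⨆ i, v (x i)) ^ e / ⨆ j, v (MvPolynomial.aeval x (F j)))

section weil

variable {K : Type} [Field K] [NumberField K] {m q : ℕ}
  (F : Fin q → MvPolynomial (Fin (m + 1)) K)

/-- the coefficients, and `1` -/
noncomputable def co (o : Option (Σ j : Fin q, (F j).support)) : K :=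
  match o with
  | none => 1
  | some p => MvPolynomial.coeff (p.2 : Fin (m + 1) →₀ ℕ) (F p.1)

theorem co_ne_zero : co F ≠ 0 := by
  intro h
  have := congrFun h none
  exact one_ne_zero this

/-- a bound for the number of monomials -/
def nm : ℕ := 1 + ∑ j, (F j).support.card

theorem mon_le {L : Type} [Field L] (w : AbsoluteValue L ℝ) {e : ℕ} {s : Fin (m + 1) →₀ ℕ}
    (hs : ∑ i, s i = e) (x : Fin (m + 1) → L) :
    w (∏ i, x i ^ s i) ≤ (⨆ i, w (x i)) ^ e := by
  rw [map_prod, ← hs, ← Finset.prod_pow_eq_pow_sum]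
  refine Finset.prod_le_prod (fun i _ => w.nonneg _) fun i _ => ?_
  rw [map_pow]
  exact pow_le_pow_left₀ (w.nonneg _)
    (le_ciSup (f := fun i => w (x i)) (Set.finite_range _).bddAbove i) _

theorem deg_sum {e : ℕ} (hF : ∀ j, (F j).IsHomogeneous e) (j : Fin q) {s : Fin (m + 1) →₀ ℕ}
    (hs : s ∈ (F j).support) : ∑ i, s i = e := by
  rw [(hF j).degree_eq_sum_deg_support hs]
  refine (Finset.sum_subset (Finset.subset_univ _) fun i _ hi => ?_).symm
  exact Finsupp.notMem_support_iff.1 hi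

theorem arch_le {L : Type} [Field L] [Algebra K L] (w : AbsoluteValue L ℝ) {e : ℕ}
    (hF : ∀ j, (F j).IsHomogeneous e) (x : Fin (m + 1) → L) :
    (⨆ j, w (MvPolynomial.aeval x (F j))) ≤
      nm F * ((⨆ o, w (algebraMap K L (co F o))) * (⨆ i, w (x i)) ^ e) := by
  obtain ⟨A, hA⟩ : ∃ A : ℝ, A = ⨆ o, w (algebraMap K L (co F o)) := ⟨_, rfl⟩
  have hAo : ∀ o, w (algebraMap K L (co F o)) ≤ A := fun o => by
    rw [hA]
    exact le_ciSup (f := fun o => w (algebraMap K L (co F o))) (Set.finite_range _).bddAbove o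
  have hA0 : 0 ≤ A := (w.nonneg _).trans (hAo none)
  have hN0 : 0 ≤ ⨆ i, w (x i) := Real.iSup_nonneg fun i => w.nonneg _
  rw [← hA]
  refine Real.iSup_le (fun j => ?_) (by positivity)
  rw [MvPolynomial.aeval_def, MvPolynomial.eval₂_eq']
  refine (w.sum_le _ _).trans ?_
  have h1 : ∀ s ∈ (F j).support, w (algebraMap K L (MvPolynomial.coeff s (F j)) *
      ∏ i, x i ^ s i) ≤ A * (⨆ i, w (x i)) ^ e := by
    intro s hs
    rw [map_mul]
    exact mul_le_mul (hAo (some ⟨j, ⟨s, hs⟩⟩)) (mon_le w (deg_sum F hF j hs) x) (w.nonneg _) hA0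
  refine (Finset.sum_le_sum h1).trans ?_
  rw [Finset.sum_const, nsmul_eq_mul]
  refine mul_le_mul_of_nonneg_right ?_ (by positivity)
  unfold nm
  have h2 := Finset.single_le_sum (f := fun j => (F j).support.card)
    (fun _ _ => Nat.zero_le _) (Finset.mem_univ j)
  have h3 : (F j).support.card ≤ 1 + ∑ j, (F j).support.card := by
    refine le_trans h2 ?_
    omega
  exact_mod_cast h3

theorem nonarch_le {L : Type} [Field L] [Algebra K L] (w : AbsoluteValue L ℝ)
    (hw : IsNonarchimedean w) {e : ℕ}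
    (hF : ∀ j, (F j).IsHomogeneous e) (x : Fin (m + 1) → L) :
    (⨆ j, w (MvPolynomial.aeval x (F j))) ≤
      (⨆ o, w (algebraMap K L (co F o))) * (⨆ i, w (x i)) ^ e := by
  obtain ⟨A, hA⟩ : ∃ A : ℝ, A = ⨆ o, w (algebraMap K L (co F o)) := ⟨_, rfl⟩
  have hAo : ∀ o, w (algebraMap K L (co F o)) ≤ A := fun o => by
    rw [hA]
    exact le_ciSup (f := fun o => w (algebraMap K L (co F o))) (Set.finite_range _).bddAbove o
  have hA0 : 0 ≤ A := (w.nonneg _).trans (hAo none)
  have hN0 : 0 ≤ ⨆ i, w (x i) := Real.iSup_nonneg fun i => w.nonneg _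
  rw [← hA]
  refine Real.iSup_le (fun j => ?_) (by positivity)
  rw [MvPolynomial.aeval_def, MvPolynomial.eval₂_eq']
  refine (hw.apply_sum_le).trans ?_
  refine Real.iSup_le (fun s => ?_) (by positivity)
  rw [map_mul]
  exact mul_le_mul (hAo (some ⟨j, s⟩)) (mon_le w (deg_sum F hF j s.2) x) (w.nonneg _) hA0

/-- **the sum of the local heights over any set of places** -/
theorem weil {e : ℕ} (hF : ∀ j, (F j).IsHomogeneous e) : ∃ C : ℝ, 0 ≤ C ∧
    ∀ (L : Type) [Field L] [NumberField L] [Algebra K L] (x : Fin (m + 1) → L), x ≠ 0 →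
      (∃ j, MvPolynomial.aeval x (F j) ≠ 0) →
      ∀ (T₁ : Finset (InfinitePlace L)) (T₂ : Finset (FinitePlace L)),
        ∑ w ∈ T₁, (w.mult : ℝ) * localHeight F e x w + ∑ u ∈ T₂, localHeight F e x u ≤
          e * logHeight x + C * finrank K L := by
  classical
  have hM1 : (1 : ℝ) ≤ nm F := by
    unfold nm
    push_cast
    have : (0 : ℝ) ≤ ∑ j, ((F j).support.card : ℝ) := Finset.sum_nonneg fun _ _ =>
      Nat.cast_nonneg _
    linarith
  have hlM : 0 ≤ Real.log (nm F) := Real.log_nonneg hM1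
  refine ⟨logHeight (co F) + finrank ℚ K * Real.log (nm F),
    add_nonneg (logHeight_nonneg _) (by positivity), ?_⟩
  intro L _ _ _ x hx hne T₁ T₂
  obtain ⟨j0, hj0⟩ := hne
  obtain ⟨y, hy⟩ : ∃ y : Option (Σ j : Fin q, (F j).support) → L,
    y = fun o => algebraMap K L (co F o) := ⟨_, rfl⟩
  obtain ⟨z, hz⟩ : ∃ z : Fin q → L, z = fun j => MvPolynomial.aeval x (F j) := ⟨_, rfl⟩
  have hy1 : y none = 1 := by
    rw [hy]
    exact map_one _
  have hy0 : y ≠ 0 := by
    intro h
    rw [h] at hy1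
    exact zero_ne_one hy1
  have hz0 : z ≠ 0 := by
    intro h
    rw [hz] at h
    exact hj0 (congrFun h j0)
  obtain ⟨Sx, hSx⟩ := lh_sup hx
  obtain ⟨Sy, hSy⟩ := lh_sup hy0
  obtain ⟨Sz, hSz⟩ := lh_sup hz0
  obtain ⟨T, hT⟩ : ∃ T : Finset (FinitePlace L), T = T₂ ∪ (Sx ∪ (Sy ∪ Sz)) := ⟨_, rfl⟩
  have ex := hSx T (by rw [hT]; intro u hu; simp [hu])
  have ey := hSy T (by rw [hT]; intro u hu; simp [hu])
  have ez := hSz T (by rw [hT]; intro u hu; simp [hu])
  have hzn := logHeight_nonneg z
  -- the local inequalities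
  have hloc : ∀ w : AbsoluteValue L ℝ, localHeight F e x w =
      e * Real.log (⨆ i, w (x i)) - Real.log (⨆ j, w (z j)) := by
    intro w
    unfold localHeight
    rw [hz, Real.log_div (pow_pos (sup_pos w hx) e).ne'
      (by have := sup_pos w hz0; rw [hz] at this; exact this.ne'), Real.log_pow]
  have hly : ∀ w : AbsoluteValue L ℝ, 0 ≤ Real.log (⨆ o, w (y o)) := by
    intro w
    refine Real.log_nonneg ?_
    have h1 : w (y none) ≤ ⨆ o, w (y o) :=
      le_ciSup (f := fun o => w (y o)) (Set.finite_range _).bddAbove none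
    rw [hy1, map_one] at h1
    exact h1
  have harch : ∀ w : AbsoluteValue L ℝ, Real.log (⨆ j, w (z j)) ≤
      Real.log (nm F) + (Real.log (⨆ o, w (y o)) + e * Real.log (⨆ i, w (x i))) := by
    intro w
    have h1 := arch_le F w hF x
    have h2 := sup_pos w hx
    have h3 := sup_pos w hy0
    have h4 := sup_pos w hz0
    rw [hz] at h4 ⊢
    rw [hy] at h3 ⊢
    have h5 := Real.log_le_log h4 h1
    rw [Real.log_mul (by positivity) (by positivity), Real.log_mul (by positivity) (by positivity),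
      Real.log_pow] at h5
    exact h5
  have hnon : ∀ u : FinitePlace L, Real.log (⨆ j, u (z j)) ≤
      Real.log (⨆ o, u (y o)) + e * Real.log (⨆ i, u (x i)) := by
    intro u
    have h1 := nonarch_le F u.1 (FinitePlace.add_le u) hF x
    have h2 := sup_pos u.1 hx
    have h3 := sup_pos u.1 hy0
    have h4 := sup_pos u.1 hz0
    rw [hz] at h4 ⊢
    rw [hy] at h3 ⊢
    have h5 := Real.log_le_log h4 h1
    rw [Real.log_mul (by positivity) (by positivity), Real.log_pow] at h5
    exact h5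
  -- the infinite places
  have k1 : ∑ w ∈ T₁, (w.mult : ℝ) * localHeight F e x w ≤
      ∑ w : InfinitePlace L, (w.mult : ℝ) * (Real.log (nm F) + Real.log (⨆ o, w (y o)) +
        e * Real.log (⨆ i, w (x i)) - Real.log (⨆ j, w (z j))) := by
    refine le_trans (Finset.sum_le_sum (g := fun w : InfinitePlace L => (w.mult : ℝ) *
      (Real.log (nm F) + Real.log (⨆ o, w (y o)) +
        e * Real.log (⨆ i, w (x i)) - Real.log (⨆ j, w (z j)))) fun w _ => ?_)
      (Finset.sum_le_sum_of_subset_of_nonneg (Finset.subset_univ _) fun w _ _ => ?_)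
    · refine mul_le_mul_of_nonneg_left ?_ (Nat.cast_nonneg _)
      have h1 := hloc w.1
      have h2 := hly w.1
      have h3 : localHeight F e x w = localHeight F e x w.1 := rfl
      rw [h3, h1]
      have h4 : (⨆ i, w (x i)) = ⨆ i, w.1 (x i) := rfl
      have h5 : (⨆ i, w (y i)) = ⨆ i, w.1 (y i) := rfl
      have h6 : (⨆ i, w (z i)) = ⨆ i, w.1 (z i) := rfl
      rw [h4, h5, h6]
      linarith
    · refine mul_nonneg (Nat.cast_nonneg _) ?_
      have h2 := harch w.1
      have h4 : (⨆ i, w (x i)) = ⨆ i, w.1 (x i) := rfl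
      have h5 : (⨆ i, w (y i)) = ⨆ i, w.1 (y i) := rfl
      have h6 : (⨆ i, w (z i)) = ⨆ i, w.1 (z i) := rfl
      rw [h4, h5, h6]
      linarith
  have k2 : ∑ u ∈ T₂, localHeight F e x u ≤ ∑ u ∈ T, (Real.log (⨆ o, u (y o)) +
        e * Real.log (⨆ i, u (x i)) - Real.log (⨆ j, u (z j))) := by
    refine le_trans (Finset.sum_le_sum (g := fun u : FinitePlace L =>
      (Real.log (⨆ o, u (y o)) + e * Real.log (⨆ i, u (x i)) - Real.log (⨆ j, u (z j))))
      fun u _ => ?_)
      (Finset.sum_le_sum_of_subset_of_nonneg (by rw [hT]; exact Finset.subset_union_left)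
        fun u _ _ => ?_)
    · have h1 := hloc u.1
      have h2 := hly u.1
      have h3 : localHeight F e x u = localHeight F e x u.1 := rfl
      rw [h3, h1]
      have h4 : (⨆ i, u (x i)) = ⨆ i, u.1 (x i) := rfl
      have h5 : (⨆ i, u (y i)) = ⨆ i, u.1 (y i) := rfl
      have h6 : (⨆ i, u (z i)) = ⨆ i, u.1 (z i) := rfl
      rw [h4, h5, h6]
      linarith
    · have h2 := hnon u
      linarith
  have k3 : ∑ w : InfinitePlace L, (w.mult : ℝ) * (Real.log (nm F) + Real.log (⨆ o, w (y o)) +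
        e * Real.log (⨆ i, w (x i)) - Real.log (⨆ j, w (z j))) +
      ∑ u ∈ T, (Real.log (⨆ o, u (y o)) +
        e * Real.log (⨆ i, u (x i)) - Real.log (⨆ j, u (z j))) =
      finrank ℚ L * Real.log (nm F) + logHeight y + e * logHeight x - logHeight z := by
    rw [ex, ey, ez]
    have h1 : (finrank ℚ L : ℝ) = ∑ w : InfinitePlace L, (w.mult : ℝ) := by
      rw [← InfinitePlace.sum_mult_eq]
      push_cast
      rfl
    rw [h1, Finset.sum_mul, mul_add, Finset.mul_sum, Finset.mul_sum]
    simp only [mul_add, mul_sub, Finset.sum_add_distrib, Finset.sum_sub_distrib]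
    have h2 : ∑ w : InfinitePlace L, (w.mult : ℝ) * (e * Real.log (⨆ i, w (x i))) =
        ∑ w : InfinitePlace L, (e : ℝ) * (w.mult * Real.log (⨆ i, w (x i))) :=
      Finset.sum_congr rfl fun w _ => by ring
    rw [h2]
    ring
  have k4 : logHeight y = finrank K L * logHeight (co F) := by
    rw [hy]
    exact Pool.Agent.Helper259.HtExt.logHeight_ext (co F)
  have k5 : (finrank ℚ L : ℝ) = finrank ℚ K * finrank K L := by
    exact_mod_cast (finrank_mul_finrank ℚ K L).symm
  rw [k4, k5] at k3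
  linarith

end weil

end Pool.Agent.V8H3.Gen
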