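import Mathlib
import Pool.Agent.V8H3.GenB
import Pool.Agent.V8H3.GenG
import Pool.Agent.V8H3.GenI

/-!
# Almost all points of bounded degree have large discriminant
-/

set_option autoImplicit false

namespace Pool.Agent.V8H3.Gen

open NumberField Module Height

/-- the points of `S` of degree at most `r` and height at most `U` -/
def upTo {K : Type} [Field K] [NumberField K] {m : ℕ} (S : Set (Pt K m)) (r : ℕ) (U : ℝ) :
    Set (Pt K m) := {x | x ∈ S ∧ degree x ≤ r ∧ height x ≤ U}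

theorem upTo_finite {K : Type} [Field K] [NumberField K] {m : ℕ} (S : Set (Pt K m)) (r : ℕ)
    (U : ℝ) : (upTo S r U).Finite :=
  (fin_deg (K := K) (m := m) r U).subset fun _ hx => hx.2

/-- a bound for the exponents of the numbers of fields -/
theorem exps : ∃ (e : ℕ → ℝ) (a : ℝ), 0 < a ∧ (∀ n, 0 ≤ e n) ∧
    (∀ r : ℕ, 3 ≤ r → ∀ j ≤ r, e j ≤ a * (Real.log r) ^ 2) ∧
    ∀ (K : Type) [Field K] [NumberField K] (m j : ℕ), 1 ≤ j → ∀ G ν : ℝ, 0 ≤ G → 0 < ν →
      ∃ C : ℝ, 0 < C ∧ ∀ U : ℝ, 0 ≤ U →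
        {x : Pt K m | degree x = j ∧ height x ≤ U ∧ logDisc x < G * height x}.Finite ∧
        ({x : Pt K m | degree x = j ∧ height x ≤ U ∧ logDisc x < G * height x}.ncard : ℝ) ≤
          C * Real.exp (j * (G * e j + (2 + ν) * m) * U) := by
  obtain ⟨e, he1, he2, he3⟩ := few
  have h1 : 1 / (8 * (Real.log 2) ^ 2) < 1 := by
    have h2 : 0.6931471803 < Real.log 2 := Real.log_two_gt_d9
    rw [div_lt_one (by positivity)]
    nlinarith
  obtain ⟨n0, hn0⟩ := Filter.eventually_atTop.1 (he1 1 h1)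
  obtain ⟨E0, hE0⟩ : ∃ E0 : ℝ, E0 = ∑ j ∈ Finset.range n0, e j := ⟨_, rfl⟩
  have hE00 : 0 ≤ E0 := hE0 ▸ Finset.sum_nonneg fun j _ => he2 j
  refine ⟨e, E0 + 1, by linarith, he2, ?_, he3⟩
  intro r hr j hj
  have hr3 : (3 : ℝ) ≤ r := by exact_mod_cast hr
  have hlog : 1 ≤ Real.log r := by
    rw [Real.le_log_iff_exp_le (by linarith)]
    have := Real.exp_one_lt_d9
    linarith
  have hlog2 : 1 ≤ (Real.log r) ^ 2 := by nlinarith
  rcases lt_or_ge j n0 with h | h
  · have h3 : e j ≤ E0 := by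
      rw [hE0]
      exact Finset.single_le_sum (f := e) (fun i _ => he2 i) (Finset.mem_range.2 h)
    nlinarith
  · have h3 := hn0 j h
    rw [one_mul] at h3
    have h4 : (Real.log j) ^ 2 ≤ (Real.log r) ^ 2 := by
      refine pow_le_pow_left₀ (Real.log_natCast_nonneg j) ?_ 2
      rcases Nat.eq_zero_or_pos j with h0 | h0
      · rw [h0, Nat.cast_zero, Real.log_zero]
        linarith
      · exact Real.log_le_log (by exact_mod_cast h0) (by exact_mod_cast hj)
    nlinarith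

/-- the comparison of the two numbers -/
theorem ratio {K : Type} [Field K] [NumberField K] {m : ℕ} {γ : ℝ} (hγ : 0 < γ) (r₀ : ℕ) :
    ∃ δ : ℝ, 0 < δ ∧ ∃ r₁ : ℕ, ∀ (S : Set (Pt K m)), (∀ r : ℕ, r₀ ≤ r → ∃ c U₀ : ℝ, 0 < c ∧
      ∀ U : ℝ, U₀ ≤ U → c * Real.exp (γ * (r : ℝ) ^ 2 * U) ≤ ((upTo S r U).ncard : ℝ)) →
      ∀ r : ℕ, r₁ ≤ r → ∃ C : ℝ, 0 < C ∧
        (∀ U : ℝ, C ≤ U → Real.exp (δ * (r : ℝ) ^ 2 * U) ≤ ((upTo S r U).ncard : ℝ)) ∧
        ∀ U : ℝ, 0 ≤ U →
          ((upTo (S ∩ {x | logDisc x < δ * r / (Real.log r) ^ 2 * height x}) r U).ncard : ℝ) ≤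
            C * Real.exp (-(δ * (r : ℝ) ^ 2 * U)) * ((upTo S r U).ncard : ℝ) := by
  classical
  obtain ⟨e, a, ha, he0, hea, hfew⟩ := exps
  obtain ⟨δ, hδ⟩ : ∃ δ : ℝ, δ = γ / (2 * (a + 1)) := ⟨_, rfl⟩
  have hδ0 : 0 < δ := by rw [hδ]; positivity
  obtain ⟨r₂, hr₂⟩ := exists_nat_ge (6 * m / γ)
  refine ⟨δ, hδ0, max (max r₀ 3) r₂, fun S hS r hr => ?_⟩
  have hr0 : r₀ ≤ r := ((le_max_left _ _).trans (le_max_left _ _)).trans hr
  have hr3 : 3 ≤ r := ((le_max_right _ _).trans (le_max_left _ _)).trans hr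
  have hr6 : 6 * m / γ ≤ r := hr₂.trans (by exact_mod_cast (le_max_right _ _).trans hr)
  have hr3' : (3 : ℝ) ≤ r := by exact_mod_cast hr3
  have hlog : 1 ≤ Real.log r := by
    rw [Real.le_log_iff_exp_le (by linarith)]
    have := Real.exp_one_lt_d9
    linarith
  have hlog2 : 0 < (Real.log r) ^ 2 := by positivity
  obtain ⟨c, U₀, hc, hlow⟩ := hS r hr0
  obtain ⟨G, hG⟩ : ∃ G : ℝ, G = δ * r / (Real.log r) ^ 2 := ⟨_, rfl⟩
  have hG0 : 0 ≤ G := by rw [hG]; positivity
  choose C' hC' hfew' using fun j : ℕ => hfew K m (j + 1) (by omega) G 1 hG0 one_pos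
  -- the exponents
  have hexp : ∀ j ∈ Finset.range r, ((j + 1 : ℕ) : ℝ) * (G * e (j + 1) + (2 + 1) * m) ≤
      (γ - δ) * (r : ℝ) ^ 2 := by
    intro j hj
    have hj' : j + 1 ≤ r := Finset.mem_range.1 hj
    have h1 : ((j + 1 : ℕ) : ℝ) ≤ r := by exact_mod_cast hj'
    have h2 : G * e (j + 1) ≤ δ * r * a := by
      have h3 := mul_le_mul_of_nonneg_left (hea r hr3 (j + 1) hj') hG0
      refine h3.trans (le_of_eq ?_)
      rw [hG]
      field_simp
    have h4 : 0 ≤ G * e (j + 1) + (2 + 1) * m := by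
      have := mul_nonneg hG0 (he0 (j + 1))
      positivity
    have h5 : ((j + 1 : ℕ) : ℝ) * (G * e (j + 1) + (2 + 1) * m) ≤ r * (δ * r * a + 3 * m) := by
      refine mul_le_mul h1 (by linarith) h4 (by linarith)
    refine h5.trans ?_
    have h6 : 6 * (m : ℝ) ≤ γ * r := by
      rw [div_le_iff₀ hγ] at hr6
      linarith
    have h7 : δ * (a + 1) = γ / 2 := by
      rw [hδ]
      field_simp
    nlinarith
  obtain ⟨C1, hC1⟩ : ∃ C1 : ℝ, C1 = ∑ j ∈ Finset.range r, C' j := ⟨_, rfl⟩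
  have hC10 : 0 ≤ C1 := hC1 ▸ Finset.sum_nonneg fun j _ => (hC' j).le
  -- the points with small discriminant
  have hbad : ∀ U : ℝ, 0 ≤ U →
      ((upTo (S ∩ {x | logDisc x < G * height x}) r U).ncard : ℝ) ≤
        C1 * Real.exp ((γ - δ) * (r : ℝ) ^ 2 * U) := by
    intro U hU
    have hsub : upTo (S ∩ {x | logDisc x < G * height x}) r U ⊆
        ⋃ j ∈ Finset.range r, {x : Pt K m | degree x = j + 1 ∧ height x ≤ U ∧
          logDisc x < G * height x} := by
      rintro x ⟨⟨-, h1⟩, h2, h3⟩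
      rw [Set.mem_iUnion₂]
      have h4 := degree_pos x
      exact ⟨degree x - 1, Finset.mem_range.2 (by omega), by omega, h3, h1⟩
    have hfin : (⋃ j ∈ Finset.range r, {x : Pt K m | degree x = j + 1 ∧ height x ≤ U ∧
          logDisc x < G * height x}).Finite :=
      Set.Finite.biUnion (Finset.finite_toSet _) fun j _ => (hfew' j U hU).1
    have h1 := Set.ncard_le_ncard hsub hfin
    have h2 := Finset.set_ncard_biUnion_le (Finset.range r) fun j =>
      {x : Pt K m | degree x = j + 1 ∧ height x ≤ U ∧ logDisc x < G * height x}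
    have h3 : ((upTo (S ∩ {x | logDisc x < G * height x}) r U).ncard : ℝ) ≤
        ∑ j ∈ Finset.range r, (({x : Pt K m | degree x = j + 1 ∧ height x ≤ U ∧
          logDisc x < G * height x}.ncard : ℕ) : ℝ) := by
      exact_mod_cast h1.trans h2
    refine h3.trans ?_
    rw [hC1, Finset.sum_mul]
    refine Finset.sum_le_sum fun j hj => ?_
    refine ((hfew' j U hU).2).trans ?_
    refine mul_le_mul_of_nonneg_left (Real.exp_le_exp.2 ?_) (hC' j).le
    exact mul_le_mul_of_nonneg_right (hexp j hj) hU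
  obtain ⟨C2, hC2⟩ : ∃ C2 : ℝ, C2 = |U₀| + |Real.log c| / ((γ - δ) * (r : ℝ) ^ 2) := ⟨_, rfl⟩
  have hγδ : 0 < γ - δ := by
    rw [hδ]
    have : γ / (2 * (a + 1)) < γ := by
      rw [div_lt_iff₀ (by positivity)]
      nlinarith
    linarith
  have hr2 : (0 : ℝ) < (r : ℝ) ^ 2 := by positivity
  refine ⟨max (max (C1 / c) (Real.exp (δ * (r : ℝ) ^ 2 * |U₀|))) (C2 + 1), ?_, ?_, ?_⟩
  · exact lt_of_lt_of_le (lt_of_lt_of_le (Real.exp_pos _) (le_max_right _ _)) (le_max_left _ _)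
  · intro U hU
    have hU2 : C2 ≤ U := by
      have := (le_max_right (max (C1 / c) (Real.exp (δ * (r : ℝ) ^ 2 * |U₀|))) (C2 + 1)).trans hU
      linarith
    have h1 : |Real.log c| / ((γ - δ) * (r : ℝ) ^ 2) ≤ U := by
      have := abs_nonneg U₀
      linarith
    have hU0 : U₀ ≤ U := by
      have h2 : 0 ≤ |Real.log c| / ((γ - δ) * (r : ℝ) ^ 2) := by positivity
      have := le_abs_self U₀
      linarith
    refine le_trans ?_ (hlow U hU0)
    rw [div_le_iff₀ (by positivity)] at h1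
    have h3 : -Real.log c ≤ |Real.log c| := neg_le_abs _
    have h4 : Real.exp (-(U * ((γ - δ) * (r : ℝ) ^ 2))) ≤ c := by
      rw [← Real.exp_log hc]
      refine Real.exp_le_exp.2 ?_
      linarith
    calc Real.exp (δ * (r : ℝ) ^ 2 * U) =
          Real.exp (-(U * ((γ - δ) * (r : ℝ) ^ 2))) * Real.exp (γ * (r : ℝ) ^ 2 * U) := by
          rw [← Real.exp_add]
          congr 1
          ring
      _ ≤ c * Real.exp (γ * (r : ℝ) ^ 2 * U) :=
          mul_le_mul_of_nonneg_right h4 (Real.exp_pos _).le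
  · intro U hU
    rw [← hG]
    have hsub : upTo (S ∩ {x | logDisc x < G * height x}) r U ⊆ upTo S r U := by
      rintro x ⟨⟨h0, -⟩, h2, h3⟩
      exact ⟨h0, h2, h3⟩
    rcases lt_or_ge U U₀ with h | h
    · have h1 : ((upTo (S ∩ {x | logDisc x < G * height x}) r U).ncard : ℝ) ≤
          ((upTo S r U).ncard : ℝ) := by
        exact_mod_cast Set.ncard_le_ncard hsub (upTo_finite S r U)
      have h2 : 1 ≤ max (max (C1 / c) (Real.exp (δ * (r : ℝ) ^ 2 * |U₀|))) (C2 + 1) *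
          Real.exp (-(δ * (r : ℝ) ^ 2 * U)) := by
        calc (1 : ℝ) = Real.exp (δ * (r : ℝ) ^ 2 * U) * Real.exp (-(δ * (r : ℝ) ^ 2 * U)) := by
              rw [← Real.exp_add, add_neg_cancel, Real.exp_zero]
          _ ≤ Real.exp (δ * (r : ℝ) ^ 2 * |U₀|) * Real.exp (-(δ * (r : ℝ) ^ 2 * U)) := by
              refine mul_le_mul_of_nonneg_right (Real.exp_le_exp.2 ?_) (Real.exp_pos _).le
              refine mul_le_mul_of_nonneg_left (h.le.trans (le_abs_self _)) (by positivity)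
          _ ≤ _ := by
              refine mul_le_mul_of_nonneg_right ?_ (Real.exp_pos _).le
              exact (le_max_right _ _).trans (le_max_left _ _)
      have h3 : (0 : ℝ) ≤ ((upTo S r U).ncard : ℝ) := Nat.cast_nonneg _
      nlinarith
    · have h1 := hlow U h
      have h2 := hbad U hU
      have h3 : C1 * Real.exp ((γ - δ) * (r : ℝ) ^ 2 * U) =
          (C1 / c) * Real.exp (-(δ * (r : ℝ) ^ 2 * U)) *
            (c * Real.exp (γ * (r : ℝ) ^ 2 * U)) := by
        have h4 : Real.exp ((γ - δ) * (r : ℝ) ^ 2 * U) =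
            Real.exp (-(δ * (r : ℝ) ^ 2 * U)) * Real.exp (γ * (r : ℝ) ^ 2 * U) := by
          rw [← Real.exp_add]
          congr 1
          ring
        rw [h4]
        field_simp
      refine h2.trans ?_
      rw [h3]
      refine mul_le_mul ?_ h1 (by positivity) (by positivity)
      refine mul_le_mul_of_nonneg_right ?_ (Real.exp_pos _).le
      exact (le_max_left _ _).trans (le_max_left _ _)

end Pool.Agent.V8H3.Gen
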