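import Mathlib
import Pool.Agent.V8H3.GenJ

/-!
# Vojta's inequality for almost all points of bounded degree on every variety
-/

set_option autoImplicit false

namespace Pool.Agent.V8H3.Gen

open NumberField Module Height

/-- the local heights at the places in `T₁` and `T₂` -/
noncomputable def proximity {K : Type} [Field K] [NumberField K] {m q : ℕ}
    (F : Fin q → MvPolynomial (Fin (m + 1)) K) (e : ℕ) (x : Pt K m)
    (T₁ : Finset (InfinitePlace (fld x))) (T₂ : Finset (FinitePlace (fld x))) : ℝ :=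
  (∑ w ∈ T₁, (w.mult : ℝ) * localHeight F e (coord x) w +
    ∑ u ∈ T₂, localHeight F e (coord x) u) / finrank K (fld x)

/-- the points in `B` are rare among the points of `S` of degree at most `r` -/
def Rare {K : Type} [Field K] [NumberField K] {m : ℕ} (δ : ℝ) (S B : Set (Pt K m)) (r : ℕ) :
    Prop := ∃ C : ℝ, 0 < C ∧ ∀ U : ℝ, 0 ≤ U → ((upTo (S ∩ B) r U).ncard : ℝ) ≤
      C * Real.exp (-(δ * (r : ℝ) ^ 2 * U)) * ((upTo S r U).ncard : ℝ)

theorem Rare.mono {K : Type} [Field K] [NumberField K] {m : ℕ} {δ : ℝ} {S B B' : Set (Pt K m)}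
    {r : ℕ} (h : Rare δ S B r) (hB : B' ⊆ B) : Rare δ S B' r := by
  obtain ⟨C, hC, h1⟩ := h
  refine ⟨C, hC, fun U hU => le_trans ?_ (h1 U hU)⟩
  have h2 : upTo (S ∩ B') r U ⊆ upTo (S ∩ B) r U := fun x hx => ⟨⟨hx.1.1, hB hx.1.2⟩, hx.2⟩
  exact_mod_cast Set.ncard_le_ncard h2 (upTo_finite (S ∩ B) r U)

/-- the trivial bound for the proximity function -/
theorem prox_le {K : Type} [Field K] [NumberField K] {m q : ℕ}
    (F : Fin q → MvPolynomial (Fin (m + 1)) K) (e : ℕ) (hF : ∀ j, (F j).IsHomogeneous e) :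
    ∃ C : ℝ, 0 ≤ C ∧ ∀ x : Pt K m, (∃ j, MvPolynomial.aeval x.rep (F j) ≠ 0) →
      ∀ (T₁ : Finset (InfinitePlace (fld x))) (T₂ : Finset (FinitePlace (fld x))),
        proximity F e x T₁ T₂ ≤ e * height x + C := by
  obtain ⟨C, hC, h⟩ := weil F hF
  refine ⟨C, hC, fun x hx T₁ T₂ => ?_⟩
  have h0 : (0 : ℝ) < finrank K (fld x) := by exact_mod_cast degree_pos x
  have h1 : ∃ j, MvPolynomial.aeval (coord x) (F j) ≠ 0 := by
    obtain ⟨j, hj⟩ := hx
    refine ⟨j, fun h2 => hj ?_⟩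
    have h3 : ((MvPolynomial.aeval (coord x) (F j) : fld x) : AlgebraicClosure K) =
        MvPolynomial.aeval (fun i => x.rep i / x.rep (idx x)) (F j) := by
      have h4 : (fld x).val.comp (MvPolynomial.aeval (coord x)) =
          MvPolynomial.aeval (fun i => x.rep i / x.rep (idx x)) := by
        apply MvPolynomial.algHom_ext
        intro l
        rw [AlgHom.comp_apply, MvPolynomial.aeval_X, MvPolynomial.aeval_X]
        rfl
      rw [← h4]
      rfl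
    rw [h2] at h3
    have h5 : x.rep = x.rep (idx x) • fun i => x.rep i / x.rep (idx x) := by
      funext i
      rw [Pi.smul_apply, smul_eq_mul, mul_div_cancel₀ _ (idx_ne x)]
    rw [h5, aeval_smul (hF j), ← h3]
    simp
  have h2 := h (fld x) (coord x) (coord_ne_zero x) h1 T₁ T₂
  unfold proximity height
  rw [div_le_iff₀ h0, add_mul, mul_assoc, div_mul_cancel₀ _ h0.ne']
  exact h2

theorem final (K : Type) [Field K] [NumberField K] (m : ℕ)
    (I : Set (MvPolynomial (Fin (m + 1)) K)) (hI : ∀ p ∈ I, ∃ n, p.IsHomogeneous n)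
    (hX : (variety K m I).Infinite) :
    ∃ (δ : ℝ) (r₁ : ℕ) (N : Fin (m + 1) → ℕ), 0 < δ ∧ (∀ i, 1 ≤ N i) ∧
      ∀ S : Set (Pt K m), (S = variety K m I ∨ ∃ (i : Fin (m + 1)) (n : ℕ), n ≠ 0 ∧
          {x | x ∈ variety K m I ∧ x.rep i ≠ 0}.Infinite ∧ S = intPts K m I i (n * N i)) →
      (∀ r : ℕ, r₁ ≤ r → (∃ C : ℝ, ∀ U : ℝ, C ≤ U →
          Real.exp (δ * (r : ℝ) ^ 2 * U) ≤ ((upTo S r U).ncard : ℝ)) ∧
        Rare δ S {x | logDisc x < δ * r / (Real.log r) ^ 2 * height x} r) ∧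
      ∀ (q e : ℕ) (F : Fin q → MvPolynomial (Fin (m + 1)) K), (∀ j, (F j).IsHomogeneous e) →
        ∀ κ : ℝ, ∃ B : ℝ, ∀ r : ℕ, r₁ ≤ r → (κ + e) * (Real.log r) ^ 2 ≤ δ * r →
          Rare δ S {x | (∃ j, MvPolynomial.aeval x.rep (F j) ≠ 0) ∧
            ∃ (T₁ : Finset (InfinitePlace (fld x))) (T₂ : Finset (FinitePlace (fld x))),
              logDisc x + B < κ * height x + proximity F e x T₁ T₂} r := by
  classical
  -- the charts
  have hch : ∀ i : Fin (m + 1), ∃ (k : ℕ) (D : ℝ) (N : ℕ), 0 ≤ D ∧ 1 ≤ N ∧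
      ({x | x ∈ variety K m I ∧ x.rep i ≠ 0}.Infinite → ∀ a : ℕ, 1 ≤ a →
      (∃ c U₀ : ℝ, 0 < c ∧ ∀ U : ℝ, U₀ ≤ U → ∃ T : Finset (Pt K m),
        (∀ x ∈ T, x ∈ variety K m I ∧ degree x ≤ k * a ∧ height x ≤ U) ∧
        c * Real.exp (a * (a + 1) / (D + 1) * U) ≤ T.card) ∧
      (∃ c U₀ : ℝ, 0 < c ∧ ∀ U : ℝ, U₀ ≤ U → ∃ T : Finset (Pt K m),
        (∀ x ∈ T, x ∈ intPts K m I i N ∧ degree x ≤ k * a ∧ height x ≤ U) ∧
        c * Real.exp (a * (a / finrank ℚ K) / (D + 1) * U) ≤ T.card)) := by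
    intro i
    by_cases hi : {x | x ∈ variety K m I ∧ x.rep i ≠ 0}.Infinite
    · obtain ⟨k, D, N, hD, hN, h⟩ := many I hI i hi
      exact ⟨k, D, N, hD, hN, fun _ => h⟩
    · exact ⟨0, 0, 1, le_rfl, le_rfl, fun h => absurd h hi⟩
  choose k D N hD hN hmany using hch
  obtain ⟨i₀, hi₀⟩ : ∃ i, {x | x ∈ variety K m I ∧ x.rep i ≠ 0}.Infinite := by
    by_contra hcon
    push Not at hcon
    apply hX
    refine (Set.finite_iUnion hcon).subset ?_
    intro x hx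
    obtain ⟨i, hi⟩ := exists_idx x
    exact Set.mem_iUnion.2 ⟨i, hx, hi⟩
  obtain ⟨k', hk'⟩ : ∃ k' : ℕ, k' = ∑ i, k i + 1 := ⟨_, rfl⟩
  obtain ⟨D', hD'⟩ : ∃ D' : ℝ, D' = ∑ i, D i := ⟨_, rfl⟩
  have hk1 : 1 ≤ k' := by omega
  have hki : ∀ i, k i ≤ k' := by
    intro i
    have := Finset.single_le_sum (f := k) (fun _ _ => Nat.zero_le _) (Finset.mem_univ i)
    omega
  have hDi : ∀ i, D i ≤ D' := by
    intro i
    rw [hD']
    exact Finset.single_le_sum (f := D) (fun i _ => hD i) (Finset.mem_univ i)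
  have hD'0 : 0 ≤ D' := (hD i₀).trans (hDi i₀)
  obtain ⟨d, hd⟩ : ∃ d : ℝ, d = (finrank ℚ K : ℝ) := ⟨_, rfl⟩
  have hd1 : 1 ≤ d := by
    rw [hd]
    exact_mod_cast (finrank_pos : 0 < finrank ℚ K)
  have hkr : (1 : ℝ) ≤ k' := by exact_mod_cast hk1
  obtain ⟨γ, hγ⟩ : ∃ γ : ℝ, γ = 1 / (4 * (k' : ℝ) ^ 2 * d * (D' + 1)) := ⟨_, rfl⟩
  have hγ0 : 0 < γ := by
    rw [hγ]
    positivity
  obtain ⟨δ, hδ, r₁, hratio⟩ := ratio (K := K) (m := m) hγ0 k'
  -- the number of all points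
  have hlow : ∀ S : Set (Pt K m), (S = variety K m I ∨ ∃ (i : Fin (m + 1)) (n : ℕ), n ≠ 0 ∧
      {x | x ∈ variety K m I ∧ x.rep i ≠ 0}.Infinite ∧ S = intPts K m I i (n * N i)) →
      ∀ r : ℕ, k' ≤ r → ∃ c U₀ : ℝ, 0 < c ∧
      ∀ U : ℝ, U₀ ≤ U → c * Real.exp (γ * (r : ℝ) ^ 2 * U) ≤ ((upTo S r U).ncard : ℝ) := by
    intro S hS r hr
    obtain ⟨a, ha⟩ : ∃ a : ℕ, a = r / k' := ⟨_, rfl⟩
    have ha1 : 1 ≤ a := by
      rw [ha]
      exact (Nat.one_le_div_iff hk1).2 hr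
    have hka : k' * a ≤ r := by
      rw [ha]
      exact Nat.mul_div_le r k'
    have hra : (r : ℝ) ≤ 2 * k' * a := by
      have h1 : r < k' * (a + 1) := by
        rw [ha]
        exact Nat.lt_mul_div_succ r hk1
      have h2 : r ≤ 2 * k' * a := by nlinarith
      exact_mod_cast h2
    have hγa : ∀ i, γ * (r : ℝ) ^ 2 ≤ a * (a / d) / (D i + 1) := by
      intro i
      have hDi0 := hD i
      have h1 : (r : ℝ) ^ 2 ≤ (2 * k' * a) ^ 2 := pow_le_pow_left₀ (Nat.cast_nonneg _) hra 2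
      have h2 : γ * (r : ℝ) ^ 2 ≤ γ * (2 * k' * a) ^ 2 := mul_le_mul_of_nonneg_left h1 hγ0.le
      refine h2.trans ?_
      rw [hγ]
      have h3 : 1 / (4 * (k' : ℝ) ^ 2 * d * (D' + 1)) * (2 * k' * a) ^ 2 =
          a * (a / d) / (D' + 1) := by
        field_simp
        ring
      rw [h3]
      exact div_le_div_of_nonneg_left (by positivity) (by linarith) (by linarith [hDi i])
    rcases hS with hS | ⟨i, n, hn, hi, hS⟩
    · obtain ⟨c, U₀, hc, h⟩ := (hmany i₀ hi₀ a ha1).1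
      refine ⟨c, max U₀ 0, hc, fun U hU => ?_⟩
      obtain ⟨T, hT1, hT2⟩ := h U ((le_max_left _ _).trans hU)
      have hU0 : 0 ≤ U := (le_max_right _ _).trans hU
      have h1 : (T.card : ℝ) ≤ ((upTo S r U).ncard : ℝ) := by
        rw [← Set.ncard_coe_finset]
        have h2 : (T : Set (Pt K m)) ⊆ upTo S r U := by
          intro x hx
          obtain ⟨h3, h4, h5⟩ := hT1 x (Finset.mem_coe.1 hx)
          refine ⟨hS ▸ h3, ?_, h5⟩
          have h6 : k i₀ * a ≤ k' * a := Nat.mul_le_mul_right a (hki i₀)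
          omega
        exact_mod_cast Set.ncard_le_ncard h2 (upTo_finite S r U)
      refine le_trans (le_trans ?_ hT2) h1
      refine mul_le_mul_of_nonneg_left (Real.exp_le_exp.2 ?_) hc.le
      refine mul_le_mul_of_nonneg_right ((hγa i₀).trans ?_) hU0
      have h3 := hD i₀
      refine div_le_div_of_nonneg_right ?_ (by linarith)
      refine mul_le_mul_of_nonneg_left ?_ (Nat.cast_nonneg _)
      have h4 : (a : ℝ) / d ≤ a := div_le_self (Nat.cast_nonneg _) hd1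
      linarith
    · obtain ⟨c, U₀, hc, h⟩ := (hmany i hi a ha1).2
      refine ⟨c, max U₀ 0, hc, fun U hU => ?_⟩
      obtain ⟨T, hT1, hT2⟩ := h U ((le_max_left _ _).trans hU)
      have hU0 : 0 ≤ U := (le_max_right _ _).trans hU
      have h1 : (T.card : ℝ) ≤ ((upTo S r U).ncard : ℝ) := by
        rw [← Set.ncard_coe_finset]
        have h2 : (T : Set (Pt K m)) ⊆ upTo S r U := by
          intro x hx
          obtain ⟨h3, h4, h5⟩ := hT1 x (Finset.mem_coe.1 hx)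
          refine ⟨?_, ?_, h5⟩
          · rw [hS]
            obtain ⟨g1, g2, g3⟩ := h3
            refine ⟨g1, g2, fun l => ?_⟩
            rw [Nat.cast_mul, mul_assoc]
            exact (isIntegral_natCast (R := ℤ) n).mul (g3 l)
          · have h6 : k i * a ≤ k' * a := Nat.mul_le_mul_right a (hki i)
            omega
        exact_mod_cast Set.ncard_le_ncard h2 (upTo_finite S r U)
      refine le_trans (le_trans ?_ hT2) h1
      refine mul_le_mul_of_nonneg_left (Real.exp_le_exp.2 ?_) hc.le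
      refine mul_le_mul_of_nonneg_right ?_ hU0
      rw [← hd]
      exact hγa i
  refine ⟨δ, max r₁ 3, N, hδ, hN, fun S hS => ?_⟩
  have hmain : ∀ r : ℕ, max r₁ 3 ≤ r → (∃ C : ℝ, ∀ U : ℝ, C ≤ U →
      Real.exp (δ * (r : ℝ) ^ 2 * U) ≤ ((upTo S r U).ncard : ℝ)) ∧
      Rare δ S {x | logDisc x < δ * r / (Real.log r) ^ 2 * height x} r := by
    intro r hr
    obtain ⟨C, hC, h1, h2⟩ := hratio S (hlow S hS) r ((le_max_left _ _).trans hr)
    exact ⟨⟨C, h1⟩, C, hC, h2⟩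
  refine ⟨hmain, ?_⟩
  intro q e F hF κ
  obtain ⟨B, hB0, hB⟩ := prox_le F e hF
  refine ⟨B, fun r hr hκ => ?_⟩
  refine (hmain r hr).2.mono ?_
  rintro x ⟨hx, T₁, T₂, h1⟩
  have h2 := hB x hx T₁ T₂
  have hr3 : (3 : ℝ) ≤ r := by exact_mod_cast (le_max_right _ _).trans hr
  have hlog : 0 < Real.log r := Real.log_pos (by linarith)
  have h3 : κ + e ≤ δ * r / (Real.log r) ^ 2 := by
    rw [le_div_iff₀ (by positivity)]
    exact hκ
  have h4 := mul_le_mul_of_nonneg_right h3 (height_nonneg x)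
  show logDisc x < δ * r / (Real.log r) ^ 2 * height x
  linarith

end Pool.Agent.V8H3.Gen
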